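import Mathlib

/-!
# Block UP-F10: `m` forms in `m + 1` variables have a common zero

PROOF. Suppose not. By the Nullstellensatz (`MvPolynomial.vanishingIdeal_zeroLocus_eq_radical`) the maximal ideal `𝔪 = (X_0, ..., X_m)` is contained in the radical of `I = span (range φ)`, and `I ⊆ 𝔪` (the forms have positive degree, no
constant term), so `𝔪` is a minimal prime of `I`, and Krull's height theorem (`Ideal.height_le_spanFinrank` / `Ideal.height_le_spanRank_toENat_of_mem_minimalPrimes`, `Mathlib/RingTheory/Ideal/KrullsHeightTheorem.lean`)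
gives `height 𝔪 ≤ m`. But `height 𝔪 ≥ m + 1`: the chain of the prime ideals `(X_0, ..., X_{j-1})`, `j = 0, ..., m + 1` (or: `𝔪` is maximal in a polynomial ring over a field, whose maximal ideals have height equal to the number of variables;
`MvPolynomial.ringKrullDim...`, `MvPolynomial.height_...`).
-/

namespace Pool.Agent.Helper16.UP

/-- set the first `j` variables to zero -/
private noncomputable def kil52 (F : Type*) [Field F] (n j : ℕ) :
    MvPolynomial (Fin n) F →ₐ[F] MvPolynomial (Fin n) F :=
  MvPolynomial.aeval fun i => if (i : ℕ) < j then 0 else MvPolynomial.X i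

private theorem kil52_X {F : Type*} [Field F] {n j : ℕ} (i : Fin n) :
    kil52 F n j (MvPolynomial.X i) = if (i : ℕ) < j then 0 else MvPolynomial.X i := by
  unfold kil52
  rw [MvPolynomial.aeval_X]

private theorem kil52_comp {F : Type*} [Field F] {n j k : ℕ} (h : j ≤ k) :
    (kil52 F n k).comp (kil52 F n j) = kil52 F n k := by
  refine MvPolynomial.algHom_ext fun i => ?_
  rw [AlgHom.comp_apply, kil52_X, kil52_X]
  by_cases h1 : (i : ℕ) < j
  · rw [if_pos h1, map_zero, if_pos (by omega)]
  · rw [if_neg h1, kil52_X]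

private theorem ker52_prime {F : Type*} [Field F] (n j : ℕ) : (RingHom.ker (kil52 F n j)).IsPrime :=
  RingHom.ker_isPrime _

private theorem ker52_lt {F : Type*} [Field F] {n j k : ℕ} (h : j < k) (hj : j < n) :
    RingHom.ker (kil52 F n j) < RingHom.ker (kil52 F n k) := by
  refine lt_of_le_of_ne ?_ ?_
  · intro f hf
    rw [RingHom.mem_ker] at hf ⊢
    have h1 := congrArg (kil52 F n k) hf
    rw [map_zero] at h1
    have h2 : kil52 F n k (kil52 F n j f) = kil52 F n k f := by
      rw [← AlgHom.comp_apply, kil52_comp h.le]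
    rw [← h2]
    exact h1
  · intro heq
    have h1 : (MvPolynomial.X (⟨j, hj⟩ : Fin n) : MvPolynomial (Fin n) F) ∈ RingHom.ker (kil52 F n k) := by
      rw [RingHom.mem_ker, kil52_X, if_pos h]
    rw [← heq, RingHom.mem_ker, kil52_X, if_neg (lt_irrefl j)] at h1
    exact MvPolynomial.X_ne_zero _ h1

private theorem ker52_top {F : Type*} [Field F] {n : ℕ} (f : MvPolynomial (Fin n) F) :
    f ∈ RingHom.ker (kil52 F n n) ↔ MvPolynomial.eval (0 : Fin n → F) f = 0 := by
  have h1 : kil52 F n n = (MvPolynomial.aeval (0 : Fin n → MvPolynomial (Fin n) F)) := by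
    refine MvPolynomial.algHom_ext fun i => ?_
    rw [kil52_X, if_pos i.2, MvPolynomial.aeval_X]
    rfl
  rw [RingHom.mem_ker, h1, MvPolynomial.eval_zero]
  have h2 : (MvPolynomial.aeval (0 : Fin n → MvPolynomial (Fin n) F)) f = MvPolynomial.C (MvPolynomial.constantCoeff f) := by
    rw [MvPolynomial.aeval_zero]
    rfl
  rw [h2]
  constructor
  · intro h
    exact MvPolynomial.C_injective _ _ (by rw [h, map_zero])
  · intro h
    rw [h, map_zero]

private theorem height52 {F : Type*} [Field F] (n : ℕ) : (n : ℕ∞) ≤ (RingHom.ker (kil52 F n n)).height := by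
  have hpr : (RingHom.ker (kil52 F n n)).IsPrime := ker52_prime n n
  have hh := PrimeSpectrum.height_eq_orderHeight (⟨RingHom.ker (kil52 F n n), hpr⟩ : PrimeSpectrum (MvPolynomial (Fin n) F))
  let s : LTSeries (PrimeSpectrum (MvPolynomial (Fin n) F)) :=
    { length := n
      toFun := fun j => ⟨RingHom.ker (kil52 F n j), ker52_prime n j⟩
      step := fun i => by
        show RingHom.ker (kil52 F n (i.castSucc : ℕ)) < RingHom.ker (kil52 F n (i.succ : ℕ))
        exact ker52_lt (by rw [Fin.val_castSucc, Fin.val_succ]; omega) (by rw [Fin.val_castSucc]; exact i.2) }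
  have h1 := Order.length_le_height_last (p := s)
  have h2 : s.last = ⟨RingHom.ker (kil52 F n n), hpr⟩ := by
    show (⟨RingHom.ker (kil52 F n ((Fin.last n : Fin (n + 1)) : ℕ)), _⟩ : PrimeSpectrum (MvPolynomial (Fin n) F)) = _
    rfl
  rw [h2, ← hh] at h1
  exact h1

theorem exists_zero {F : Type*} [Field F] [IsAlgClosed F] {m : ℕ}
    (φ : Fin m → MvPolynomial (Fin (m + 1)) F) (a : Fin m → ℕ) (ha : ∀ i, 1 ≤ a i)
    (hφ : ∀ i, (φ i).IsHomogeneous (a i)) :
    ∃ p : Fin (m + 1) → F, p ≠ 0 ∧ ∀ i, MvPolynomial.eval p (φ i) = 0 := by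
  by_contra hcon
  push Not at hcon
  set I : Ideal (MvPolynomial (Fin (m + 1)) F) := Ideal.span (Set.range φ) with hI
  set P : Ideal (MvPolynomial (Fin (m + 1)) F) := RingHom.ker (kil52 F (m + 1) (m + 1)) with hP
  have hPp : P.IsPrime := ker52_prime _ _
  -- the ideal is contained in the maximal ideal
  have hIP : I ≤ P := by
    rw [hI, Ideal.span_le]
    rintro _ ⟨i, rfl⟩
    show φ i ∈ P
    rw [hP, ker52_top, MvPolynomial.eval_zero, MvPolynomial.constantCoeff_eq]
    refine (hφ i).coeff_eq_zero ?_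
    have := ha i
    rw [map_zero]
    omega
  -- the maximal ideal is contained in the radical
  have hPr : P ≤ I.radical := by
    intro f hf
    rw [← MvPolynomial.vanishingIdeal_zeroLocus_eq_radical (K := F), MvPolynomial.mem_vanishingIdeal_iff]
    intro x hx
    have hx0 : x = 0 := by
      by_contra hne
      obtain ⟨i, hi⟩ := hcon x hne
      refine hi ?_
      have h1 := (MvPolynomial.mem_zeroLocus_iff.1 hx) (φ i) (Ideal.subset_span ⟨i, rfl⟩)
      rwa [MvPolynomial.aeval_eq_eval] at h1
    rw [hx0, MvPolynomial.aeval_eq_eval]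
    exact (ker52_top f).1 hf
  have hmin : P ∈ I.minimalPrimes := by
    refine ⟨⟨hPp, hIP⟩, ?_⟩
    rintro Q ⟨hQ, hIQ⟩ _
    refine hPr.trans ?_
    rw [hQ.radical_le_iff]
    exact hIQ
  have h1 := Ideal.height_le_card_of_mem_minimalPrimes_span (Set.finite_range φ) hmin
  have h2 : ((m + 1 : ℕ) : ℕ∞) ≤ P.height := height52 (m + 1)
  have h3 : (Set.range φ).ncard ≤ m := by
    have h4 := Set.ncard_image_le (s := (Set.univ : Set (Fin m))) (f := φ) Set.finite_univ
    rw [Set.image_univ, Set.ncard_univ, Nat.card_eq_fintype_card, Fintype.card_fin] at h4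
    exact h4
  have h5 : ((m + 1 : ℕ) : ℕ∞) ≤ ((Set.range φ).ncard : ℕ∞) := h2.trans h1
  have h6 : m + 1 ≤ (Set.range φ).ncard := by exact_mod_cast h5
  omega

end Pool.Agent.Helper16.UP
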