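import Pool.Agent.Helper16.UP.Chow
import Pool.Agent.Helper52.Vojta.NormLocal
import Pool.Agent.Helper52.Vojta.BaseChange
import Pool.Agent.Helper21.V2.P2

/-!
# Block UP-F3: lower bound for the Chow form at a place

PROOF. `n = card κ`, enumerate `κ`; `u_t = (t ^ (index of j))_j` for `t = 0, ..., R`, `R = r * n`. For every place `w ∈ above L ν` and every `y : κ → L` fewer than `n` of the `t` satisfy
`nv w (∑ u_t j * y j) < c_ν * vn w y`: if `n` distinct `t` did, Cramer's rule for the Vandermonde matrix (entries rational) gives `vn w y < vn w y` for suitable `c_ν > 0`, which depends only on the maximum at `ν` of the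
entries of the inverse Vandermonde matrices (finitely many choices of `n` distinct `t ≤ R`; for a finite `ν` where all these determinants are units `c_ν = 1` works; `nv w (x) = nv ν (x) ^ ldeg`, `ldeg ≤ r`,
for `x ∈ k`, `nv_above`). There are at most `r` places `w` (`card_above_le`), so some `t ≤ R` is good for all of them, and `∏ w, c_ν * vn w y ≤ ∏ w, nv w (∑ u_t j y j) = nv ν (norm (..)) = nv ν (F(u_t)) ≤ const_ν * pn ν F`
(`nv_norm`, `eval_chow`; `F(u_t)` is a combination of the coefficients of `F` with integral coefficients, the number of monomials of degree `r` is bounded: const `= 1` at finite places).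
-/

namespace Pool.Agent.Helper16.UP

open NumberField Finset
open Pool.Agent.Helper64.Vojta (Pl nv sn above)
open Pool.Agent.V2 (vn vH pn pH gsum FinS)

universe u

section vand

variable {κ : Type} [Fintype κ] [DecidableEq κ]

private noncomputable def h93V (e : κ ≃ Fin (Fintype.card κ)) (f : κ → ℕ) : Matrix κ κ ℤ :=
  Matrix.of fun i l => (f i : ℤ) ^ (e l : ℕ)

private lemma h93V_det (e : κ ≃ Fin (Fintype.card κ)) {f : κ → ℕ} (hf : Function.Injective f) : (h93V e f).det ≠ 0 := by
  have h1 : ((h93V e f).submatrix e.symm e.symm) = Matrix.vandermonde (fun i => (f (e.symm i) : ℤ)) := by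
    ext i l
    simp [h93V, Matrix.vandermonde_apply]
  rw [← Matrix.det_submatrix_equiv_self e.symm, h1, Matrix.det_vandermonde_ne_zero_iff]
  intro i j h
  simp only [Nat.cast_inj] at h
  exact e.symm.injective (hf h)

private lemma h93_cramer {L : Type*} [Field L] (V : Matrix κ κ ℤ) (y : κ → L) (j : κ) :
    ((V.det : ℤ) : L) * y j = ∑ i, ((V.adjugate j i : ℤ) : L) * ∑ l, ((V i l : ℤ) : L) * y l := by
  set V' : Matrix κ κ L := (Int.castRingHom L).mapMatrix V with hV'
  have h1 : V'.adjugate * V' = V'.det • (1 : Matrix κ κ L) := Matrix.adjugate_mul V'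
  have h2 : (V'.adjugate * V').mulVec y = V'.det • y := by
    rw [h1, Matrix.smul_mulVec, Matrix.one_mulVec]
  have h3 := congrFun h2 j
  rw [← Matrix.mulVec_mulVec] at h3
  have h4 : V'.det = ((V.det : ℤ) : L) := by
    rw [hV', ← RingHom.map_det]
    rfl
  have h5 : ∀ a b, V'.adjugate a b = ((V.adjugate a b : ℤ) : L) := by
    intro a b
    rw [hV', ← RingHom.map_adjugate]
    rfl
  have h6 : ∀ a b, V' a b = ((V a b : ℤ) : L) := fun a b => rfl
  simp only [Matrix.mulVec, dotProduct, Pi.smul_apply, smul_eq_mul, h4, h5, h6] at h3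
  exact h3.symm

end vand

private lemma h93_inl_int {L : Type*} [Field L] [NumberField L] (w : InfinitePlace L) (z : ℤ) :
    nv (.inl w) (z : L) = |(z : ℝ)| ^ w.mult := by
  change w (z : L) ^ w.mult = _
  rw [← InfinitePlace.norm_embedding_eq, map_intCast, Complex.norm_intCast]

private lemma h93_inr_int {L : Type*} [Field L] [NumberField L] (w : FinitePlace L) (z : ℤ) : nv (.inr w) (z : L) ≤ 1 := by
  apply Pool.Agent.V2.P2.nv_inr_int
  have : IsIntegral ℤ (algebraMap ℤ L z) := isIntegral_algebraMap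
  simpa using this

private lemma h93_one_le_mult {L : Type*} [Field L] (w : InfinitePlace L) : 1 ≤ w.mult := by
  have := InfinitePlace.mult_pos (w := w)
  omega

/-- all injective choices -/
private noncomputable def h93Δ {κ : Type} [Fintype κ] [DecidableEq κ] (e : κ ≃ Fin (Fintype.card κ)) (R : ℕ) : ℤ := by
  classical
  exact ∏ f ∈ (Finset.univ : Finset (κ → Fin (R + 1))).filter (fun f => Function.Injective f), (h93V e (fun i => (f i : ℕ))).det

private noncomputable def h93A {κ : Type} [Fintype κ] [DecidableEq κ] (e : κ ≃ Fin (Fintype.card κ)) (R : ℕ) : ℕ :=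
  1 + ∑ f : κ → Fin (R + 1), ∑ i, ∑ j, ((h93V e (fun i => (f i : ℕ))).adjugate i j).natAbs

private lemma h93Δ_ne {κ : Type} [Fintype κ] [DecidableEq κ] (e : κ ≃ Fin (Fintype.card κ)) (R : ℕ) : h93Δ e R ≠ 0 := by
  unfold h93Δ
  apply Finset.prod_ne_zero_iff.2
  intro f hf
  apply h93V_det
  intro a b hab
  exact (Finset.mem_filter.1 hf).2 (Fin.ext hab)

private lemma h93Δ_dvd {κ : Type} [Fintype κ] [DecidableEq κ] (e : κ ≃ Fin (Fintype.card κ)) (R : ℕ) (f : κ → Fin (R + 1))
    (hf : Function.Injective f) : (h93V e (fun i => (f i : ℕ))).det ∣ h93Δ e R := by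
  unfold h93Δ
  exact Finset.dvd_prod_of_mem (fun f : κ → Fin (R + 1) => (h93V e (fun i => (f i : ℕ))).det) (Finset.mem_filter.2 ⟨Finset.mem_univ _, hf⟩)

private lemma h93A_le {κ : Type} [Fintype κ] [DecidableEq κ] (e : κ ≃ Fin (Fintype.card κ)) (R : ℕ) (f : κ → Fin (R + 1)) (i j : κ) :
    |(((h93V e (fun i => (f i : ℕ))).adjugate i j : ℤ) : ℝ)| ≤ h93A e R := by
  have h1 : ((h93V e (fun i => (f i : ℕ))).adjugate i j).natAbs ≤ h93A e R := by
    unfold h93A
    have a1 : ((h93V e (fun i => (f i : ℕ))).adjugate i j).natAbs ≤ ∑ j, ((h93V e (fun i => (f i : ℕ))).adjugate i j).natAbs :=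
      Finset.single_le_sum (f := fun j => ((h93V e (fun i => (f i : ℕ))).adjugate i j).natAbs) (fun _ _ => Nat.zero_le _) (Finset.mem_univ j)
    have a2 : ∑ j, ((h93V e (fun i => (f i : ℕ))).adjugate i j).natAbs ≤ ∑ i, ∑ j, ((h93V e (fun i => (f i : ℕ))).adjugate i j).natAbs :=
      Finset.single_le_sum (f := fun i => ∑ j, ((h93V e (fun i => (f i : ℕ))).adjugate i j).natAbs) (fun _ _ => Nat.zero_le _) (Finset.mem_univ i)
    have a3 : ∑ i, ∑ j, ((h93V e (fun i => (f i : ℕ))).adjugate i j).natAbs ≤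
        ∑ f : κ → Fin (R + 1), ∑ i, ∑ j, ((h93V e (fun i => (f i : ℕ))).adjugate i j).natAbs :=
      Finset.single_le_sum (f := fun f : κ → Fin (R + 1) => ∑ i, ∑ j, ((h93V e (fun i => (f i : ℕ))).adjugate i j).natAbs)
        (fun _ _ => Nat.zero_le _) (Finset.mem_univ f)
    omega
  have h2 : |(((h93V e (fun i => (f i : ℕ))).adjugate i j : ℤ) : ℝ)| = (((h93V e (fun i => (f i : ℕ))).adjugate i j).natAbs : ℝ) := by
    rw [Nat.cast_natAbs, Int.cast_abs]
  rw [h2]
  exact_mod_cast h1

/-- the local constant -/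
private noncomputable def h93c {κ : Type} [Fintype κ] [DecidableEq κ] (e : κ ≃ Fin (Fintype.card κ)) (r R : ℕ)
    {k : Type*} [Field k] [NumberField k] : Pl k → ℝ
  | .inl _ => 1 / (((Fintype.card κ : ℝ) + 1) ^ 2 * (h93A e R : ℝ) ^ 2)
  | .inr ν => nv (.inr ν) ((h93Δ e R : ℤ) : k) ^ r

private lemma h93A_one {κ : Type} [Fintype κ] [DecidableEq κ] (e : κ ≃ Fin (Fintype.card κ)) (R : ℕ) : (1 : ℝ) ≤ h93A e R := by
  have : 1 ≤ h93A e R := by unfold h93A; omega
  exact_mod_cast this

private lemma h93c_pos {κ : Type} [Fintype κ] [DecidableEq κ] (e : κ ≃ Fin (Fintype.card κ)) (r R : ℕ)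
    {k : Type*} [Field k] [NumberField k] (ν : Pl k) : 0 < h93c e r R ν := by
  rcases ν with ν | ν
  · have := h93A_one e R
    unfold h93c
    positivity
  · unfold h93c
    apply pow_pos
    apply Pool.Agent.Helper64.Vojta.nv_pos
    exact_mod_cast h93Δ_ne e R

private lemma h93c_le {κ : Type} [Fintype κ] [DecidableEq κ] (e : κ ≃ Fin (Fintype.card κ)) (r R : ℕ)
    {k : Type*} [Field k] [NumberField k] (ν : Pl k) : h93c e r R ν ≤ 1 := by
  rcases ν with ν | ν
  · have := h93A_one e R
    unfold h93c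
    rw [div_le_one (by positivity)]
    have h1 : (1 : ℝ) ≤ ((Fintype.card κ : ℝ) + 1) ^ 2 := by
      have : (0 : ℝ) ≤ (Fintype.card κ : ℝ) := Nat.cast_nonneg _
      nlinarith
    have h2 : (1 : ℝ) ≤ (h93A e R : ℝ) ^ 2 := by nlinarith
    nlinarith
  · unfold h93c
    apply pow_le_one₀ (Pool.Agent.Helper64.Vojta.nv_nonneg _ _)
    exact h93_inr_int ν _

/-- Cramer's rule at a place -/
private lemma h93_local {κ : Type} [Fintype κ] [DecidableEq κ] (e : κ ≃ Fin (Fintype.card κ)) {r R : ℕ}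
    {k L : Type*} [Field k] [NumberField k] [Field L] [NumberField L] [Algebra k L] (hr : Module.finrank k L = r)
    {ν : Pl k} {w : Pl L} (hw : w ∈ above L ν) (f : κ → Fin (R + 1)) (hf : Function.Injective f) (y : κ → L) {B : ℝ} (hB : 0 ≤ B)
    (h : ∀ i, nv w (∑ l, ((((f i : ℕ) : ℤ) ^ (e l : ℕ) : ℤ) : L) * y l) ≤ B) :
    h93c e r R ν * vn w y ≤ B := by
  classical
  set V := h93V e (fun i => (f i : ℕ)) with hV
  have hVd : V.det ≠ 0 := h93V_det e (fun a b hab => hf (Fin.ext hab))
  have hcr : ∀ j, nv w ((V.det : ℤ) : L) * nv w (y j) = nv w (∑ i, ((V.adjugate j i : ℤ) : L) * ∑ l, ((V i l : ℤ) : L) * y l) := by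
    intro j
    rw [← Pool.Agent.Helper64.Vojta.nv_mul, h93_cramer V y j]
  have hc0 := h93c_pos e r R ν
  suffices hs : ∀ j, h93c e r R ν * nv w (y j) ≤ B by
    have h1 : vn w y ≤ B / h93c e r R ν := by
      apply Pool.Agent.V2.vn_le w y (by positivity)
      intro j
      rw [le_div_iff₀ hc0, mul_comm]
      exact hs j
    rw [le_div_iff₀ hc0, mul_comm] at h1
    exact h1
  intro j
  rw [Pool.Agent.Helper64.Vojta.mem_above] at hw
  rcases ν with ν | ν <;> rcases w with w | w
  · -- infinite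
    have h1 : nv (.inl w) (∑ i, ((V.adjugate j i : ℤ) : L) * ∑ l, ((V i l : ℤ) : L) * y l) ≤
        ((Fintype.card κ : ℝ) + 1) ^ 2 * ((h93A e R : ℝ) ^ 2 * B) := by
      have := Pool.Agent.Helper64.Vojta.nv_sum_le_inl w Finset.univ
        (fun i => ((V.adjugate j i : ℤ) : L) * ∑ l, ((V i l : ℤ) : L) * y l) ((h93A e R : ℝ) ^ 2 * B) (by positivity) (by
          intro i _
          rw [Pool.Agent.Helper64.Vojta.nv_mul, h93_inl_int]
          have a1 : |((V.adjugate j i : ℤ) : ℝ)| ^ w.mult ≤ (h93A e R : ℝ) ^ 2 := by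
            calc |((V.adjugate j i : ℤ) : ℝ)| ^ w.mult ≤ (h93A e R : ℝ) ^ w.mult := by
                  apply pow_le_pow_left₀ (abs_nonneg _)
                  exact h93A_le e R f j i
              _ ≤ (h93A e R : ℝ) ^ 2 := pow_le_pow_right₀ (h93A_one e R) (Pool.Agent.Helper64.Vojta.mult_le_two w)
          exact mul_le_mul a1 (h i) (Pool.Agent.Helper64.Vojta.nv_nonneg _ _) (by positivity))
      simpa using this
    rw [← hcr, h93_inl_int] at h1
    have h2 : (1 : ℝ) ≤ |((V.det : ℤ) : ℝ)| ^ w.mult := by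
      apply one_le_pow₀
      have : 1 ≤ |V.det| := Int.one_le_abs hVd
      exact_mod_cast this
    have h3 := Pool.Agent.Helper64.Vojta.nv_nonneg (.inl w : Pl L) (y j)
    have h4 : nv (.inl w) (y j) ≤ ((Fintype.card κ : ℝ) + 1) ^ 2 * ((h93A e R : ℝ) ^ 2 * B) := by nlinarith
    have h5 := h93A_one e R
    unfold h93c
    rw [div_mul_eq_mul_div, one_mul, div_le_iff₀ (by positivity)]
    linarith
  · exact absurd hw id
  · exact absurd hw id
  · -- finite
    have h1 : nv (.inr w) (∑ i, ((V.adjugate j i : ℤ) : L) * ∑ l, ((V i l : ℤ) : L) * y l) ≤ B := by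
      apply Pool.Agent.Helper64.Vojta.nv_sum_le_inr w Finset.univ _ B hB
      intro i _
      rw [Pool.Agent.Helper64.Vojta.nv_mul]
      calc nv (.inr w) ((V.adjugate j i : ℤ) : L) * nv (.inr w) (∑ l, ((V i l : ℤ) : L) * y l) ≤ 1 * B :=
            mul_le_mul (h93_inr_int w _) (h i) (Pool.Agent.Helper64.Vojta.nv_nonneg _ _) zero_le_one
        _ = B := one_mul B
    rw [← hcr] at h1
    obtain ⟨z, hz⟩ := h93Δ_dvd e R f hf
    have h2 : nv (.inr w) ((h93Δ e R : ℤ) : L) ≤ nv (.inr w) ((V.det : ℤ) : L) := by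
      rw [hz, Int.cast_mul, Pool.Agent.Helper64.Vojta.nv_mul]
      exact mul_le_of_le_one_right (Pool.Agent.Helper64.Vojta.nv_nonneg _ _) (h93_inr_int w z)
    have hw' : (.inr w : Pl L) ∈ above L (.inr ν : Pl k) := by
      rw [Pool.Agent.Helper64.Vojta.mem_above]; exact hw
    have h3 : nv (.inr w) ((h93Δ e R : ℤ) : L) = nv (.inr ν) ((h93Δ e R : ℤ) : k) ^ Pool.Agent.Helper52.Vojta.ldeg (.inr ν : Pl k) (.inr w : Pl L) := by
      rw [← Pool.Agent.Helper52.Vojta.nv_above hw', map_intCast]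
    have h4 : Pool.Agent.Helper52.Vojta.ldeg (.inr ν : Pl k) (.inr w : Pl L) ≤ r := by
      rw [← hr, ← Pool.Agent.Helper52.Vojta.sum_ldeg (L' := L) (.inr ν : Pl k)]
      exact Finset.single_le_sum (f := fun w => Pool.Agent.Helper52.Vojta.ldeg (.inr ν : Pl k) w) (fun _ _ => Nat.zero_le _) hw'
    have h5 : h93c e r R (.inr ν : Pl k) ≤ nv (.inr w) ((h93Δ e R : ℤ) : L) := by
      rw [h3]
      unfold h93c
      exact pow_le_pow_of_le_one (Pool.Agent.Helper64.Vojta.nv_nonneg _ _) (h93_inr_int ν _) h4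
    calc h93c e r R (.inr ν : Pl k) * nv (.inr w) (y j) ≤ nv (.inr w) ((V.det : ℤ) : L) * nv (.inr w) (y j) :=
          mul_le_mul_of_nonneg_right (h5.trans h2) (Pool.Agent.Helper64.Vojta.nv_nonneg _ _)
      _ ≤ B := h1

/-- the constant for the evaluation of a form -/
private noncomputable def h93b (κ : Type) [Fintype κ] [DecidableEq κ] (r R : ℕ) {k : Type*} [Field k] [NumberField k] : Pl k → ℝ
  | .inl _ => (((Finset.univ : Finset κ).finsuppAntidiag r).card + 1 : ℝ) ^ 2 * ((((R + 1) ^ (Fintype.card κ * r) : ℕ) : ℝ) + 1) ^ 2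
  | .inr _ => 1

private lemma h93_eval {κ : Type} [Fintype κ] [DecidableEq κ] (e : κ ≃ Fin (Fintype.card κ)) {r R : ℕ}
    {k : Type*} [Field k] [NumberField k] (F : MvPolynomial κ k) (hF : F.IsHomogeneous r) {t : ℕ} (ht : t ≤ R) (ν : Pl k) :
    nv ν (MvPolynomial.eval (fun j => ((t ^ (e j : ℕ) : ℕ) : k)) F) ≤ h93b κ r R ν * pn ν F := by
  have hsum : ∀ d ∈ F.support, ∑ i, d i = r := by
    intro d hd
    have h1 : Finsupp.weight 1 d = r := hF (MvPolynomial.mem_support_iff.1 hd)
    rw [← Finsupp.degree_eq_sum, Finsupp.degree_eq_weight_one]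
    exact h1
  have hpn : 0 ≤ pn ν F := (Pool.Agent.Helper64.Vojta.nv_nonneg _ _).trans (Pool.Agent.V2.le_pn ν F 0)
  rw [MvPolynomial.eval_eq']
  have hterm : ∀ d : κ →₀ ℕ, (∏ i, ((t ^ (e i : ℕ) : ℕ) : k) ^ d i) = ((∏ i, (t ^ (e i : ℕ)) ^ d i : ℕ) : k) := by
    intro d
    push_cast
    rfl
  rcases ν with ν | ν
  · have hcard : F.support.card ≤ ((Finset.univ : Finset κ).finsuppAntidiag r).card := by
      apply Finset.card_le_card
      intro d hd
      rw [Finset.mem_finsuppAntidiag]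
      exact ⟨hsum d hd, Finset.subset_univ _⟩
    have h1 := Pool.Agent.Helper64.Vojta.nv_sum_le_inl ν F.support (fun d => F.coeff d * ∏ i, ((t ^ (e i : ℕ) : ℕ) : k) ^ d i)
      (((((R + 1) ^ (Fintype.card κ * r) : ℕ) : ℝ) + 1) ^ 2 * pn (.inl ν) F) (by positivity) (by
        intro d hd
        rw [Pool.Agent.Helper64.Vojta.nv_mul, hterm, mul_comm]
        apply mul_le_mul _ (Pool.Agent.V2.le_pn _ F d) (Pool.Agent.Helper64.Vojta.nv_nonneg _ _) (by positivity)
        apply Pool.Agent.V2.P2.nv_inl_nat_le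
        calc ∏ i, (t ^ (e i : ℕ)) ^ d i ≤ ∏ i, ((R + 1) ^ (Fintype.card κ)) ^ d i := by
              apply Finset.prod_le_prod' 
              intro i _
              apply Nat.pow_le_pow_left
              calc t ^ (e i : ℕ) ≤ (R + 1) ^ (e i : ℕ) := Nat.pow_le_pow_left (by omega) _
                _ ≤ (R + 1) ^ (Fintype.card κ) := Nat.pow_le_pow_right (by omega) (e i).2.le
          _ = (R + 1) ^ (Fintype.card κ * r) := by
              rw [Finset.prod_pow_eq_pow_sum, hsum d hd, ← pow_mul])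
    refine h1.trans ?_
    unfold h93b
    have h2 : ((F.support.card : ℝ) + 1) ^ 2 ≤ (((Finset.univ : Finset κ).finsuppAntidiag r).card + 1 : ℝ) ^ 2 := by
      have : (F.support.card : ℝ) ≤ ((Finset.univ : Finset κ).finsuppAntidiag r).card := by exact_mod_cast hcard
      gcongr
    calc ((F.support.card : ℝ) + 1) ^ 2 * (((((R + 1) ^ (Fintype.card κ * r) : ℕ) : ℝ) + 1) ^ 2 * pn (.inl ν) F) ≤
          (((Finset.univ : Finset κ).finsuppAntidiag r).card + 1 : ℝ) ^ 2 * (((((R + 1) ^ (Fintype.card κ * r) : ℕ) : ℝ) + 1) ^ 2 * pn (.inl ν) F) := by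
          apply mul_le_mul_of_nonneg_right h2
          positivity
      _ = _ := by ring
  · unfold h93b
    rw [one_mul]
    apply Pool.Agent.Helper64.Vojta.nv_sum_le_inr ν _ _ _ hpn
    intro d hd
    rw [Pool.Agent.Helper64.Vojta.nv_mul, hterm]
    calc nv (.inr ν) (F.coeff d) * nv (.inr ν) ((∏ i, (t ^ (e i : ℕ)) ^ d i : ℕ) : k) ≤ pn (.inr ν) F * 1 :=
          mul_le_mul (Pool.Agent.V2.le_pn _ F d) (Pool.Agent.V2.P2.nv_inr_nat ν _) (Pool.Agent.Helper64.Vojta.nv_nonneg _ _) hpn
      _ = _ := mul_one _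

theorem loc_low (k : Type u) [Field k] [NumberField k] (κ : Type) [Fintype κ] (r : ℕ) (hr : 1 ≤ r) :
    ∃ C : Pl k → ℝ, FinS C ∧ ∀ (L : Type u) [Field L] [NumberField L] [Algebra k L]
      [FiniteDimensional k L], Module.finrank k L = r → ∀ y : κ → L, (∃ j, y j ≠ 0) → ∀ ν : Pl k,
      ∑ w ∈ above L ν, Real.log (vn w y) ≤ Real.log (pn ν (chow k y)) + C ν := by
  classical
  set n := Fintype.card κ with hn
  set R := r * n with hR
  set e : κ ≃ Fin (Fintype.card κ) := Fintype.equivFin κ with he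
  refine ⟨fun ν => Real.log (h93b κ r R ν) + (-(r : ℝ)) * Real.log (h93c e r R ν), ?_, ?_⟩
  · apply FinS.add
    · unfold FinS
      have : (Function.support fun v : FinitePlace k => Real.log (h93b κ r R (.inr v : Pl k))) = ∅ := by
        rw [Function.support_eq_empty_iff]
        funext v
        unfold h93b
        simp
      rw [this]
      exact Set.finite_empty
    · apply FinS.const_mul
      have h1 : FinS (fun v : Pl k => (r : ℝ) * Real.log (nv v ((h93Δ e R : ℤ) : k))) :=
        (Pool.Agent.V2.finS_nv (by exact_mod_cast h93Δ_ne e R)).const_mul _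
      refine Set.Finite.subset h1 fun v hv => ?_
      rw [Function.mem_support] at hv ⊢
      have h2 : Real.log (h93c e r R (.inr v : Pl k)) = (r : ℝ) * Real.log (nv (.inr v) ((h93Δ e R : ℤ) : k)) := by
        unfold h93c
        rw [Real.log_pow]
      simp only at hv ⊢
      rwa [h2] at hv
  intro L _ _ _ _ hrL y hy ν
  obtain ⟨j0, hj0⟩ := hy
  have hy0 : y ≠ 0 := fun h => hj0 (by rw [h]; rfl)
  have hn1 : 1 ≤ n := by
    rw [hn]
    exact Fintype.card_pos_iff.2 ⟨j0⟩
  have hc0 := h93c_pos e r R ν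
  have hc1 := h93c_le e r R ν
  -- the linear form at `t`
  set p : ℕ → L := fun t => ∑ l, (((t : ℤ) ^ (e l : ℕ) : ℤ) : L) * y l with hp
  -- bad values
  have hbad : ∀ w ∈ above L ν, ((Finset.range (R + 1)).filter (fun t => nv w (p t) < h93c e r R ν * vn w y)).card < n := by
    intro w hw
    by_contra hcon
    rw [not_lt] at hcon
    obtain ⟨T', hT', hcard⟩ := Finset.exists_subset_card_eq hcon
    have hequiv : Fintype.card κ = Fintype.card T' := by rw [Fintype.card_coe, hcard]
    set g : κ ≃ T' := Fintype.equivOfCardEq hequiv with hg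
    have hg1 : ∀ i, ((g i : T') : ℕ) < R + 1 := fun i => by
      have := (Finset.mem_filter.1 (hT' (g i).2)).1
      exact Finset.mem_range.1 this
    have hg2 : ∀ i, nv w (p (g i : T')) < h93c e r R ν * vn w y := fun i => (Finset.mem_filter.1 (hT' (g i).2)).2
    set f : κ → Fin (R + 1) := fun i => ⟨(g i : T'), hg1 i⟩ with hf
    have hfi : Function.Injective f := by
      intro a b hab
      apply g.injective
      apply Subtype.ext
      simpa [hf] using hab
    haveI : Nonempty κ := ⟨j0⟩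
    obtain ⟨i0, hi0⟩ := Finite.exists_max (fun i => nv w (p (g i : T')))
    have h1 := h93_local e (r := r) (R := R) hrL hw f hfi y (B := nv w (p (g i0 : T'))) (Pool.Agent.Helper64.Vojta.nv_nonneg _ _)
      (fun i => hi0 i)
    exact absurd (hg2 i0) (not_lt.2 h1)
  -- a good value
  have hgood : ∃ t, t ≤ R ∧ ∀ w ∈ above L ν, h93c e r R ν * vn w y ≤ nv w (p t) := by
    by_contra hcon
    push Not at hcon
    have h1 : Finset.range (R + 1) ⊆ (above L ν).biUnion (fun w => (Finset.range (R + 1)).filter (fun t => nv w (p t) < h93c e r R ν * vn w y)) := by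
      intro t ht
      obtain ⟨w, hw, hlt⟩ := hcon t (by have := Finset.mem_range.1 ht; omega)
      exact Finset.mem_biUnion.2 ⟨w, hw, Finset.mem_filter.2 ⟨ht, hlt⟩⟩
    have h2 := Finset.card_le_card h1
    rw [Finset.card_range] at h2
    have h3 : ((above L ν).biUnion (fun w => (Finset.range (R + 1)).filter (fun t => nv w (p t) < h93c e r R ν * vn w y))).card ≤
        (above L ν).card * n := by
      refine Finset.card_biUnion_le.trans ?_
      rw [← smul_eq_mul]
      refine Finset.sum_le_card_nsmul _ _ _ fun w hw => (hbad w hw).le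
    have h4 := Pool.Agent.Helper64.Vojta.card_above_le (L := L) ν
    rw [hrL] at h4
    have h5 : (above L ν).card * n ≤ r * n := Nat.mul_le_mul_right _ h4
    omega
  obtain ⟨t, htR, ht⟩ := hgood
  have hvn : ∀ w : Pl L, 0 < vn w y := fun w => Pool.Agent.V2.vn_pos w hy0
  have hpn : 0 < pn ν (chow k y) := Pool.Agent.V2.pn_pos ν (chow_ne y j0 hj0)
  have h1 : ∏ w ∈ above L ν, (h93c e r R ν * vn w y) ≤ h93b κ r R ν * pn ν (chow k y) := by
    calc ∏ w ∈ above L ν, (h93c e r R ν * vn w y) ≤ ∏ w ∈ above L ν, nv w (p t) :=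
          Finset.prod_le_prod (fun w _ => mul_nonneg hc0.le (hvn w).le) ht
      _ = nv ν (Algebra.norm k (p t)) := (Pool.Agent.Helper52.Vojta.nv_norm ν (p t)).symm
      _ = nv ν (MvPolynomial.eval (fun j => ((t ^ (e j : ℕ) : ℕ) : k)) (chow k y)) := by
          rw [eval_chow]
          congr 2
          refine Finset.sum_congr rfl fun l _ => ?_
          push_cast
          rfl
      _ ≤ _ := h93_eval e (chow k y) (hrL ▸ chow_hom y) htR ν
  have hb0 : 0 < h93b κ r R ν := by
    rcases ν with ν | ν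
    · unfold h93b; positivity
    · unfold h93b; exact one_pos
  have h2 := Real.log_le_log (Finset.prod_pos fun w _ => mul_pos hc0 (hvn w)) h1
  rw [Real.log_prod (fun w _ => (mul_pos hc0 (hvn w)).ne'), Real.log_mul hb0.ne' hpn.ne'] at h2
  have h3 : ∑ w ∈ above L ν, Real.log (h93c e r R ν * vn w y) =
      (above L ν).card * Real.log (h93c e r R ν) + ∑ w ∈ above L ν, Real.log (vn w y) := by
    rw [Finset.sum_congr rfl fun w _ => Real.log_mul hc0.ne' (hvn w).ne', Finset.sum_add_distrib, Finset.sum_const, nsmul_eq_mul]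
  rw [h3] at h2
  have h4 := Pool.Agent.Helper64.Vojta.card_above_le (L := L) ν
  rw [hrL] at h4
  have h5 : Real.log (h93c e r R ν) ≤ 0 := Real.log_nonpos hc0.le hc1
  have h6 : (r : ℝ) * Real.log (h93c e r R ν) ≤ (above L ν).card * Real.log (h93c e r R ν) := by
    have : ((above L ν).card : ℝ) ≤ r := by exact_mod_cast h4
    nlinarith
  simp only
  linarith

end Pool.Agent.Helper16.UP
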