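import Pool.Agent.Helper16.UP.Defs3

/-!
# Block UP-K0: sums over the places outside `T`

PROOF. `FinS f` means that `f (.inr v) = 0` for almost all finite `v`; `gsum_add`, `gsum_mono`, ... in Helper21/V2/BA.lean, `gsum_sub` (in TP/Poly.lean, `Pol16.gsum_sub`):
`gsum f - lsum T f` is the `gsum` of the function which is `0` at the infinite places and in `T`. `osum_mono`, `osum_add`, `osum_smul` from this. `osum_nv`: `gsum_nv` (product formula).
-/

namespace Pool.Agent.Helper16.UP

open NumberField Finset
open Pool.Agent.Helper64.Vojta (Pl nv sn)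
open Pool.Agent.V2 (vn vH pn pH gsum FinS)
open Pool.Agent.Helper16.TP (MI lsum)

variable {K : Type*} [Field K] [NumberField K] (T : Finset (FinitePlace K))

open Classical in
private theorem osum_fin (f : Pl K → ℝ) (hf : FinS f) : FinS (K := K) (fun v => match v with
      | .inl _ => 0
      | .inr v => if v ∈ T then 0 else f (.inr v)) := by
  refine Set.Finite.subset hf fun v hv => ?_
  rw [Function.mem_support] at hv ⊢
  intro h3
  apply hv
  simp only
  split_ifs
  · rfl
  · exact h3

theorem osum_mono (f g : Pl K → ℝ) (hf : FinS f) (hg : FinS g)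
    (h : ∀ v : FinitePlace K, v ∉ T → f (.inr v) ≤ g (.inr v)) : osum T f ≤ osum T g := by
  unfold osum
  rw [Pool.Agent.Helper16.TP.Pol16.gsum_sub T f hf, Pool.Agent.Helper16.TP.Pol16.gsum_sub T g hg]
  refine Pool.Agent.V2.gsum_mono ?_ ?_ ?_
  · exact osum_fin T f hf
  · exact osum_fin T g hg
  · rintro (v | v)
    · exact le_rfl
    · simp only
      split_ifs with hv
      · exact le_rfl
      · exact h v hv

theorem osum_add (f g : Pl K → ℝ) (hf : FinS f) (hg : FinS g) :
    osum T (fun v => f v + g v) = osum T f + osum T g := by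
  unfold osum
  rw [Pool.Agent.V2.gsum_add hf hg]
  unfold lsum
  rw [Finset.sum_add_distrib, Finset.sum_add_distrib]
  ring

theorem osum_smul (a : ℝ) (f : Pl K → ℝ) (hf : FinS f) :
    osum T (fun v => a * f v) = a * osum T f := by
  unfold osum
  rw [Pool.Agent.V2.gsum_const_mul]
  unfold lsum
  rw [← Finset.mul_sum, ← Finset.mul_sum]
  ring

theorem lsum_add (f g : Pl K → ℝ) : lsum T (fun v => f v + g v) = lsum T f + lsum T g := by
  unfold lsum
  rw [Finset.sum_add_distrib, Finset.sum_add_distrib]
  ring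

theorem lsum_smul (a : ℝ) (f : Pl K → ℝ) : lsum T (fun v => a * f v) = a * lsum T f := by
  unfold lsum
  rw [← Finset.mul_sum, ← Finset.mul_sum]
  ring

theorem lsum_mono (f g : Pl K → ℝ) (h : ∀ v, f v ≤ g v) : lsum T f ≤ lsum T g := by
  unfold lsum
  exact add_le_add (Finset.sum_le_sum fun v _ => h _) (Finset.sum_le_sum fun v _ => h _)

/-- product formula -/
theorem osum_nv (y : K) (hy : y ≠ 0) :
    osum T (fun v => Real.log (nv v y)) = - lsum T fun v => Real.log (nv v y) := by
  unfold osum
  rw [Pool.Agent.V2.gsum_nv hy, zero_sub]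

theorem pn_C_mul {κ : Type*} (v : Pl K) (w : K) (F : MvPolynomial κ K) :
    pn v (MvPolynomial.C w * F) = nv v w * pn v F := by
  unfold pn
  rw [Real.mul_iSup_of_nonneg (Pool.Agent.Helper64.Vojta.nv_nonneg v w)]
  refine iSup_congr fun d => ?_
  rw [MvPolynomial.coeff_C_mul, Pool.Agent.Helper64.Vojta.nv_mul]

theorem vn_smul {ι : Type*} [Finite ι] (v : Pl K) (w : K) (y : ι → K) :
    vn v (fun i => w * y i) = nv v w * vn v y := by
  unfold vn
  rw [Real.mul_iSup_of_nonneg (Pool.Agent.Helper64.Vojta.nv_nonneg v w)]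
  exact iSup_congr fun d => Pool.Agent.Helper64.Vojta.nv_mul _ _ _

end Pool.Agent.Helper16.UP
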