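import Pool.Agent.Helper16.UP.LocU
import Pool.Agent.Helper16.UP.LocL
import Pool.Agent.Helper16.UP.Osum

/-!
# Block UP-F4: sums over the places of an extension, height of the Chow form

PROOF. `gsum_above`: every place of `L` lies above exactly one place of `k` (`exists_below`, `above_unique`), infinite above infinite, finite above finite; regroup the finite sum over the support of `f`
(together with all infinite places) by the place below. `ht_chow`: `pH (chow k y) = gsum (log pn)`, `Height.logHeight y = vH y = gsum (log vn y)` (`vH_eq`), `gsum_above`, `loc_up`, `loc_low`, `gsum_mono`; constant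
`gsum |C|` (`FinS`).
-/

namespace Pool.Agent.Helper16.UP

open NumberField Finset
open Pool.Agent.Helper64.Vojta (Pl nv sn above)
open Pool.Agent.V2 (vn vH pn pH gsum FinS)

universe u

private theorem gsum_eq_sum {K : Type*} [Field K] [NumberField K] (f : Pl K → ℝ)
    (W : Finset (Pl K)) (hW1 : ∀ w : InfinitePlace K, Sum.inl w ∈ W)
    (hW2 : ∀ w : FinitePlace K, f (.inr w) ≠ 0 → Sum.inr w ∈ W) : gsum f = ∑ w ∈ W, f w := by
  classical
  unfold gsum
  rw [← Finset.toLeft_disjSum_toRight (u := W), Finset.sum_disjSum]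
  congr 1
  · refine Finset.sum_subset (Finset.subset_univ _) ?_ |>.symm
    intro w _ hw
    exact absurd (Finset.mem_toLeft.mpr (hW1 w)) hw
  · rw [finsum_eq_sum_of_support_subset]
    intro w hw
    rw [Finset.mem_coe, Finset.mem_toRight]
    exact hW2 w hw

theorem gsum_above {k L : Type*} [Field k] [NumberField k] [Field L] [NumberField L] [Algebra k L]
    (f : Pl L → ℝ) (hf : FinS f) :
    FinS (fun ν : Pl k => ∑ w ∈ above L ν, f w) ∧
      gsum f = gsum fun ν : Pl k => ∑ w ∈ above L ν, f w := by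
  classical
  have hex : ∀ w : FinitePlace L, ∃ ν : Pl k, (.inr w : Pl L) ∈ above L ν := fun w =>
    Pool.Agent.Helper52.Vojta.exists_below (L := k) (.inr w : Pl L)
  choose b hb using hex
  have hfin : (Sum.inr ⁻¹' (b '' (Function.support fun w : FinitePlace L => f (.inr w))) :
      Set (FinitePlace k)).Finite :=
    Set.Finite.preimage (Sum.inr_injective.injOn) (hf.image b)
  have hkey : ∀ ν : FinitePlace k, (∑ w ∈ above L (.inr ν : Pl k), f w) ≠ 0 →
      ν ∈ (Sum.inr ⁻¹' (b '' (Function.support fun w : FinitePlace L => f (.inr w))) :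
        Set (FinitePlace k)) := by
    intro ν hν
    obtain ⟨w, hw, hw0⟩ := Finset.exists_ne_zero_of_sum_ne_zero hν
    rcases w with w | w
    · exact absurd (Pool.Agent.Helper64.Vojta.mem_above.mp hw) id
    · refine ⟨w, hw0, ?_⟩
      exact Pool.Agent.Helper64.Vojta.above_unique
        (Pool.Agent.Helper64.Vojta.mem_above.mp (hb w))
        (Pool.Agent.Helper64.Vojta.mem_above.mp hw)
  refine ⟨Set.Finite.subset hfin fun ν hν => hkey ν hν, ?_⟩
  let W0 : Finset (Pl k) := Finset.univ.disjSum hfin.toFinset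
  have h1 : gsum (fun ν : Pl k => ∑ w ∈ above L ν, f w)
      = ∑ ν ∈ W0, ∑ w ∈ above L ν, f w := by
    apply gsum_eq_sum
    · intro w
      simp [W0]
    · intro w hw
      simp only [W0, Finset.inr_mem_disjSum, Set.Finite.mem_toFinset]
      exact hkey w hw
  have h2 : gsum f = ∑ w ∈ W0.biUnion (above L), f w := by
    apply gsum_eq_sum
    · intro w
      obtain ⟨ν, hν⟩ := Pool.Agent.Helper52.Vojta.exists_below (L := k) (.inl w : Pl L)
      rw [Finset.mem_biUnion]
      refine ⟨ν, ?_, hν⟩
      rcases ν with ν | ν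
      · simp [W0]
      · exact absurd (Pool.Agent.Helper64.Vojta.mem_above.mp hν) id
    · intro w hw
      rw [Finset.mem_biUnion]
      refine ⟨b w, ?_, hb w⟩
      rcases hbw : b w with ν | ν
      · simp [W0]
      · simp only [W0, Finset.inr_mem_disjSum, Set.Finite.mem_toFinset]
        exact ⟨w, hw, hbw⟩
  have hdisj : (W0 : Set (Pl k)).PairwiseDisjoint (above L) := by
    intro a _ c _ hac
    rw [Function.onFun, Finset.disjoint_left]
    intro w hwa hwc
    exact hac (Pool.Agent.Helper64.Vojta.above_unique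
      (Pool.Agent.Helper64.Vojta.mem_above.mp hwa) (Pool.Agent.Helper64.Vojta.mem_above.mp hwc))
  rw [h1, h2, Finset.sum_biUnion (fun a ha c hc hac => hdisj ha hc hac)]

theorem ht_chow (k : Type u) [Field k] [NumberField k] (κ : Type) [Fintype κ] (r : ℕ) (hr : 1 ≤ r) :
    ∃ C : ℝ, ∀ (L : Type u) [Field L] [NumberField L] [Algebra k L] [FiniteDimensional k L],
      Module.finrank k L = r → ∀ y : κ → L, (∃ j, y j ≠ 0) →
      |pH (chow k y) - Height.logHeight y| ≤ C := by
  obtain ⟨C₁, hC₁, H₁⟩ := loc_up k κ r hr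
  obtain ⟨C₂, hC₂, H₂⟩ := loc_low k κ r hr
  refine ⟨max (gsum C₁) (gsum C₂), ?_⟩
  intro L _ _ _ _ hL y hy
  have hy0 : y ≠ 0 := by
    obtain ⟨j, hj⟩ := hy
    exact fun h0 => hj (by rw [h0]; rfl)
  have hne : chow k y ≠ 0 := by
    obtain ⟨j, hj⟩ := hy
    exact chow_ne y j hj
  have hfp : FinS (fun ν : Pl k => Real.log (pn ν (chow k y))) := Pool.Agent.V2.finS_pn hne
  have hfv : FinS (fun w : Pl L => Real.log (vn w y)) := Pool.Agent.V2.finS_vn hy0
  obtain ⟨hfa, hga⟩ := gsum_above (k := k) (fun w : Pl L => Real.log (vn w y)) hfv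
  have hH : Height.logHeight y = gsum fun ν : Pl k => ∑ w ∈ above L ν, Real.log (vn w y) := by
    rw [← Pool.Agent.V2.vH_eq hy0]
    exact hga
  have hP : pH (chow k y) = gsum fun ν : Pl k => Real.log (pn ν (chow k y)) := rfl
  have hup : pH (chow k y) ≤ Height.logHeight y + gsum C₁ := by
    rw [hH, hP, ← Pool.Agent.V2.gsum_add hfa hC₁]
    exact Pool.Agent.V2.gsum_mono hfp (hfa.add hC₁) fun ν => H₁ L hL y hy ν
  have hlow : Height.logHeight y ≤ pH (chow k y) + gsum C₂ := by
    rw [hH, hP, ← Pool.Agent.V2.gsum_add hfp hC₂]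
    exact Pool.Agent.V2.gsum_mono hfa (hfp.add hC₂) fun ν => H₂ L hL y hy ν
  rw [abs_le]
  constructor
  · have := le_max_right (gsum C₁) (gsum C₂)
    linarith
  · have := le_max_left (gsum C₁) (gsum C₂)
    linarith

end Pool.Agent.Helper16.UP
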