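import Pool.Agent.Helper16.UP.Defs

/-!
# Block UP-A3: ring homomorphisms

PROOF. `pen_map`: `MvPolynomial.induction_on` or `MvPolynomial.map`/`aeval`/`eval₂` lemmas. `pend_map`: `MvPolynomial.pderiv_map` (or induction).
`ev_map` from `pend_map`. `rdp_map`, `rs_map`: `resultant_map_map` (Mathlib), `derivative_map`. `theta_map`: `RingHom.map_det`, `h53_map_mapD`
(TP/FF.lean: copy it: `mapD d' (F.map ψ) = (mapD d F).map ψ`), `Fin.cases`. `Del_map`: `RingHom.map_det`.
`dec_comp`: apply `MvPolynomial.map θ` to the identity (`MvPolynomial.map_map`, `lf_map`). `dec_of_comp`: `MvPolynomial.map θ` is injective (`MvPolynomial.map_injective`).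
-/

namespace Pool.Agent.Helper16.UP

open Polynomial
open Pool.Agent.Helper16.TP (mapD rd der)

section

variable {κ : Type*} [Fintype κ] [DecidableEq κ] {R : Type*} [CommRing R] {M : Type*} [CommRing M]
  (ψ : R →+* M)

theorem lf_map (x : κ → R) : (lf x).map ψ = lf fun j => ψ (x j) := by
  unfold lf
  rw [map_sum]
  refine Finset.sum_congr rfl fun j _ => ?_
  rw [map_mul, MvPolynomial.map_C, MvPolynomial.map_X]

omit [Fintype κ] [DecidableEq κ] in
private theorem aeval_map65 (g : κ → R[X]) (F : MvPolynomial κ R) :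
    (MvPolynomial.aeval g F : R[X]).map ψ =
      MvPolynomial.aeval (fun j => (g j).map ψ) (F.map ψ) := by
  induction F using MvPolynomial.induction_on with
  | C a =>
    rw [MvPolynomial.map_C, MvPolynomial.aeval_C, MvPolynomial.aeval_C]
    simp
  | add p q hp hq => rw [map_add, Polynomial.map_add, hp, hq, map_add, map_add]
  | mul_X p j hp =>
    rw [map_mul, Polynomial.map_mul, hp, map_mul, map_mul, MvPolynomial.map_X,
      MvPolynomial.aeval_X, MvPolynomial.aeval_X]

theorem pen_map (o : κ) (c : κ → R) (F : MvPolynomial κ R) :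
    (pen o c F).map ψ = pen o (fun j => ψ (c j)) (F.map ψ) := by
  unfold pen
  rw [aeval_map65]
  congr 2
  funext j
  by_cases h : j = o
  · simp [h]
  · simp [h]

theorem pend_map (o : κ) (c : κ → R) (F : MvPolynomial κ R) (j : κ) :
    (pend o c F j).map ψ = pend o (fun j => ψ (c j)) (F.map ψ) j := by
  unfold pend
  rw [pen_map, MvPolynomial.pderiv_map]

theorem ev_map (o : κ) (c : κ → R) (F Q : MvPolynomial κ R) :
    (ev o c F Q).map ψ = ev o (fun j => ψ (c j)) (F.map ψ) (Q.map ψ) := by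
  unfold ev
  rw [aeval_map65]
  congr 2
  funext j
  exact pend_map ψ o c F j

theorem rdp_map (r : ℕ) (o : κ) (c : κ → R) (F : MvPolynomial κ R) :
    ψ (rdp r o c F) = rdp r o (fun j => ψ (c j)) (F.map ψ) := by
  unfold rdp rd
  rw [← resultant_map_map, ← derivative_map, pen_map]

theorem rs_map (r e : ℕ) (o : κ) (c : κ → R) (F Q : MvPolynomial κ R) :
    ψ (rs r e o c F Q) = rs r e o (fun j => ψ (c j)) (F.map ψ) (Q.map ψ) := by
  unfold rs
  rw [← resultant_map_map, pen_map, ev_map]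

theorem lc_map (r : ℕ) (o : κ) (F : MvPolynomial κ R) : ψ (lc r o F) = lc r o (F.map ψ) := by
  unfold lc
  rw [MvPolynomial.coeff_map]

theorem dec_comp {M' : Type*} [CommRing M'] (θ : M →+* M') {r : ℕ} (o : κ)
    (F : MvPolynomial κ R) (x : Fin r → κ → M) (h : Dec ψ o F x) :
    Dec (θ.comp ψ) o F fun σ j => θ (x σ j) := by
  refine ⟨fun σ => by show θ (x σ o) = 1; rw [h.1 σ, map_one], ?_⟩
  rw [← MvPolynomial.map_map, h.2, map_mul, MvPolynomial.map_C, map_prod, RingHom.comp_apply]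
  congr 1
  exact Finset.prod_congr rfl fun σ _ => lf_map θ (x σ)

theorem dec_of_comp {M' : Type*} [CommRing M'] (θ : M →+* M') (hθ : Function.Injective θ) {r : ℕ}
    (o : κ) (F : MvPolynomial κ R) (x : Fin r → κ → M)
    (h : Dec (θ.comp ψ) o F fun σ j => θ (x σ j)) : Dec ψ o F x := by
  refine ⟨fun σ => hθ (by rw [map_one]; exact h.1 σ), ?_⟩
  apply MvPolynomial.map_injective θ hθ
  rw [MvPolynomial.map_map, h.2, map_mul, MvPolynomial.map_C, map_prod, RingHom.comp_apply]
  congr 1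
  exact Finset.prod_congr rfl fun σ _ => (lf_map θ (x σ)).symm

end

variable {d m : ℕ} {R : Type*} [CommRing R] {M : Type*} [CommRing M] (ψ : R →+* M)

private theorem map_mapD65 {A B : Type*} [CommRing A] [CommRing B] (ψ : A →+* B) (d : A → A)
    (d' : B → B) (h0 : d 0 = 0) (h0' : d' 0 = 0) (h : ∀ x, d' (ψ x) = ψ (d x)) (F : A[X]) :
    mapD d' (F.map ψ) = (mapD d F).map ψ := by
  ext i
  rw [Pool.Agent.Helper16.TP.coeff_mapD d' h0', coeff_map, coeff_map,
    Pool.Agent.Helper16.TP.coeff_mapD d h0, h]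

private theorem nn_map65 {κ : Type*} [Fintype κ] [DecidableEq κ] (o : κ) (c : κ → R)
    (F : MvPolynomial κ R) (δ : R → R) (δ' : M → M) (h0 : δ 0 = 0) (h0' : δ' 0 = 0)
    (hδ : ∀ x, δ' (ψ x) = ψ (δ x)) (j : κ) :
    (nn o c F δ j).map ψ = nn o (fun j => ψ (c j)) (F.map ψ) δ' j := by
  unfold nn
  rw [Polynomial.map_sub, Polynomial.map_mul, Polynomial.map_mul, ← derivative_map,
    ← derivative_map, ← map_mapD65 ψ δ δ' h0 h0' hδ, ← map_mapD65 ψ δ δ' h0 h0' hδ, pend_map,
    pen_map]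

theorem Theta_map (r : ℕ) (c : Fin (d + 1) ⊕ Fin m → R)
    (F : MvPolynomial (Fin (d + 1) ⊕ Fin m) R) (D : Fin d → R → R) (D' : Fin d → M → M)
    (h0 : ∀ i, D i 0 = 0) (h0' : ∀ i, D' i 0 = 0) (hD : ∀ i x, D' i (ψ x) = ψ (D i x)) :
    ψ (Theta r c F D) = Theta r (fun j => ψ (c j)) (F.map ψ) D' := by
  unfold Theta
  rw [← resultant_map_map, pen_map]
  congr 1
  unfold theta
  rw [← Polynomial.coe_mapRingHom, RingHom.map_det]
  congr 1
  ext a i : 2
  rw [RingHom.mapMatrix_apply, Matrix.map_apply, Matrix.of_apply, Matrix.of_apply,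
    Polynomial.coe_mapRingHom]
  refine Fin.cases ?_ (fun i => ?_) i
  · rw [Fin.cons_zero, Fin.cons_zero, pend_map]
  · rw [Fin.cons_succ, Fin.cons_succ]
    rw [nn_map65 ψ _ c F (D i) (D' i) (h0 i) (h0' i) (hD i)]

theorem Del_map (φ : Fin m → MvPolynomial (Fin (d + 1) ⊕ Fin m) R) :
    (Del φ).map ψ = Del fun i => (φ i).map ψ := by
  unfold Del
  rw [RingHom.map_det]
  congr 1
  ext i k : 2
  rw [RingHom.mapMatrix_apply, Matrix.map_apply, Matrix.of_apply, Matrix.of_apply,
    MvPolynomial.pderiv_map]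

end Pool.Agent.Helper16.UP
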