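import Pool.Agent.Helper16.UP.Defs

/-!
# Block UP-A2: degrees

PROOF. `pen`: sum over the monomials `γ` of `F`, `|γ| = r`, each factor has degree `≤ 1`. `pend`: `MvPolynomial.IsHomogeneous.pderiv`
(the derivative of a form of degree `r` is a form of degree `r - 1`). `ev`: `Q` is a sum of monomials of degree `e` in polynomials of degree `≤ r - 1`.
`nn`: `mapD δ` does not raise the degree (`coeff_mapD`, needs `δ 0 = 0`), `derivative` lowers it: `(r - 1) + (r - 1)` and
`(r - 1 - 1) + r ≤ 2 (r - 1)` if `r ≥ 2`; if `r ≤ 1` then `pend` is constant, `derivative (pend) = 0`. `theta`: expansion of the determinant (`Matrix.det_apply`),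
one factor of degree `≤ r - 1` and `d` factors of degree `≤ 2 (r - 1)` (`Fin.prod_univ_succ`).
`Del_hom`: `Matrix.det_apply`, each product is a form of degree `∑ (a i - 1)`.
-/

namespace Pool.Agent.Helper16.UP

open Polynomial
open Pool.Agent.Helper16.TP (mapD rd der)

section

variable {κ : Type*} [Fintype κ] [DecidableEq κ] {R : Type*} [CommRing R]

omit [Fintype κ] [DecidableEq κ] in
private theorem natDegree_aeval_h12 (u : κ → R[X]) {B e : ℕ} (hu : ∀ j, (u j).natDegree ≤ B)
    (Q : MvPolynomial κ R) (hQ : Q.IsHomogeneous e) : (MvPolynomial.aeval u Q).natDegree ≤ e * B := by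
  rw [MvPolynomial.aeval_def, MvPolynomial.eval₂_eq]
  refine natDegree_sum_le_of_forall_le _ _ fun γ hγ => ?_
  have h1 : Finsupp.weight 1 γ = e := hQ (MvPolynomial.mem_support_iff.1 hγ)
  have h2 : ∑ i ∈ γ.support, γ i = e := by
    rw [Finsupp.weight_apply] at h1
    simpa [Finsupp.sum] using h1
  refine (natDegree_mul_le).trans ?_
  have h3 : (algebraMap R R[X] (MvPolynomial.coeff γ Q)).natDegree = 0 := natDegree_C _
  rw [h3, zero_add]
  refine (natDegree_prod_le _ _).trans ?_
  rw [← h2, Finset.sum_mul]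
  exact Finset.sum_le_sum fun i _ => (natDegree_pow_le).trans (Nat.mul_le_mul_left _ (hu i))

omit [Fintype κ] in
private theorem natDegree_pt_h12 (o : κ) (c : κ → R) (j : κ) :
    (((if j = o then X else 0) - C (c j) : R[X])).natDegree ≤ 1 := by
  refine (natDegree_sub_le _ _).trans (max_le ?_ ?_)
  · split_ifs
    · exact natDegree_X_le
    · simp
  · rw [natDegree_C]
    omega

theorem natDegree_pen (o : κ) (c : κ → R) {r : ℕ} (F : MvPolynomial κ R)
    (hF : F.IsHomogeneous r) : (pen o c F).natDegree ≤ r := by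
  have := natDegree_aeval_h12 _ (natDegree_pt_h12 o c) F hF
  rwa [mul_one] at this

theorem natDegree_pend (o : κ) (c : κ → R) {r : ℕ} (F : MvPolynomial κ R)
    (hF : F.IsHomogeneous r) (j : κ) : (pend o c F j).natDegree ≤ r - 1 :=
  natDegree_pen o c _ hF.pderiv

theorem natDegree_ev (o : κ) (c : κ → R) {r e : ℕ} (F Q : MvPolynomial κ R)
    (hF : F.IsHomogeneous r) (hQ : Q.IsHomogeneous e) : (ev o c F Q).natDegree ≤ e * (r - 1) :=
  natDegree_aeval_h12 _ (natDegree_pend o c F hF) Q hQ

private theorem natDegree_mapD_h12 (δ : R → R) (h0 : δ 0 = 0) {F : R[X]} {n : ℕ} (hF : F.natDegree ≤ n) :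
    (mapD δ F).natDegree ≤ n := by
  rw [natDegree_le_iff_coeff_eq_zero]
  intro N hN
  rw [Pool.Agent.Helper16.TP.coeff_mapD δ h0, coeff_eq_zero_of_natDegree_lt (lt_of_le_of_lt hF hN), h0]

theorem natDegree_nn (o : κ) (c : κ → R) {r : ℕ} (F : MvPolynomial κ R) (hF : F.IsHomogeneous r)
    (δ : R → R) (h0 : δ 0 = 0) (j : κ) : (nn o c F δ j).natDegree ≤ 2 * (r - 1) := by
  have h1 := natDegree_pend o c F hF j
  have h2 := natDegree_pen o c F hF
  have h3 := natDegree_mapD_h12 δ h0 h1
  have h4 := natDegree_mapD_h12 δ h0 h2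
  have h5 : (derivative (pen o c F)).natDegree ≤ r - 1 :=
    (natDegree_derivative_le _).trans (Nat.sub_le_sub_right h2 1)
  unfold nn
  refine (natDegree_sub_le _ _).trans (max_le ?_ ?_)
  · refine (natDegree_mul_le).trans ?_
    omega
  · by_cases hr : r ≤ 1
    · have h6 : derivative (pend o c F j) = 0 := by
        rw [eq_C_of_natDegree_eq_zero (p := pend o c F j) (by omega), derivative_C]
      rw [h6, zero_mul, natDegree_zero]
      omega
    · have h6 : (derivative (pend o c F j)).natDegree ≤ r - 1 - 1 :=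
        (natDegree_derivative_le _).trans (Nat.sub_le_sub_right h1 1)
      refine (natDegree_mul_le).trans ?_
      omega

end

variable {d m : ℕ} {R : Type*} [CommRing R]

theorem natDegree_theta {r : ℕ} (c : Fin (d + 1) ⊕ Fin m → R)
    (F : MvPolynomial (Fin (d + 1) ⊕ Fin m) R) (hF : F.IsHomogeneous r) (D : Fin d → R → R)
    (h0 : ∀ i, D i 0 = 0) : (theta c F D).natDegree ≤ (2 * d + 1) * (r - 1) := by
  unfold theta
  rw [Matrix.det_apply]
  refine natDegree_sum_le_of_forall_le _ _ fun σ _ => ?_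
  have hs : ∀ p : R[X], (Equiv.Perm.sign σ • p).natDegree ≤ p.natDegree := by
    intro p
    rcases Int.units_eq_one_or (Equiv.Perm.sign σ) with h | h
    · rw [h, one_smul]
    · rw [h, Units.neg_smul, one_smul, natDegree_neg]
  refine (hs _).trans ((natDegree_prod_le _ _).trans ?_)
  rw [Fin.sum_univ_succ]
  simp only [Matrix.of_apply, Fin.cons_zero, Fin.cons_succ]
  have h1 := natDegree_pend (o0 d m) c F hF (Sum.inl (σ 0))
  have h2 : ∑ i : Fin d, (nn (o0 d m) c F (D i) (Sum.inl (σ i.succ))).natDegree ≤ ∑ i : Fin d, 2 * (r - 1) :=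
    Finset.sum_le_sum fun i _ => natDegree_nn _ _ _ hF _ (h0 i) _
  rw [Finset.sum_const, Finset.card_univ, Fintype.card_fin, smul_eq_mul] at h2
  calc _ ≤ (r - 1) + d * (2 * (r - 1)) := Nat.add_le_add h1 h2
    _ = (2 * d + 1) * (r - 1) := by ring

theorem Del_hom (φ : Fin m → MvPolynomial (Fin (d + 1) ⊕ Fin m) R) (a : Fin m → ℕ)
    (hφ : ∀ i, (φ i).IsHomogeneous (a i)) : (Del φ).IsHomogeneous (∑ i, (a i - 1)) := by
  unfold Del
  rw [Matrix.det_apply]
  refine MvPolynomial.IsHomogeneous.sum _ _ _ fun σ _ => ?_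
  have hprod : (∏ i, (Matrix.of fun i k : Fin m => MvPolynomial.pderiv (Sum.inr k) (φ i)) (σ i) i).IsHomogeneous
      (∑ i, (a i - 1)) := by
    have h1 : ∑ i, (a i - 1) = ∑ i, (a (σ i) - 1) := (Equiv.sum_comp σ fun i => a i - 1).symm
    rw [h1]
    exact MvPolynomial.IsHomogeneous.prod _ _ _ fun i _ => (hφ (σ i)).pderiv
  rcases Int.units_eq_one_or (Equiv.Perm.sign σ) with h | h
  · rw [h, one_smul]
    exact hprod
  · rw [h, Units.neg_smul, one_smul]
    exact hprod.neg

end Pool.Agent.Helper16.UP
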