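import Pool.Agent.Helper16.UP.Pencil
import Pool.Agent.Helper16.UP.Deg

/-!
# Block UP-A4: resultants in terms of the points

`F = a ∏_σ (∑_j x_j^σ U_j)` over a field `M`, `x_o^σ = 1`, `z_σ = ∑ c_j x_j^σ`, `P = pen o c F = a ∏ (X - z_σ)`.

PROOF. `eval_der`: derivative of the product at a root (compare `eval_deriv_prod` in Helper61/AD/Fin2.lean). `eval_pend`: `pend_lf`: in the sum only the term `σ` survives at `z_σ`
(if `z_τ = z_σ` for some `τ ≠ σ` both sides are 0). `rdp_eq`, `rs_eq`: `Polynomial.resultant_eq_prod_eval` (Mathlib; used in TP/RootIneq.lean, `root_ineq`): for `P` of degree `r`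
which splits `resultant P G r k = lc ^ k * ∏_{roots} G(z)`, `natDegree G ≤ k`; the roots of `P` are the `z_σ` (`Polynomial.roots_C_mul`, `roots_prod_X_sub_C` or so).
For `rs_eq`: `G = ev o c F Q`, `G(z_σ) = Q((x_j^σ P'(z_σ))_j) = P'(z_σ) ^ e * Q(x^σ)` (`Q` homogeneous; `MvPolynomial.IsHomogeneous.eval₂` or sum over the monomials), degree by `natDegree_ev`
(`F` is homogeneous of degree `r`: product of linear forms), `a ^ (e (r - 1)) ∏ P'(z_σ) ^ e = (a ^ (r - 1) ∏ P'(z_σ)) ^ e`.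
-/

namespace Pool.Agent.Helper16.UP

open Polynomial
open Pool.Agent.Helper16.TP (mapD rd der)

variable {κ : Type*} [Fintype κ] [DecidableEq κ] {M : Type*} [Field M]

theorem hom_prod_lf {r : ℕ} (a : M) (x : Fin r → κ → M) :
    (MvPolynomial.C a * ∏ σ, lf (x σ)).IsHomogeneous r := by
  have h1 : (∏ σ : Fin r, lf (x σ)).IsHomogeneous r := by
    have h2 := MvPolynomial.IsHomogeneous.prod (R := M) Finset.univ (fun σ : Fin r => lf (x σ))
      (fun _ => 1) (fun σ _ => by
        unfold lf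
        refine MvPolynomial.IsHomogeneous.sum _ _ 1 fun j _ => ?_
        exact MvPolynomial.isHomogeneous_C_mul_X _ _)
    simpa using h2
  have h3 := (MvPolynomial.isHomogeneous_C κ a).mul h1
  rwa [zero_add] at h3

private lemma eval_pen_der11 (a : M) {r : ℕ} (Z : Fin r → M) (σ : Fin r) :
    (derivative (C a * ∏ σ, (X - C (Z σ)))).eval (Z σ) =
      a * ∏ τ ∈ Finset.univ.erase σ, (Z σ - Z τ) := by
  rw [derivative_C_mul, eval_C_mul, derivative_prod_finset, eval_finset_sum,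
    Finset.sum_eq_single σ]
  · rw [derivative_X_sub_C, mul_one, eval_prod]
    simp
  · intro τ _ hτ
    rw [derivative_X_sub_C, mul_one, eval_prod]
    refine Finset.prod_eq_zero (Finset.mem_erase.2 ⟨hτ.symm, Finset.mem_univ σ⟩) ?_
    simp
  · intro h
    exact absurd (Finset.mem_univ _) h

theorem eval_der (o : κ) (c : κ → M) {r : ℕ} (a : M) (x : Fin r → κ → M) (hx : ∀ σ, x σ o = 1)
    (σ : Fin r) :
    (derivative (pen o c (MvPolynomial.C a * ∏ σ, lf (x σ)))).eval (∑ j, c j * x σ j) =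
      a * ∏ τ ∈ Finset.univ.erase σ, (∑ j, c j * x σ j - ∑ j, c j * x τ j) := by
  rw [pen_lf o c a x hx]
  exact eval_pen_der11 a (fun σ => ∑ j, c j * x σ j) σ

theorem eval_pend (o : κ) (c : κ → M) {r : ℕ} (a : M) (x : Fin r → κ → M) (hx : ∀ σ, x σ o = 1)
    (σ : Fin r) (j : κ) :
    (pend o c (MvPolynomial.C a * ∏ σ, lf (x σ)) j).eval (∑ j, c j * x σ j) =
      x σ j * (derivative (pen o c (MvPolynomial.C a * ∏ σ, lf (x σ)))).eval
        (∑ j, c j * x σ j) := by
  rw [eval_der o c a x hx, pend_lf o c a x hx, eval_C_mul, eval_finset_sum,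
    Finset.sum_eq_single σ]
  · rw [eval_C_mul, eval_prod]
    simp only [eval_sub, eval_X, eval_C]
    ring
  · intro τ _ hτ
    rw [eval_C_mul, eval_prod]
    have h1 : ∏ ρ ∈ Finset.univ.erase τ, eval (∑ j, c j * x σ j) (X - C (∑ j, c j * x ρ j)) = 0 := by
      refine Finset.prod_eq_zero (Finset.mem_erase.2 ⟨hτ.symm, Finset.mem_univ σ⟩) ?_
      rw [eval_sub, eval_X, eval_C, sub_self]
    rw [h1, mul_zero]
  · intro h
    exact absurd (Finset.mem_univ _) h

private lemma res_prod11 {a : M} (ha : a ≠ 0) {r : ℕ} (Z : Fin r → M) (G : M[X]) (k : ℕ)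
    (hG : G.natDegree ≤ k) :
    resultant (C a * ∏ σ, (X - C (Z σ))) G r k = a ^ k * ∏ σ, G.eval (Z σ) := by
  have hmon : (∏ σ, (X - C (Z σ))).Monic := monic_prod_of_monic _ _ fun σ _ => monic_X_sub_C _
  have hdeg : (C a * ∏ σ, (X - C (Z σ))).natDegree = r := by
    rw [natDegree_C_mul ha, natDegree_prod_of_monic _ _ fun σ _ => monic_X_sub_C _]
    simp
  have hlc : (C a * ∏ σ, (X - C (Z σ))).leadingCoeff = a := by
    rw [leadingCoeff_mul, leadingCoeff_C, hmon.leadingCoeff, mul_one]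
  have hsp : (C a * ∏ σ, (X - C (Z σ))).Splits :=
    Splits.C_mul (Splits.prod fun σ _ => Splits.X_sub_C _) a
  have hroots : (C a * ∏ σ, (X - C (Z σ))).roots = Finset.univ.val.map Z := by
    rw [roots_C_mul _ ha]
    have h1 : (∏ σ, (X - C (Z σ))) = ((Finset.univ.val.map Z).map fun z => X - C z).prod := by
      rw [Multiset.map_map]; rfl
    rw [h1, roots_multiset_prod_X_sub_C]
  have h1 := resultant_eq_prod_eval (C a * ∏ σ, (X - C (Z σ))) G k hG hsp
  rw [hdeg, hlc, hroots, Multiset.map_map] at h1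
  exact h1

theorem rdp_eq (o : κ) (c : κ → M) {r : ℕ} (hr : 1 ≤ r) (a : M) (ha : a ≠ 0) (x : Fin r → κ → M)
    (hx : ∀ σ, x σ o = 1) :
    rdp r o c (MvPolynomial.C a * ∏ σ, lf (x σ)) = a ^ (r - 1) *
      ∏ σ, (derivative (pen o c (MvPolynomial.C a * ∏ σ, lf (x σ)))).eval
        (∑ j, c j * x σ j) := by
  unfold rdp rd
  have h2 := natDegree_pen o c _ (hom_prod_lf a x)
  have h3 : (derivative (pen o c (MvPolynomial.C a * ∏ σ, lf (x σ)))).natDegree ≤ r - 1 :=
    (natDegree_derivative_le _).trans (by omega)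
  have h4 := pen_lf o c a x hx
  generalize derivative (pen o c (MvPolynomial.C a * ∏ σ, lf (x σ))) = G at h3 ⊢
  rw [h4]
  exact res_prod11 ha (fun σ => ∑ j, c j * x σ j) G (r - 1) h3

private lemma eval_hom11 {e : ℕ} (Q : MvPolynomial κ M) (hQ : Q.IsHomogeneous e) (y : κ → M) (t : M) :
    MvPolynomial.eval (fun j => y j * t) Q = t ^ e * MvPolynomial.eval y Q := by
  rw [MvPolynomial.eval_eq', MvPolynomial.eval_eq', Finset.mul_sum]
  refine Finset.sum_congr rfl fun γ hγ => ?_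
  have hs : ∑ j, γ j = e := by
    have h2 := hQ (MvPolynomial.mem_support_iff.1 hγ)
    rw [Finsupp.weight_eq_sum] at h2
    simpa using h2
  have h3 : ∏ j, (y j * t) ^ γ j = t ^ e * ∏ j, y j ^ γ j := by
    rw [← hs, ← Finset.prod_pow_eq_pow_sum, ← Finset.prod_mul_distrib]
    refine Finset.prod_congr rfl fun j _ => ?_
    rw [mul_pow, mul_comm]
  rw [h3]
  ring

theorem rs_eq (o : κ) (c : κ → M) {r : ℕ} (hr : 1 ≤ r) (a : M) (ha : a ≠ 0) (x : Fin r → κ → M)
    (hx : ∀ σ, x σ o = 1) {e : ℕ} (Q : MvPolynomial κ M) (hQ : Q.IsHomogeneous e) :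
    rs r e o c (MvPolynomial.C a * ∏ σ, lf (x σ)) Q =
      rdp r o c (MvPolynomial.C a * ∏ σ, lf (x σ)) ^ e * ∏ σ, MvPolynomial.eval (x σ) Q := by
  rw [rdp_eq o c hr a ha x hx]
  unfold rs
  have h2 := natDegree_ev o c _ Q (hom_prod_lf a x) hQ
  have h5 : ∀ σ, (ev o c (MvPolynomial.C a * ∏ σ, lf (x σ)) Q).eval (∑ j, c j * x σ j) =
      (derivative (pen o c (MvPolynomial.C a * ∏ σ, lf (x σ)))).eval (∑ j, c j * x σ j) ^ e *
        MvPolynomial.eval (x σ) Q := by
    intro σ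
    unfold ev
    rw [MvPolynomial.aeval_def]
    have h6 := MvPolynomial.eval₂_comp_left (evalRingHom (∑ j, c j * x σ j)) (algebraMap M M[X])
      (pend o c (MvPolynomial.C a * ∏ σ, lf (x σ))) Q
    rw [coe_evalRingHom] at h6
    rw [h6]
    have h7 : (evalRingHom (∑ j, c j * x σ j)).comp (algebraMap M M[X]) = RingHom.id M := by
      ext z
      simp
    have h8 : (eval (∑ j, c j * x σ j) ∘ pend o c (MvPolynomial.C a * ∏ σ, lf (x σ))) =
        fun j => x σ j * (derivative (pen o c (MvPolynomial.C a * ∏ σ, lf (x σ)))).eval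
        (∑ j, c j * x σ j) := by
      funext j
      exact eval_pend o c a x hx σ j
    rw [h7, h8]
    exact eval_hom11 Q hQ (x σ) _
  have h4 := pen_lf o c a x hx
  have h9 : ∀ G : M[X], G.natDegree ≤ e * (r - 1) →
      resultant (pen o c (MvPolynomial.C a * ∏ σ, lf (x σ))) G r (e * (r - 1)) =
      a ^ (e * (r - 1)) * ∏ σ, G.eval (∑ j, c j * x σ j) := by
    intro G hG
    rw [h4]
    exact res_prod11 ha (fun σ => ∑ j, c j * x σ j) G _ hG
  rw [h9 _ h2, Finset.prod_congr rfl fun σ _ => h5 σ, Finset.prod_mul_distrib, Finset.prod_pow,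
    mul_pow, ← pow_mul, mul_comm (r - 1) e, mul_assoc]

end Pool.Agent.Helper16.UP
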