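import Pool.Agent.Helper16.UP.Defs2
import Pool.Agent.Helper16.UP.Funct
import Pool.Agent.Helper16.UP.Values
import Pool.Agent.Helper16.TP.Poly

/-!
# Block UP-K2: the family of the points

PROOF. `KG = Filter.Germ (U : Filter ℕ) (AlgebraicClosure K)` is a field (`Filter.Germ.instField` for ultrafilters), `A = AA K s`, `E = EE K s`. The ring homomorphism `ι : A → KG`, `P ↦ germ of (i ↦ P (e_i))`
is injective (`li` in TP/Poly.lean), so `KG` is a field extension of `E` (`IsFractionRing.lift`). `X σ j` = germ of `i ↦ x i σ j`, `W` = germ of `w`. `H.map ι = C W * ∏ σ lf (X σ)` (coefficientwise: compare the germs of the coefficients;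
`MvPolynomial.map` over functions and germs, every identity of polynomials which holds for almost all `i` holds for the germs), `X σ o = 1`; `W = ι (lc r o H)` (coefficient of `U_o ^ r`).
The `X σ j` are algebraic over `E`: `Z = ∑ c0_j X σ j` is a root of `pen o (c0) (H.map ι) = (pen o (cA c0) H).map ι` (`pen_lf`, `pen_map`) which is not `0` (leading coefficient `W ≠ 0`), and
`X σ j = (pend .. j)(Z) / P'(Z)` (`eval_pend`; `P'(Z) ≠ 0` because `rdp ≠ 0` for almost all `i`, `rdp_eq`), `pend ..`, `P'` have coefficients in `E`. So `M0 = adjoin E (all X σ j) ⊆ KG` is algebraic over `E` and there is an `E`-embedding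
`M0 → AlgebraicClosure E` (`IsAlgClosed.lift`); `y σ j` = the image of `X σ j`. The identity `H.map ι = C W * ∏ lf (X σ)` descends to `M0` (`dec_of_comp`) and maps to `EC K s` (`dec_comp`);
`φ i (X σ) = 0` because it holds for almost all `i` (`MvPolynomial.induction_on`: `aeval` commutes with germs), so `φ i (y σ) = 0`. If `Q ≠ 0` over `k` vanished at `(y σ (inl b.succ))_b` it would vanish
at `(X σ (inl b.succ))_b`, so at `x i σ` for almost all `i`, contradiction to `hgen` (`algebraicIndependent_iff`).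
-/

namespace Pool.Agent.Helper16.UP

open NumberField Finset Filter
open Pool.Agent.Helper64.Vojta (Pl nv sn)
open Pool.Agent.Helper26.DMC (SUnit)
open Pool.Agent.Helper16.TP (MI lsum li)
open MvPolynomial (aeval)

universe u

section germ

variable {L : Type u} [Field L] (U : Ultrafilter ℕ)

/-- The ultrapower. -/
private abbrev KG21 (L : Type u) [Field L] (U : Ultrafilter ℕ) : Type u :=
  Filter.Germ (U : Filter ℕ) L

/-- The class of a sequence. -/
private noncomputable def q21 : (ℕ → L) →+* KG21 L U := Filter.Germ.coeRingHom (U : Filter ℕ)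

private theorem q21_eq (f g : ℕ → L) :
    q21 U f = q21 U g ↔ ∀ᶠ i in (U : Filter ℕ), f i = g i := Filter.Germ.coe_eq

private theorem q21_zero (f : ℕ → L) :
    q21 U f = 0 ↔ ∀ᶠ i in (U : Filter ℕ), f i = 0 := by
  rw [← map_zero (q21 U), q21_eq]
  rfl

private theorem q21_map {κ : Type*} (P P' : MvPolynomial κ (ℕ → L))
    (h : ∀ᶠ i in (U : Filter ℕ), P.map (Pi.evalRingHom (fun _ => L) i) =
      P'.map (Pi.evalRingHom (fun _ => L) i)) : P.map (q21 U) = P'.map (q21 U) := by
  ext n
  rw [MvPolynomial.coeff_map, MvPolynomial.coeff_map, q21_eq]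
  filter_upwards [h] with i hi
  have h1 := congrArg (MvPolynomial.coeff n) hi
  rw [MvPolynomial.coeff_map, MvPolynomial.coeff_map] at h1
  exact h1

end germ

/-- The leading coefficient of a product. -/
private theorem h21_lc {κ : Type*} [Fintype κ] [DecidableEq κ] {M : Type*} [Field M] {r : ℕ}
    (o : κ) (a : M) (x : Fin r → κ → M) (hx : ∀ σ, x σ o = 1) :
    lc r o (MvPolynomial.C a * ∏ σ, lf (x σ)) = a := by
  rw [← pen_coeff o (fun _ => 0) _ (hom_prod_lf a x), pen_lf o _ a x hx, Polynomial.coeff_C_mul]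
  have hmon : (∏ σ, (Polynomial.X - Polynomial.C (∑ j, (fun _ => 0 : κ → M) j * x σ j))).Monic :=
    Polynomial.monic_prod_of_monic _ _ fun σ _ => Polynomial.monic_X_sub_C _
  have hdeg : (∏ σ, (Polynomial.X - Polynomial.C
      (∑ j, (fun _ => 0 : κ → M) j * x σ j))).natDegree = r := by
    rw [Polynomial.natDegree_prod_of_monic _ _ fun σ _ => Polynomial.monic_X_sub_C _]
    rw [Finset.sum_congr rfl fun σ _ => Polynomial.natDegree_X_sub_C _, Finset.sum_const,
      Finset.card_univ, Fintype.card_fin, smul_eq_mul, mul_one]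
  have h1 := hmon.coeff_natDegree
  rw [hdeg] at h1
  rw [h1, mul_one]

theorem deco {k K : Type u} [Field k] [Field K] [NumberField K] [Algebra k K]
    (U : Ultrafilter ℕ) (T : Finset (FinitePlace K)) {d m s r : ℕ} (hr : 1 ≤ r)
    (e : Fin s → ℕ → K) (he : ∀ b, SUnit U T (e b)) (hmi : MI U e)
    (F : ℕ → MvPolynomial (Fin (d + 1) ⊕ Fin m) K)
    (x : ℕ → Fin r → Fin (d + 1) ⊕ Fin m → AlgebraicClosure K)
    (hx1 : ∀ i σ, x i σ (o0 d m) = 1)
    (hFx : ∀ i, (F i).map (algebraMap K (AlgebraicClosure K)) = ∏ σ, lf (x i σ))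
    (H : MvPolynomial (Fin (d + 1) ⊕ Fin m) (AA K s)) (w : ℕ → K)
    (hw : ∀ᶠ i in (U : Filter ℕ), w i ≠ 0 ∧
        H.map (MvPolynomial.eval fun b => e b i) = MvPolynomial.C (w i) * F i)
    {τ₀ : Type*} (φ : τ₀ → MvPolynomial (Fin (d + 1) ⊕ Fin m) K)
    (hφ : ∀ i σ j, aeval (x i σ) (φ j) = 0)
    (hgen : ∀ Q : MvPolynomial (Fin d) k, Q ≠ 0 → ∀ᶠ i in (U : Filter ℕ), ∀ σ,
      aeval (fun b : Fin d => x i σ (Sum.inl b.succ)) (Q.map (algebraMap k K)) ≠ 0)
    (c0 : Fin (d + 1) ⊕ Fin m → K)
    (h0 : ∀ᶠ i in (U : Filter ℕ), rdp r (o0 d m) c0 (F i) ≠ 0) :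
    ∃ y : Fin r → Fin (d + 1) ⊕ Fin m → EC K s,
      Dec (algebraMap (AA K s) (EC K s)) (o0 d m) H y ∧ (∀ σ i, aeval (y σ) (φ i) = 0) ∧
      ∀ σ, AlgebraicIndependent k fun b : Fin d => y σ (Sum.inl b.succ) := by
  classical
  let L := AlgebraicClosure K
  -- the ring homomorphism
  let ι0 : AA K s →+* (ℕ → L) := RingHom.pi fun i =>
    (algebraMap K L).comp (MvPolynomial.eval fun b => e b i)
  have hι0 : ∀ P i, ι0 P i = algebraMap K L (MvPolynomial.eval (fun b => e b i) P) :=
    fun P i => rfl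
  let ι : AA K s →+* KG21 L U := (q21 U).comp ι0
  have hιinj : Function.Injective ι := by
    rw [injective_iff_map_eq_zero]
    intro P hP
    by_contra hne
    have h1 := li U T e he hmi P hne
    have h2 : ∀ᶠ i in (U : Filter ℕ), ι0 P i = 0 := (q21_zero U _).mp hP
    obtain ⟨i, h3, h4⟩ := (h1.and h2).exists
    rw [hι0] at h4
    exact h3 ((map_eq_zero _).mp h4)
  let ιE : EE K s →+* KG21 L U := IsFractionRing.lift (A := AA K s) (K := EE K s) hιinj
  have hιE : ∀ P, ιE (algebraMap (AA K s) (EE K s) P) = ι P := fun P =>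
    IsFractionRing.lift_algebraMap hιinj P
  -- the points
  let Xf : Fin r → Fin (d + 1) ⊕ Fin m → ℕ → L := fun σ j i => x i σ j
  let XX : Fin r → Fin (d + 1) ⊕ Fin m → KG21 L U := fun σ j => q21 U (Xf σ j)
  let W : KG21 L U := q21 U fun i => algebraMap K L (w i)
  have hXX1 : ∀ σ, XX σ (o0 d m) = 1 := by
    intro σ
    rw [← map_one (q21 U)]
    apply (q21_eq U _ _).mpr
    exact Eventually.of_forall fun i => hx1 i σ
  have hW : W ≠ 0 := by
    intro h1
    have h2 := (q21_zero U _).mp h1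
    obtain ⟨i, h3, h4⟩ := (h2.and hw).exists
    exact h4.1 ((map_eq_zero _).mp h3)
  have hdec0 : H.map ι = MvPolynomial.C W * ∏ σ, lf (XX σ) := by
    have h1 : (H.map ι0).map (q21 U) = (MvPolynomial.C (fun i => algebraMap K L (w i)) *
        ∏ σ, lf (Xf σ)).map (q21 U) := by
      apply q21_map
      filter_upwards [hw] with i hi
      rw [MvPolynomial.map_map, map_mul, MvPolynomial.map_C, map_prod]
      have h2 : (Pi.evalRingHom (fun _ => L) i).comp ι0 =
          (algebraMap K L).comp (MvPolynomial.eval fun b => e b i) := rfl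
      rw [h2, ← MvPolynomial.map_map, hi.2, map_mul, MvPolynomial.map_C, hFx]
      congr 1
      apply Finset.prod_congr rfl
      intro σ _
      rw [lf_map]
      rfl
    rw [MvPolynomial.map_map, map_mul, MvPolynomial.map_C, map_prod] at h1
    rw [h1]
    congr 1
    apply Finset.prod_congr rfl
    intro σ _
    rw [lf_map]
  have hlcH : ι (lc r (o0 d m) H) = W := by
    rw [lc_map, hdec0, h21_lc _ _ _ hXX1]
  have hdec : Dec ι (o0 d m) H XX := ⟨hXX1, by rw [hlcH]; exact hdec0⟩
  -- the values `z`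
  let c : Fin (d + 1) ⊕ Fin m → KG21 L U := fun j => ι (cA s c0 j)
  have hc : ∀ j, c j = q21 U fun _ => algebraMap K L (c0 j) := by
    intro j
    change q21 U (ι0 (cA s c0 j)) = _
    congr 1
    funext i
    rw [hι0]
    change algebraMap K L (MvPolynomial.eval (fun b => e b i) (MvPolynomial.C (c0 j))) = _
    rw [MvPolynomial.eval_C]
  let Z : Fin r → KG21 L U := fun σ => ∑ j, c j * XX σ j
  have hZ : ∀ σ, Z σ = q21 U fun i => ∑ j, algebraMap K L (c0 j) * x i σ j := by
    intro σ
    have h1 : (fun i => ∑ j, algebraMap K L (c0 j) * x i σ j) =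
        ∑ j, (fun _ => algebraMap K L (c0 j)) * Xf σ j := by
      funext i
      rw [Finset.sum_apply]
      rfl
    rw [h1, map_sum]
    apply Finset.sum_congr rfl
    intro j _
    rw [map_mul, hc]
  have hZne : ∀ σ τ, τ ≠ σ → Z σ - Z τ ≠ 0 := by
    intro σ τ hne h1
    rw [sub_eq_zero, hZ, hZ, q21_eq] at h1
    obtain ⟨i, h2, h3⟩ := (h1.and h0).exists
    apply h3
    have h4 : algebraMap K L (rdp r (o0 d m) c0 (F i)) = 0 := by
      rw [rdp_map, hFx]
      have h5 : (∏ σ, lf (x i σ)) = MvPolynomial.C 1 * ∏ σ, lf (x i σ) := by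
        rw [MvPolynomial.C_1, one_mul]
      rw [h5, rdp_eq (o0 d m) _ hr 1 one_ne_zero (x i) (hx1 i)]
      rw [Finset.prod_eq_zero (Finset.mem_univ σ), mul_zero]
      rw [eval_der (o0 d m) _ 1 (x i) (hx1 i) σ]
      rw [Finset.prod_eq_zero (Finset.mem_erase.mpr ⟨hne, Finset.mem_univ τ⟩), mul_zero]
      rw [sub_eq_zero]
      exact h2
    exact (map_eq_zero _).mp h4
  -- the algebra structure and the algebraicity
  let algE : Algebra (EE K s) (KG21 L U) := ιE.toAlgebra
  let M0 := algebraicClosure (EE K s) (KG21 L U)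
  have hmemA : ∀ P : AA K s, ι P ∈ M0 := by
    intro P
    rw [← hιE]
    exact M0.algebraMap_mem _
  have hevA : ∀ (P : Polynomial (AA K s)) (z : KG21 L U), z ∈ M0 → (P.map ι).eval z ∈ M0 := by
    intro P z hz
    rw [Polynomial.eval_eq_sum_range]
    apply sum_mem
    intro i _
    rw [Polynomial.coeff_map]
    exact mul_mem (hmemA _) (pow_mem hz i)
  have hZalg : ∀ σ, Z σ ∈ M0 := by
    intro σ
    rw [mem_algebraicClosure_iff]
    refine ⟨(pen (o0 d m) (cA s c0) H).map (algebraMap (AA K s) (EE K s)), ?_, ?_⟩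
    · intro h1
      have h2 : (pen (o0 d m) (cA s c0) H).map ι = 0 := by
        have h3 : ι = ιE.comp (algebraMap (AA K s) (EE K s)) := RingHom.ext fun P => (hιE P).symm
        rw [h3, ← Polynomial.map_map, h1, Polynomial.map_zero]
      rw [pen_map, hdec0, pen_lf (o0 d m) _ W XX hXX1] at h2
      rcases mul_eq_zero.mp h2 with h3 | h3
      · exact hW (Polynomial.C_eq_zero.mp h3)
      · exact (Polynomial.monic_prod_of_monic _ _
          fun σ _ => Polynomial.monic_X_sub_C _).ne_zero h3
    · rw [Polynomial.aeval_def, Polynomial.eval₂_map]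
      have h3 : (algebraMap (EE K s) (KG21 L U)).comp (algebraMap (AA K s) (EE K s)) = ι :=
        RingHom.ext hιE
      rw [h3, Polynomial.eval₂_eq_eval_map, pen_map, hdec0, pen_lf (o0 d m) _ W XX hXX1,
        Polynomial.eval_mul, Polynomial.eval_prod, Finset.prod_eq_zero (Finset.mem_univ σ),
        mul_zero]
      rw [Polynomial.eval_sub, Polynomial.eval_X, Polynomial.eval_C]
      exact sub_self _
  have hXalg : ∀ σ j, XX σ j ∈ M0 := by
    intro σ j
    have h1 := eval_pend (o0 d m) c W XX hXX1 σ j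
    have h2 := eval_der (o0 d m) c W XX hXX1 σ
    have h3 : (Polynomial.derivative (pen (o0 d m) c (MvPolynomial.C W * ∏ σ, lf (XX σ)))).eval
        (∑ j, c j * XX σ j) ≠ 0 := by
      rw [h2]
      apply mul_ne_zero hW
      rw [Finset.prod_ne_zero_iff]
      intro τ hτ
      exact hZne σ τ (Finset.mem_erase.mp hτ).1
    have h4 : XX σ j = (pend (o0 d m) c (MvPolynomial.C W * ∏ σ, lf (XX σ)) j).eval (Z σ) /
        (Polynomial.derivative (pen (o0 d m) c (MvPolynomial.C W * ∏ σ, lf (XX σ)))).eval (Z σ) := by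
      rw [eq_div_iff h3]
      exact h1.symm
    rw [h4]
    apply div_mem
    · rw [← hdec0, ← pend_map]
      exact hevA _ _ (hZalg σ)
    · rw [← hdec0, ← pen_map, Polynomial.derivative_map]
      exact hevA _ _ (hZalg σ)
  -- the embedding
  let ε : M0 →ₐ[EE K s] EC K s := IsAlgClosed.lift
  let X0 : Fin r → Fin (d + 1) ⊕ Fin m → M0 := fun σ j => ⟨XX σ j, hXalg σ j⟩
  let θ : M0 →+* KG21 L U := algebraMap M0 (KG21 L U)
  let ψ : AA K s →+* M0 := (algebraMap (EE K s) M0).comp (algebraMap (AA K s) (EE K s))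
  have hψ : θ.comp ψ = ι := RingHom.ext hιE
  have hε : (ε : M0 →+* EC K s).comp ψ = algebraMap (AA K s) (EC K s) := by
    refine RingHom.ext fun P => ?_
    change ε (algebraMap (EE K s) M0 (algebraMap (AA K s) (EE K s) P)) = _
    rw [AlgHom.commutes, ← IsScalarTower.algebraMap_apply]
  have key : ∀ (τ : Type) (f : τ → Fin (d + 1) ⊕ Fin m) (σ : Fin r) (p : MvPolynomial τ K),
      aeval (fun b => ε (X0 σ (f b))) p = 0 ↔
        ∀ᶠ i in (U : Filter ℕ), aeval (fun b => x i σ (f b)) p = 0 := by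
    intro τ f σ p
    have e1 : aeval (fun b => ε (X0 σ (f b))) p =
        ε (MvPolynomial.eval₂ (ψ.comp MvPolynomial.C) (fun b => X0 σ (f b)) p) := by
      have h1 := MvPolynomial.eval₂_comp_left (ε : M0 →+* EC K s) (ψ.comp MvPolynomial.C)
        (fun b => X0 σ (f b)) p
      rw [← RingHom.comp_assoc, hε] at h1
      have h2 : (algebraMap (AA K s) (EC K s)).comp MvPolynomial.C = algebraMap K (EC K s) := by
        refine RingHom.ext fun a => ?_
        change algebraMap (AA K s) (EC K s) (algebraMap K (AA K s) a) = _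
        rw [← IsScalarTower.algebraMap_apply]
      rw [h2] at h1
      exact h1.symm
    have e2 : θ (MvPolynomial.eval₂ (ψ.comp MvPolynomial.C) (fun b => X0 σ (f b)) p) =
        q21 U (MvPolynomial.eval₂ (ι0.comp MvPolynomial.C) (fun b => Xf σ (f b)) p) := by
      rw [MvPolynomial.eval₂_comp_left, MvPolynomial.eval₂_comp_left, ← RingHom.comp_assoc, hψ]
      rfl
    have e3 : ∀ i, MvPolynomial.eval₂ (ι0.comp MvPolynomial.C) (fun b => Xf σ (f b)) p i =
        aeval (fun b => x i σ (f b)) p := by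
      intro i
      have h1 := MvPolynomial.eval₂_comp_left (Pi.evalRingHom (fun _ => L) i)
        (ι0.comp MvPolynomial.C) (fun b => Xf σ (f b)) p
      have h2 : (Pi.evalRingHom (fun _ => L) i).comp (ι0.comp MvPolynomial.C) =
          algebraMap K L := by
        refine RingHom.ext fun a => ?_
        change algebraMap K L (MvPolynomial.eval (fun b => e b i) (MvPolynomial.C a)) = _
        rw [MvPolynomial.eval_C]
      rw [h2] at h1
      exact h1
    rw [e1, map_eq_zero ε, ← map_eq_zero θ, e2, q21_zero]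
    simp only [e3]
  refine ⟨fun σ j => ε (X0 σ j), ?_, ?_, ?_⟩
  · have h1 : Dec ψ (o0 d m) H X0 := by
      apply dec_of_comp ψ θ (algebraMap M0 (KG21 L U)).injective
      rw [hψ]
      exact hdec
    have h2 := dec_comp ψ (ε : M0 →+* EC K s) (o0 d m) H X0 h1
    rw [hε] at h2
    exact h2
  · intro σ i
    exact (key _ id σ (φ i)).mpr (Eventually.of_forall fun i' => hφ i' σ i)
  · intro σ
    rw [algebraicIndependent_iff]
    intro p hp
    by_contra hne
    have h1 := hgen p hne
    rw [← MvPolynomial.aeval_map_algebraMap K] at hp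
    have h2 := (key (Fin d) (fun b => Sum.inl b.succ) σ (p.map (algebraMap k K))).mp hp
    obtain ⟨i, h3, h4⟩ := (h1.and h2).exists
    exact h3 σ h4

end Pool.Agent.Helper16.UP
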