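import Pool.Agent.Helper16.UP.Osum

/-!
# Block UP-K4: bounds outside `T`

PROOF. `glow`: `R l = G * R' l`. `G(e_i) ≠ 0` and some `R l (e_i) ≠ 0` eventually (`li`). For a finite place `v ∉ T` the `e b i` have value 1, so `|R' l (e_i)|_v ≤ max 1 (pn v (R' l))` (ultrametric; see the proof of
`prod_ge` in TP/Poly.lean) `=: b_v`, and `log b_v = 0` for almost all `v` (`finS_pn`). So `log vn v (R (e_i)) ≤ log |G(e_i)|_v + log b_v` for `v ∉ T`; `osum_mono`, `osum_nv`.
`hlow`: in the same way `pn v (H(e_i)) ≤ b_v` for `v ∉ T`, so `pH (H(e_i)) - lsum T .. = osum T (log pn v (H(e_i))) ≤ C`.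
-/

namespace Pool.Agent.Helper16.UP

open NumberField Finset Filter
open Pool.Agent.Helper64.Vojta (Pl nv sn)
open Pool.Agent.Helper26.DMC (SUnit)
open Pool.Agent.V2 (vn vH pn pH)
open Pool.Agent.Helper16.TP (MI lsum)

variable {K : Type*} [Field K] [NumberField K] (U : Ultrafilter ℕ)
    (T : Finset (FinitePlace K)) {s : ℕ} (e : Fin s → ℕ → K)

include e in
private theorem glow_ub (he : ∀ b, SUnit U T (e b)) (Q : AA K s) :
    ∃ H : Pl K → ℝ, Pool.Agent.V2.FinS H ∧ (∀ v, 0 ≤ H v) ∧ ∀ᶠ i in (U : Filter ℕ),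
      ∀ v : FinitePlace K, v ∉ T →
        nv (.inr v) (MvPolynomial.eval (fun b => e b i) Q) ≤ Real.exp (H (.inr v)) := by
  classical
  by_cases hQ : Q = 0
  · refine ⟨fun _ => 0, Pool.Agent.V2.FinS.zero, fun _ => le_rfl, Eventually.of_forall fun i v _ => ?_⟩
    rw [hQ, map_zero, Pool.Agent.Helper64.Vojta.nv_zero]
    exact (Real.exp_pos _).le
  refine ⟨fun v => max 0 (Real.log (pn v Q)), ?_, fun v => le_max_left _ _, ?_⟩
  · refine Set.Finite.subset (Pool.Agent.V2.finS_pn hQ) fun v hv => ?_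
    rw [Function.mem_support] at hv ⊢
    intro h0
    apply hv
    have h1 : Real.log (pn (.inr v) Q) = 0 := h0
    simp only
    rw [h1, max_self]
  · filter_upwards [Pool.Agent.Helper16.TP.Pol16.all_unit U T e he] with i hu v hv
    have h1 : nv (.inr v) (MvPolynomial.eval (fun b => e b i) Q) ≤ pn (.inr v) Q := by
      rw [Pool.Agent.Helper16.TP.Pol16.eval_eq]
      refine Pool.Agent.Helper64.Vojta.nv_sum_le_inr v _ _ _ (Pool.Agent.V2.pn_pos _ hQ).le
        fun m _ => ?_
      rw [Pool.Agent.Helper64.Vojta.nv_mul]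
      have h4 : nv (.inr v) (Pool.Agent.Helper16.TP.Pol16.mon e m i) = 1 := by
        change v (Pool.Agent.Helper16.TP.Pol16.mon e m i) = 1
        unfold Pool.Agent.Helper16.TP.Pol16.mon
        rw [map_prod]
        refine Finset.prod_eq_one fun b _ => ?_
        rw [map_pow, (hu b).2 v hv, one_pow]
      rw [h4, mul_one]
      exact Pool.Agent.V2.le_pn _ Q m
    refine h1.trans ?_
    rw [← Real.exp_log (Pool.Agent.V2.pn_pos (.inr v) hQ), Real.exp_le_exp,
      Real.exp_log (Pool.Agent.V2.pn_pos (.inr v) hQ)]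
    exact le_max_right _ _

include e in
private theorem glow_ubs (he : ∀ b, SUnit U T (e b)) {α : Type*} (S : Finset α) (Q : α → AA K s) :
    ∃ H : Pl K → ℝ, Pool.Agent.V2.FinS H ∧ (∀ v, 0 ≤ H v) ∧ ∀ᶠ i in (U : Filter ℕ),
      ∀ v : FinitePlace K, v ∉ T → ∀ l ∈ S,
        nv (.inr v) (MvPolynomial.eval (fun b => e b i) (Q l)) ≤ Real.exp (H (.inr v)) := by
  classical
  choose H h1 h2 h3 using fun l => glow_ub U T e he (Q l)
  refine ⟨fun v => ∑ l ∈ S, H l v, Pool.Agent.V2.FinS.sum S fun l _ => h1 l,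
    fun v => Finset.sum_nonneg fun l _ => h2 l v, ?_⟩
  have h4 : ∀ᶠ i in (U : Filter ℕ), ∀ l ∈ S, ∀ v : FinitePlace K, v ∉ T →
      nv (.inr v) (MvPolynomial.eval (fun b => e b i) (Q l)) ≤ Real.exp (H l (.inr v)) :=
    (Filter.eventually_all_finset S).2 fun l _ => h3 l
  filter_upwards [h4] with i hi v hv l hl
  refine (hi l hl v hv).trans (Real.exp_le_exp.2 ?_)
  exact Finset.single_le_sum (f := fun l => H l (.inr v)) (fun l _ => h2 l _) hl

theorem glow (he : ∀ b, SUnit U T (e b)) (hmi : MI U e) {ℓ : ℕ} (G : AA K s) (hG : G ≠ 0)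
    (R : Fin ℓ → AA K s) (l0 : Fin ℓ) (h0 : R l0 ≠ 0) (hdvd : ∀ l, G ∣ R l) :
    ∃ C : ℝ, ∀ᶠ i in (U : Filter ℕ),
      (lsum T fun v => Real.log (nv v (MvPolynomial.eval (fun b => e b i) G))) ≤
        - (osum T fun v => Real.log (vn v fun l => MvPolynomial.eval (fun b => e b i) (R l))) +
          C := by
  classical
  choose R' hR' using hdvd
  obtain ⟨H, hf, -, hH⟩ := glow_ubs U T e he Finset.univ R'
  have hR0 : R' l0 ≠ 0 := by
    intro h
    apply h0
    rw [hR' l0, h, mul_zero]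
  refine ⟨osum T H, ?_⟩
  filter_upwards [hH, Pool.Agent.Helper16.TP.li U T e he hmi G hG,
    Pool.Agent.Helper16.TP.li U T e he hmi (R' l0) hR0] with i hi hGi hRi
  have hvec : (fun l => MvPolynomial.eval (fun b => e b i) (R l)) =
      fun l => MvPolynomial.eval (fun b => e b i) G *
        MvPolynomial.eval (fun b => e b i) (R' l) := by
    funext l
    rw [hR' l, map_mul]
  have hne' : (fun l => MvPolynomial.eval (fun b => e b i) (R' l)) ≠ 0 :=
    fun h => hRi (congrFun h l0)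
  have hne : (fun l => MvPolynomial.eval (fun b => e b i) (R l)) ≠ 0 := by
    rw [hvec]
    exact fun h => mul_ne_zero hGi hRi (congrFun h l0)
  have h5 : osum T (fun v => Real.log (vn v fun l => MvPolynomial.eval (fun b => e b i) (R l))) ≤
      osum T (fun v => Real.log (nv v (MvPolynomial.eval (fun b => e b i) G)) + H v) := by
    refine osum_mono T _ _ (Pool.Agent.V2.finS_vn hne)
      ((Pool.Agent.V2.finS_nv hGi).add hf) fun v hv => ?_
    rw [hvec, vn_smul, Real.log_mul (Pool.Agent.Helper64.Vojta.nv_pos _ hGi).ne'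
      (Pool.Agent.V2.vn_pos _ hne').ne']
    refine add_le_add_right ?_ _
    rw [← Real.log_exp (H (.inr v))]
    exact Real.log_le_log (Pool.Agent.V2.vn_pos _ hne')
      (Pool.Agent.V2.vn_le _ _ (Real.exp_pos _).le fun l => hi v hv l (Finset.mem_univ _))
  rw [osum_add T _ _ (Pool.Agent.V2.finS_nv hGi) hf, osum_nv T _ hGi] at h5
  linarith

theorem hlow (he : ∀ b, SUnit U T (e b)) (hmi : MI U e) {κ : Type*} [Fintype κ]
    (H : MvPolynomial κ (AA K s)) (hH : H ≠ 0) :
    ∃ C : ℝ, ∀ᶠ i in (U : Filter ℕ),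
      pH (H.map (MvPolynomial.eval fun b => e b i)) - C ≤
        lsum T fun v => Real.log (pn v (H.map (MvPolynomial.eval fun b => e b i))) := by
  classical
  obtain ⟨B, hf, -, hB⟩ := glow_ubs U T e he H.support fun γ => H.coeff γ
  obtain ⟨γ, hγ⟩ := MvPolynomial.ne_zero_iff.1 hH
  refine ⟨osum T B, ?_⟩
  filter_upwards [hB, Pool.Agent.Helper16.TP.li U T e he hmi (H.coeff γ) hγ] with i hi hγi
  have hne : H.map (MvPolynomial.eval fun b => e b i) ≠ 0 := by
    refine MvPolynomial.ne_zero_iff.2 ⟨γ, ?_⟩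
    rwa [MvPolynomial.coeff_map]
  have h5 : osum T (fun v => Real.log (pn v (H.map (MvPolynomial.eval fun b => e b i)))) ≤
      osum T B := by
    refine osum_mono T _ _ (Pool.Agent.V2.finS_pn hne) hf fun v hv => ?_
    rw [← Real.log_exp (B (.inr v))]
    refine Real.log_le_log (Pool.Agent.V2.pn_pos _ hne)
      (Pool.Agent.V2.pn_le _ _ (Real.exp_pos _).le fun d => ?_)
    rw [MvPolynomial.coeff_map]
    by_cases hd : d ∈ H.support
    · exact hi v hv d hd
    · rw [MvPolynomial.notMem_support_iff.1 hd, map_zero, Pool.Agent.Helper64.Vojta.nv_zero]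
      exact (Real.exp_pos _).le
  unfold osum at h5
  unfold osum pH
  linarith

end Pool.Agent.Helper16.UP
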