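import Pool.Agent.Helper16.UP.Defs3

/-!
# Block UP-K3: from Newton polytopes to the values at a place

PROOF. For every `γ` in the finite set `H.support` `place_le` (TP/Poly.lean) for `P0 * H.coeff γ ^ E` and `Q` gives eventually (in `i`) `log |P0(e_i)| + E log |H_γ(e_i)| ≤ log |Q(e_i)| + δ t i`; the values are
not `0` eventually (`li`). `pn v (H.map (eval e_i)) = max over γ` of `|H_γ(e_i)|_v` (`MvPolynomial.coeff_map`; it is attained at some `γ` in the support of `H`, because the sup is positive: `pn_le`, `le_pn`).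
-/

namespace Pool.Agent.Helper16.UP

open NumberField Finset Filter
open Pool.Agent.Helper64.Vojta (Pl nv sn)
open Pool.Agent.Helper26.DMC (SUnit)
open Pool.Agent.V2 (vn vH pn pH)
open Pool.Agent.Helper16.TP (MI lsum)

theorem place_forms {K : Type*} [Field K] [NumberField K] (U : Ultrafilter ℕ)
    (T : Finset (FinitePlace K)) {κ : Type*} [Fintype κ] {s : ℕ} (e : Fin s → ℕ → K)
    (he : ∀ b, SUnit U T (e b)) (hmi : MI U e) (H : MvPolynomial κ (AA K s)) (hH : H ≠ 0)
    (P0 Q : AA K s) (hP0 : P0 ≠ 0) (hQ : Q ≠ 0) (E : ℕ)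
    (hsub : ∀ (γ : κ →₀ ℕ) (w : Fin s → ℝ), ∀ μ ∈ (P0 * H.coeff γ ^ E).support,
      ∃ μ' ∈ Q.support, ∑ b, w b * (μ b : ℝ) ≤ ∑ b, w b * (μ' b : ℝ))
    (t : ℕ → ℝ) (ht : Tendsto t (U : Filter ℕ) atTop) (B : ℝ)
    (hB : ∀ b v, ∀ᶠ i in (U : Filter ℕ), |Real.log (nv v (e b i))| ≤ B * t i) (v : Pl K) (δ : ℝ)
    (hδ : 0 < δ) :
    ∀ᶠ i in (U : Filter ℕ),
      Real.log (nv v (MvPolynomial.eval (fun b => e b i) P0)) +
        E * Real.log (pn v (H.map (MvPolynomial.eval fun b => e b i))) ≤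
      Real.log (nv v (MvPolynomial.eval (fun b => e b i) Q)) + δ * t i := by
  classical
  have hc : ∀ γ ∈ H.support, H.coeff γ ≠ 0 := fun γ hγ => MvPolynomial.mem_support_iff.1 hγ
  have h1 : ∀ᶠ i in (U : Filter ℕ), ∀ γ ∈ H.support,
      Real.log (nv v (MvPolynomial.eval (fun b => e b i) (P0 * H.coeff γ ^ E))) ≤
        Real.log (nv v (MvPolynomial.eval (fun b => e b i) Q)) + δ * t i := by
    rw [Filter.eventually_all_finset]
    intro γ hγ
    exact Pool.Agent.Helper16.TP.place_le U T e he hmi _ Q (mul_ne_zero hP0 (pow_ne_zero _ (hc γ hγ))) hQ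
      (fun w m hm => hsub γ w m hm) t ht B hB v δ hδ
  have h2 : ∀ᶠ i in (U : Filter ℕ), ∀ γ ∈ H.support, MvPolynomial.eval (fun b => e b i) (H.coeff γ) ≠ 0 := by
    rw [Filter.eventually_all_finset]
    intro γ hγ
    exact Pool.Agent.Helper16.TP.li U T e he hmi _ (hc γ hγ)
  filter_upwards [h1, h2, Pool.Agent.Helper16.TP.li U T e he hmi P0 hP0] with i a1 a2 a3
  have hne : H.support.Nonempty := by
    rw [Finset.nonempty_iff_ne_empty]
    intro h
    exact hH (MvPolynomial.support_eq_empty.1 h)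
  obtain ⟨γ, hγ, hmax⟩ := Finset.exists_max_image H.support
    (fun γ => nv v (MvPolynomial.eval (fun b => e b i) (H.coeff γ))) hne
  have hγ0 : 0 < nv v (MvPolynomial.eval (fun b => e b i) (H.coeff γ)) :=
    Pool.Agent.Helper64.Vojta.nv_pos v (a2 γ hγ)
  have hpn : pn v (H.map (MvPolynomial.eval fun b => e b i)) ≤
      nv v (MvPolynomial.eval (fun b => e b i) (H.coeff γ)) := by
    refine Pool.Agent.V2.pn_le v _ hγ0.le fun d => ?_
    rw [MvPolynomial.coeff_map]
    by_cases hd : d ∈ H.support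
    · exact hmax d hd
    · rw [MvPolynomial.notMem_support_iff.1 hd, map_zero, Pool.Agent.Helper64.Vojta.nv_zero]
      exact hγ0.le
  have hmap : H.map (MvPolynomial.eval fun b => e b i) ≠ 0 := by
    intro h
    apply a2 γ hγ
    rw [← MvPolynomial.coeff_map, h, MvPolynomial.coeff_zero]
  have h3 : Real.log (pn v (H.map (MvPolynomial.eval fun b => e b i))) ≤
      Real.log (nv v (MvPolynomial.eval (fun b => e b i) (H.coeff γ))) :=
    Real.log_le_log (Pool.Agent.V2.pn_pos v hmap) hpn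
  have h4 : Real.log (nv v (MvPolynomial.eval (fun b => e b i) (P0 * H.coeff γ ^ E))) =
      Real.log (nv v (MvPolynomial.eval (fun b => e b i) P0)) +
        E * Real.log (nv v (MvPolynomial.eval (fun b => e b i) (H.coeff γ))) := by
    rw [map_mul, map_pow, Pool.Agent.Helper64.Vojta.nv_mul,
      Real.log_mul (Pool.Agent.Helper64.Vojta.nv_pos v a3).ne'
        (Pool.Agent.Helper64.Vojta.nv_pos v (pow_ne_zero _ (a2 γ hγ))).ne',
      Pool.Agent.Helper16.TP.Pol16.log_pow]
  have h5 := a1 γ hγ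
  rw [h4] at h5
  have h6 : (E : ℝ) * Real.log (pn v (H.map (MvPolynomial.eval fun b => e b i))) ≤
      E * Real.log (nv v (MvPolynomial.eval (fun b => e b i) (H.coeff γ))) :=
    mul_le_mul_of_nonneg_left h3 (Nat.cast_nonneg E)
  linarith

end Pool.Agent.Helper16.UP
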