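import Pool.Agent.Helper16.UP.Defs2
import Pool.Agent.Helper16.TM.KMax

/-!
# Block UP-K1: the family of the forms

PROOF. Reduction to TM (`Rep`, `rep_exists`, `rep_prim`, `rep_bound`, `gcd_vec`, `height_mons`) by a code. Let `I = κ → Fin (r + 1)` (finite), `N + 1 = card I` (or any `N` with `card I ≤ N + 1`),
`code : I → ℕ` injective with values `≤ N`. For a ring `R` and a form `F` over `R` put `enc F = ∑ γ : I, monomial (code γ) (F.coeff γ)` (in `R[X]`; `γ` as a finsupp) and for `P : R[X]` `dec P = ∑ γ : I, monomial γ (P.coeff (code γ))`;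
`dec (enc F) = F` if `F` is homogeneous of degree `r` (all exponents are `≤ r`), both commute with ring homomorphisms, `enc` is additive and `enc (C a * F) = C a * enc F`. Apply TM with `enc (F i)`, `enc (G j)`.
Steps as in `kmax` in TM/KMax.lean (copy): `rep_exists` (`eventually_zero_or_sunit12`), minimal `n` (`Nat.find`), `rep_prim`, `rep_bound`: `e, 𝓖 : (AA K n)[X], w, B`; `t i = vH (mons 𝓖 e i)` tends to infinity (step (3) of `kmax`: `bdd_vec`;
otherwise `enc (F i)` is proportional to a constant, its height is constant, contradiction to `hH`); `height_mons`, `gcd_vec`. Every coefficient of `𝓖` of index not in the image of `code` vanishes, and so do those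
whose multi-index has degree `≠ r` (`li`: their values are coefficients of `enc (F i)` times `w i`). `F := dec 𝓖`; `pn v (F i) = vn v (cf N (enc (F i)))` (same nonzero coefficients), `pH (F i) = vH (cf N (enc (F i)))`.
Irreducible `π` dividing all coefficients of `F` would divide `𝓖` (`Polynomial.IsPrimitive`, `C_dvd_iff_dvd_coeff`).
-/

namespace Pool.Agent.Helper16.UP

open NumberField Finset Filter
open Pool.Agent.Helper64.Vojta (Pl nv sn)
open Pool.Agent.Helper26.DMC (SUnit)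
open Pool.Agent.V2 (vn vH pn pH)
open Pool.Agent.Helper16.TP (MI lsum)

section encK1

open Polynomial

variable {κ : Type*} {R : Type*} [CommRing R]

/-- The polynomial with the coefficients of `F` with multi-indices `g n`. -/
noncomputable def encK1 {N : ℕ} (g : Fin N → (κ →₀ ℕ)) (F : MvPolynomial κ R) : R[X] :=
  ∑ n : Fin N, monomial (n : ℕ) (F.coeff (g n))

/-- The inverse of `encK1` on forms. -/
noncomputable def decK1 {N : ℕ} (g : Fin N → (κ →₀ ℕ)) (P : R[X]) : MvPolynomial κ R :=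
  ∑ n : Fin N, MvPolynomial.monomial (g n) (P.coeff n)

theorem encK1_coeff {N : ℕ} (g : Fin N → (κ →₀ ℕ)) (F : MvPolynomial κ R) (n : Fin N) :
    (encK1 g F).coeff n = F.coeff (g n) := by
  classical
  unfold encK1
  rw [finsetSum_coeff, Finset.sum_eq_single n]
  · rw [coeff_monomial, if_pos rfl]
  · intro b _ hb
    rw [coeff_monomial, if_neg]
    intro h
    exact hb (Fin.ext h)
  · intro h
    exact absurd (Finset.mem_univ n) h

theorem encK1_coeff_ge {N : ℕ} (g : Fin N → (κ →₀ ℕ)) (F : MvPolynomial κ R) (s : ℕ)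
    (hs : N ≤ s) : (encK1 g F).coeff s = 0 := by
  classical
  unfold encK1
  rw [finsetSum_coeff]
  refine Finset.sum_eq_zero fun b _ => ?_
  rw [coeff_monomial, if_neg]
  have := b.2
  omega

theorem encK1_natDegree {N : ℕ} (g : Fin N → (κ →₀ ℕ)) (F : MvPolynomial κ R) :
    (encK1 g F).natDegree ≤ N := by
  rw [natDegree_le_iff_coeff_eq_zero]
  intro s hs
  exact encK1_coeff_ge g F s hs.le

theorem encK1_C_mul {N : ℕ} (g : Fin N → (κ →₀ ℕ)) (a : R) (F : MvPolynomial κ R) :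
    encK1 g (MvPolynomial.C a * F) = C a * encK1 g F := by
  ext s
  rw [coeff_C_mul]
  by_cases hs : s < N
  · have h1 := encK1_coeff g (MvPolynomial.C a * F) ⟨s, hs⟩
    have h2 := encK1_coeff g F ⟨s, hs⟩
    simp only at h1 h2
    rw [h1, h2, MvPolynomial.coeff_C_mul]
  · rw [encK1_coeff_ge g _ s (by omega), encK1_coeff_ge g _ s (by omega), mul_zero]

theorem encK1_sum {N M : ℕ} (g : Fin N → (κ →₀ ℕ)) (F : Fin M → MvPolynomial κ R) :
    encK1 g (∑ j, F j) = ∑ j, encK1 g (F j) := by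
  unfold encK1
  rw [Finset.sum_comm]
  refine Finset.sum_congr rfl fun n _ => ?_
  rw [MvPolynomial.coeff_sum, map_sum]

theorem decK1_coeff {N : ℕ} (g : Fin N → (κ →₀ ℕ)) (hg : Function.Injective g) (P : R[X])
    (n : Fin N) : (decK1 g P).coeff (g n) = P.coeff n := by
  classical
  unfold decK1
  rw [MvPolynomial.coeff_sum, Finset.sum_eq_single n]
  · rw [MvPolynomial.coeff_monomial, if_pos rfl]
  · intro b _ hb
    rw [MvPolynomial.coeff_monomial, if_neg]
    intro h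
    exact hb (hg h)
  · intro h
    exact absurd (Finset.mem_univ n) h

theorem decK1_coeff_not {N : ℕ} (g : Fin N → (κ →₀ ℕ)) (P : R[X]) (γ : κ →₀ ℕ)
    (hγ : γ ∉ Set.range g) : (decK1 g P).coeff γ = 0 := by
  classical
  unfold decK1
  rw [MvPolynomial.coeff_sum]
  refine Finset.sum_eq_zero fun b _ => ?_
  rw [MvPolynomial.coeff_monomial, if_neg]
  intro h
  exact hγ ⟨b, h⟩

theorem decK1_map {N : ℕ} (g : Fin N → (κ →₀ ℕ)) {S : Type*} [CommRing S] (ψ : R →+* S)
    (P : R[X]) : (decK1 g P).map ψ = decK1 g (P.map ψ) := by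
  unfold decK1
  rw [map_sum]
  refine Finset.sum_congr rfl fun n _ => ?_
  rw [MvPolynomial.map_monomial, Polynomial.coeff_map]

theorem decK1_C_mul {N : ℕ} (g : Fin N → (κ →₀ ℕ)) (a : R) (P : R[X]) :
    decK1 g (C a * P) = MvPolynomial.C a * decK1 g P := by
  unfold decK1
  rw [Finset.mul_sum]
  refine Finset.sum_congr rfl fun n _ => ?_
  rw [coeff_C_mul, MvPolynomial.C_mul_monomial]

theorem exists_codeK1 (κ : Type*) [Fintype κ] (r : ℕ) :
    ∃ (N : ℕ) (g : Fin N → (κ →₀ ℕ)), Function.Injective g ∧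
      ∀ γ, γ ∈ Set.range g ↔ γ.degree = r := by
  classical
  let S := Finset.finsuppAntidiag (Finset.univ : Finset κ) r
  refine ⟨S.card, fun n => (S.equivFin.symm n : κ →₀ ℕ),
    Subtype.val_injective.comp S.equivFin.symm.injective, fun γ => ?_⟩
  have h1 : γ ∈ S ↔ γ.degree = r := by
    rw [Finset.mem_finsuppAntidiag, Finsupp.degree_eq_sum]
    constructor
    · exact fun h => h.1
    · exact fun h => ⟨h, Finset.subset_univ _⟩
  rw [← h1]
  constructor
  · rintro ⟨n, rfl⟩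
    exact (S.equivFin.symm n).2
  · intro h
    exact ⟨S.equivFin ⟨γ, h⟩, by simp⟩

theorem dec_encK1 {N r : ℕ} (g : Fin N → (κ →₀ ℕ)) (hg : Function.Injective g)
    (hr : ∀ γ, γ ∈ Set.range g ↔ γ.degree = r) (F : MvPolynomial κ R) (hF : F.IsHomogeneous r) :
    decK1 g (encK1 g F) = F := by
  ext γ
  by_cases hγ : γ ∈ Set.range g
  · obtain ⟨n, rfl⟩ := hγ
    rw [decK1_coeff g hg, encK1_coeff]
  · rw [decK1_coeff_not g _ γ hγ, hF.coeff_eq_zero fun h => hγ ((hr γ).2 h)]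

theorem decK1_hom {N r : ℕ} (g : Fin N → (κ →₀ ℕ))
    (hr : ∀ γ, γ ∈ Set.range g ↔ γ.degree = r) (P : R[X]) : (decK1 g P).IsHomogeneous r := by
  unfold decK1
  refine MvPolynomial.IsHomogeneous.sum _ _ _ fun n _ => ?_
  exact MvPolynomial.isHomogeneous_monomial _ ((hr _).1 ⟨n, rfl⟩)

open Pool.Agent.Helper61.AD (cf) in
theorem pn_encK1 {K : Type*} [Field K] [NumberField K] {N r : ℕ} (g : Fin N → (κ →₀ ℕ))
    (hr : ∀ γ, γ ∈ Set.range g ↔ γ.degree = r) (F : MvPolynomial κ K) (hF : F.IsHomogeneous r)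
    (v : Pl K) : pn v F = vn v (cf N (encK1 g F)) := by
  have h0 : 0 ≤ vn v (cf N (encK1 g F)) :=
    (Pool.Agent.Helper64.Vojta.nv_nonneg v _).trans (Pool.Agent.V2.le_vn v _ (Fin.last N))
  apply le_antisymm
  · refine Pool.Agent.V2.pn_le v F h0 fun γ => ?_
    by_cases hγ : γ ∈ Set.range g
    · obtain ⟨n, rfl⟩ := hγ
      have h1 := Pool.Agent.V2.le_vn v (cf N (encK1 g F)) n.castSucc
      have h2 : cf N (encK1 g F) n.castSucc = F.coeff (g n) := encK1_coeff g F n
      rwa [h2] at h1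
    · rw [hF.coeff_eq_zero fun h => hγ ((hr γ).2 h), Pool.Agent.Helper64.Vojta.nv_zero]
      exact h0
  · refine Pool.Agent.V2.vn_le v _ (Pool.Agent.V2.r4_pn_nonneg v F) fun j => ?_
    by_cases hj : (j : ℕ) < N
    · have h2 : cf N (encK1 g F) j = F.coeff (g ⟨j, hj⟩) := encK1_coeff g F ⟨j, hj⟩
      rw [h2]
      exact Pool.Agent.V2.le_pn v F _
    · have h2 : cf N (encK1 g F) j = 0 := encK1_coeff_ge g F j (by omega)
      rw [h2, Pool.Agent.Helper64.Vojta.nv_zero]
      exact Pool.Agent.V2.r4_pn_nonneg v F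

end encK1

open Pool.Agent.Helper61.AD (cf) in
open Pool.Agent.Helper16 in
theorem rep_forms {K : Type*} [Field K] [NumberField K] (U : Ultrafilter ℕ)
    (T : Finset (FinitePlace K)) {κ : Type*} [Fintype κ] {r M : ℕ}
    (G : Fin M → MvPolynomial κ K) (hG : ∀ j, (G j).IsHomogeneous r) (F : ℕ → MvPolynomial κ K)
    (hF : ∀ i, (F i).IsHomogeneous r) (hF0 : ∀ i, F i ≠ 0) (a : ℕ → K) (ha : ∀ i, a i ≠ 0)
    (u : ℕ → Fin M → K) (hu : ∀ i j, u i j = 0 ∨ ∀ v : FinitePlace K, v ∉ T → v (u i j) = 1)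
    (hsum : ∀ i, MvPolynomial.C (a i) * F i = ∑ j, MvPolynomial.C (u i j) * G j)
    (hH : Tendsto (fun i => pH (F i)) (U : Filter ℕ) atTop) :
    ∃ (s : ℕ) (e : Fin s → ℕ → K) (H : MvPolynomial κ (AA K s)) (w : ℕ → K) (t : ℕ → ℝ) (B : ℝ),
      (∀ b, SUnit U T (e b)) ∧ MI U e ∧ H.IsHomogeneous r ∧
      (∀ π : AA K s, Irreducible π → ∃ γ, ¬ π ∣ H.coeff γ) ∧
      (∀ᶠ i in (U : Filter ℕ), w i ≠ 0 ∧
        H.map (MvPolynomial.eval fun b => e b i) = MvPolynomial.C (w i) * F i) ∧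
      Tendsto t (U : Filter ℕ) atTop ∧
      (∀ b v, ∀ᶠ i in (U : Filter ℕ), |Real.log (nv v (e b i))| ≤ B * t i) ∧
      (∀ᶠ i in (U : Filter ℕ), t i ≤ 2 * pH (F i)) ∧
      ∀ δ : ℝ, 0 < δ → ∀ᶠ i in (U : Filter ℕ),
        (lsum T fun v => Real.log (pn v (MvPolynomial.C (w i) * F i))) ≤ pH (F i) + δ * t i := by
  classical
  obtain ⟨N, g, hg, hgr⟩ := exists_codeK1 κ r
  set Q : ℕ → Polynomial K := fun i => encK1 g (F i) with hQ
  have hpn : ∀ (i : ℕ) (v : Pl K), pn v (F i) = vn v (cf N (Q i)) :=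
    fun i v => pn_encK1 g hgr (F i) (hF i) v
  have hpH : ∀ i, pH (F i) = vH (cf N (Q i)) := by
    intro i
    unfold pH vH
    simp only [hpn i]
  have hcf0 : ∀ i, cf N (Q i) ≠ 0 := by
    intro i h
    apply hF0 i
    ext γ
    rw [MvPolynomial.coeff_zero]
    by_cases hγ : γ ∈ Set.range g
    · obtain ⟨n, rfl⟩ := hγ
      have h1 := congrFun h n.castSucc
      have h2 : cf N (Q i) n.castSucc = (F i).coeff (g n) := encK1_coeff g (F i) n
      rw [h2] at h1
      exact h1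
    · exact (hF i).coeff_eq_zero fun h => hγ ((hgr γ).2 h)
  have hQ0 : ∀ i, Q i ≠ 0 := by
    intro i h
    apply hcf0 i
    rw [h]
    funext j
    show (0 : Polynomial K).coeff _ = 0
    exact Polynomial.coeff_zero _
  have hlim : Tendsto (fun n => vH (cf N (Q n))) (U : Filter ℕ) atTop := by
    refine hH.congr fun i => hpH i
  -- (2)
  let F' : ℕ → Polynomial K := fun n => Polynomial.C (a n) * Q n
  have hF'0 : ∀ᶠ i in (U : Filter ℕ), F' i ≠ 0 :=
    Filter.Eventually.of_forall fun n => mul_ne_zero (Polynomial.C_ne_zero.2 (ha n)) (hQ0 n)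
  have hsum' : ∀ i, F' i = ∑ j, Polynomial.C (u i j) * encK1 g (G j) := by
    intro i
    have h1 := congrArg (encK1 g) (hsum i)
    rw [encK1_C_mul, encK1_sum] at h1
    simp only [encK1_C_mul] at h1
    exact h1
  obtain ⟨s, ⟨e, G₀, w₀, h0⟩, hmin⟩ : ∃ s : ℕ, (∃ (e : Fin s → ℕ → K)
      (H : Polynomial (MvPolynomial (Fin s) K)) (w : ℕ → K), TM.Rep U T F' s e H w) ∧
      ∀ n' < s, ∀ (e' : Fin n' → ℕ → K) (G' : Polynomial (MvPolynomial (Fin n') K)) (w' : ℕ → K),
        ¬ TM.Rep U T F' n' e' G' w' := by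
    have hex : ∃ s : ℕ, ∃ (e : Fin s → ℕ → K) (H : Polynomial (MvPolynomial (Fin s) K))
        (w : ℕ → K), TM.Rep U T F' s e H w := by
      obtain ⟨s, e, H, w, h⟩ := TM.rep_exists U T (fun j => encK1 g (G j)) (fun j n => u n j)
        (fun j => TP.eventually_zero_or_sunit12 U T _ fun n => hu n j) F'
        (Filter.Eventually.of_forall fun n => hsum' n)
      exact ⟨s, e, H, w, h⟩
    exact ⟨Nat.find hex, Nat.find_spec hex,
      fun n' hn' e' G' w' h => Nat.find_min hex hn' ⟨e', G', w', h⟩⟩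
  obtain ⟨𝓕, w, hprim, hrep⟩ := TM.rep_prim U T F' hF'0 e G₀ w₀ h0
  obtain ⟨B, hB0, hB⟩ := TM.rep_bound U T F' hF'0 e 𝓕 w hrep hmin
  obtain ⟨he, hmi, hmap0⟩ := hrep
  have hmap : ∀ᶠ i in (U : Filter ℕ), w i * a i ≠ 0 ∧
      𝓕.map (MvPolynomial.eval fun b => e b i) = Polynomial.C (w i * a i) * Q i := by
    filter_upwards [hmap0] with i hi
    refine ⟨mul_ne_zero hi.1 (ha i), ?_⟩
    rw [hi.2, Polynomial.C_mul, mul_assoc]
  have he0 : ∀ᶠ i in (U : Filter ℕ), ∀ b, e b i ≠ 0 :=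
    (eventually_all).2 fun b => (he b).mono fun i hi => hi.1
  have hvHF : ∀ᶠ i in (U : Filter ℕ),
      vH (cf N (𝓕.map (MvPolynomial.eval fun b => e b i))) = vH (cf N (Q i)) := by
    filter_upwards [hmap] with i hi
    rw [hi.2, TP.cf_C_mul12]
    exact Pool.Agent.V2.vH_smul (hcf0 i) hi.1
  have h𝓕0 : 𝓕 ≠ 0 := hprim.ne_zero
  -- (3)
  obtain ⟨m₀, hm₀⟩ := TM.expSet_nonempty97 𝓕 h𝓕0
  have ht : Tendsto (fun i => vH (TM.mons 𝓕 e i)) (U : Filter ℕ) atTop := by
    rcases TP.bdd_vec U (fun i m => TM.mons 𝓕 e i m / TM.mons 𝓕 e i ⟨m₀, hm₀⟩) ⟨m₀, hm₀⟩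
      (he0.mono fun i hi => div_self (TM.mons_ne_zero97 𝓕 e i hi _)) with h | ⟨y, hy⟩
    · refine h.congr' ?_
      filter_upwards [he0] with i hi
      have h1 : (fun m => TM.mons 𝓕 e i m / TM.mons 𝓕 e i ⟨m₀, hm₀⟩) =
          (TM.mons 𝓕 e i ⟨m₀, hm₀⟩)⁻¹ • TM.mons 𝓕 e i := by
        funext m
        rw [Pi.smul_apply, smul_eq_mul, div_eq_inv_mul]
      rw [h1]
      refine Pool.Agent.V2.vH_smul ?_ (inv_ne_zero (TM.mons_ne_zero97 𝓕 e i hi _))
      intro h2
      exact TM.mons_ne_zero97 𝓕 e i hi ⟨m₀, hm₀⟩ (congrFun h2 _)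
    · exfalso
      have hone : ∀ m ∈ TM.expSet 𝓕, m = m₀ := by
        intro m hm
        have h1 := hmi (fun b => (m b : ℤ) - m₀ b) ⟨y ⟨m, hm⟩, by
          filter_upwards [hy, he0] with i h1 h2
          have h3 := congrFun h1 ⟨m, hm⟩
          rw [← h3]
          simp only [TM.mons]
          rw [← Finset.prod_div_distrib]
          refine Finset.prod_congr rfl fun b _ => ?_
          rw [zpow_sub₀ (h2 b), zpow_natCast, zpow_natCast]⟩
        ext b
        have h2 := congrFun h1 b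
        simp only [Pi.zero_apply] at h2
        omega
      obtain ⟨i₀, h1, h2⟩ := (he0.and hmap).exists
      have h3 : ∀ᶠ i in (U : Filter ℕ), vH (cf N (Q i)) = vH (cf N (Q i₀)) := by
        filter_upwards [he0, hmap, hvHF] with i h4 h5 h6
        have h7 := TM.map_eval_prop97 𝓕 m₀ hone (fun b => e b i) (fun b => e b i₀) h1
        rw [← h6, h7, h2.2, ← mul_assoc, ← Polynomial.C_mul, TP.cf_C_mul12]
        refine Pool.Agent.V2.vH_smul (hcf0 i₀) (mul_ne_zero (div_ne_zero ?_ ?_) h2.1)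
        · exact Finset.prod_ne_zero_iff.2 fun b _ => pow_ne_zero _ (h4 b)
        · exact Finset.prod_ne_zero_iff.2 fun b _ => pow_ne_zero _ (h1 b)
      obtain ⟨n, h4, h5⟩ := (h3.and (hlim.eventually_gt_atTop (vH (cf N (Q i₀))))).exists
      exact absurd h4 h5.ne'
  -- (4)
  have hzero : ∀ l, N ≤ l → 𝓕.coeff l = 0 := by
    intro l hl
    by_contra h
    obtain ⟨i, h1, h2⟩ := ((TP.li U T e he hmi _ h).and hmap).exists
    apply h1
    have h3 := congrArg (fun R => R.coeff l) h2.2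
    simp only [Polynomial.coeff_map, Polynomial.coeff_C_mul] at h3
    rw [h3, encK1_coeff_ge g (F i) l hl, mul_zero]
  have hdeg𝓕 : 𝓕.natDegree ≤ N := by
    rw [Polynomial.natDegree_le_iff_coeff_eq_zero]
    exact fun l hl => hzero l hl.le
  refine ⟨s, e, decK1 g 𝓕, fun i => w i * a i, fun i => vH (TM.mons 𝓕 e i), B, he, hmi,
    decK1_hom g hgr 𝓕, ?_, ?_, ht, hB, ?_, ?_⟩
  · intro π hπ
    by_contra hcon
    push Not at hcon
    apply hπ.not_isUnit
    refine hprim π ?_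
    rw [Polynomial.C_dvd_iff_dvd_coeff]
    intro l
    by_cases hl : l < N
    · have h1 := hcon (g ⟨l, hl⟩)
      rw [decK1_coeff g hg] at h1
      exact h1
    · rw [hzero l (by omega)]
      exact dvd_zero _
  · filter_upwards [hmap] with i hi
    refine ⟨hi.1, ?_⟩
    rw [decK1_map, hi.2, decK1_C_mul, dec_encK1 g hg hgr (F i) (hF i)]
  · filter_upwards [TM.height_mons U T e he hmi 𝓕 hprim hdeg𝓕 ht B hB, hvHF] with i h1 h2
    rw [hpH i, ← h2]
    exact h1
  · intro δ hδ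
    filter_upwards [TM.gcd_vec U T e he hmi 𝓕 hprim hdeg𝓕 _ ht B hB δ hδ, hvHF, hmap] with
      i h1 h2 h3
    rw [h2, ← hpH i] at h1
    refine le_trans (le_of_eq ?_) h1
    congr 1
    funext v
    rw [h3.2, ← encK1_C_mul, ← pn_encK1 g hgr _ _ v]
    have h5 := (MvPolynomial.isHomogeneous_C κ (w i * a i)).mul (hF i)
    rwa [zero_add] at h5

end Pool.Agent.Helper16.UP
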