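import Pool.Agent.Helper16.UP.Fam
import Pool.Agent.Helper16.UP.RepForms
import Pool.Agent.Helper16.UP.Deco
import Pool.Agent.Helper16.UP.PlaceForms
import Pool.Agent.Helper16.UP.GLow

/-!
# Block UP-K6: the inequality over `K`

Assembly of `rep_forms`, `deco`, `fam`, `place_forms`, `glow`, `hlow` (helper16).
-/

namespace Pool.Agent.Helper16.UP

open NumberField Finset Filter
open Pool.Agent.Helper64.Vojta (Pl nv sn)
open Pool.Agent.Helper26.DMC (SUnit)
open Pool.Agent.V2 (vn vH pn pH gsum FinS)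
open Pool.Agent.Helper16.TP (MI lsum rd)
open MvPolynomial (aeval)

universe u

namespace KF

theorem countable_nf (k : Type*) [Field k] [NumberField k] : Countable k :=
  (Module.finBasis ℚ k).equivFun.symm.surjective.countable

theorem countable_mv (k : Type*) [Field k] [NumberField k] (d : ℕ) :
    Countable (MvPolynomial (Fin d) k) := by
  have := countable_nf k
  have h : Countable ((Fin d →₀ ℕ) →₀ k) := inferInstance
  let f : MvPolynomial (Fin d) k → ((Fin d →₀ ℕ) →₀ k) := fun p =>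
    Finsupp.onFinset p.support (fun m => p.coeff m)
      (by intro a h; exact MvPolynomial.mem_support_iff.2 h)
  refine Function.Injective.countable (f := f) ?_
  intro p q hpq
  ext m
  exact DFunLike.congr_fun hpq m

/-- an exhausting sequence of nonzero polynomials -/
theorem exists_seq (k : Type*) [Field k] [NumberField k] (d : ℕ) :
    ∃ q : ℕ → MvPolynomial (Fin d) k, (∀ n, q n ≠ 0) ∧ ∀ Q, Q ≠ 0 → ∃ n, ∀ i, n ≤ i → Q ∣ q i := by
  classical
  have hc : Countable {Q : MvPolynomial (Fin d) k // Q ≠ 0} := by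
    have := countable_mv k d
    infer_instance
  have hne : Nonempty {Q : MvPolynomial (Fin d) k // Q ≠ 0} := ⟨⟨1, one_ne_zero⟩⟩
  obtain ⟨p, hp⟩ := exists_surjective_nat {Q : MvPolynomial (Fin d) k // Q ≠ 0}
  refine ⟨fun n => ∏ i ∈ Finset.range n, (p i).1, fun n => ?_, fun Q hQ => ?_⟩
  · exact Finset.prod_ne_zero_iff.2 fun i _ => (p i).2
  · obtain ⟨n, hn⟩ := hp ⟨Q, hQ⟩
    refine ⟨n + 1, fun i hi => ?_⟩
    have h1 : (p n).1 ∣ ∏ i ∈ Finset.range i, (p i).1 :=
      Finset.dvd_prod_of_mem (fun i => (p i).1) (Finset.mem_range.2 hi)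
    rwa [hn] at h1

section

variable {K : Type*} [Field K] {d m : ℕ}

theorem rdp_C_mul {κ : Type*} [Fintype κ] [DecidableEq κ] {r : ℕ} (hr : 1 ≤ r) (o : κ) (c : κ → K)
    (w : K) (F : MvPolynomial κ K) :
    rdp r o c (MvPolynomial.C w * F) = w ^ (2 * r - 1) * rdp r o c F := by
  have h1 : pen o c (MvPolynomial.C w * F) = Polynomial.C w * pen o c F := by
    unfold pen
    rw [map_mul]
    congr 1
    rw [← MvPolynomial.algebraMap_eq, AlgHom.commutes]
    rfl
  unfold rdp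
  rw [h1, Pool.Agent.Helper16.TP.rd_C_mul12 hr]

theorem key_g {r : ℕ} (hr : 1 ≤ r) {ι : Type*} [Fintype ι]
    (f : ι → MvPolynomial (Fin (d + 1) ⊕ Fin m) K) (e : ι → ℕ)
    (hf : ∀ j, (f j).IsHomogeneous (e j)) (c : Fin (d + 1) ⊕ Fin m → K)
    (F : MvPolynomial (Fin (d + 1) ⊕ Fin m) K)
    (x : Fin r → Fin (d + 1) ⊕ Fin m → AlgebraicClosure K) (hx1 : ∀ σ, x σ (o0 d m) = 1)
    (hFx : F.map (algebraMap K (AlgebraicClosure K)) = ∏ σ, lf (x σ)) (g w : K)
    (hg : algebraMap K (AlgebraicClosure K) g = ∏ σ, ∏ j, aeval (x σ) (f j)) (hw : w ≠ 0) :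
    ∏ j, rs r (e j) (o0 d m) c (MvPolynomial.C w * F) (f j) =
      rdp r (o0 d m) c (MvPolynomial.C w * F) ^ (∑ j, e j) * g := by
  apply (algebraMap K (AlgebraicClosure K)).injective
  have hw' : algebraMap K (AlgebraicClosure K) w ≠ 0 := by
    rwa [Ne, map_eq_zero]
  have hF : (MvPolynomial.C w * F).map (algebraMap K (AlgebraicClosure K)) =
      MvPolynomial.C (algebraMap K (AlgebraicClosure K) w) * ∏ σ, lf (x σ) := by
    rw [map_mul, MvPolynomial.map_C, hFx]
  rw [map_prod, map_mul, map_pow, rdp_map, hF, hg]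
  have h1 : ∀ j ∈ Finset.univ, algebraMap K (AlgebraicClosure K)
      (rs r (e j) (o0 d m) c (MvPolynomial.C w * F) (f j)) =
      rdp r (o0 d m) (fun j => algebraMap K (AlgebraicClosure K) (c j))
        (MvPolynomial.C (algebraMap K (AlgebraicClosure K) w) * ∏ σ, lf (x σ)) ^ e j *
      ∏ σ, aeval (x σ) (f j) := by
    intro j _
    rw [rs_map, hF, rs_eq (o0 d m) _ hr _ hw' x hx1 _ ((hf j).map _)]
    congr 1
    refine Finset.prod_congr rfl fun σ _ => ?_
    rw [MvPolynomial.eval_map]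
    rfl
  rw [Finset.prod_congr rfl h1, Finset.prod_mul_distrib, Finset.prod_pow_eq_pow_sum,
    Finset.prod_comm]

end

section

variable {K : Type*} [Field K] [NumberField K]

theorem nv_pow (v : Pl K) (x : K) (n : ℕ) : nv v (x ^ n) = nv v x ^ n := by
  induction n with
  | zero => simp [Pool.Agent.Helper64.Vojta.nv_one]
  | succ n ih => rw [pow_succ, Pool.Agent.Helper64.Vojta.nv_mul, ih, pow_succ]

theorem pH_C_mul {κ : Type*} [Finite κ] (w : K) (hw : w ≠ 0) (F : MvPolynomial κ K) (hF : F ≠ 0) :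
    pH (MvPolynomial.C w * F) = pH F := by
  unfold pH
  have h1 : (fun v : Pl K => Real.log (pn v (MvPolynomial.C w * F))) =
      fun v => Real.log (nv v w) + Real.log (pn v F) := by
    funext v
    rw [pn_C_mul, Real.log_mul (Pool.Agent.Helper64.Vojta.nv_pos v hw).ne'
      (Pool.Agent.V2.pn_pos v hF).ne']
  rw [h1, Pool.Agent.V2.gsum_add (Pool.Agent.V2.finS_nv hw) (Pool.Agent.V2.finS_pn hF),
    Pool.Agent.V2.gsum_nv hw, zero_add]

/-- the vector of the coefficients of a form -/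
noncomputable def cfv {κ : Type*} [Finite κ] (r : ℕ) (F : MvPolynomial κ K) : (κ → Fin (r + 1)) → K :=
  fun γ => F.coeff (Finsupp.equivFunOnFinite.symm fun j => (γ j : ℕ))

omit [NumberField K] in
theorem exists_cfv {κ : Type*} [Fintype κ] {r : ℕ} (F : MvPolynomial κ K) (hF : F.IsHomogeneous r)
    (γ : κ →₀ ℕ) (hγ : F.coeff γ ≠ 0) :
    ∃ γ' : κ → Fin (r + 1), (Finsupp.equivFunOnFinite.symm fun j => (γ' j : ℕ)) = γ := by
  have h1 : Finsupp.degree γ = r := by
    have := hF hγ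
    rwa [Finsupp.degree_eq_weight_one]
  have h2 : ∀ j, γ j < r + 1 := by
    intro j
    have h3 : γ j ≤ Finsupp.degree γ := Finsupp.le_degree j γ
    omega
  refine ⟨fun j => ⟨γ j, h2 j⟩, ?_⟩
  ext j
  simp

theorem pn_eq_vn {κ : Type*} [Fintype κ] {r : ℕ} (v : Pl K) (F : MvPolynomial κ K)
    (hF : F.IsHomogeneous r) : pn v F = vn v (cfv r F) := by
  apply le_antisymm
  · refine Pool.Agent.V2.pn_le v F ?_ fun γ => ?_
    · exact Real.iSup_nonneg fun _ => Pool.Agent.Helper64.Vojta.nv_nonneg v _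
    · by_cases hγ : F.coeff γ = 0
      · rw [hγ, Pool.Agent.Helper64.Vojta.nv_zero]
        exact Real.iSup_nonneg fun _ => Pool.Agent.Helper64.Vojta.nv_nonneg v _
      · obtain ⟨γ', hγ'⟩ := exists_cfv F hF γ hγ
        have h1 := Pool.Agent.V2.le_vn v (cfv r F) γ'
        unfold cfv at h1
        rw [hγ'] at h1
        exact h1
  · refine Pool.Agent.V2.vn_le v _ ?_ fun γ => Pool.Agent.V2.le_pn v F _
    exact Real.iSup_nonneg fun _ => Pool.Agent.Helper64.Vojta.nv_nonneg v _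

omit [NumberField K] in
theorem eq_of_cfv {κ : Type*} [Fintype κ] {r : ℕ} (F G : MvPolynomial κ K) (hF : F.IsHomogeneous r)
    (hG : G.IsHomogeneous r) (h : cfv r F = cfv r G) : F = G := by
  ext γ
  by_cases h1 : F.coeff γ = 0
  · by_cases h2 : G.coeff γ = 0
    · rw [h1, h2]
    · obtain ⟨γ', hγ'⟩ := exists_cfv G hG γ h2
      have h3 := congrFun h γ'
      unfold cfv at h3
      rwa [hγ'] at h3
  · obtain ⟨γ', hγ'⟩ := exists_cfv F hF γ h1
    have h3 := congrFun h γ'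
    unfold cfv at h3
    rwa [hγ'] at h3

/-- The numerical part. `Lw = lsum log |w|`, `LF = lsum log |F|`, `OF = osum log |F|`, `OD = osum log |disc|`. -/
theorem num {E q n S r Lw LF LΨ LG Lg OF OD Lp H C1 C2 C3 δ N t : ℝ} (hE : E = S + q - n)
    (h1 : LΨ + (Lw + E * Lp) ≤ q * Lw + (LG + (Lg + N * (δ * t)))) (hΨ : -C1 ≤ LΨ)
    (hG : LG ≤ -(-(2 * r - 1) * Lw + OD) + C2) (hp : Lp = Lw + LF) (hH : H = LF + OF)
    (hp1 : Lp ≤ H + δ * t) (hp2 : H - C3 ≤ Lp) (hC3 : 0 ≤ C3) (hδt : 0 ≤ δ * t) :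
    q * LF - Lg ≤ (n - S) * H + ((2 * r - 2) * OF - OD) + (C1 + C2 + |n - S + (2 * r - 2)| * C3) +
      (N + |n - S + (2 * r - 2)|) * (δ * t) := by
  have h2 : |Lw - OF| ≤ δ * t + C3 := by
    rw [abs_le]
    constructor <;> linarith
  have h3 : (n - S + (2 * r - 2)) * (Lw - OF) ≤ |n - S + (2 * r - 2)| * (δ * t + C3) := by
    refine (le_abs_self _).trans ?_
    rw [abs_mul]
    exact mul_le_mul_of_nonneg_left h2 (abs_nonneg _)
  subst hE hp hH
  nlinarith

end

end KF

open KF in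
theorem kform {k K : Type u} [Field k] [NumberField k] [Field K] [NumberField K] [Algebra k K]
    {d m r M ℓ : ℕ} (hd : 1 ≤ d) (hr : 1 ≤ r) (T : Finset (FinitePlace K))
    (G : Fin M → MvPolynomial (Fin (d + 1) ⊕ Fin m) K) (hG : ∀ j, (G j).IsHomogeneous r)
    {ι : Type*} [Fintype ι] (φ : Fin m → MvPolynomial (Fin (d + 1) ⊕ Fin m) K) (a : Fin m → ℕ)
    (ha : ∀ i, 1 ≤ a i)
    (hφ : ∀ i, (φ i).IsHomogeneous (a i)) (f : ι → MvPolynomial (Fin (d + 1) ⊕ Fin m) K)
    (e : ι → ℕ) (hf : ∀ j, (f j).IsHomogeneous (e j)) (hN : Null φ f)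
    (hq : d + 1 + m ≤ ∑ i, a i + ∑ j, e j)
    (c : Fin ℓ → Fin (d + 1) ⊕ Fin m → K) (ε : ℝ) (hε : 0 < ε) :
    ∃ (Q : MvPolynomial (Fin d) k) (C : ℝ), Q ≠ 0 ∧
      ∀ (F : MvPolynomial (Fin (d + 1) ⊕ Fin m) K)
        (x : Fin r → Fin (d + 1) ⊕ Fin m → AlgebraicClosure K) (g A : K) (u : Fin M → K),
        F.IsHomogeneous r → (∀ σ, x σ (o0 d m) = 1) →
        F.map (algebraMap K (AlgebraicClosure K)) = ∏ σ, lf (x σ) →
        (∀ σ i, aeval (x σ) (φ i) = 0) →
        (∀ σ, aeval (fun b : Fin d => x σ (Sum.inl b.succ)) (Q.map (algebraMap k K)) ≠ 0) →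
        algebraMap K (AlgebraicClosure K) g = ∏ σ, ∏ j, aeval (x σ) (f j) → g ≠ 0 →
        (∃ l, rdp r (o0 d m) (c l) F ≠ 0) → A ≠ 0 →
        (∀ j, u j = 0 ∨ ∀ v : FinitePlace K, v ∉ T → v (u j) = 1) →
        MvPolynomial.C A * F = ∑ j, MvPolynomial.C (u j) * G j →
        (lsum T fun v => ((∑ j, e j : ℕ) : ℝ) * Real.log (pn v F) - Real.log (nv v g)) ≤
          (((d + 1 + m : ℕ) : ℝ) - ((∑ i, a i : ℕ) : ℝ) + ε) * pH F +
          (osum T fun v => (2 * (r : ℝ) - 2) * Real.log (pn v F) -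
            Real.log (vn v fun l => rdp r (o0 d m) (c l) F)) + C := by
  classical
  obtain ⟨q, hq0, hqdvd⟩ := exists_seq k d
  by_contra hcon
  push Not at hcon
  choose F x g A u hFh hx1 hFx hφx hQx hg hg0 hl hA hu hsum hbad using fun n : ℕ =>
    hcon (q n) n (hq0 n)
  let U : Ultrafilter ℕ := Filter.hyperfilter ℕ
  have hU : (U : Filter ℕ) ≤ atTop := _root_.Nat.hyperfilter_le_atTop
  have hFne : ∀ n, F n ≠ 0 := by
    intro n h
    have h1 := hFx n
    rw [h, map_zero] at h1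
    have h2 : ∀ σ, lf (x n σ) ≠ 0 := by
      intro σ h3
      have h4 := congrArg (fun P => MvPolynomial.eval (Pi.single (o0 d m) 1) P) h3
      simp only [lf, map_sum, map_mul, MvPolynomial.eval_C, MvPolynomial.eval_X, map_zero] at h4
      rw [Finset.sum_eq_single (o0 d m)] at h4
      · rw [Pi.single_eq_same, mul_one, hx1] at h4
        exact one_ne_zero h4
      · intro b _ hb
        rw [Pi.single_eq_of_ne hb, mul_zero]
      · intro h5
        exact absurd (Finset.mem_univ _) h5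
    exact Finset.prod_ne_zero_iff.2 (fun σ _ => h2 σ) h1.symm
  -- a common index `l0`
  choose lf' hlf' using hl
  obtain ⟨l0, hl0⟩ := Pool.Agent.Helper26.DMC.SU1.ult_finite U (Set.univ : Set (Fin ℓ))
    Set.finite_univ lf' (Eventually.of_forall fun _ => Set.mem_univ _)
  have hrd : ∀ᶠ i in (U : Filter ℕ), rdp r (o0 d m) (c l0) (F i) ≠ 0 := by
    filter_upwards [hl0] with i hi
    rw [← hi]
    exact hlf' i
  have hlc1 : ∀ n, (F n).coeff (Finsupp.single (o0 d m) r) = 1 := by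
    intro n
    apply (algebraMap K (AlgebraicClosure K)).injective
    have h1 := lc_map (algebraMap K (AlgebraicClosure K)) r (o0 d m) (F n)
    rw [hFx n] at h1
    unfold lc at h1
    rw [h1, map_one]
    have h2 := pen_lf (o0 d m) (0 : Fin (d + 1) ⊕ Fin m → AlgebraicClosure K) 1 (x n) (hx1 n)
    have h3 := pen_coeff (o0 d m) (0 : Fin (d + 1) ⊕ Fin m → AlgebraicClosure K)
      (MvPolynomial.C 1 * ∏ σ, lf (x n σ)) (hom_prod_lf 1 (x n))
    rw [h2] at h3
    unfold lc at h3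
    simp only [map_one, one_mul, Pi.zero_apply, zero_mul, Finset.sum_const_zero, map_zero, sub_zero,
      Finset.prod_const, Finset.card_univ, Fintype.card_fin, Polynomial.coeff_X_pow_self] at h3
    exact h3.symm
  have hpH0 : ∀ n, 0 ≤ pH (F n) := fun n => Pool.Agent.V2.pH_nonneg (hFne n)
  have hpHv : ∀ n, pH (F n) = vH (cfv r (F n)) := by
    intro n
    unfold pH vH
    congr 1
    funext v
    rw [pn_eq_vn v (F n) (hFh n)]
  -- (1) the heights tend to infinity
  have hlim : Tendsto (fun n => pH (F n)) (U : Filter ℕ) atTop := by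
    obtain ⟨γ0, hγ0⟩ := exists_cfv (F 0) (hFh 0) (Finsupp.single (o0 d m) r)
      (by rw [hlc1]; exact one_ne_zero)
    have hγ1 : ∀ n, cfv r (F n) γ0 = 1 := by
      intro n
      unfold cfv
      rw [hγ0, hlc1]
    rcases Pool.Agent.Helper16.TP.bdd_vec U (fun n => cfv r (F n)) γ0
      (Filter.Eventually.of_forall hγ1) with h | ⟨y, hy⟩
    · refine h.congr fun n => ?_
      exact (hpHv n).symm
    · exfalso
      obtain ⟨n0, hn0, hn0'⟩ := (hy.and hrd).exists
      set L0 := (lsum T fun v => ((∑ j, e j : ℕ) : ℝ) * Real.log (pn v (F n0)) -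
        Real.log (nv v (g n0))) - ((((d + 1 + m : ℕ) : ℝ) - ((∑ i, a i : ℕ) : ℝ) + ε) * pH (F n0) +
          (osum T fun v => (2 * (r : ℝ) - 2) * Real.log (pn v (F n0)) -
            Real.log (vn v fun l => rdp r (o0 d m) (c l) (F n0)))) with hL0
      have h3 : ∀ᶠ n : ℕ in (U : Filter ℕ), L0 < (n : ℝ) :=
        ((tendsto_natCast_atTop_atTop (R := ℝ)).eventually_gt_atTop L0).filter_mono hU
      obtain ⟨n, hn1, hn2⟩ := (hy.and h3).exists
      have hFn : F n = F n0 := eq_of_cfv _ _ (hFh n) (hFh n0) (hn1.trans hn0.symm)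
      have hgn : g n = g n0 := by
        have k1 := key_g hr f e hf (c l0) (F n) (x n) (hx1 n) (hFx n) (g n) 1 (hg n) one_ne_zero
        have k2 := key_g hr f e hf (c l0) (F n0) (x n0) (hx1 n0) (hFx n0) (g n0) 1 (hg n0)
          one_ne_zero
        rw [hFn, k2, map_one, one_mul] at k1
        exact (mul_left_cancel₀ (pow_ne_zero _ hn0') k1).symm
      have h4 := hbad n
      rw [hFn, hgn] at h4
      linarith
  -- (2) the family
  obtain ⟨s, eu, H, w, t, B, he, hmi, hHh, hprim, hrep, ht, hB, htH, hgcd⟩ :=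
    rep_forms U T G hG F hFh hFne A hA u hu hsum hlim
  have hgen : ∀ Q : MvPolynomial (Fin d) k, Q ≠ 0 → ∀ᶠ i in (U : Filter ℕ), ∀ σ,
      aeval (fun b : Fin d => x i σ (Sum.inl b.succ)) (Q.map (algebraMap k K)) ≠ 0 := by
    intro Q hQ
    obtain ⟨n, hn⟩ := hqdvd Q hQ
    have h1 : ∀ᶠ i in (U : Filter ℕ), n ≤ i := (eventually_ge_atTop n).filter_mono hU
    filter_upwards [h1] with i hi σ h2
    obtain ⟨R, hR⟩ := hn i hi
    apply hQx i σ
    rw [hR, map_mul, map_mul, h2, zero_mul]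
  obtain ⟨y, hDec, hφy, hal⟩ := deco U T hr eu he hmi F x hx1 hFx H w hrep φ hφx hgen (c l0) hrd
  -- values at `e_i`
  have hevc : ∀ (i : ℕ) (c' : Fin (d + 1) ⊕ Fin m → K),
      (fun j => MvPolynomial.eval (fun b => eu b i) (cA s c' j)) = c' := by
    intro i c'
    funext j
    simp [cA]
  have hevf : ∀ (i : ℕ) (Q : MvPolynomial (Fin (d + 1) ⊕ Fin m) K),
      (fA s Q).map (MvPolynomial.eval fun b => eu b i) = Q := by
    intro i Q
    unfold fA
    rw [MvPolynomial.map_map]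
    have h1 : (MvPolynomial.eval fun b => eu b i).comp (MvPolynomial.C : K →+* AA K s) =
        RingHom.id K := by
      ext y
      simp
    rw [h1, MvPolynomial.map_id]
  have hvrd : ∀ᶠ i in (U : Filter ℕ), ∀ l, MvPolynomial.eval (fun b => eu b i)
      (rdp r (o0 d m) (cA s (c l)) H) = w i ^ (2 * r - 1) * rdp r (o0 d m) (c l) (F i) := by
    filter_upwards [hrep] with i hi l
    rw [rdp_map (MvPolynomial.eval fun b => eu b i), hevc, hi.2, rdp_C_mul hr]
  have hvlc : ∀ᶠ i in (U : Filter ℕ), MvPolynomial.eval (fun b => eu b i)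
      (lc r (o0 d m) H) = w i := by
    filter_upwards [hrep] with i hi
    rw [lc_map (MvPolynomial.eval fun b => eu b i), hi.2]
    unfold lc
    rw [MvPolynomial.coeff_C_mul, hlc1, mul_one]
  have hvrs : ∀ᶠ i in (U : Filter ℕ), MvPolynomial.eval (fun b => eu b i)
      (∏ j, rs r (e j) (o0 d m) (cA s (c l0)) H (fA s (f j))) =
      (w i ^ (2 * r - 1) * rdp r (o0 d m) (c l0) (F i)) ^ (∑ j, e j) * g i := by
    filter_upwards [hrep] with i hi
    rw [map_prod, ← rdp_C_mul hr, ← key_g hr f e hf (c l0) (F i) (x i) (hx1 i) (hFx i) (g i) (w i)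
      (hg i) hi.1]
    refine Finset.prod_congr rfl fun j _ => ?_
    rw [rs_map (MvPolynomial.eval fun b => eu b i), hevc, hi.2, hevf]
  have hlcH : lc r (o0 d m) H ≠ 0 := by
    intro h
    obtain ⟨i, h1, h2⟩ := (hvlc.and hrep).exists
    rw [h, map_zero] at h1
    exact h2.1 h1.symm
  have hrdH : rdp r (o0 d m) (cA s (c l0)) H ≠ 0 := by
    intro h
    obtain ⟨i, h1, h2, h3⟩ := (hvrd.and (hrep.and hrd)).exists
    have h4 := h1 l0
    rw [h, map_zero] at h4
    exact mul_ne_zero (pow_ne_zero _ h2.1) h3 h4.symm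
  have hrsH : ∏ j, rs r (e j) (o0 d m) (cA s (c l0)) H (fA s (f j)) ≠ 0 := by
    intro h
    obtain ⟨i, h1, h2, h3⟩ := (hvrs.and (hrep.and hrd)).exists
    rw [h, map_zero] at h1
    exact mul_ne_zero (pow_ne_zero _ (mul_ne_zero (pow_ne_zero _ h2.1) h3)) (hg0 i) h1.symm
  have hH0 : H ≠ 0 := by
    rintro rfl
    apply hlcH
    unfold lc
    exact MvPolynomial.coeff_zero _
  obtain ⟨Ψ, Gd, hΨ0, hGd0, hGdvd, hsub⟩ := fam (k := k) hd hr φ a ha hφ f e hf hN hq H hHh hprim y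
    hDec hφy hal c l0 hrdH
  set qq : ℕ := ∑ j, e j with hqq
  set SS : ℕ := ∑ i, a i with hSS
  set nn' : ℕ := d + 1 + m with hnn
  set E : ℕ := SS + qq - nn' with hE
  obtain ⟨C1, hC1⟩ := Pool.Agent.Helper16.TP.prod_ge U T eu he Ψ
  obtain ⟨C2, hC2⟩ := glow U T eu he hmi Gd hGd0 (fun l => rdp r (o0 d m) (cA s (c l)) H) l0 hrdH
    hGdvd
  obtain ⟨C3, hC3⟩ := hlow U T eu he hmi H hH0
  set N0 : ℝ := (Fintype.card (InfinitePlace K) : ℝ) + T.card with hN0
  have hN00 : 0 ≤ N0 := by positivity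
  set kk : ℝ := |(nn' : ℝ) - SS + (2 * r - 2)| with hkk
  have hkk0 : 0 ≤ kk := abs_nonneg _
  set δ : ℝ := ε / (4 * (N0 + kk + 1)) with hδ
  have hδ0 : 0 < δ := by positivity
  have hP0 : Ψ * lc r (o0 d m) H * rdp r (o0 d m) (cA s (c l0)) H ^ qq ≠ 0 :=
    mul_ne_zero (mul_ne_zero hΨ0 hlcH) (pow_ne_zero _ hrdH)
  have hQ0 : lc r (o0 d m) H ^ qq * Gd *
      ∏ j, rs r (e j) (o0 d m) (cA s (c l0)) H (fA s (f j)) ≠ 0 :=
    mul_ne_zero (mul_ne_zero (pow_ne_zero _ hlcH) hGd0) hrsH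
  have hpl := fun v => place_forms U T eu he hmi H hH0 _ _ hP0 hQ0 E hsub t ht B hB v δ hδ0
  have hplI : ∀ᶠ i in (U : Filter ℕ), ∀ v : InfinitePlace K,
      Real.log (nv (.inl v) (MvPolynomial.eval (fun b => eu b i)
        (Ψ * lc r (o0 d m) H * rdp r (o0 d m) (cA s (c l0)) H ^ qq))) +
        E * Real.log (pn (.inl v) (H.map (MvPolynomial.eval fun b => eu b i))) ≤
      Real.log (nv (.inl v) (MvPolynomial.eval (fun b => eu b i) (lc r (o0 d m) H ^ qq * Gd *
      ∏ j, rs r (e j) (o0 d m) (cA s (c l0)) H (fA s (f j))))) + δ * t i :=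
    Filter.eventually_all.2 fun v => hpl (.inl v)
  have hplT : ∀ᶠ i in (U : Filter ℕ), ∀ v ∈ T,
      Real.log (nv (.inr v) (MvPolynomial.eval (fun b => eu b i)
        (Ψ * lc r (o0 d m) H * rdp r (o0 d m) (cA s (c l0)) H ^ qq))) +
        E * Real.log (pn (.inr v) (H.map (MvPolynomial.eval fun b => eu b i))) ≤
      Real.log (nv (.inr v) (MvPolynomial.eval (fun b => eu b i) (lc r (o0 d m) H ^ qq * Gd *
      ∏ j, rs r (e j) (o0 d m) (cA s (c l0)) H (fA s (f j))))) + δ * t i :=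
    (Filter.eventually_all_finset T).2 fun v _ => hpl (.inr v)
  have hbig : ∀ᶠ n : ℕ in (U : Filter ℕ), C1 + C2 + kk * |C3| < (n : ℝ) :=
    ((tendsto_natCast_atTop_atTop (R := ℝ)).eventually_gt_atTop _).filter_mono hU
  obtain ⟨i, hi⟩ := (hplI.and (hplT.and (hbig.and (hrep.and (hvrd.and (hvlc.and (hvrs.and
    (hrd.and (hC1.and (hC2.and (hC3.and ((hgcd δ hδ0).and (htH.and ((ht.eventually_ge_atTop 0).and
    ((Pool.Agent.Helper16.TP.li U T eu he hmi Ψ hΨ0).and
    (Pool.Agent.Helper16.TP.li U T eu he hmi Gd hGd0)))))))))))))))).exists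
  obtain ⟨iI, iT, ibig, irep, ivrd, ivlc, ivrs, ird, iC1, iC2, iC3, igcd, itH, it0, iΨ, iG⟩ := hi
  obtain ⟨hw0, irep2⟩ := irep
  have nvpos : ∀ (v : Pl K) {z : K}, z ≠ 0 → 0 < nv v z := fun v _ hz =>
    Pool.Agent.Helper64.Vojta.nv_pos v hz
  set Ψe : K := MvPolynomial.eval (fun b => eu b i) Ψ with hΨe
  set Ge : K := MvPolynomial.eval (fun b => eu b i) Gd with hGe
  set R0 : K := w i ^ (2 * r - 1) * rdp r (o0 d m) (c l0) (F i) with hR0
  have hR00 : R0 ≠ 0 := mul_ne_zero (pow_ne_zero _ hw0) ird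
  have hPv : MvPolynomial.eval (fun b => eu b i)
      (Ψ * lc r (o0 d m) H * rdp r (o0 d m) (cA s (c l0)) H ^ qq) = Ψe * w i * R0 ^ qq := by
    rw [map_mul, map_mul, map_pow, ivlc, ivrd l0]
  have hQv : MvPolynomial.eval (fun b => eu b i) (lc r (o0 d m) H ^ qq * Gd *
      ∏ j, rs r (e j) (o0 d m) (cA s (c l0)) H (fA s (f j))) =
      w i ^ qq * Ge * (R0 ^ qq * g i) := by
    rw [map_mul, map_mul, map_pow, ivlc, ivrs]
  have hlog : ∀ v : Pl K, Real.log (nv v (Ψe * w i * R0 ^ qq)) + E * Real.log (pn v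
      (H.map (MvPolynomial.eval fun b => eu b i))) ≤
      Real.log (nv v (w i ^ qq * Ge * (R0 ^ qq * g i))) + δ * t i →
      Real.log (nv v Ψe) + (Real.log (nv v (w i)) +
        (E : ℝ) * Real.log (pn v (MvPolynomial.C (w i) * F i))) ≤
      (qq : ℝ) * Real.log (nv v (w i)) + (Real.log (nv v Ge) + (Real.log (nv v (g i)) +
        δ * t i)) := by
    intro v hv
    rw [irep2] at hv
    rw [Pool.Agent.Helper64.Vojta.nv_mul, Pool.Agent.Helper64.Vojta.nv_mul,
      Real.log_mul (mul_ne_zero (nvpos v iΨ).ne' (nvpos v hw0).ne')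
        (nvpos v (pow_ne_zero _ hR00)).ne',
      Real.log_mul (nvpos v iΨ).ne' (nvpos v hw0).ne',
      Pool.Agent.Helper64.Vojta.nv_mul, Pool.Agent.Helper64.Vojta.nv_mul,
      Pool.Agent.Helper64.Vojta.nv_mul,
      Real.log_mul (mul_ne_zero (nvpos v (pow_ne_zero _ hw0)).ne' (nvpos v iG).ne')
        (mul_ne_zero (nvpos v (pow_ne_zero _ hR00)).ne' (nvpos v (hg0 i)).ne'),
      Real.log_mul (nvpos v (pow_ne_zero _ hw0)).ne' (nvpos v iG).ne',
      Real.log_mul (nvpos v (pow_ne_zero _ hR00)).ne' (nvpos v (hg0 i)).ne',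
      nv_pow, nv_pow, Real.log_pow, Real.log_pow] at hv
    linarith
  have hsumL : lsum T (fun v => Real.log (nv v Ψe) + (Real.log (nv v (w i)) +
        (E : ℝ) * Real.log (pn v (MvPolynomial.C (w i) * F i)))) ≤
      lsum T (fun v => (qq : ℝ) * Real.log (nv v (w i)) + (Real.log (nv v Ge) +
        (Real.log (nv v (g i)) + δ * t i))) := by
    unfold lsum
    refine add_le_add (Finset.sum_le_sum fun v _ => ?_) (Finset.sum_le_sum fun v hv => ?_)
    · have h1 := iI v
      rw [hPv, hQv] at h1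
      exact hlog _ h1
    · have h1 := iT v hv
      rw [hPv, hQv] at h1
      exact hlog _ h1
  rw [lsum_add, lsum_add, lsum_smul, lsum_add, lsum_smul, lsum_add, lsum_add] at hsumL
  have hconst : lsum T (fun _ : Pl K => δ * t i) = N0 * (δ * t i) := by
    unfold lsum
    rw [Finset.sum_const, Finset.sum_const, Finset.card_univ, nsmul_eq_mul, nsmul_eq_mul, hN0]
    ring
  rw [hconst] at hsumL
  have hCwF : MvPolynomial.C (w i) * F i ≠ 0 :=
    mul_ne_zero (by rwa [Ne, MvPolynomial.C_eq_zero]) (hFne i)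
  have hLp : lsum T (fun v => Real.log (pn v (MvPolynomial.C (w i) * F i))) =
      lsum T (fun v => Real.log (nv v (w i))) + lsum T (fun v => Real.log (pn v (F i))) := by
    rw [← lsum_add]
    congr 1
    funext v
    rw [pn_C_mul, Real.log_mul (nvpos v hw0).ne' (Pool.Agent.V2.pn_pos v (hFne i)).ne']
  have hHF : pH (F i) = lsum T (fun v => Real.log (pn v (F i))) +
      osum T (fun v => Real.log (pn v (F i))) := by
    unfold osum pH
    ring
  have hDne : (fun l => rdp r (o0 d m) (c l) (F i)) ≠ 0 := by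
    intro h
    exact ird (congrFun h l0)
  have hOD : osum T (fun v => Real.log (vn v fun l => MvPolynomial.eval (fun b => eu b i)
      (rdp r (o0 d m) (cA s (c l)) H))) =
      -(2 * (r : ℝ) - 1) * lsum T (fun v => Real.log (nv v (w i))) +
      osum T (fun v => Real.log (vn v fun l => rdp r (o0 d m) (c l) (F i))) := by
    have h1 : (fun v : Pl K => Real.log (vn v fun l => MvPolynomial.eval (fun b => eu b i)
      (rdp r (o0 d m) (cA s (c l)) H))) = fun v => (2 * (r : ℝ) - 1) * Real.log (nv v (w i)) +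
        Real.log (vn v fun l => rdp r (o0 d m) (c l) (F i)) := by
      funext v
      simp_rw [ivrd]
      rw [vn_smul, Real.log_mul (nvpos v (pow_ne_zero _ hw0)).ne'
        (Pool.Agent.V2.vn_pos v hDne).ne', nv_pow, Real.log_pow]
      have h2 : ((2 * r - 1 : ℕ) : ℝ) = 2 * r - 1 := by
        rw [Nat.cast_sub (by omega)]
        push_cast
        ring
      rw [h2]
    rw [h1, osum_add T (fun v => (2 * (r : ℝ) - 1) * Real.log (nv v (w i))) _
      ((Pool.Agent.V2.finS_nv hw0).const_mul _) (Pool.Agent.V2.finS_vn hDne),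
      osum_smul T _ _ (Pool.Agent.V2.finS_nv hw0), osum_nv T _ hw0]
    ring
  rw [hOD] at iC2
  rw [irep2, pH_C_mul _ hw0 _ (hFne i)] at iC3
  have hEr : (E : ℝ) = SS + qq - nn' := by
    rw [hE, Nat.cast_sub hq]
    push_cast
    ring
  have hfin := num (C1 := C1) (C2 := C2) (C3 := |C3|) (r := r) hEr hsumL (iC1 iΨ) iC2 hLp hHF
    igcd (by have := le_abs_self C3; linarith) (abs_nonneg _) (mul_nonneg hδ0.le it0)
  have hLHS : (lsum T fun v => (qq : ℝ) * Real.log (pn v (F i)) - Real.log (nv v (g i))) =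
      qq * lsum T (fun v => Real.log (pn v (F i))) - lsum T (fun v => Real.log (nv v (g i))) := by
    have h1 : (fun v : Pl K => (qq : ℝ) * Real.log (pn v (F i)) - Real.log (nv v (g i))) =
        fun v => (qq : ℝ) * Real.log (pn v (F i)) + (-1) * Real.log (nv v (g i)) := by
      funext v; ring
    rw [h1, lsum_add, lsum_smul, lsum_smul]
    ring
  have hRHS : (osum T fun v => (2 * (r : ℝ) - 2) * Real.log (pn v (F i)) -
            Real.log (vn v fun l => rdp r (o0 d m) (c l) (F i))) =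
      (2 * (r : ℝ) - 2) * osum T (fun v => Real.log (pn v (F i))) -
        osum T (fun v => Real.log (vn v fun l => rdp r (o0 d m) (c l) (F i))) := by
    have h1 : (fun v : Pl K => (2 * (r : ℝ) - 2) * Real.log (pn v (F i)) -
            Real.log (vn v fun l => rdp r (o0 d m) (c l) (F i))) =
        fun v => (2 * (r : ℝ) - 2) * Real.log (pn v (F i)) +
          (-1) * Real.log (vn v fun l => rdp r (o0 d m) (c l) (F i)) := by
      funext v; ring
    rw [h1, osum_add T (fun v => (2 * (r : ℝ) - 2) * Real.log (pn v (F i))) _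
      ((Pool.Agent.V2.finS_pn (hFne i)).const_mul _)
      ((Pool.Agent.V2.finS_vn hDne).const_mul _), osum_smul T _ _ (Pool.Agent.V2.finS_pn (hFne i)),
      osum_smul T _ _ (Pool.Agent.V2.finS_vn hDne)]
    ring
  have hb := hbad i
  rw [hLHS, hRHS] at hb
  have hδt : (N0 + kk) * (δ * t i) ≤ ε * pH (F i) := by
    have h1 : (N0 + kk) * δ ≤ ε / 2 := by
      rw [hδ, mul_div_assoc', div_le_iff₀ (by positivity)]
      nlinarith
    have h2 : (N0 + kk) * (δ * t i) = ((N0 + kk) * δ) * t i := by ring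
    rw [h2]
    calc ((N0 + kk) * δ) * t i ≤ ε / 2 * t i := mul_le_mul_of_nonneg_right h1 it0
      _ ≤ ε / 2 * (2 * pH (F i)) := mul_le_mul_of_nonneg_left itH (by linarith)
      _ = ε * pH (F i) := by ring
  linarith

end Pool.Agent.Helper16.UP
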