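import Pool.Agent.Helper16.UP.LocU
import Pool.Agent.Helper16.UP.LocL

/-!
# Block UP-F5: the proximity to the divisor in terms of the Chow form

PROOF. `log nv ν (norm z) = ∑ w ∈ above L ν, log nv w z` (`nv_norm`, Helper52/Vojta/NormLocal.lean). First inequality: `q * loc_low` at `ν`. Second: `nv w (aeval y g) ≤ c * vn w y ^ q`, `c` depending on `g`, `ν`
(`nv_sum_le`; the coefficients of `g` in `k`: `nv_above`, `ldeg ≤ r`; `c ≥ 1`), sum over `w` (`card_above_le`), then the first step again.
-/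

namespace Pool.Agent.Helper16.UP

open NumberField Finset
open Pool.Agent.Helper64.Vojta (Pl nv sn above)
open Pool.Agent.V2 (vn vH pn pH gsum FinS)
open MvPolynomial (aeval)
open Pool.Agent.Helper52.Vojta (nv_above nv_norm ldeg sum_ldeg)
open Pool.Agent.Helper64.Vojta (card_above_le)

universe u

private theorem eval_le_h32 (k : Type u) [Field k] [NumberField k] {κ : Type} [Fintype κ]
    (g : MvPolynomial κ k) (q : ℕ) (hg : g.IsHomogeneous q) (ν : Pl k) (r : ℕ) :
    ∃ c : ℝ, 1 ≤ c ∧ ∀ (L : Type u) [Field L] [NumberField L] [Algebra k L],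
      Module.finrank k L = r → ∀ y : κ → L, ∀ w ∈ above L ν, nv w (aeval y g) ≤ c * vn w y ^ q := by
  classical
  obtain ⟨A, hA⟩ : ∃ A : ℝ, A = 1 + ∑ m ∈ g.support, (max 1 (nv ν (g.coeff m))) ^ r := ⟨_, rfl⟩
  have hA0 : ∀ m ∈ g.support, 0 ≤ (max 1 (nv ν (g.coeff m))) ^ r := fun m _ => by positivity
  have hA1 : 1 ≤ A := by
    rw [hA]
    have := Finset.sum_nonneg hA0
    linarith
  have hle : ∀ m ∈ g.support, (max 1 (nv ν (g.coeff m))) ^ r ≤ A := by
    intro m hm
    rw [hA]
    have := Finset.single_le_sum hA0 hm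
    linarith
  have hcard : (1 : ℝ) ≤ ((g.support.card : ℝ) + 1) ^ 2 := by
    have : (0 : ℝ) ≤ g.support.card := Nat.cast_nonneg _
    nlinarith
  refine ⟨((g.support.card : ℝ) + 1) ^ 2 * A, by nlinarith, ?_⟩
  intro L _ _ _ hr y w hw
  have hvn : 0 ≤ vn w y := by
    unfold vn
    exact Real.iSup_nonneg fun i => Pool.Agent.Helper64.Vojta.nv_nonneg w _
  rw [MvPolynomial.aeval_def, MvPolynomial.eval₂_eq', mul_assoc]
  refine Pool.Agent.Helper64.Vojta.nv_sum_le w _ _ _ (by positivity) fun m hm => ?_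
  rw [Pool.Agent.Helper64.Vojta.nv_mul]
  have hdeg : ∑ j, m j = q := by
    rw [← Finsupp.degree_eq_sum]
    by_contra h
    exact (MvPolynomial.mem_support_iff.1 hm) (hg.coeff_eq_zero h)
  have h1 : nv w (algebraMap k L (g.coeff m)) ≤ A := by
    rw [nv_above hw]
    refine le_trans ?_ (hle m hm)
    have h2 : ldeg ν w ≤ r := by
      rw [← hr, ← sum_ldeg (L' := L) ν]
      exact Finset.single_le_sum (f := fun w => ldeg ν w) (fun _ _ => Nat.zero_le _) hw
    calc nv ν (g.coeff m) ^ ldeg ν w ≤ (max 1 (nv ν (g.coeff m))) ^ ldeg ν w := by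
          have := Pool.Agent.Helper64.Vojta.nv_nonneg ν (g.coeff m)
          gcongr
          exact le_max_right _ _
      _ ≤ _ := pow_le_pow_right₀ (le_max_left _ _) h2
  have h3 : nv w (∏ j, y j ^ m j) ≤ vn w y ^ q := by
    have e : nv w (∏ j, y j ^ m j) = ∏ j, nv w (y j) ^ m j := by
      have hpow : ∀ (x : L) (n : ℕ), nv w (x ^ n) = nv w x ^ n := by
        intro x n
        induction n with
        | zero => simp [Pool.Agent.Helper64.Vojta.nv_one]
        | succ n ih => rw [pow_succ, Pool.Agent.Helper64.Vojta.nv_mul, ih, pow_succ]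
      have hprod : ∀ (s : Finset κ) (f : κ → L), nv w (∏ j ∈ s, f j) = ∏ j ∈ s, nv w (f j) := by
        intro s f
        induction s using Finset.induction_on with
        | empty => simp [Pool.Agent.Helper64.Vojta.nv_one]
        | insert a s ha ih => rw [Finset.prod_insert ha, Finset.prod_insert ha, Pool.Agent.Helper64.Vojta.nv_mul, ih]
      rw [hprod]
      exact Finset.prod_congr rfl fun j _ => hpow _ _
    rw [e, ← hdeg, ← Finset.prod_pow_eq_pow_sum]
    refine Finset.prod_le_prod (fun j _ => pow_nonneg (Pool.Agent.Helper64.Vojta.nv_nonneg w _) _) fun j _ => ?_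
    have := Pool.Agent.Helper64.Vojta.nv_nonneg w (y j)
    gcongr
    exact Pool.Agent.V2.le_vn w y j
  exact mul_le_mul h1 h3 (Pool.Agent.Helper64.Vojta.nv_nonneg w _) (by linarith)

theorem dterm (k : Type u) [Field k] [NumberField k] (κ : Type) [Fintype κ] (r : ℕ) (hr : 1 ≤ r)
    (g : MvPolynomial κ k) (q : ℕ) (hg : g.IsHomogeneous q) (ν : Pl k) :
    ∃ C : ℝ, ∀ (L : Type u) [Field L] [NumberField L] [Algebra k L] [FiniteDimensional k L],
      Module.finrank k L = r → ∀ y : κ → L, (∃ j, y j ≠ 0) → aeval y g ≠ 0 →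
      ∑ w ∈ above L ν, (q * Real.log (vn w y) - Real.log (nv w (aeval y g))) ≤
        q * Real.log (pn ν (chow k y)) - Real.log (nv ν (Algebra.norm k (aeval y g))) + C ∧
      -C ≤ q * Real.log (pn ν (chow k y)) - Real.log (nv ν (Algebra.norm k (aeval y g))) := by
  classical
  obtain ⟨C1, -, hC1⟩ := loc_low k κ r hr
  obtain ⟨c, hc1, hc⟩ := eval_le_h32 k g q hg ν r
  have hlc : 0 ≤ Real.log c := Real.log_nonneg hc1
  refine ⟨q * |C1 ν| + r * Real.log c, ?_⟩
  intro L _ _ _ _ hL y hy hne
  have h1 := hC1 L hL y hy ν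
  have h2 : (q : ℝ) * ∑ w ∈ above L ν, Real.log (vn w y) ≤ q * Real.log (pn ν (chow k y)) + q * |C1 ν| := by
    rw [← mul_add]
    refine mul_le_mul_of_nonneg_left (h1.trans ?_) (Nat.cast_nonneg q)
    have := le_abs_self (C1 ν)
    linarith
  have hrc : 0 ≤ (r : ℝ) * Real.log c := mul_nonneg (Nat.cast_nonneg r) hlc
  have h3 : Real.log (nv ν (Algebra.norm k (aeval y g))) = ∑ w ∈ above L ν, Real.log (nv w (aeval y g)) := by
    rw [nv_norm]
    exact Real.log_prod fun w _ => (Pool.Agent.Helper64.Vojta.nv_pos w hne).ne'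
  have hy0 : y ≠ 0 := by
    obtain ⟨j, hj⟩ := hy
    intro h
    exact hj (by rw [h]; rfl)
  have h4 : ∑ w ∈ above L ν, Real.log (nv w (aeval y g)) ≤
      r * Real.log c + q * ∑ w ∈ above L ν, Real.log (vn w y) := by
    calc ∑ w ∈ above L ν, Real.log (nv w (aeval y g)) ≤ ∑ w ∈ above L ν, (Real.log c + q * Real.log (vn w y)) := by
          refine Finset.sum_le_sum fun w hw => ?_
          have h5 := hc L hL y w hw
          have hvn : 0 < vn w y := Pool.Agent.V2.vn_pos w hy0
          have h6 := Real.log_le_log (Pool.Agent.Helper64.Vojta.nv_pos w hne) h5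
          rwa [Real.log_mul (by linarith) (by positivity), Real.log_pow] at h6
      _ = (above L ν).card * Real.log c + q * ∑ w ∈ above L ν, Real.log (vn w y) := by
          rw [Finset.sum_add_distrib, Finset.sum_const, nsmul_eq_mul, Finset.mul_sum]
      _ ≤ _ := by
          have h7 : ((above L ν).card : ℝ) ≤ r := by
            rw [← hL]
            exact_mod_cast card_above_le (L := L) ν
          have := mul_le_mul_of_nonneg_right h7 hlc
          linarith
  constructor
  · rw [Finset.sum_sub_distrib, ← Finset.mul_sum, ← h3]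
    linarith
  · rw [h3]
    linarith

end Pool.Agent.Helper16.UP
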