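import Pool.Agent.Helper16.UP.Chow
import Pool.Agent.Helper16.UP.Values
import Pool.Agent.Helper16.UP.Funct

/-!
# Block UP-F7: the discriminant of a projection as a discriminant of powers

PROOF. Apply the injective map `k → N = AlgebraicClosure k`. `(rdp r o c (chow k y))` becomes `rdp r o c (∏ σ, lf (σ ∘ y))` (`rdp_map`, `chow_split`; enumerate the embeddings by `Fin r`, their number is `finrank k L = r`,
`AlgHom.card`), which is `∏_σ ∏_{τ ≠ σ} (z σ - z τ)` (`rdp_eq`, `eval_der` with `a = 1`), `z σ = σ (zz c y)`. On the other side `Algebra.discr_eq_det_embeddingsMatrixReindex_pow_two`: the square of the determinant of `(σ_i (z ^ j))`, a Vandermonde determinant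
(`Matrix.det_vandermonde`): `∏_{i < j} (z_j - z_i) ^ 2`. The two differ by the sign `(-1) ^ (r (r - 1) / 2)`.
-/

namespace Pool.Agent.Helper16.UP

private theorem prod97 {N : Type*} [CommRing N] {r : ℕ} (v : Fin r → N) :
    ∃ ε : N, (ε = 1 ∨ ε = -1) ∧ ∏ i, ∏ j ∈ Finset.univ.erase i, (v i - v j) =
      ε * (∏ i, ∏ j ∈ Finset.Ioi i, (v j - v i)) ^ 2 := by
  have h1 : ∀ i : Fin r, ∏ j ∈ Finset.univ.erase i, (v i - v j) =
      (∏ j ∈ Finset.Iio i, (v i - v j)) * ∏ j ∈ Finset.Ioi i, (v i - v j) := by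
    intro i
    rw [← Finset.prod_union]
    · refine Finset.prod_congr ?_ fun _ _ => rfl
      ext j
      simp only [Finset.mem_erase, Finset.mem_univ, and_true, Finset.mem_union, Finset.mem_Iio,
        Finset.mem_Ioi]
      exact lt_or_lt_iff_ne.symm
    · rw [Finset.disjoint_left]
      intro j hj hj'
      rw [Finset.mem_Iio] at hj
      rw [Finset.mem_Ioi] at hj'
      exact lt_asymm hj hj'
  have h2 : ∏ i, ∏ j ∈ Finset.Iio i, (v i - v j) = ∏ i, ∏ j ∈ Finset.Ioi i, (v j - v i) := by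
    refine Finset.prod_comm' ?_
    intro i j
    simp [Finset.mem_Iio, Finset.mem_Ioi]
  have h3 : ∏ i, ∏ j ∈ Finset.Ioi i, (v i - v j) =
      (∏ i : Fin r, ∏ _j ∈ Finset.Ioi i, (-1 : N)) * ∏ i, ∏ j ∈ Finset.Ioi i, (v j - v i) := by
    rw [← Finset.prod_mul_distrib]
    refine Finset.prod_congr rfl fun i _ => ?_
    rw [← Finset.prod_mul_distrib]
    refine Finset.prod_congr rfl fun j _ => ?_
    ring
  refine ⟨∏ i : Fin r, ∏ _j ∈ Finset.Ioi i, (-1 : N), ?_, ?_⟩
  · have h4 : ∏ i : Fin r, ∏ _j ∈ Finset.Ioi i, (-1 : N) = (-1) ^ (∑ i : Fin r, (Finset.Ioi i).card) := by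
      rw [← Finset.prod_pow_eq_pow_sum]
      refine Finset.prod_congr rfl fun i _ => ?_
      rw [Finset.prod_const]
    rw [h4]
    exact neg_one_pow_eq_or N _
  · rw [Finset.prod_congr rfl fun i _ => h1 i, Finset.prod_mul_distrib, h2, h3]
    ring

theorem disc_eq {k L : Type*} [Field k] [CharZero k] [Field L] [Algebra k L]
    [FiniteDimensional k L] {κ : Type*} [Fintype κ] [DecidableEq κ] (r : ℕ) (hr : 1 ≤ r)
    (hL : Module.finrank k L = r) (o : κ) (c : κ → k) (y : κ → L) (ho : y o = 1) :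
    rdp r o c (chow k y) = dsc k r (zz c y) ∨ rdp r o c (chow k y) = - dsc k r (zz c y) := by
  classical
  let N := AlgebraicClosure k
  let ψ : k →+* N := algebraMap k N
  have hψ : Function.Injective ψ := (algebraMap k N).injective
  have hcard : Fintype.card (L →ₐ[k] N) = Fintype.card (Fin r) := by
    rw [AlgHom.card, hL, Fintype.card_fin]
  let e : Fin r ≃ (L →ₐ[k] N) := (Fintype.equivOfCardEq hcard).symm
  let x : Fin r → κ → N := fun i j => e i (y j)
  have hx : ∀ i, x i o = 1 := by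
    intro i
    show e i (y o) = 1
    rw [ho, map_one]
  have hchow : (chow k y).map ψ = MvPolynomial.C 1 * ∏ i, lf (x i) := by
    rw [chow_split y, MvPolynomial.C_1, one_mul]
    exact (Equiv.prod_comp e fun σ : L →ₐ[k] N => lf fun j => σ (y j)).symm
  have hZ : ∀ i, ∑ j, ψ (c j) * x i j = e i (zz c y) := by
    intro i
    unfold zz
    rw [map_sum]
    refine Finset.sum_congr rfl fun j _ => ?_
    rw [map_mul, AlgHom.commutes]
  have h1 : ψ (rdp r o c (chow k y)) =
      ∏ i, ∏ j ∈ Finset.univ.erase i, (e i (zz c y) - e j (zz c y)) := by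
    rw [rdp_map, hchow, rdp_eq o (fun j => ψ (c j)) hr 1 one_ne_zero x hx, one_pow, one_mul]
    refine Finset.prod_congr rfl fun i _ => ?_
    rw [eval_der o (fun j => ψ (c j)) 1 x hx, one_mul]
    refine Finset.prod_congr rfl fun j _ => ?_
    rw [hZ, hZ]
  have h2 : ψ (dsc k r (zz c y)) = (∏ i, ∏ j ∈ Finset.Ioi i, (e j (zz c y) - e i (zz c y))) ^ 2 := by
    unfold dsc
    show algebraMap k N _ = _
    rw [Algebra.discr_eq_det_embeddingsMatrixReindex_pow_two k N (fun i : Fin r => zz c y ^ (i : ℕ)) e]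
    have h3 : Algebra.embeddingsMatrixReindex k N (fun i : Fin r => zz c y ^ (i : ℕ)) e =
        (Matrix.vandermonde fun i => e i (zz c y)).transpose := by
      ext i j
      rw [Matrix.transpose_apply, Matrix.vandermonde_apply]
      show e j (zz c y ^ (i : ℕ)) = _
      rw [map_pow]
    rw [h3, Matrix.det_transpose, Matrix.det_vandermonde]
  obtain ⟨ε, hε, h4⟩ := prod97 fun i => e i (zz c y)
  rw [h4, ← h2] at h1
  rcases hε with rfl | rfl
  · left
    apply hψ
    rw [h1, one_mul]
  · right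
    apply hψ
    rw [h1, map_neg, neg_one_mul]

end Pool.Agent.Helper16.UP
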