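import Pool.Agent.Helper16.UP.ChowDefs

/-!
# Block UP-F1: properties of the Chow form

PROOF. `eval_chow`: `MvPolynomial.eval u` is a ring homomorphism (`RingHom.map_det`), the image of the matrix is `leftMulMatrix (finBasis k L) (∑ j, u j • y j)` (linearity), `Algebra.norm_eq_matrix_det`.
`chow_hom`: `Matrix.det_apply`, every entry of the matrix is a linear form. `chow_split`: two polynomials over `N` which agree at all points with coordinates in the infinite subset `k`
(`MvPolynomial.funext_set` or similar) : at `u : κ → k` the left side is `algebraMap k N (norm (∑ u_j y_j)) = ∏ σ, σ (∑ u_j y_j)` (`Algebra.norm_eq_prod_embeddings`), the right side the same.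
`chow_ne`: `y j ≠ 0`: `eval_chow` at the unit vector `j` is `norm (y j) ≠ 0`. `chow_lc`: the coefficient of `U_o ^ r` of a form of degree `r` is its value at the unit vector `o`, which is `norm 1 = 1`.
-/

namespace Pool.Agent.Helper16.UP

variable {k L : Type*} [Field k] [Field L] [Algebra k L] [FiniteDimensional k L] {κ : Type*}
  [Fintype κ]

theorem eval_chow (y : κ → L) (u : κ → k) :
    MvPolynomial.eval u (chow k y) = Algebra.norm k (∑ j, algebraMap k L (u j) * y j) := by
  unfold chow
  rw [RingHom.map_det, Algebra.norm_eq_matrix_det (Module.finBasis k L)]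
  congr 1
  rw [RingHom.mapMatrix_apply]
  have h1 : ∑ j, algebraMap k L (u j) * y j = ∑ j, u j • y j :=
    Finset.sum_congr rfl fun j _ => (Algebra.smul_def _ _).symm
  rw [h1, map_sum]
  ext a b
  rw [Matrix.map_apply, Matrix.sum_apply, Matrix.sum_apply, map_sum]
  refine Finset.sum_congr rfl fun j _ => ?_
  rw [Matrix.smul_apply, Matrix.map_apply, smul_eq_mul, map_mul, MvPolynomial.eval_X,
    MvPolynomial.eval_C, map_smul, Matrix.smul_apply, smul_eq_mul]

omit [Fintype κ] in
private lemma det_hom11 {n : ℕ} (A : Matrix (Fin n) (Fin n) (MvPolynomial κ k))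
    (hA : ∀ i j, (A i j).IsHomogeneous 1) : A.det.IsHomogeneous n := by
  rw [Matrix.det_apply]
  refine MvPolynomial.IsHomogeneous.sum _ _ _ fun τ _ => ?_
  have h1 : (∏ i, A (τ i) i).IsHomogeneous (∑ _i : Fin n, 1) :=
    MvPolynomial.IsHomogeneous.prod _ _ _ fun i _ => hA _ _
  have h2 : (∑ _i : Fin n, 1) = n := by simp
  rw [h2] at h1
  rcases Int.units_eq_one_or (Equiv.Perm.sign τ) with h | h
  · rw [h, one_smul]; exact h1
  · rw [h, Units.neg_smul, one_smul]
    exact h1.neg

theorem chow_hom (y : κ → L) : (chow k y).IsHomogeneous (Module.finrank k L) := by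
  unfold chow
  refine det_hom11 _ fun a b => ?_
  rw [Matrix.sum_apply]
  refine MvPolynomial.IsHomogeneous.sum _ _ _ fun j _ => ?_
  rw [Matrix.smul_apply, Matrix.map_apply, smul_eq_mul, mul_comm]
  exact MvPolynomial.isHomogeneous_C_mul_X _ _

private lemma eval_single11 [DecidableEq κ] (y : κ → L) (j : κ) :
    MvPolynomial.eval (Pi.single j (1 : k)) (chow k y) = Algebra.norm k (y j) := by
  rw [eval_chow]
  congr 1
  rw [Finset.sum_eq_single j]
  · rw [Pi.single_eq_same, map_one, one_mul]
  · intro i _ hi
    rw [Pi.single_eq_of_ne hi, map_zero, zero_mul]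
  · intro h
    exact absurd (Finset.mem_univ _) h

theorem chow_ne (y : κ → L) (j : κ) (hj : y j ≠ 0) : chow k y ≠ 0 := by
  classical
  intro h
  have h1 := eval_single11 (k := k) y j
  rw [h, map_zero] at h1
  exact hj ((Algebra.norm_eq_zero_iff).1 h1.symm)

theorem chow_lc (y : κ → L) (o : κ) (ho : y o = 1) : lc (Module.finrank k L) o (chow k y) = 1 := by
  classical
  have h1 := eval_single11 (k := k) y o
  rw [ho, map_one] at h1
  rw [← h1, MvPolynomial.eval_eq']
  unfold lc
  have h2 : ∀ γ ∈ (chow k y).support, (chow k y).coeff γ * ∏ i, (Pi.single o (1 : k) : κ → k) i ^ γ i =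
      if γ = Finsupp.single o (Module.finrank k L) then (chow k y).coeff γ else 0 := by
    intro γ hγ
    have hs : ∑ j, γ j = Module.finrank k L := by
      have h3 := chow_hom (k := k) y (MvPolynomial.mem_support_iff.1 hγ)
      rw [Finsupp.weight_eq_sum] at h3
      simpa using h3
    have hsplit : γ o + ∑ j ∈ Finset.univ.erase o, γ j = Module.finrank k L := by
      rw [← hs]; exact Finset.add_sum_erase _ _ (Finset.mem_univ o)
    by_cases hz : ∀ j, j ≠ o → γ j = 0
    · have h4 : γ = Finsupp.single o (Module.finrank k L) := by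
        ext j
        by_cases hj : j = o
        · subst hj
          rw [Finsupp.single_eq_same, ← hsplit]
          have : ∑ i ∈ Finset.univ.erase j, γ i = 0 :=
            Finset.sum_eq_zero fun i hi => hz i (Finset.ne_of_mem_erase hi)
          omega
        · rw [hz j hj, Finsupp.single_eq_of_ne hj]
      rw [if_pos h4]
      have h5 : ∏ i, (Pi.single o (1 : k) : κ → k) i ^ γ i = 1 := by
        refine Finset.prod_eq_one fun i _ => ?_
        by_cases hi : i = o
        · subst hi; rw [Pi.single_eq_same, one_pow]
        · rw [hz i hi, pow_zero]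
      rw [h5, mul_one]
    · push Not at hz
      obtain ⟨j, hj, hj0⟩ := hz
      have h4 : γ ≠ Finsupp.single o (Module.finrank k L) := by
        rintro h
        exact hj0 (by rw [h, Finsupp.single_eq_of_ne hj])
      rw [if_neg h4, Finset.prod_eq_zero (Finset.mem_univ j), mul_zero]
      rw [Pi.single_eq_of_ne hj, zero_pow hj0]
  rw [Finset.sum_congr rfl h2, Finset.sum_ite_eq']
  by_cases h : Finsupp.single o (Module.finrank k L) ∈ (chow k y).support
  · rw [if_pos h]
  · rw [if_neg h, MvPolynomial.notMem_support_iff.1 h]

theorem chow_split [CharZero k] {N : Type*} [Field N] [Algebra k N] [IsAlgClosed N] (y : κ → L) :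
    (chow k y).map (algebraMap k N) = ∏ σ : L →ₐ[k] N, lf fun j => σ (y j) := by
  have hinj : Function.Injective (algebraMap k N) := (algebraMap k N).injective
  have : CharZero N := charZero_of_injective_algebraMap hinj
  have hinf : (Set.range (algebraMap k N)).Infinite := Set.infinite_range_of_injective hinj
  refine MvPolynomial.funext_set (fun _ => Set.range (algebraMap k N)) (fun _ => hinf) fun x hx => ?_
  have hx' : ∀ j, ∃ u : k, algebraMap k N u = x j := fun j => hx j (Set.mem_univ j)
  choose u hu using hx'
  have hxu : x = fun j => algebraMap k N (u j) := funext fun j => (hu j).symm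
  rw [hxu, MvPolynomial.eval_map]
  have h1 : MvPolynomial.eval₂ (algebraMap k N) (fun j => algebraMap k N (u j)) (chow k y) =
      algebraMap k N (MvPolynomial.eval u (chow k y)) := by
    rw [MvPolynomial.eval₂_comp]
    rfl
  rw [h1, eval_chow, Algebra.norm_eq_prod_embeddings, map_prod]
  refine Finset.prod_congr rfl fun σ _ => ?_
  unfold lf
  rw [map_sum, map_sum]
  refine Finset.sum_congr rfl fun j _ => ?_
  rw [map_mul, map_mul, MvPolynomial.eval_C, MvPolynomial.eval_X, AlgHom.commutes, mul_comm]

end Pool.Agent.Helper16.UP
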