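import Pool.Agent.Helper16.UP.GelfN
import Pool.Agent.Helper16.UP.Chow
import Pool.Agent.Helper16.UP.Values
import Pool.Agent.Helper16.UP.Funct
import Pool.Agent.Helper52.Vojta.BaseChange
import Pool.Agent.Helper61.AD2.Setup
import Pool.Agent.Helper61.AD.Deg
import Pool.Agent.Helper61.AD.PerPoint
import Pool.Agent.Helper21.V2.BB

/-!
# Block UP-F6b: upper bound for the discriminant of a projection

PROOF. Let `θ` be a primitive element of `L / k` (degree `r`) and `N` a number field in which `minpoly k θ` splits, `finrank k N ≤ (r + 1) ^ r` (`Pool.Agent.Helper61.AD2.exists_ext`, as in TM/Final.lean), so there are `r` embeddings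
`σ : L → N` over `k` and `(chow k y).map (algebraMap k N) = ∏ σ lf (σ ∘ y)` (same proof as `chow_split`: `Algebra.norm` = product over the embeddings; or from `chow_split` for `AlgebraicClosure N`: embeddings
into it have image in `N`). Choose a place `w` of `N` above `ν`. `z σ = ∑ c_j σ(y_j)`; `z σ - z τ = ∑ c_j (σ y_j * τ y_o - τ y_j * σ y_o)` (`y o = 1`), so `nv w (z σ - z τ) ≤ c' * vn w (σ y) * vn w (τ y)`;
`rdp r o c (..) = ∏_σ ∏_{τ ≠ σ} (z σ - z τ)` (`rdp_eq`, `eval_der`, `a = 1`; `rdp_map`), so `nv w (rdp) ≤ c'' * (∏ vn w (σ y)) ^ (2 r - 2) ≤ c''' * pn w (chow) ^ (2 r - 2)` (`gelfond_N`).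
Both sides come from `k`: `nv w = (nv ν) ^ ldeg`, `1 ≤ ldeg ≤ finrank` (`nv_above`; `pn w (F.map ..) = (pn ν F) ^ ldeg`), take the logarithm and divide by `ldeg`.
-/

namespace Pool.Agent.Helper16.UP

open NumberField Finset
open Pool.Agent.Helper64.Vojta (Pl nv sn above)
open Pool.Agent.V2 (vn vH pn pH gsum FinS)

universe u

private theorem split52 {k : Type u} [Field k] [NumberField k] {L : Type u} [Field L] [Algebra k L]
    [FiniteDimensional k L] {κ : Type} [Fintype κ] [DecidableEq κ] (r : ℕ)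
    (hL : Module.finrank k L = r) (y : κ → L) :
    ∃ (N : Type u) (_ : Field N) (_ : NumberField N) (_ : Algebra k N),
      Module.finrank k N ≤ (r + 1) ^ r ∧ ∃ e : Fin r → (L →ₐ[k] N),
        (chow k y).map (algebraMap k N) = ∏ i, lf (fun j => e i (y j)) := by
  classical
  let pb := Field.powerBasisOfFiniteOfSeparable k L
  have hint : IsIntegral k pb.gen := Algebra.IsIntegral.isIntegral _
  have hP0 : minpoly k pb.gen ≠ 0 := minpoly.ne_zero hint
  have hPd : (minpoly k pb.gen).natDegree ≤ r := by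
    rw [pb.natDegree_minpoly, ← pb.finrank, hL]
  have hfd := Pool.Agent.Helper61.AD.finrank_adjoin_roots (Ω := AlgebraicClosure k) r
    (minpoly k pb.gen) hP0 hPd
  let N := IntermediateField.adjoin k ((minpoly k pb.gen).rootSet (AlgebraicClosure k))
  have hfd1 : FiniteDimensional k N := hfd.1
  have hfdQ : FiniteDimensional ℚ N := Module.Finite.trans k N
  have hNF : NumberField N := { to_charZero := inferInstance, to_finiteDimensional := hfdQ }
  have hmem : ∀ (σ : L →ₐ[k] AlgebraicClosure k) (x : L), σ x ∈ N.toSubalgebra := by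
    intro σ x
    have h1 : Algebra.adjoin k ({pb.gen} : Set L) = ⊤ := pb.adjoin_gen_eq_top
    have h2 : x ∈ Algebra.adjoin k ({pb.gen} : Set L) := by rw [h1]; trivial
    have h3 : σ x ∈ (Algebra.adjoin k ({pb.gen} : Set L)).map σ := ⟨x, h2, rfl⟩
    rw [AlgHom.map_adjoin, Set.image_singleton] at h3
    refine (Algebra.adjoin_le ?_ : Algebra.adjoin k {σ pb.gen} ≤ N.toSubalgebra) h3
    rw [Set.singleton_subset_iff]
    refine IntermediateField.subset_adjoin _ _ ?_
    rw [Polynomial.mem_rootSet]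
    refine ⟨hP0, ?_⟩
    rw [Polynomial.aeval_algHom_apply, minpoly.aeval, map_zero]
  have hcard : Fintype.card (L →ₐ[k] AlgebraicClosure k) = Fintype.card (Fin r) := by
    rw [AlgHom.card, hL, Fintype.card_fin]
  let E : Fin r ≃ (L →ₐ[k] AlgebraicClosure k) := (Fintype.equivOfCardEq hcard).symm
  let e : Fin r → (L →ₐ[k] N) := fun i => (E i).codRestrict N.toSubalgebra (hmem (E i))
  have he : ∀ i x, algebraMap N (AlgebraicClosure k) (e i x) = E i x := fun i x => rfl
  refine ⟨N, inferInstance, hNF, inferInstance, hfd.2, e, ?_⟩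
  apply MvPolynomial.map_injective (algebraMap N (AlgebraicClosure k))
    (algebraMap N (AlgebraicClosure k)).injective
  rw [MvPolynomial.map_map, ← IsScalarTower.algebraMap_eq, chow_split y, map_prod]
  rw [← Equiv.prod_comp E fun σ : L →ₐ[k] AlgebraicClosure k => lf fun j => σ (y j)]
  refine Finset.prod_congr rfl fun i _ => ?_
  rw [lf_map]
  exact congrArg lf (funext fun j => (he i (y j)).symm)

private theorem nvprod52 {N : Type*} [Field N] [NumberField N] (w : Pl N) {ι : Type*}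
    (s : Finset ι) (f : ι → N) : nv w (∏ j ∈ s, f j) = ∏ j ∈ s, nv w (f j) := by
  classical
  induction s using Finset.induction_on with
  | empty => simp [Pool.Agent.Helper64.Vojta.nv_one]
  | insert a s ha ih =>
    rw [Finset.prod_insert ha, Finset.prod_insert ha, Pool.Agent.Helper64.Vojta.nv_mul, ih]

private theorem up52 {N : Type*} [Field N] [NumberField N] {κ : Type*} [Fintype κ] (o : κ)
    (c : κ → N) (w : Pl N) (A : ℝ) (hA0 : 0 ≤ A) (hA : ∀ j, nv w (c j) ≤ A) (x x' : κ → N)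
    (hx : x o = 1) (hx' : x' o = 1) :
    nv w (∑ j, c j * x j - ∑ j, c j * x' j) ≤
      ((2 * (Fintype.card κ : ℝ) + 1) ^ 2 * A) * (vn w x * vn w x') := by
  classical
  have h1 : ∑ j, c j * x j - ∑ j, c j * x' j = ∑ s : κ ⊕ κ,
      Sum.elim (fun j => c j * (x j * x' o)) (fun j => - (c j * (x o * x' j))) s := by
    rw [Fintype.sum_sum_type]
    simp only [Sum.elim_inl, Sum.elim_inr, hx, hx', mul_one, one_mul, Finset.sum_neg_distrib]
    ring
  have h0 : ∀ z : κ → N, ∀ j, nv w (z j) ≤ vn w z := fun z j => Pool.Agent.V2.le_vn w z j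
  have hpos : ∀ z : κ → N, 0 ≤ vn w z := fun z =>
    (Pool.Agent.Helper64.Vojta.nv_nonneg w (z o)).trans (h0 z o)
  have h2 := Pool.Agent.Helper64.Vojta.nv_sum_le w Finset.univ
    (Sum.elim (fun j => c j * (x j * x' o)) (fun j => - (c j * (x o * x' j))))
    (A * (vn w x * vn w x')) (mul_nonneg hA0 (mul_nonneg (hpos _) (hpos _))) (by
      have h3 : ∀ a b d, nv w (c a * (x b * x' d)) ≤ A * (vn w x * vn w x') := by
        intro a b d
        rw [Pool.Agent.Helper64.Vojta.nv_mul, Pool.Agent.Helper64.Vojta.nv_mul]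
        refine mul_le_mul (hA a) (mul_le_mul (h0 x b) (h0 x' d)
          (Pool.Agent.Helper64.Vojta.nv_nonneg _ _) (hpos _))
          (mul_nonneg (Pool.Agent.Helper64.Vojta.nv_nonneg _ _)
            (Pool.Agent.Helper64.Vojta.nv_nonneg _ _)) hA0
      rintro (j | j) _
      · exact h3 _ _ _
      · simp only [Sum.elim_inr]
        rw [Pool.Agent.Helper61.AD.SA.nv_neg]
        exact h3 _ _ _)
  rw [h1]
  refine h2.trans (le_of_eq ?_)
  rw [Finset.card_univ, Fintype.card_sum]
  push_cast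
  ring

private theorem prod52 {r : ℕ} (a : ℝ) (V : Fin r → ℝ) :
    ∏ i, ∏ j ∈ Finset.univ.erase i, (a * (V i * V j)) =
      a ^ (r * (r - 1)) * (∏ i, V i) ^ (2 * (r - 1)) := by
  classical
  have hc : ∀ i : Fin r, (Finset.univ.erase i).card = r - 1 := fun i => by
    rw [Finset.card_erase_of_mem (Finset.mem_univ i), Finset.card_univ, Fintype.card_fin]
  have h1 : ∀ i : Fin r, ∏ j ∈ Finset.univ.erase i, (a * (V i * V j)) =
      a ^ (r - 1) * (V i ^ (r - 1) * ∏ j ∈ Finset.univ.erase i, V j) := by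
    intro i
    rw [Finset.prod_mul_distrib, Finset.prod_mul_distrib, Finset.prod_const, Finset.prod_const, hc]
  have h2 : ∏ i, ∏ j ∈ Finset.univ.erase i, V j = ∏ j, ∏ _i ∈ Finset.univ.erase j, V j := by
    refine Finset.prod_comm' ?_
    intro i j
    simp [ne_comm]
  rw [Finset.prod_congr rfl fun i _ => h1 i, Finset.prod_mul_distrib, Finset.prod_mul_distrib, h2]
  have h3 : ∏ j, ∏ _i ∈ Finset.univ.erase j, V j = ∏ j, V j ^ (r - 1) :=
    Finset.prod_congr rfl fun j _ => by rw [Finset.prod_const, hc]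
  rw [h3, Finset.prod_const, Finset.card_univ, Fintype.card_fin, Finset.prod_pow, ← pow_mul,
    two_mul, pow_add, mul_comm (r - 1) r]

theorem disc_up (k : Type u) [Field k] [NumberField k] (κ : Type) [Fintype κ] [DecidableEq κ]
    (r : ℕ) (hr : 1 ≤ r) (o : κ) (c : κ → k) (ν : Pl k) :
    ∃ C : ℝ, ∀ (L : Type u) [Field L] [NumberField L] [Algebra k L] [FiniteDimensional k L],
      Module.finrank k L = r → ∀ y : κ → L, y o = 1 → rdp r o c (chow k y) ≠ 0 →
      Real.log (nv ν (rdp r o c (chow k y))) ≤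
        (2 * (r : ℝ) - 2) * Real.log (pn ν (chow k y)) + C := by
  classical
  obtain ⟨Cg, hCg, hG⟩ := gelfond_N.{u} κ r (Module.finrank ℚ k * (r + 1) ^ r)
  set B : ℝ := 1 + ∑ j, nv ν (c j) with hB
  have hB1 : 1 ≤ B := by
    rw [hB]
    have : 0 ≤ ∑ j, nv ν (c j) :=
      Finset.sum_nonneg fun j _ => Pool.Agent.Helper64.Vojta.nv_nonneg _ _
    linarith
  have hBj : ∀ j, nv ν (c j) ≤ B := by
    intro j
    have := Finset.single_le_sum (f := fun j => nv ν (c j))
      (fun j _ => Pool.Agent.Helper64.Vojta.nv_nonneg ν (c j)) (Finset.mem_univ j)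
    rw [hB]
    linarith
  set A : ℝ := B ^ ((r + 1) ^ r) with hA
  have hA1 : 1 ≤ A := one_le_pow₀ hB1
  set A1 : ℝ := (2 * (Fintype.card κ : ℝ) + 1) ^ 2 * A with hA1d
  have hA1p : 0 < A1 := by
    rw [hA1d]; positivity
  refine ⟨|(r * (r - 1) : ℕ) * Real.log A1 + (2 * (r - 1) : ℕ) * Real.log Cg|, ?_⟩
  intro L _ _ _ _ hL y hy hne
  obtain ⟨N, _, _, _, hfin, e, hsplit⟩ := split52 r hL y
  obtain ⟨w, hw⟩ := Pool.Agent.Helper61.AD.above_nonempty (L := k) (L' := N) ν
  set l : ℕ := Helper52.Vojta.ldeg ν w with hl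
  have hl0 : l ≠ 0 := Pool.Agent.Helper61.AD.ldeg_ne hw
  have hl1 : l ≤ (r + 1) ^ r := (Pool.Agent.Helper61.AD.SA.ldeg_le hw).trans hfin
  have hQN : Module.finrank ℚ N ≤ Module.finrank ℚ k * (r + 1) ^ r := by
    rw [← Module.finrank_mul_finrank ℚ k N]
    exact Nat.mul_le_mul le_rfl hfin
  let x : Fin r → κ → N := fun i j => e i (y j)
  have hx : ∀ i, x i o = 1 := fun i => by
    show e i (y o) = 1
    rw [hy, map_one]
  have hsplit' : (chow k y).map (algebraMap k N) = MvPolynomial.C 1 * ∏ i, lf (x i) := by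
    rw [hsplit, MvPolynomial.C_1, one_mul]
  have hval : algebraMap k N (rdp r o c (chow k y)) = ∏ i, ∏ j ∈ Finset.univ.erase i,
      (∑ s, algebraMap k N (c s) * x i s - ∑ s, algebraMap k N (c s) * x j s) := by
    rw [rdp_map, hsplit', rdp_eq o (fun j => algebraMap k N (c j)) hr 1 one_ne_zero x hx, one_pow,
      one_mul]
    refine Finset.prod_congr rfl fun i _ => ?_
    rw [eval_der o (fun j => algebraMap k N (c j)) 1 x hx, one_mul]
  have hcw : ∀ j, nv w (algebraMap k N (c j)) ≤ A := by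
    intro j
    rw [Helper52.Vojta.nv_above hw]
    refine (pow_le_pow_left₀ (Pool.Agent.Helper64.Vojta.nv_nonneg _ _) (hBj j) _).trans ?_
    exact pow_le_pow_right₀ hB1 hl1
  have hle : nv w (algebraMap k N (rdp r o c (chow k y))) ≤
      A1 ^ (r * (r - 1)) * (∏ i, vn w (x i)) ^ (2 * (r - 1)) := by
    rw [hval, ← prod52 A1 fun i => vn w (x i), nvprod52]
    refine Finset.prod_le_prod (fun i _ => Pool.Agent.Helper64.Vojta.nv_nonneg _ _) fun i _ => ?_
    rw [nvprod52]
    refine Finset.prod_le_prod (fun i _ => Pool.Agent.Helper64.Vojta.nv_nonneg _ _) fun j _ => ?_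
    exact up52 o (fun j => algebraMap k N (c j)) w A (by linarith) hcw (x i) (x j) (hx i) (hx j)
  have hV1 : ∀ i, 1 ≤ vn w (x i) := by
    intro i
    have := Pool.Agent.V2.le_vn w (x i) o
    rwa [hx, Pool.Agent.Helper64.Vojta.nv_one] at this
  have hVp : 0 < ∏ i, vn w (x i) := Finset.prod_pos fun i _ => by linarith [hV1 i]
  have hpn : pn w (∏ i, lf (x i)) = pn ν (chow k y) ^ l := by
    have h0 : (∏ i, lf (x i)) = (chow k y).map (algebraMap k N) := hsplit.symm
    rw [h0]
    unfold pn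
    rw [Real.iSup_pow (fun _ => Pool.Agent.Helper64.Vojta.nv_nonneg _ _)]
    congr 1
    funext d
    rw [MvPolynomial.coeff_map]
    exact Helper52.Vojta.nv_above hw _
  have hg := hG N hQN w x
  rw [hpn] at hg
  have hgp : 0 < Cg * pn ν (chow k y) ^ l := hVp.trans_le hg
  have hpnp : 0 < pn ν (chow k y) ^ l := by
    by_contra h
    push Not at h
    nlinarith
  have hrne : algebraMap k N (rdp r o c (chow k y)) ≠ 0 := by
    rw [Ne, map_eq_zero]; exact hne
  have hlog1 := Real.log_le_log (Pool.Agent.Helper64.Vojta.nv_pos w hrne) hle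
  have hlog2 := Real.log_le_log hVp hg
  rw [Real.log_mul hCg.ne' hpnp.ne', Real.log_pow] at hlog2
  rw [Helper52.Vojta.nv_above hw, Real.log_pow, Real.log_mul (pow_pos hA1p _).ne'
    (pow_pos hVp _).ne', Real.log_pow, Real.log_pow] at hlog1
  have hl' : (1 : ℝ) ≤ (l : ℝ) := by exact_mod_cast Nat.one_le_iff_ne_zero.2 hl0
  have h2r : ((2 * (r - 1) : ℕ) : ℝ) = 2 * (r : ℝ) - 2 := by
    push_cast [Nat.cast_sub hr]
    ring
  have h3 : (l : ℝ) * Real.log (nv ν (rdp r o c (chow k y))) ≤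
      (l : ℝ) * ((2 * (r : ℝ) - 2) * Real.log (pn ν (chow k y)) +
        |(r * (r - 1) : ℕ) * Real.log A1 + (2 * (r - 1) : ℕ) * Real.log Cg|) := by
    have h4 : ((2 * (r - 1) : ℕ) : ℝ) * Real.log (∏ i, vn w (x i)) ≤
        ((2 * (r - 1) : ℕ) : ℝ) * (Real.log Cg + l * Real.log (pn ν (chow k y))) :=
      mul_le_mul_of_nonneg_left hlog2 (Nat.cast_nonneg _)
    have h5 := le_abs_self (((r * (r - 1) : ℕ) : ℝ) * Real.log A1 +
      ((2 * (r - 1) : ℕ) : ℝ) * Real.log Cg)
    have h6 := abs_nonneg (((r * (r - 1) : ℕ) : ℝ) * Real.log A1 +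
      ((2 * (r - 1) : ℕ) : ℝ) * Real.log Cg)
    have h7 : |((r * (r - 1) : ℕ) : ℝ) * Real.log A1 + ((2 * (r - 1) : ℕ) : ℝ) * Real.log Cg| ≤
        (l : ℝ) * |((r * (r - 1) : ℕ) : ℝ) * Real.log A1 + ((2 * (r - 1) : ℕ) : ℝ) * Real.log Cg| :=
      le_mul_of_one_le_left h6 hl'
    rw [← h2r]
    nlinarith
  exact le_of_mul_le_mul_left h3 (by linarith)

end Pool.Agent.Helper16.UP
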