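import Pool.Agent.Helper16.UP.Defs

/-!
# Block UP-V3: the Nullstellensatz form of the normal crossing condition

PROOF. Fix `J : Finset ι` and let `I` be the ideal. By `MvPolynomial.vanishingIdeal_zeroLocus_eq_radical` (`Mathlib/RingTheory/Nullstellensatz.lean`, for `K` and
`AlgebraicClosure K`) it suffices that `X l` vanishes on the zero locus of `I` (then `X l ^ n_l ∈ I`, take the maximum of the finitely many `n_l`), i.e. that the zero locus is `⊆ {0}`.
Let `p ≠ 0` be in it. Then `φ i (p) = 0`, `f j (p) = 0` for `j ∈ J`; by `SNC` the gradients of the `φ i` and of the `f j`, `j ∈ J` (a subfamily) at `p` are linearly independent. Complete them by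
unit vectors to a basis of `(AlgebraicClosure K) ^ (Fin (d + 1) ⊕ Fin m)` (`exists_linearIndependent_extension` / `LinearIndependent.extend`, or
`Basis.extend`; the whole basis has `d + 1 + m` elements, so there are `d + 1 - card J` unit vectors). Number them: this gives `ρ : Fin (d + 1) → ι ⊕ (..)` with
`J ⊆ range`, no other element of `ι` in the range, and the rows of `Bm φ f ρ` at `p` are a basis, so `mnr φ f ρ` does not vanish at `p`
(`LinearIndependent` rows iff `det ≠ 0`), a contradiction.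
`snc_zero`: a subfamily of a linearly independent family.
-/

namespace Pool.Agent.Helper16.UP

variable {d m : ℕ} {K : Type*} [Field K] {ι : Type*}

theorem snc_zero (φ : Fin m → MvPolynomial (Fin (d + 1) ⊕ Fin m) K)
    (f : ι → MvPolynomial (Fin (d + 1) ⊕ Fin m) K) (h : SNC φ f) :
    SNC φ (Fin.elim0 : Fin 0 → MvPolynomial (Fin (d + 1) ⊕ Fin m) K) := by
  intro p hp hφ
  have h1 := (h p hp hφ).comp (Sum.inl : Fin m → _) Sum.inl_injective
  let e : Fin m ⊕ {j : Fin 0 // MvPolynomial.aeval p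
      ((Fin.elim0 : Fin 0 → MvPolynomial (Fin (d + 1) ⊕ Fin m) K) j) = 0} → Fin m :=
    Sum.elim id fun j => j.1.elim0
  have he : Function.Injective e := by
    rintro (i | i) (j | j) hij
    · exact congrArg Sum.inl hij
    · exact j.1.elim0
    · exact i.1.elim0
    · exact j.1.elim0
  have h2 := h1.comp e he
  convert h2 using 1
  funext i
  rcases i with i | i
  · rfl
  · exact i.1.elim0

/-- Completion of an independent family to a basis by unit vectors. -/
theorem complete19 {L : Type*} [Field L] (J : Finset ι)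
    (u : Fin m → (Fin (d + 1) ⊕ Fin m → L)) (v : ι → (Fin (d + 1) ⊕ Fin m → L))
    (h : LinearIndependent L (Sum.elim u fun j : {j // j ∈ J} => v j.1)) :
    ∃ ρ : Fin (d + 1) → ι ⊕ (Fin (d + 1) ⊕ Fin m),
      (∀ j ∈ J, ∃ b, ρ b = Sum.inl j) ∧ (∀ b j, ρ b = Sum.inl j → j ∈ J) ∧
      LinearIndependent L (Sum.elim (fun b => Sum.elim v (fun l => Pi.single l (1 : L)) (ρ b)) u :
        Fin (d + 1) ⊕ Fin m → (Fin (d + 1) ⊕ Fin m → L)) := by
  classical
  set w : Fin m ⊕ {j // j ∈ J} → (Fin (d + 1) ⊕ Fin m → L) := Sum.elim u fun j => v j.1 with hw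
  have hwinj : Function.Injective w := h.injective
  have hs : LinearIndepOn L id (Set.range w) := h.linearIndepOn_id
  obtain ⟨b, hbt, hsb, htb, hb⟩ := exists_linearIndepOn_extension hs
    (Set.subset_union_left (t := Set.range fun l : Fin (d + 1) ⊕ Fin m =>
      (Pi.single l (1 : L) : Fin (d + 1) ⊕ Fin m → L)))
  rw [Set.image_id, Set.image_id] at htb
  have hspan : ⊤ ≤ Submodule.span L (Set.range ((↑) : b → (Fin (d + 1) ⊕ Fin m → L))) := by
    rw [Subtype.range_coe]
    have h1 : Submodule.span L (Set.range fun l : Fin (d + 1) ⊕ Fin m =>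
        (Pi.single l (1 : L) : Fin (d + 1) ⊕ Fin m → L)) = ⊤ := by
      have h2 := (Pi.basisFun L (Fin (d + 1) ⊕ Fin m)).span_eq
      rw [← h2]
      congr 1
      ext z
      simp
    rw [← h1, Submodule.span_le]
    exact (Set.subset_union_right).trans htb
  have hbli : LinearIndependent L ((↑) : b → (Fin (d + 1) ⊕ Fin m → L)) := hb
  let B := Module.Basis.mk hbli hspan
  have hfin : Finite b := Module.Finite.finite_basis B
  have : Fintype b := Fintype.ofFinite b
  have hcard : Fintype.card b = (d + 1) + m := by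
    rw [← Module.finrank_eq_card_basis B]
    simp
  -- the gradients of the `φ i` in `b`
  let g : Fin m → b := fun i => ⟨w (Sum.inl i), hsb ⟨_, rfl⟩⟩
  have hg : Function.Injective g := fun i j hij =>
    Sum.inl_injective (hwinj (congrArg Subtype.val hij))
  have hT : Fintype.card {t : b // ¬ ∃ i, g i = t} = d + 1 := by
    rw [Fintype.card_subtype_compl]
    have h1 : Fintype.card {t : b // ∃ i, g i = t} = m := by
      refine (Fintype.card_congr ?_).trans (Fintype.card_fin m)
      exact (Equiv.ofInjective g hg).symm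
    rw [h1, hcard]
    omega
  let e0 : Fin (d + 1) ≃ {t : b // ¬ ∃ i, g i = t} := (Fintype.equivFinOfCardEq hT).symm
  -- the elements of the complement
  have hcl : ∀ a : Fin (d + 1), ∃ z : ι ⊕ (Fin (d + 1) ⊕ Fin m), (∀ j, z = Sum.inl j → j ∈ J) ∧
      Sum.elim v (fun l => Pi.single l (1 : L)) z = ((e0 a).1 : Fin (d + 1) ⊕ Fin m → L) ∧
      ((∃ j ∈ J, v j = ((e0 a).1 : Fin (d + 1) ⊕ Fin m → L)) → ∃ j ∈ J, z = Sum.inl j) := by
    intro a
    by_cases hj : ∃ j ∈ J, v j = ((e0 a).1 : Fin (d + 1) ⊕ Fin m → L)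
    · obtain ⟨j, hj, hja⟩ := hj
      refine ⟨Sum.inl j, fun j' hj' => ?_, hja, fun _ => ⟨j, hj, rfl⟩⟩
      rw [← Sum.inl_injective hj']
      exact hj
    · rcases hbt (e0 a).1.2 with ⟨q, hq⟩ | ⟨l, hl⟩
      · exfalso
        rcases q with i | j
        · exact (e0 a).2 ⟨i, Subtype.ext hq⟩
        · exact hj ⟨j.1, j.2, hq⟩
      · exact ⟨Sum.inr l, fun j hj' => absurd hj' Sum.inr_ne_inl, hl, fun h => absurd h hj⟩
  choose ρ hρ1 hρ2 hρ3 using hcl
  refine ⟨ρ, fun j hj => ?_, fun a j h => hρ1 a j h, ?_⟩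
  · have hjb : v j ∈ b := hsb ⟨Sum.inr ⟨j, hj⟩, rfl⟩
    have hjc : ¬ ∃ i, g i = ⟨v j, hjb⟩ := by
      rintro ⟨i, hi⟩
      have h1 : w (Sum.inl i) = w (Sum.inr ⟨j, hj⟩) := congrArg Subtype.val hi
      exact Sum.inl_ne_inr (hwinj h1)
    refine ⟨e0.symm ⟨⟨v j, hjb⟩, hjc⟩, ?_⟩
    obtain ⟨j', hj', h2⟩ := hρ3 (e0.symm ⟨⟨v j, hjb⟩, hjc⟩)
      ⟨j, hj, by rw [Equiv.apply_symm_apply]⟩
    rw [h2]
    have h3 := hρ2 (e0.symm ⟨⟨v j, hjb⟩, hjc⟩)
    rw [h2, Equiv.apply_symm_apply] at h3
    have h4 : w (Sum.inr ⟨j', hj'⟩) = w (Sum.inr ⟨j, hj⟩) := h3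
    have h5 := congrArg Subtype.val (Sum.inr_injective (hwinj h4))
    rw [show j' = j from h5]
  · let q : Fin (d + 1) ⊕ Fin m → b := Sum.elim (fun a => (e0 a).1) g
    have hq : Function.Injective q := by
      rintro (i | i) (j | j) hij
      · exact congrArg Sum.inl (e0.injective (Subtype.ext hij))
      · exact absurd ⟨j, hij.symm⟩ (e0 i).2
      · exact absurd ⟨i, hij⟩ (e0 j).2
      · exact congrArg Sum.inr (hg hij)
    have h1 := hbli.comp q hq
    convert h1 using 1
    funext i
    rcases i with a | i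
    · exact hρ2 a
    · rfl

theorem null_of_snc (φ : Fin m → MvPolynomial (Fin (d + 1) ⊕ Fin m) K)
    (f : ι → MvPolynomial (Fin (d + 1) ⊕ Fin m) K) (h : SNC φ f) : Null φ f := by
  classical
  intro J
  set I : Ideal (MvPolynomial (Fin (d + 1) ⊕ Fin m) K) :=
    Ideal.span (Set.range φ ∪ f '' (J : Set ι) ∪
        {g | ∃ ρ : Fin (d + 1) → ι ⊕ (Fin (d + 1) ⊕ Fin m),
          (∀ j ∈ J, ∃ b, ρ b = Sum.inl j) ∧ (∀ b j, ρ b = Sum.inl j → j ∈ J) ∧ g = mnr φ f ρ})
    with hI
  have key : ∀ p ∈ MvPolynomial.zeroLocus (AlgebraicClosure K) I, p = 0 := by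
    intro p hp
    by_contra hp0
    have hφ : ∀ i, MvPolynomial.aeval p (φ i) = 0 := fun i =>
      hp _ (Ideal.subset_span (Or.inl (Or.inl ⟨i, rfl⟩)))
    have hf : ∀ j ∈ J, MvPolynomial.aeval p (f j) = 0 := fun j hj =>
      hp _ (Ideal.subset_span (Or.inl (Or.inr ⟨j, hj, rfl⟩)))
    have hli := h p hp0 hφ
    have hli' := hli.comp (Sum.map id fun j : {j // j ∈ J} =>
      (⟨j.1, hf j.1 j.2⟩ : {j : ι // MvPolynomial.aeval p (f j) = 0}))
      (Sum.map_injective.2 ⟨Function.injective_id, fun a b hab => Subtype.ext (by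
        have h5 := congrArg (fun z : {j : ι // MvPolynomial.aeval p (f j) = 0} => z.1) hab
        exact h5)⟩)
    obtain ⟨ρ, h1, h2, h3⟩ := complete19 J
      (fun i l => MvPolynomial.aeval p (MvPolynomial.pderiv l (φ i)))
      (fun j l => MvPolynomial.aeval p (MvPolynomial.pderiv l (f j))) (by
        convert hli' using 1
        funext i
        rcases i with i | i <;> rfl)
    have hdet : MvPolynomial.aeval p (mnr φ f ρ) = 0 :=
      hp _ (Ideal.subset_span (Or.inr ⟨ρ, h1, h2, rfl⟩))
    unfold mnr at hdet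
    rw [AlgHom.map_det] at hdet
    have hunit := (Matrix.linearIndependent_rows_iff_isUnit (A := ((MvPolynomial.aeval p).mapMatrix
      (Bm φ f ρ) : Matrix _ _ (AlgebraicClosure K)))).1 (by
        convert h3 using 1
        funext i l
        rw [Matrix.row_apply, AlgHom.mapMatrix_apply, Matrix.map_apply]
        unfold Bm
        rw [Matrix.of_apply]
        rcases i with a | i
        · simp only [Sum.elim_inl]
          rcases ρ a with j | l'
          · rfl
          · simp only [Sum.elim_inr]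
            rw [Pi.single_apply]
            by_cases hl : l' = l
            · simp [hl]
            · simp [hl, Ne.symm hl]
        · rfl)
    rw [Matrix.isUnit_iff_isUnit_det] at hunit
    exact hunit.ne_zero hdet
  have hrad : ∀ l : Fin (d + 1) ⊕ Fin m,
      (MvPolynomial.X l : MvPolynomial (Fin (d + 1) ⊕ Fin m) K) ∈ I.radical := by
    intro l
    rw [← MvPolynomial.vanishingIdeal_zeroLocus_eq_radical (K := AlgebraicClosure K) I,
      MvPolynomial.mem_vanishingIdeal_iff]
    intro p hp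
    rw [key p hp]
    simp
  choose n hn using hrad
  exact ⟨Finset.univ.sup n, fun l => I.pow_mem_of_pow_mem (hn l)
    (Finset.le_sup (f := n) (Finset.mem_univ l))⟩

end Pool.Agent.Helper16.UP
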