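import Pool.Agent.Helper16.UP.Osum
import Pool.Agent.Helper16.UP.HtChow
import Pool.Agent.Helper52.Vojta.Divisor

/-!
# Block UP-F8: from the places of `K` to those of `k`

`upW K S` (Helper52/Vojta) is the set of the places of `K` above the places in `S`.

PROOF. `pn_above`, `vn_above`: `nv_above` and monotonicity of powers (`Real.iSup_pow`; for `pn` with infinitely many exponents use finiteness of the support, or `le_pn`, `pn_le`; `ldeg` may be assumed `≥ 1`: `ldeg ≠ 0` for `v ∈ above`;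
if necessary treat `F = 0` separately).
`lsum_ge`: `lsum T f' = ∑ over (infinite places and T)`; this set contains all places above `S` (`hT`, `hS`), whose contribution is `∑ ν ∈ S, ∑ v ∈ above K ν, ldeg ν v * f ν = finrank * ∑ ν ∈ S, f ν` (`sum_ldeg`);
for each of the other places `v ∈ T`, above `ν` say, `f' v = ldeg * f ν ≥ - finrank * |B ν|`; these are finitely many, the constant depends on `T`, `B` only. `osum_le`: `osum T f' = gsum f' - lsum T f'`, `gsum f' = finrank * gsum f`
(`gsum_above`, `FinS f'`), `lsum_ge`, and `gsum f - ∑ ν ∈ S, f ν = ∑ᶠ (v) (_ : inr v ∉ S), f (inr v)` because `S` contains the infinite places (`DK.finsum_cond` in Helper61/AD/DeltaLe.lean).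
-/

namespace Pool.Agent.Helper16.UP

open NumberField Finset
open Pool.Agent.Helper64.Vojta (Pl nv sn above mem_above)
open Pool.Agent.Helper52.Vojta (upW ldeg nv_above sum_ldeg exists_below sum_upW)
open Pool.Agent.V2 (vn vH pn pH gsum FinS)
open Pool.Agent.Helper16.TP (MI lsum)

universe u

variable {k K : Type*} [Field k] [NumberField k] [Field K] [NumberField K] [Algebra k K]

private theorem h21_vn_nonneg {k : Type*} [Field k] [NumberField k] {κ : Type*} (v : Pl k)
    (x : κ → k) : 0 ≤ vn v x := Real.iSup_nonneg fun _ => Pool.Agent.Helper64.Vojta.nv_nonneg v _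

private theorem h21_pn_nonneg {k : Type*} [Field k] [NumberField k] {κ : Type*} (v : Pl k)
    (F : MvPolynomial κ k) : 0 ≤ pn v F :=
  Real.iSup_nonneg fun _ => Pool.Agent.Helper64.Vojta.nv_nonneg v _

/-- The value of a polynomial is attained. -/
private theorem h21_pn_att {k : Type*} [Field k] [NumberField k] {κ : Type*} [Fintype κ]
    (F : MvPolynomial κ k) (v : Pl k) : ∃ γ, nv v (F.coeff γ) = pn v F := by
  classical
  rcases eq_or_ne F 0 with rfl | hF
  · refine ⟨0, ?_⟩
    rw [MvPolynomial.coeff_zero, Pool.Agent.Helper64.Vojta.nv_zero]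
    apply le_antisymm (h21_pn_nonneg _ _)
    refine Pool.Agent.V2.pn_le v _ le_rfl fun γ => ?_
    rw [MvPolynomial.coeff_zero, Pool.Agent.Helper64.Vojta.nv_zero]
  · obtain ⟨γ0, h0⟩ := MvPolynomial.support_nonempty.mpr hF
    obtain ⟨γ, hγ, hmax⟩ := Finset.exists_max_image F.support (fun γ => nv v (F.coeff γ)) ⟨γ0, h0⟩
    refine ⟨γ, le_antisymm (Pool.Agent.V2.le_pn v F γ) ?_⟩
    refine Pool.Agent.V2.pn_le v _ (Pool.Agent.Helper64.Vojta.nv_nonneg v _) fun γ' => ?_
    by_cases h : γ' ∈ F.support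
    · exact hmax γ' h
    · rw [MvPolynomial.notMem_support_iff.mp h, Pool.Agent.Helper64.Vojta.nv_zero]
      exact Pool.Agent.Helper64.Vojta.nv_nonneg v _

theorem pn_above {κ : Type*} [Fintype κ] {ν : Pl k} {v : Pl K} (h : v ∈ above K ν)
    (F : MvPolynomial κ k) : pn v (F.map (algebraMap k K)) = pn ν F ^ ldeg ν v := by
  apply le_antisymm
  · refine Pool.Agent.V2.pn_le v _ (pow_nonneg (h21_pn_nonneg _ _) _) fun γ => ?_
    rw [MvPolynomial.coeff_map, nv_above h]
    exact pow_le_pow_left₀ (Pool.Agent.Helper64.Vojta.nv_nonneg _ _)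
      (Pool.Agent.V2.le_pn ν F γ) _
  · obtain ⟨γ, hγ⟩ := h21_pn_att F ν
    rw [← hγ, ← nv_above h, ← MvPolynomial.coeff_map]
    exact Pool.Agent.V2.le_pn v _ γ

theorem vn_above {ι : Type*} [Finite ι] [Nonempty ι] {ν : Pl k} {v : Pl K} (h : v ∈ above K ν)
    (y : ι → k) : vn v (fun i => algebraMap k K (y i)) = vn ν y ^ ldeg ν v := by
  apply le_antisymm
  · refine Pool.Agent.V2.vn_le v _ (pow_nonneg (h21_vn_nonneg _ _) _) fun i => ?_
    rw [nv_above h]
    exact pow_le_pow_left₀ (Pool.Agent.Helper64.Vojta.nv_nonneg _ _)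
      (Pool.Agent.V2.le_vn ν y i) _
  · obtain ⟨i, hi⟩ : ∃ i, nv ν (y i) = vn ν y :=
      exists_eq_ciSup_of_finite (f := fun i => nv ν (y i))
    rw [← hi, ← nv_above h]
    exact Pool.Agent.V2.le_vn v (fun i => algebraMap k K (y i)) i

theorem lsum_ge (S : Finset (Pl k)) (hS : ∀ v : InfinitePlace k, Sum.inl v ∈ S)
    (T : Finset (FinitePlace K)) (hT : ∀ v : FinitePlace K, Sum.inr v ∈ upW K S → v ∈ T)
    (B : Pl k → ℝ) :
    ∃ C : ℝ, ∀ (f : Pl k → ℝ) (f' : Pl K → ℝ),
      (∀ ν : Pl k, ∀ v ∈ above K ν, f' v = ldeg ν v * f ν) → (∀ ν, - B ν ≤ f ν) →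
      Module.finrank k K * ∑ ν ∈ S, f ν ≤ lsum T f' + C := by
  classical
  choose bel hbel using fun v : Pl K => exists_below (L := k) v
  let A : Finset (Pl K) := (Finset.univ : Finset (InfinitePlace K)).disjSum T
  have hA : ∀ f' : Pl K → ℝ, lsum T f' = ∑ v ∈ A, f' v := by
    intro f'
    unfold lsum
    rw [Finset.sum_disjSum]
  have hsub : upW K S ⊆ A := by
    intro v hv
    rcases v with v | v
    · exact Finset.inl_mem_disjSum.mpr (Finset.mem_univ _)
    · exact Finset.inr_mem_disjSum.mpr (hT v hv)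
  refine ⟨∑ v ∈ A, (ldeg (bel v) v : ℝ) * |B (bel v)|, fun f f' hf hB => ?_⟩
  have h1 : ∑ v ∈ upW K S, f' v = Module.finrank k K * ∑ ν ∈ S, f ν := by
    rw [sum_upW, Finset.mul_sum]
    apply Finset.sum_congr rfl
    intro ν _
    rw [Finset.sum_congr rfl (hf ν), ← Finset.sum_mul, ← sum_ldeg (L' := K) ν]
    push_cast
    rfl
  have h2 : ∑ v ∈ A \ upW K S, f' v ≥ - ∑ v ∈ A, (ldeg (bel v) v : ℝ) * |B (bel v)| := by
    have h3 : ∑ v ∈ A \ upW K S, f' v ≥
        ∑ v ∈ A \ upW K S, -((ldeg (bel v) v : ℝ) * |B (bel v)|) := by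
      apply Finset.sum_le_sum
      intro v _
      rw [hf (bel v) v (hbel v), ← mul_neg]
      apply mul_le_mul_of_nonneg_left _ (Nat.cast_nonneg _)
      exact (neg_le_neg (le_abs_self _)).trans (hB _)
    rw [Finset.sum_neg_distrib] at h3
    have h4 : ∑ v ∈ A \ upW K S, (ldeg (bel v) v : ℝ) * |B (bel v)| ≤
        ∑ v ∈ A, (ldeg (bel v) v : ℝ) * |B (bel v)| :=
      Finset.sum_le_sum_of_subset_of_nonneg Finset.sdiff_subset
        fun v _ _ => mul_nonneg (Nat.cast_nonneg _) (abs_nonneg _)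
    linarith
  rw [hA, ← Finset.sum_sdiff hsub, h1]
  linarith

theorem osum_le (S : Finset (Pl k)) (hS : ∀ v : InfinitePlace k, Sum.inl v ∈ S)
    (T : Finset (FinitePlace K)) (hT : ∀ v : FinitePlace K, Sum.inr v ∈ upW K S → v ∈ T)
    (B : Pl k → ℝ) :
    ∃ C : ℝ, ∀ (f : Pl k → ℝ) (f' : Pl K → ℝ), FinS f →
      (∀ ν : Pl k, ∀ v ∈ above K ν, f' v = ldeg ν v * f ν) → (∀ ν, - B ν ≤ f ν) →
      osum T f' ≤
        Module.finrank k K * ∑ᶠ (v : FinitePlace k) (_ : Sum.inr v ∉ S), f (.inr v) + C := by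
  classical
  obtain ⟨C, hC⟩ := lsum_ge S hS T hT B
  refine ⟨C, fun f f' hfin hf hB => ?_⟩
  have h1 := hC f f' hf hB
  choose bel hbel using fun v : Pl K => exists_below (L := k) v
  -- the support of `f'`
  have hfin' : FinS f' := by
    have hfs : (⋃ ν ∈ hfin.toFinset, ((above K (.inr ν : Pl k) : Finset (Pl K)) : Set (Pl K))).Finite :=
      Set.Finite.biUnion (Finset.finite_toSet _) fun ν _ => Finset.finite_toSet _
    refine Set.Finite.subset (hfs.preimage (f := Sum.inr) (Sum.inr_injective.injOn)) ?_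
    intro v hv
    rw [Function.mem_support, hf (bel (.inr v)) (.inr v) (hbel (.inr v))] at hv
    have h2 := hbel (.inr v)
    rw [Set.mem_preimage, Set.mem_iUnion₂]
    rcases hb : bel (.inr v) with ν | ν
    · rw [hb] at h2
      exact absurd (mem_above.mp h2) id
    · rw [hb] at h2 hv
      refine ⟨ν, hfin.mem_toFinset.mpr ?_, h2⟩
      rw [Function.mem_support]
      exact right_ne_zero_of_mul hv
  have h2 := (gsum_above (k := k) f' hfin').2
  have h3 : (fun ν : Pl k => ∑ w ∈ above K ν, f' w) = fun ν => (Module.finrank k K : ℝ) * f ν := by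
    funext ν
    rw [Finset.sum_congr rfl (hf ν), ← Finset.sum_mul, ← sum_ldeg (L' := K) ν]
    push_cast
    rfl
  rw [h3, Pool.Agent.V2.gsum_const_mul] at h2
  -- the sum over the places outside `S`
  have h4 : ∑ᶠ (v : FinitePlace k) (_ : Sum.inr v ∉ S), f (.inr v) = gsum f - ∑ ν ∈ S, f ν := by
    let Fs : Finset (FinitePlace k) := hfin.toFinset ∪ S.toRight
    have e1 : ∑ᶠ v : FinitePlace k, f (.inr v) = ∑ v ∈ Fs, f (.inr v) := by
      apply finsum_eq_sum_of_support_subset
      intro v hv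
      exact Finset.mem_coe.mpr (Finset.mem_union_left _ (hfin.mem_toFinset.mpr hv))
    have e2 : ∑ᶠ (v : FinitePlace k) (_ : Sum.inr v ∉ S), f (.inr v) =
        ∑ v ∈ Fs.filter (fun v => Sum.inr v ∉ S), f (.inr v) := by
      simp_rw [finsum_eq_if]
      rw [finsum_eq_sum_of_support_subset (s := Fs.filter (fun v => Sum.inr v ∉ S))]
      · exact Finset.sum_congr rfl fun v hv => if_pos (Finset.mem_filter.mp hv).2
      · intro v hv
        rw [Function.mem_support] at hv
        by_cases hp : Sum.inr v ∉ S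
        · rw [if_pos hp] at hv
          exact Finset.mem_coe.mpr (Finset.mem_filter.mpr
            ⟨Finset.mem_union_left _ (hfin.mem_toFinset.mpr hv), hp⟩)
        · rw [if_neg hp] at hv
          exact absurd rfl hv
    have e3 : ∑ ν ∈ S, f ν = ∑ v : InfinitePlace k, f (.inl v) + ∑ v ∈ S.toRight, f (.inr v) := by
      have e4 : S = S.toLeft.disjSum S.toRight := (Finset.toLeft_disjSum_toRight).symm
      have e5 : S.toLeft = Finset.univ := by
        ext v
        simp [hS v]
      conv_lhs => rw [e4]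
      rw [Finset.sum_disjSum, e5]
    have e6 : Fs.filter (fun v => ¬ Sum.inr v ∉ S) = S.toRight := by
      ext v
      simp only [Finset.mem_filter, not_not, Finset.mem_toRight, Fs, Finset.mem_union]
      tauto
    have e7 := Finset.sum_filter_add_sum_filter_not Fs (fun v => Sum.inr v ∉ S)
      (fun v => f (.inr v))
    rw [e6] at e7
    unfold gsum
    rw [e2, e1, e3]
    linarith
  rw [h4]
  unfold osum
  rw [h2]
  linarith

end Pool.Agent.Helper16.UP
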