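import Pool.Agent.Helper16.UP.KForm
import Pool.Agent.Helper16.UP.Null
import Pool.Agent.Helper16.UP.HtChow
import Pool.Agent.Helper16.UP.DTerm
import Pool.Agent.Helper16.UP.DiscUp
import Pool.Agent.Helper16.UP.DiscEq
import Pool.Agent.Helper16.UP.Trans
import Pool.Agent.Helper16.TP.Final

/-!
# UP-F12: Vojta's inequality over `k` (assembly, helper16)
-/

namespace Pool.Agent.Helper16.UP

open NumberField Finset
open Pool.Agent.Helper64.Vojta (Pl nv sn above)
open Pool.Agent.Helper52.Vojta (upW ldeg)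
open Pool.Agent.V2 (vn vH pn pH gsum FinS)
open Pool.Agent.Helper16.TP (MI lsum)
open MvPolynomial (aeval)

universe u

namespace VU

theorem aeval_comp {k L N : Type*} [Field k] [Field L] [Field N] [Algebra k L] [Algebra k N]
    {κ : Type*} [Fintype κ] (σ : L →ₐ[k] N) (y : κ → L) (P : MvPolynomial κ k) :
    aeval (fun j => σ (y j)) P = σ (aeval y P) := by
  rw [MvPolynomial.aeval_def, MvPolynomial.aeval_def, MvPolynomial.eval₂_eq', MvPolynomial.eval₂_eq',
    map_sum]
  refine Finset.sum_congr rfl fun m _ => ?_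
  rw [map_mul, AlgHom.commutes, map_prod]
  simp_rw [map_pow]

theorem aeval_map' {k K N : Type*} [Field k] [Field K] [Field N] [Algebra k K] [Algebra k N]
    [Algebra K N] [IsScalarTower k K N] {κ : Type*} (x : κ → N) (P : MvPolynomial κ k) :
    aeval x (P.map (algebraMap k K)) = aeval x P := by
  rw [MvPolynomial.aeval_def, MvPolynomial.eval₂_map, MvPolynomial.aeval_def,
    ← IsScalarTower.algebraMap_eq]

theorem nv_neg' {N : Type*} [Field N] [NumberField N] (w : Pl N) (y : N) : nv w (-y) = nv w y :=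
  Pool.Agent.Helper16.TP.NLev.nv_neg w y

end VU

open VU in
theorem vojta_up {k K : Type u} [Field k] [NumberField k] [Field K] [NumberField K] [Algebra k K]
    {d m r M ℓ n : ℕ} (hd : 1 ≤ d) (hr : 1 ≤ r)
    (S : Finset (Pl k)) (hS : ∀ v : InfinitePlace k, Sum.inl v ∈ S)
    (φ : Fin m → MvPolynomial (Fin (d + 1) ⊕ Fin m) k) (a : Fin m → ℕ) (ha : ∀ i, 1 ≤ a i)
    (hφ : ∀ i, (φ i).IsHomogeneous (a i))
    (g : MvPolynomial (Fin (d + 1) ⊕ Fin m) k)
    (f : Fin n → MvPolynomial (Fin (d + 1) ⊕ Fin m) K) (e : Fin n → ℕ)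
    (hf : ∀ j, (f j).IsHomogeneous (e j)) (hg : g.IsHomogeneous (∑ j, e j))
    (hgf : g.map (algebraMap k K) = ∏ j, f j)
    (hsnc : SNC (fun i => (φ i).map (algebraMap k K)) f)
    (hq : d + 1 + m ≤ ∑ i, a i + ∑ j, e j)
    (c : Fin ℓ → Fin (d + 1) ⊕ Fin m → k) (T : Finset (FinitePlace K))
    (G : Fin M → MvPolynomial (Fin (d + 1) ⊕ Fin m) K) (hG : ∀ j, (G j).IsHomogeneous r)
    (ε : ℝ) (hε : 0 < ε) :
    ∃ (Q : MvPolynomial (Fin d) k) (C : ℝ), Q ≠ 0 ∧
      ∀ (L : Type u) [Field L] [NumberField L] [Algebra k L] [FiniteDimensional k L],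
        Module.finrank k L = r → ∀ y : Fin (d + 1) ⊕ Fin m → L, y (o0 d m) = 1 →
        (∀ i, aeval y (φ i) = 0) → aeval (fun b : Fin d => y (Sum.inl b.succ)) Q ≠ 0 →
        aeval y g ≠ 0 → (∃ l, dsc k r (zz (c l) y) ≠ 0) →
        ∀ (A : K) (u : Fin M → K), A ≠ 0 →
        (∀ j, u j = 0 ∨ ∀ v : FinitePlace K, v ∉ T → v (u j) = 1) →
        MvPolynomial.C A * (chow k y).map (algebraMap k K) = ∑ j, MvPolynomial.C (u j) * G j →
        (((∑ i, a i : ℕ) : ℝ) - ((d + 1 + m : ℕ) : ℝ)) *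
            (Height.logHeight y / Module.finrank k L) +
          ∑ ν ∈ S, (∑ w ∈ above L ν, (((∑ j, e j : ℕ) : ℝ) * Real.log (vn w y) -
            Real.log (nv w (aeval y g)))) / Module.finrank k L ≤
        ε * (Height.logHeight y / Module.finrank k L) +
          (∑ᶠ (v : FinitePlace k) (_ : Sum.inr v ∉ S),
            ((2 * (r : ℝ) - 2) * Real.log (pn (.inr v) (chow k y)) -
              Real.log (vn (.inr v) fun l => dsc k r (zz (c l) y)))) / r + C := by
  classical
  set T' : Finset (FinitePlace K) := T ∪ (upW K S).toRight with hT'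
  have hTS : ∀ v : FinitePlace K, Sum.inr v ∈ upW K S → v ∈ T' := fun v hv =>
    Finset.mem_union_right _ (Finset.mem_toRight.2 hv)
  obtain ⟨Q, C0, hQ0, hkf⟩ := kform (k := k) (K := K) (r := r) hd hr T' G hG
    (fun i => (φ i).map (algebraMap k K)) a ha (fun i => (hφ i).map _) f e hf
    (null_of_snc _ f hsnc) hq (fun l j => algebraMap k K (c l j)) ε hε
  set q : ℕ := ∑ j, e j with hqdef
  choose B1 hB1 using fun ν : Pl k => dterm k (Fin (d + 1) ⊕ Fin m) r hr g q hg ν
  choose B2 hB2 using fun (ν : Pl k) (l : Fin ℓ) =>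
    disc_up k (Fin (d + 1) ⊕ Fin m) r hr (o0 d m) (c l) ν
  obtain ⟨C1, hC1⟩ := lsum_ge S hS T' hTS B1
  obtain ⟨C2, hC2⟩ := osum_le S hS T' hTS fun ν => ∑ l, |B2 ν l|
  obtain ⟨C4, hC4⟩ := ht_chow k (Fin (d + 1) ⊕ Fin m) r hr
  set κ' : ℝ := ((d + 1 + m : ℕ) : ℝ) - ((∑ i, a i : ℕ) : ℝ) with hκ'
  refine ⟨Q, |C0| + |C1| + |C2| + ∑ ν ∈ S, |B1 ν| + |κ' + ε| * |C4|, hQ0, ?_⟩
  intro L _ _ _ _ hL y hy1 hyφ hyQ hyg hdsc A u hA hu hAu
  have hyne : ∃ j, y j ≠ 0 := ⟨o0 d m, by rw [hy1]; exact one_ne_zero⟩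
  set F : MvPolynomial (Fin (d + 1) ⊕ Fin m) k := chow k y with hF
  have hFne : F ≠ 0 := chow_ne y (o0 d m) (by rw [hy1]; exact one_ne_zero)
  set ng : k := Algebra.norm k (aeval y g) with hng
  have hng0 : ng ≠ 0 := by
    rw [hng, Ne, Algebra.norm_eq_zero_iff]
    exact hyg
  obtain ⟨l1, hl1⟩ := hdsc
  haveI : Nonempty (Fin ℓ) := ⟨l1⟩
  have hrd1 : ∀ l, dsc k r (zz (c l) y) ≠ 0 → rdp r (o0 d m) (c l) F ≠ 0 := by
    intro l hl
    rcases disc_eq r hr hL (o0 d m) (c l) y hy1 with h | h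
    · rw [hF, h]; exact hl
    · rw [hF, h]; exact neg_ne_zero.2 hl
  have hvd : ∀ ν : Pl k, (vn ν fun l => rdp r (o0 d m) (c l) F) =
      vn ν fun l => dsc k r (zz (c l) y) := by
    intro ν
    unfold vn
    congr 1
    funext l
    simp only
    rcases disc_eq r hr hL (o0 d m) (c l) y hy1 with h | h
    · rw [hF, h]
    · rw [hF, h, nv_neg']
  -- the embeddings
  have hcard : Fintype.card (L →ₐ[k] AlgebraicClosure K) = r := by
    rw [AlgHom.card k L (AlgebraicClosure K), hL]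
  let en : Fin r ≃ (L →ₐ[k] AlgebraicClosure K) := (Fintype.equivFinOfCardEq hcard).symm
  have hkey := hkf (F.map (algebraMap k K)) (fun s j => en s (y j)) (algebraMap k K ng) A u
    (by
      have := chow_hom (k := k) y
      rw [hL] at this
      exact this.map _)
    (fun s => by rw [hy1, map_one])
    (by
      rw [MvPolynomial.map_map, ← IsScalarTower.algebraMap_eq, hF, chow_split]
      exact (Equiv.prod_comp en fun σ : L →ₐ[k] AlgebraicClosure K => lf fun j => σ (y j)).symm)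
    (fun s i => by
      rw [aeval_map', aeval_comp, hyφ, map_zero])
    (fun s => by
      rw [aeval_map', aeval_comp (en s) (fun b : Fin d => y (Sum.inl b.succ))]
      rw [Ne, map_eq_zero]
      exact hyQ)
    (by
      rw [← IsScalarTower.algebraMap_apply, hng, Algebra.norm_eq_prod_embeddings]
      rw [← Equiv.prod_comp en fun σ : L →ₐ[k] AlgebraicClosure K => σ (aeval y g)]
      refine Finset.prod_congr rfl fun s _ => ?_
      rw [← aeval_comp, ← aeval_map' (K := K), hgf, map_prod])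
    (by rwa [Ne, map_eq_zero])
    ⟨l1, by
      rw [← rdp_map, Ne, map_eq_zero]
      exact hrd1 l1 hl1⟩ hA
    (fun j => (hu j).imp id fun h v hv => h v fun h' => hv (Finset.mem_union_left _ h')) hAu
  -- local functions
  set f1 : Pl k → ℝ := fun ν => (q : ℝ) * Real.log (pn ν F) - Real.log (nv ν ng) with hf1
  set f1' : Pl K → ℝ := fun v => (q : ℝ) * Real.log (pn v (F.map (algebraMap k K))) -
    Real.log (nv v (algebraMap k K ng)) with hf1'
  set f2 : Pl k → ℝ := fun ν => (2 * (r : ℝ) - 2) * Real.log (pn ν F) -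
    Real.log (vn ν fun l => rdp r (o0 d m) (c l) F) with hf2
  set f2' : Pl K → ℝ := fun v => (2 * (r : ℝ) - 2) * Real.log (pn v (F.map (algebraMap k K))) -
    Real.log (vn v fun l => rdp r (o0 d m) (fun j => algebraMap k K (c l j))
      (F.map (algebraMap k K))) with hf2'
  have h11 : ∀ ν : Pl k, ∀ v ∈ above K ν, f1' v = ldeg ν v * f1 ν := by
    intro ν v hv
    rw [hf1', hf1]
    simp only
    rw [pn_above hv, Pool.Agent.Helper52.Vojta.nv_above hv, Real.log_pow, Real.log_pow]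
    ring
  have h21 : ∀ ν : Pl k, ∀ v ∈ above K ν, f2' v = ldeg ν v * f2 ν := by
    intro ν v hv
    rw [hf2', hf2]
    simp only
    have h3 : (fun l => rdp r (o0 d m) (fun j => algebraMap k K (c l j))
      (F.map (algebraMap k K))) = fun l => algebraMap k K (rdp r (o0 d m) (c l) F) := by
      funext l
      rw [rdp_map]
    rw [h3, pn_above hv, vn_above hv, Real.log_pow, Real.log_pow]
    ring
  have h12 : ∀ ν, - B1 ν ≤ f1 ν := fun ν => (hB1 ν L hL y hyne hyg).2
  have hDne : (fun l => rdp r (o0 d m) (c l) F) ≠ 0 := fun h => hrd1 l1 hl1 (congrFun h l1)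
  have h22 : ∀ ν, - (∑ l, |B2 ν l|) ≤ f2 ν := by
    intro ν
    obtain ⟨l, hl⟩ := exists_eq_ciSup_of_finite (f := fun l => nv ν (rdp r (o0 d m) (c l) F))
    have hv0 : 0 < vn ν fun l => rdp r (o0 d m) (c l) F := Pool.Agent.V2.vn_pos ν hDne
    have hl' : nv ν (rdp r (o0 d m) (c l) F) = vn ν fun l => rdp r (o0 d m) (c l) F := hl
    have hl0 : rdp r (o0 d m) (c l) F ≠ 0 := by
      intro h
      rw [h, Pool.Agent.Helper64.Vojta.nv_zero] at hl'
      exact hv0.ne hl'
    have h3 := hB2 ν l L hL y hy1 hl0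
    have h4 : |B2 ν l| ≤ ∑ l, |B2 ν l| :=
      Finset.single_le_sum (f := fun l => |B2 ν l|) (fun _ _ => abs_nonneg _) (Finset.mem_univ l)
    have h5 := le_abs_self (B2 ν l)
    rw [hf2]
    simp only
    rw [← hl']
    linarith
  have hfin2 : FinS f2 := by
    have h1 := (Pool.Agent.V2.finS_pn hFne).const_mul (2 * (r : ℝ) - 2)
    have h2 := (Pool.Agent.V2.finS_vn hDne).const_mul (-1 : ℝ)
    refine Set.Finite.subset (h1.add h2) fun v hv => ?_
    rw [Function.mem_support] at hv ⊢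
    intro h0
    apply hv
    rw [hf2]
    simp only at h0 ⊢
    linarith
  have A1 := hC1 f1 f1' h11 h12
  have A2 := hC2 f2 f2' hfin2 h21 h22
  set dK : ℝ := (Module.finrank k K : ℝ) with hdK
  have hfdK : FiniteDimensional k K := Module.Finite.right ℚ k K
  have hdK1 : (1 : ℝ) ≤ dK := by
    have : 0 < Module.finrank k K := Module.finrank_pos
    rw [hdK]; exact_mod_cast this
  have hpHK : pH (F.map (algebraMap k K)) = dK * pH F := by
    unfold pH
    have hne : F.map (algebraMap k K) ≠ 0 := by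
      intro h
      apply hFne
      exact MvPolynomial.map_injective _ (algebraMap k K).injective (by rw [h, map_zero])
    rw [(gsum_above (k := k) (L := K) _ (Pool.Agent.V2.finS_pn hne)).2]
    have h3 : (fun ν : Pl k => ∑ w ∈ above K ν, Real.log (pn w (F.map (algebraMap k K)))) =
        fun ν => dK * Real.log (pn ν F) := by
      funext ν
      rw [hdK, ← Pool.Agent.Helper52.Vojta.sum_ldeg (L' := K) ν]
      push_cast
      rw [Finset.sum_mul]
      refine Finset.sum_congr rfl fun w hw => ?_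
      rw [pn_above hw, Real.log_pow]
    rw [h3]
    unfold gsum
    rw [mul_add, Finset.mul_sum, mul_finsum]
  rw [hpHK] at hkey
  set Fo : ℝ := ∑ᶠ (v : FinitePlace k) (_ : Sum.inr v ∉ S), f2 (.inr v) with hFo
  have hFo' : (∑ᶠ (v : FinitePlace k) (_ : Sum.inr v ∉ S),
            ((2 * (r : ℝ) - 2) * Real.log (pn (.inr v) (chow k y)) -
              Real.log (vn (.inr v) fun l => dsc k r (zz (c l) y)))) = Fo := by
    rw [hFo]
    refine finsum_congr fun v => finsum_congr fun _ => ?_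
    rw [hf2]
    simp only
    rw [hvd]
  rw [hFo', hL]
  set h : ℝ := Height.logHeight y with hh
  set Lam : ℝ := ∑ ν ∈ S, ∑ w ∈ above L ν, ((q : ℝ) * Real.log (vn w y) -
    Real.log (nv w (aeval y g))) with hLam
  have A3 : Lam ≤ ∑ ν ∈ S, f1 ν + ∑ ν ∈ S, |B1 ν| := by
    rw [← Finset.sum_add_distrib]
    refine Finset.sum_le_sum fun ν _ => ?_
    have h3 := (hB1 ν L hL y hyne hyg).1
    have h4 := le_abs_self (B1 ν)
    rw [hf1]
    simp only
    linarith
  have A4 := hC4 L hL y hyne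
  rw [← hF, ← hh] at A4
  have B0 : dK * ∑ ν ∈ S, f1 ν ≤ dK * ((κ' + ε) * pH F + Fo + |C0| + |C1| + |C2|) := by
    have e0 := le_abs_self C0
    have e1 := le_abs_self C1
    have e2 := le_abs_self C2
    have e3 : |C0| + |C1| + |C2| ≤ dK * (|C0| + |C1| + |C2|) :=
      le_mul_of_one_le_left (by positivity) hdK1
    have e4 : dK * ((κ' + ε) * pH F + Fo + |C0| + |C1| + |C2|) =
      (κ' + ε) * (dK * pH F) + dK * Fo + dK * (|C0| + |C1| + |C2|) := by ring
    rw [e4]
    linarith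
  have B1' : ∑ ν ∈ S, f1 ν ≤ (κ' + ε) * pH F + Fo + |C0| + |C1| + |C2| :=
    le_of_mul_le_mul_left B0 (by linarith)
  have B2' : (κ' + ε) * pH F ≤ (κ' + ε) * h + |κ' + ε| * |C4| := by
    have e1 : (κ' + ε) * (pH F - h) ≤ |κ' + ε| * |C4| := by
      refine (le_abs_self _).trans ?_
      rw [abs_mul]
      exact mul_le_mul_of_nonneg_left (A4.trans (le_abs_self _)) (abs_nonneg _)
    linarith
  set Ct : ℝ := |C0| + |C1| + |C2| + ∑ ν ∈ S, |B1 ν| + |κ' + ε| * |C4| with hCt
  have hCt0 : 0 ≤ Ct := by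
    have : 0 ≤ ∑ ν ∈ S, |B1 ν| := Finset.sum_nonneg fun _ _ => abs_nonneg _
    positivity
  have B3 : Lam ≤ Fo + (κ' + ε) * h + Ct := by rw [hCt]; linarith
  have hr0 : (0 : ℝ) < r := by exact_mod_cast hr
  have hr1 : (1 : ℝ) ≤ r := by exact_mod_cast hr
  rw [← Finset.sum_div]
  have B8 : Lam / r ≤ (Fo + (κ' + ε) * h + Ct) / r := div_le_div_of_nonneg_right B3 hr0.le
  have B9 : Ct / r ≤ Ct := div_le_self hCt0 hr1
  have e9 : (Fo + (κ' + ε) * h + Ct) / r = Fo / r + (κ' + ε) * (h / r) + Ct / r := by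
    field_simp
  rw [e9] at B8
  have e10 : (((∑ i, a i : ℕ) : ℝ) - ((d + 1 + m : ℕ) : ℝ)) = - κ' := by rw [hκ']; ring
  rw [e10]
  linarith

end Pool.Agent.Helper16.UP
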