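import Pool.Agent.Helper16.UP.Defs3

/-!
# The Chow form of a point
-/

namespace Pool.Agent.Helper16.UP

/-- The Chow form of the point `y` of degree `[L : k]`: the norm of `∑_j y_j U_j`, i.e. the determinant
of the multiplication by `∑_j y_j U_j`. -/
noncomputable def chow (k : Type*) {L : Type*} [Field k] [Field L] [Algebra k L]
    [FiniteDimensional k L] {κ : Type*} [Fintype κ] (y : κ → L) : MvPolynomial κ k :=
  Matrix.det (∑ j, (MvPolynomial.X j : MvPolynomial κ k) •
    (Algebra.leftMulMatrix (Module.finBasis k L) (y j)).map MvPolynomial.C)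

/-- The linear form `c` evaluated at `y`. -/
noncomputable def zz {k L : Type*} [Field k] [Field L] [Algebra k L] {κ : Type*} [Fintype κ]
    (c : κ → k) (y : κ → L) : L := ∑ j, algebraMap k L (c j) * y j

/-- The discriminant of `1, z, ..., z^(r-1)`. -/
noncomputable def dsc (k : Type*) {L : Type*} [Field k] [Field L] [Algebra k L] (r : ℕ) (z : L) : k :=
  Algebra.discr k fun i : Fin r => z ^ (i : ℕ)

end Pool.Agent.Helper16.UP
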