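import Pool.Agent.Helper16.UP.ChowDefs
import Pool.Agent.Helper61.AD.DeltaLe

/-!
# Block UP-F9: the order part

PROOF. Copy of `delta_le` in Helper61/AD/DeltaLe.lean. For a finite place `v` choose `l` with `nv v (dsc (z l))` maximal, so `≠ 0` (`vn v (..) = nv v (dsc (z l))`); `ld_int` (for the coefficients of `F`: choose `γ` with
`nv v (F.coeff γ) = pn v F`, or apply it to the vector of the coefficients in the support) gives the integer `n v`; if `n v` is odd then `nv v (dsc (z l)) = Nv ^ (2 m' + 1)`. `z l` generates `L` because its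
discriminant is not `0` (the powers `1, z, ..., z^(r-1)` are a basis: `Algebra.discr_not_zero_of_basis` converse: `Algebra.discr ≠ 0` implies linear independence, `Algebra.discr_zero_of_not_linearIndependent`), so `(minpoly k (z l)).natDegree = r` and
`dsc k r (z l) = ± (minpoly k (z l)).discr` (both are `± ∏_{i<j} (z_i - z_j)^2` over an algebraic closure; or `Algebra.discr_powerBasis_eq_norm` and `resultant_deriv`); `odd_ram`, `sum_ram` (Helper61/AD/Ram.lean).
-/

namespace Pool.Agent.Helper16.UP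

open NumberField Finset
open Pool.Agent.Helper64.Vojta (Pl nv sn above)
open Pool.Agent.V2 (vn vH pn pH gsum FinS)

universe u

namespace DF21

open Module

/-- The parity of the discriminant of `1, y, ..., y^(r-1)`. -/
theorem odd_dsc {k L : Type u} [Field k] [NumberField k] [Field L] [NumberField L]
    [Algebra k L] (r : ℕ) (hr : 0 < r) (hL : finrank k L = r) (y : L) (h0 : dsc k r y ≠ 0)
    (v : FinitePlace k) (n : ℤ)
    (hn : nv (.inr v) (dsc k r y) = (Ideal.absNorm v.maximalIdeal.asIdeal : ℝ) ^ (2 * n + 1)) :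
    (minpoly k y).natDegree = finrank k L ∧
      ∃ n' : ℤ, nv (.inr v) (minpoly k y).discr =
        (Ideal.absNorm v.maximalIdeal.asIdeal : ℝ) ^ (2 * n' + 1) := by
  classical
  subst hL
  have : FiniteDimensional k L := FiniteDimensional.right ℚ k L
  have hint : IsIntegral k y := Algebra.IsIntegral.isIntegral y
  have hli : LinearIndependent k fun i : Fin (finrank k L) => y ^ (i : ℕ) := by
    by_contra h
    exact h0 (Algebra.discr_zero_of_not_linearIndependent k h)
  have hdeg : (minpoly k y).natDegree = finrank k L := by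
    apply le_antisymm (minpoly.natDegree_le y)
    rw [← IntermediateField.adjoin.finrank hint]
    have hmem : ∀ i : Fin (finrank k L), y ^ (i : ℕ) ∈ IntermediateField.adjoin k {y} := fun i =>
      pow_mem (IntermediateField.mem_adjoin_simple_self k y) _
    have h1 : LinearIndependent k fun i : Fin (finrank k L) =>
        (⟨y ^ (i : ℕ), hmem i⟩ : IntermediateField.adjoin k {y}) := by
      apply LinearIndependent.of_comp (IntermediateField.adjoin k {y}).val.toLinearMap
      exact hli
    have h2 := h1.fintype_card_le_finrank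
    rwa [Fintype.card_fin] at h2
  refine ⟨hdeg, ?_⟩
  obtain ⟨b, hb⟩ := Pool.Agent.Helper61.AD.Ram.discr_minpoly y hdeg
  have : NeZero (finrank k L) := ⟨hr.ne'⟩
  let bb : Basis (Fin (finrank k L)) k L :=
    basisOfLinearIndependentOfCardEqFinrank hli (by simp)
  have hbb : (bb : Fin (finrank k L) → L) = fun i : Fin (finrank k L) => y ^ (i : ℕ) :=
    coe_basisOfLinearIndependentOfCardEqFinrank _ _
  have h1 : Algebra.discr k b = (bb.toMatrix b).det ^ 2 * dsc k (finrank k L) y := by
    unfold dsc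
    rw [← hbb, ← Algebra.discr_of_matrix_vecMul, Basis.toMatrix_map_vecMul]
  have hdet0 : (bb.toMatrix b).det ≠ 0 := by
    intro h2
    rw [h2] at h1
    apply Algebra.discr_not_zero_of_basis k b
    rw [h1]
    ring
  obtain ⟨j, hj⟩ := Pool.Agent.Helper61.AD.Ram.fin_zpow v hdet0
  have hn1 : (1 : ℝ) < Ideal.absNorm v.maximalIdeal.asIdeal := by
    exact_mod_cast HeightOneSpectrum.one_lt_absNorm v.maximalIdeal
  refine ⟨j + n, ?_⟩
  have hn' : v (dsc k (finrank k L) y) =
    (Ideal.absNorm v.maximalIdeal.asIdeal : ℝ) ^ (2 * n + 1) := hn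
  change v (minpoly k y).discr = _
  rw [hb, h1, map_mul, map_pow, hj, hn', ← zpow_natCast, ← zpow_mul,
    ← zpow_add₀ (by linarith : (Ideal.absNorm v.maximalIdeal.asIdeal : ℝ) ≠ 0)]
  congr 1
  push_cast
  ring

theorem vn_nonneg' {k : Type*} [Field k] [NumberField k] {κ : Type*} (v : Pl k) (x : κ → k) :
    0 ≤ vn v x := Real.iSup_nonneg fun _ => Pool.Agent.Helper64.Vojta.nv_nonneg v _

theorem pn_nonneg' {k : Type*} [Field k] [NumberField k] {κ : Type*} (v : Pl k)
    (F : MvPolynomial κ k) :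
    0 ≤ pn v F := Real.iSup_nonneg fun _ => Pool.Agent.Helper64.Vojta.nv_nonneg v _

/-- The value of a polynomial is that of the vector of its coefficients. -/
theorem pn_eq {k : Type*} [Field k] [NumberField k] {κ : Type*} [Fintype κ]
    (F : MvPolynomial κ k) (v : Pl k) : pn v F = vn v fun γ : F.support => F.coeff γ := by
  apply le_antisymm
  · refine Pool.Agent.V2.pn_le v F (vn_nonneg' _ _) fun γ => ?_
    by_cases hγ : γ ∈ F.support
    · exact Pool.Agent.V2.le_vn v (fun γ : F.support => F.coeff γ) ⟨γ, hγ⟩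
    · rw [MvPolynomial.notMem_support_iff.mp hγ, Pool.Agent.Helper64.Vojta.nv_zero]
      exact vn_nonneg' _ _
  · refine Pool.Agent.V2.vn_le v _ (pn_nonneg' _ _) fun γ => ?_
    exact Pool.Agent.V2.le_pn v F γ

end DF21

theorem delta_forms {k L : Type u} [Field k] [NumberField k] [Field L] [NumberField L]
    [Algebra k L] (r : ℕ) (hr : 0 < r) (hL : Module.finrank k L = r) {κ : Type} [Fintype κ]
    (F : MvPolynomial κ k) (hF : F ≠ 0) {ℓ : ℕ} (z : Fin ℓ → L) (hz : ∃ l, dsc k r (z l) ≠ 0)
    (S : Finset (Pl k)) :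
    ∑ᶠ (v : FinitePlace k) (_ : Sum.inr v ∉ S),
        ((2 * (r : ℝ) - 2) * Real.log (pn (.inr v) F) -
          Real.log (vn (.inr v) fun l => dsc k r (z l))) ≤
      (Real.log |(discr L : ℝ)| - r * Real.log |(discr k : ℝ)|) +
      2 * ∑ᶠ (v : FinitePlace k) (_ : Sum.inr v ∉ S),
        (⌊((2 * (r : ℝ) - 2) * Real.log (pn (.inr v) F) -
          Real.log (vn (.inr v) fun l => dsc k r (z l))) /
            (2 * Real.log (Ideal.absNorm v.maximalIdeal.asIdeal))⌋ : ℝ) *
          Real.log (Ideal.absNorm v.maximalIdeal.asIdeal) := by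
  classical
  have hD : (fun l => dsc k r (z l)) ≠ 0 := by
    obtain ⟨l, hl⟩ := hz
    exact fun h => hl (congrFun h l)
  have hF' : (fun γ : F.support => F.coeff γ) ≠ 0 := by
    obtain ⟨γ, hγ⟩ := MvPolynomial.ne_zero_iff.mp hF
    exact fun h => hγ (congrFun h ⟨γ, MvPolynomial.mem_support_iff.mpr hγ⟩)
  set g : FinitePlace k → ℝ := fun v => (2 * (r : ℝ) - 2) * Real.log (pn (.inr v) F) -
    Real.log (vn (.inr v) fun l => dsc k r (z l)) with hg
  -- finitely many places matter
  have hfin : (Function.support g).Finite := by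
    have h1 := (Pool.Agent.V2.finS_pn hF).const_mul (2 * (r : ℝ) - 2)
    have h2 := (h1.add (Pool.Agent.V2.finS_vn hD).neg)
    refine Set.Finite.subset h2 fun v hv => ?_
    rw [Function.mem_support] at hv ⊢
    rw [hg] at hv
    simp only [sub_eq_add_neg] at hv ⊢
    exact hv
  -- the maximal discriminant
  have hmax : ∀ v : FinitePlace k, ∃ l, nv (.inr v) (dsc k r (z l)) =
      vn (.inr v) (fun l => dsc k r (z l)) ∧ dsc k r (z l) ≠ 0 := by
    intro v
    obtain ⟨l0, hl0⟩ := hz
    have : Nonempty (Fin ℓ) := ⟨l0⟩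
    obtain ⟨l, hl⟩ : ∃ l, nv (.inr v) (dsc k r (z l)) = vn (.inr v) fun l => dsc k r (z l) :=
      exists_eq_ciSup_of_finite (f := fun l => nv (.inr v : Pl k) (dsc k r (z l)))
    refine ⟨l, hl, fun h0 => ?_⟩
    have hvn : 0 < vn (.inr v : Pl k) fun l => dsc k r (z l) := Pool.Agent.V2.vn_pos _ hD
    rw [h0, Pool.Agent.Helper64.Vojta.nv_zero] at hl
    exact hvn.ne hl
  choose l hl1 hl2 using hmax
  choose n hn1' hn2 using fun v : FinitePlace k =>
    Pool.Agent.Helper61.AD.DK.ld_int r (fun γ : F.support => F.coeff γ) hF' (dsc k r (z (l v)))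
      (hl2 v) v
  have hn1 : ∀ v : FinitePlace k, g v =
      n v * Real.log (Ideal.absNorm v.maximalIdeal.asIdeal) := by
    intro v
    rw [← hn1' v, ← DF21.pn_eq, hl1]
  have hN : ∀ v : FinitePlace k, 0 < Real.log (Ideal.absNorm v.maximalIdeal.asIdeal) := fun v =>
    Real.log_pos (Pool.Agent.V2.FC.one_lt_norm v)
  set T : Finset (FinitePlace k) := hfin.toFinset.filter (fun v => Sum.inr v ∉ S) with hT
  have hfloor : ∀ v : FinitePlace k,
      (⌊g v / (2 * Real.log (Ideal.absNorm v.maximalIdeal.asIdeal))⌋ : ℝ) = ((n v / 2 : ℤ) : ℝ) := by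
    intro v
    have h1 : g v / (2 * Real.log (Ideal.absNorm v.maximalIdeal.asIdeal)) = (n v : ℝ) / (2 : ℕ) := by
      rw [hn1 v]
      have := (hN v).ne'
      field_simp
      push_cast
      ring
    rw [h1, Int.floor_div_natCast, Int.floor_intCast]
    rfl
  have hs1 : ∑ᶠ (v : FinitePlace k) (_ : Sum.inr v ∉ S), g v = ∑ v ∈ T, g v := by
    refine Pool.Agent.Helper61.AD.DK.finsum_cond _ _ T (fun v hv hne => ?_)
      (fun v hv => (Finset.mem_filter.mp hv).2)
    exact Finset.mem_filter.mpr ⟨hfin.mem_toFinset.mpr hne, hv⟩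
  have hs2 : ∑ᶠ (v : FinitePlace k) (_ : Sum.inr v ∉ S),
      (⌊g v / (2 * Real.log (Ideal.absNorm v.maximalIdeal.asIdeal))⌋ : ℝ) *
        Real.log (Ideal.absNorm v.maximalIdeal.asIdeal)
      = ∑ v ∈ T, ((n v / 2 : ℤ) : ℝ) * Real.log (Ideal.absNorm v.maximalIdeal.asIdeal) := by
    simp_rw [hfloor]
    refine Pool.Agent.Helper61.AD.DK.finsum_cond _ _ T (fun v hv hne => ?_)
      (fun v hv => (Finset.mem_filter.mp hv).2)
    refine Finset.mem_filter.mpr ⟨hfin.mem_toFinset.mpr ?_, hv⟩
    intro h0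
    apply hne
    have h0' : (n v : ℝ) * Real.log (Ideal.absNorm v.maximalIdeal.asIdeal) = 0 := by
      rw [← hn1 v]; exact h0
    have h3 : (n v : ℝ) = 0 := (mul_eq_zero.mp h0').resolve_right (hN v).ne'
    have h4 : n v = 0 := by exact_mod_cast h3
    rw [h4]
    simp
  have hs1' := hs1
  have hs2' := hs2
  rw [hg] at hs1' hs2'
  simp only [] at hs1' hs2'
  rw [hs1', hs2']
  set W := T.filter (fun v => Odd (n v)) with hW
  have hram := Pool.Agent.Helper61.AD.sum_ram (k := k) (L := L) W (fun v hv => by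
    obtain ⟨m, hm⟩ := hn2 v (Finset.mem_filter.mp hv).2
    obtain ⟨h1, m', hm'⟩ := DF21.odd_dsc r hr hL (z (l v)) (hl2 v) v m hm
    exact Pool.Agent.Helper61.AD.odd_ram (z (l v)) h1 v m' hm')
  rw [hL] at hram
  have hsum : ∑ v ∈ T, g v = 2 * ∑ v ∈ T, ((n v / 2 : ℤ) : ℝ) *
      Real.log (Ideal.absNorm v.maximalIdeal.asIdeal)
      + ∑ v ∈ W, Real.log (Ideal.absNorm v.maximalIdeal.asIdeal) := by
    have hWs : ∑ v ∈ W, Real.log (Ideal.absNorm v.maximalIdeal.asIdeal)
        = ∑ v ∈ T, if Odd (n v) then Real.log (Ideal.absNorm v.maximalIdeal.asIdeal) else 0 :=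
      Finset.sum_filter _ _
    rw [hWs, Finset.mul_sum, ← Finset.sum_add_distrib]
    refine Finset.sum_congr rfl fun v _ => ?_
    rw [hn1 v]
    split_ifs with h
    · obtain ⟨m, hm⟩ := h
      have h1 : n v / 2 = m := by omega
      rw [h1, hm]
      push_cast
      ring
    · rw [Int.not_odd_iff_even] at h
      obtain ⟨m, hm⟩ := h
      have h1 : n v / 2 = m := by omega
      rw [h1, hm]
      push_cast
      ring
  have hsum' := hsum
  rw [hg] at hsum'
  simp only [] at hsum'
  linarith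

end Pool.Agent.Helper16.UP
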