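import Mathlib
import Pool.Agent.Helper16.TP.DefsA

/-!
# Definitions (algebra) for project UP (MP_71c16a_nt, helper16)

`κ` is the index set of the homogeneous coordinates, `o : κ` a distinguished one. A form
`F = a ∏_σ (∑_j x_j^σ U_j)` of degree `r` with `x_o^σ = 1` is studied through the polynomial
`pen o c F = F (T e_o - c) = a ∏_σ (T - z_σ)`, `z_σ = ∑_j c_j x_j^σ`, and
`pend o c F j = (∂_j F)(T e_o - c)`, whose value at `z_σ` is `x_j^σ (pen o c F)'(z_σ)`.
-/

namespace Pool.Agent.Helper16.UP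

open Polynomial
open Pool.Agent.Helper16.TP (mapD rd der)

section general

variable {κ : Type*} [Fintype κ] [DecidableEq κ] {R : Type*} [CommRing R]

/-- The linear form with coefficients `x`. -/
noncomputable def lf (x : κ → R) : MvPolynomial κ R :=
  ∑ j, MvPolynomial.C (x j) * MvPolynomial.X j

/-- `F (T e_o - c)`. -/
noncomputable def pen (o : κ) (c : κ → R) (F : MvPolynomial κ R) : R[X] :=
  MvPolynomial.aeval (fun j => (if j = o then X else 0) - C (c j)) F

/-- `(∂_j F) (T e_o - c)`. -/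
noncomputable def pend (o : κ) (c : κ → R) (F : MvPolynomial κ R) (j : κ) : R[X] :=
  pen o c (MvPolynomial.pderiv j F)

/-- The value of `Q` at `(pend o c F j)_j`. -/
noncomputable def ev (o : κ) (c : κ → R) (F Q : MvPolynomial κ R) : R[X] :=
  MvPolynomial.aeval (pend o c F) Q

/-- The resultant which is `rd ^ e * ∏_σ Q(x^σ)` for `Q` homogeneous of degree `e`. -/
noncomputable def rs (r e : ℕ) (o : κ) (c : κ → R) (F Q : MvPolynomial κ R) : R :=
  resultant (pen o c F) (ev o c F Q) r (e * (r - 1))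

/-- `a ^ (r - 1) * ∏_σ (pen o c F)'(z_σ)`. -/
noncomputable def rdp (r : ℕ) (o : κ) (c : κ → R) (F : MvPolynomial κ R) : R := rd r (pen o c F)

/-- The coefficient of `U_o ^ r` (denoted `a` above). -/
noncomputable def lc (r : ℕ) (o : κ) (F : MvPolynomial κ R) : R := F.coeff (Finsupp.single o r)

/-- The decomposition of `F` over `M`: `F = a ∏_σ (∑_j x_j^σ U_j)`, `x_o^σ = 1`. -/
def Dec {M : Type*} [CommRing M] (ψ : R →+* M) {r : ℕ} (o : κ) (F : MvPolynomial κ R)
    (x : Fin r → κ → M) : Prop :=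
  (∀ σ, x σ o = 1) ∧ F.map ψ = MvPolynomial.C (ψ (lc r o F)) * ∏ σ, lf (x σ)

/-- `(pend)^δ P' - (pend)' P^δ`, whose value at `z_σ` is `P'(z_σ) * δ (pend(z_σ))`. -/
noncomputable def nn (o : κ) (c : κ → R) (F : MvPolynomial κ R) (δ : R → R) (j : κ) : R[X] :=
  mapD δ (pend o c F j) * derivative (pen o c F) - derivative (pend o c F j) * mapD δ (pen o c F)

/-- The maximum of the values of the coordinates. -/
noncomputable def mx {M : Type*} [Field M] {Γ₀ : Type*} [LinearOrderedCommGroupWithZero Γ₀]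
    (v : Valuation M Γ₀) (x : κ → M) : Γ₀ := Finset.univ.sup fun j => v (x j)

end general

section special

variable {d m : ℕ} {R : Type*} [CommRing R]

/-- The distinguished coordinate. -/
abbrev o0 (d m : ℕ) : Fin (d + 1) ⊕ Fin m := Sum.inl 0

/-- The determinant with columns `x, D_1 x, ..., D_d x` (first `d + 1` coordinates). -/
noncomputable def Jac (D : Fin d → R → R) (x : Fin (d + 1) ⊕ Fin m → R) : R :=
  Matrix.det (Matrix.of fun a i : Fin (d + 1) =>
    (Fin.cons (x (Sum.inl a)) (fun i => D i (x (Sum.inl a))) : Fin (d + 1) → R) i)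

/-- The polynomial whose value at `z_σ` is `P'(z_σ) ^ (2 d + 1) * Jac (x^σ)`. -/
noncomputable def theta (c : Fin (d + 1) ⊕ Fin m → R) (F : MvPolynomial (Fin (d + 1) ⊕ Fin m) R)
    (D : Fin d → R → R) : R[X] :=
  Matrix.det (Matrix.of fun a i : Fin (d + 1) =>
    (Fin.cons (pend (o0 d m) c F (Sum.inl a)) (fun i => nn (o0 d m) c F (D i) (Sum.inl a)) :
      Fin (d + 1) → R[X]) i)

/-- The resultant which is `rd ^ (2 d + 1) * ∏_σ Jac (x^σ)`. -/
noncomputable def Theta (r : ℕ) (c : Fin (d + 1) ⊕ Fin m → R)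
    (F : MvPolynomial (Fin (d + 1) ⊕ Fin m) R) (D : Fin d → R → R) : R :=
  resultant (pen (o0 d m) c F) (theta c F D) r ((2 * d + 1) * (r - 1))

/-- The matrix with rows: for `b : Fin (d + 1)` the gradient of `f j` (if `ρ b = inl j`) or the unit
vector `l` (if `ρ b = inr l`); for `i : Fin m` the gradient of `φ i`. -/
noncomputable def Bm {ι : Type*} (φ : Fin m → MvPolynomial (Fin (d + 1) ⊕ Fin m) R)
    (f : ι → MvPolynomial (Fin (d + 1) ⊕ Fin m) R) (ρ : Fin (d + 1) → ι ⊕ (Fin (d + 1) ⊕ Fin m)) :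
    Matrix (Fin (d + 1) ⊕ Fin m) (Fin (d + 1) ⊕ Fin m)
      (MvPolynomial (Fin (d + 1) ⊕ Fin m) R) :=
  Matrix.of fun i l => Sum.elim
    (fun b => Sum.elim (fun j => MvPolynomial.pderiv l (f j)) (fun l' => if l' = l then 1 else 0)
      (ρ b))
    (fun i => MvPolynomial.pderiv l (φ i)) i

/-- The determinant of `Bm`. -/
noncomputable def mnr {ι : Type*} (φ : Fin m → MvPolynomial (Fin (d + 1) ⊕ Fin m) R)
    (f : ι → MvPolynomial (Fin (d + 1) ⊕ Fin m) R) (ρ : Fin (d + 1) → ι ⊕ (Fin (d + 1) ⊕ Fin m)) :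
    MvPolynomial (Fin (d + 1) ⊕ Fin m) R := (Bm φ f ρ).det

/-- The determinant of the derivatives of the `φ i` with respect to the last `m` coordinates. -/
noncomputable def Del (φ : Fin m → MvPolynomial (Fin (d + 1) ⊕ Fin m) R) :
    MvPolynomial (Fin (d + 1) ⊕ Fin m) R :=
  Matrix.det (Matrix.of fun i k : Fin m => MvPolynomial.pderiv (Sum.inr k) (φ i))

/-- `X = {φ = 0}` is a smooth complete intersection and the divisor `∏ f_j = 0` has simple normal
crossings on it: at every point of `X` the gradients of all `φ i` and of the `f j` which vanish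
there are linearly independent. -/
def SNC {K : Type*} [Field K] {ι : Type*} (φ : Fin m → MvPolynomial (Fin (d + 1) ⊕ Fin m) K)
    (f : ι → MvPolynomial (Fin (d + 1) ⊕ Fin m) K) : Prop :=
  ∀ p : Fin (d + 1) ⊕ Fin m → AlgebraicClosure K, p ≠ 0 → (∀ i, MvPolynomial.aeval p (φ i) = 0) →
    LinearIndependent (AlgebraicClosure K)
      (Sum.elim (fun i : Fin m => fun l => MvPolynomial.aeval p (MvPolynomial.pderiv l (φ i)))
        (fun j : {j : ι // MvPolynomial.aeval p (f j) = 0} =>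
          fun l => MvPolynomial.aeval p (MvPolynomial.pderiv l (f j.1))))

/-- The algebraic form of `SNC` (Nullstellensatz). -/
def Null {K : Type*} [Field K] {ι : Type*} (φ : Fin m → MvPolynomial (Fin (d + 1) ⊕ Fin m) K)
    (f : ι → MvPolynomial (Fin (d + 1) ⊕ Fin m) K) : Prop :=
  ∀ J : Finset ι, ∃ n : ℕ, ∀ l : Fin (d + 1) ⊕ Fin m,
    (MvPolynomial.X l : MvPolynomial (Fin (d + 1) ⊕ Fin m) K) ^ n ∈
      Ideal.span (Set.range φ ∪ f '' (J : Set ι) ∪
        {g | ∃ ρ : Fin (d + 1) → ι ⊕ (Fin (d + 1) ⊕ Fin m),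
          (∀ j ∈ J, ∃ b, ρ b = Sum.inl j) ∧ (∀ b j, ρ b = Sum.inl j → j ∈ J) ∧ g = mnr φ f ρ})

end special

end Pool.Agent.Helper16.UP
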