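import Pool.Agent.Helper16.UP.Defs

/-!
# Definitions for project UP: families over `K[X_1, ..., X_s]`
-/

namespace Pool.Agent.Helper16.UP

/-- The ring of coefficients of a family. -/
abbrev AA (K : Type*) [Field K] (s : ℕ) := MvPolynomial (Fin s) K

/-- Its fraction field. -/
abbrev EE (K : Type*) [Field K] (s : ℕ) := FractionRing (AA K s)

/-- The algebraic closure of the fraction field. -/
abbrev EC (K : Type*) [Field K] (s : ℕ) := AlgebraicClosure (EE K s)

/-- Constants. -/
noncomputable abbrev cA {K : Type*} [Field K] {κ : Type*} (s : ℕ) (c : κ → K) : κ → AA K s :=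
  fun j => MvPolynomial.C (c j)

/-- A form over `K` as a form over `K[X_1, ..., X_s]`. -/
noncomputable abbrev fA {K : Type*} [Field K] {κ : Type*} (s : ℕ) (Q : MvPolynomial κ K) :
    MvPolynomial κ (AA K s) := Q.map MvPolynomial.C

end Pool.Agent.Helper16.UP
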