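import Pool.Agent.Helper16.UP.Defs2
import Pool.Agent.Helper16.TP.Poly

/-!
# Definitions for project UP: sums over the places outside `T`
-/

namespace Pool.Agent.Helper16.UP

open NumberField Finset
open Pool.Agent.Helper64.Vojta (Pl nv sn)
open Pool.Agent.V2 (vn vH pn pH gsum)
open Pool.Agent.Helper16.TP (MI lsum)

/-- The sum over the finite places outside `T`. -/
noncomputable def osum {K : Type*} [Field K] [NumberField K] (T : Finset (FinitePlace K))
    (f : Pl K → ℝ) : ℝ := gsum f - lsum T f

end Pool.Agent.Helper16.UP
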