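import Pool.Agent.Helper16.UP.DetId

/-!
# Block UP-V11: the minor `Del` does not vanish where `Jac` does not vanish

PROOF. `Null` for `J = ∅`: there is `n` with `X l ^ n` in the ideal spanned by the `φ i` and the `mnr φ f ρ` for the `ρ` with values in `Fin (d + 1) ⊕ Fin m`; `l` with `x l ≠ 0`.
As `φ i` vanishes at `x` and `x l ^ n ≠ 0`, some `mnr φ f ρ` does not vanish at `x` (`Submodule.span_induction`). `det_id`:
`aeval x (mnr φ f ρ) * Jac D x = (..) * aeval x (Del φ)`. (For `det_id` one needs degrees for `f`: restrict to `f`, `e` as given.)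
-/

namespace Pool.Agent.Helper16.UP

open MvPolynomial (aeval)

variable {d m : ℕ} {K M : Type*} [Field K] [Field M] [Algebra K M]

theorem delta0 {ι : Type*} (φ : Fin m → MvPolynomial (Fin (d + 1) ⊕ Fin m) K) (a : Fin m → ℕ)
    (hφ : ∀ i, (φ i).IsHomogeneous (a i)) (f : ι → MvPolynomial (Fin (d + 1) ⊕ Fin m) K)
    (e : ι → ℕ) (hf : ∀ j, (f j).IsHomogeneous (e j)) (hN : Null φ f)
    (D : Fin d → Derivation ℤ M M)
    (hD : ∀ i (c : K), D i (algebraMap K M c) = 0) (x : Fin (d + 1) ⊕ Fin m → M)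
    (l : Fin (d + 1) ⊕ Fin m) (hl : x l ≠ 0)
    (hx : ∀ i, aeval x (φ i) = 0) (hJ : Jac (fun i => D i) x ≠ 0) : aeval x (Del φ) ≠ 0 := by
  intro h0
  obtain ⟨n, hn⟩ := hN ∅
  have hmem := hn l
  have hle : Ideal.span (Set.range φ ∪ f '' ((∅ : Finset ι) : Set ι) ∪
        {g | ∃ ρ : Fin (d + 1) → ι ⊕ (Fin (d + 1) ⊕ Fin m),
          (∀ j ∈ (∅ : Finset ι), ∃ b, ρ b = Sum.inl j) ∧ (∀ b j, ρ b = Sum.inl j → j ∈ (∅ : Finset ι)) ∧
            g = mnr φ f ρ}) ≤ RingHom.ker (aeval x : MvPolynomial (Fin (d + 1) ⊕ Fin m) K →ₐ[K] M) := by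
    rw [Ideal.span_le]
    rintro g ((⟨i, rfl⟩ | ⟨j, hj, rfl⟩) | ⟨ρ, -, -, rfl⟩)
    · exact hx i
    · exact absurd hj (by simp)
    · have h1 := det_id φ a hφ f e hf D hD x hx ρ
      rw [h0, mul_zero] at h1
      exact (mul_eq_zero.1 h1).resolve_right hJ
  have h1 := hle hmem
  rw [RingHom.mem_ker, map_pow, MvPolynomial.aeval_X] at h1
  exact pow_ne_zero n hl h1

end Pool.Agent.Helper16.UP
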