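import Pool.Agent.Helper16.UP.Defs

/-!
# Block UP-V2: the determinant identity

PROOF. Let `W` be the matrix (rows `l : Fin (d + 1) ⊕ Fin m`, columns `i : Fin (d + 1)`) with columns `x`, `D_0 x`, ..., `D_{d-1} x`, and `V` the matrix with columns the unit
vectors `inr k`, `k : Fin m`; put `Q = Matrix.of fun l => Sum.elim (W l) (V l)`, a square matrix with index `Fin (d + 1) ⊕ Fin m`. `Q = Matrix.fromBlocks W₁ 0 W₂ 1`, so
`det Q = Jac D x` (`Matrix.det_fromBlocks_zero₁₂`). Let `B` be the matrix `Bm φ f ρ` evaluated at `x` (`aeval x (mnr φ f ρ) = det B`, `AlgHom.map_det`). The rows `inr i` of `B * Q`: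
the entries in the columns `inl 0`: `∑ l, ∂_l φ_i (x) x_l = a_i φ_i(x) = 0` (Euler; Mathlib: `MvPolynomial.IsHomogeneous.sum_X_mul_pderiv` or similar, otherwise by induction/monomials),
in the columns `inl (i' + 1)`: `∑ l, ∂_l φ_i (x) D_i' x_l = D_i' (φ_i (x)) = 0` (chain rule; `D` vanishes on `K`: `MvPolynomial.induction_on`, or
`Derivation` as a `K`-derivation and `MvPolynomial` lemma `Derivation.map_aeval`-like), in the columns `inr k`: `∂_{inr k} φ_i (x)`. So
`B * Q = Matrix.fromBlocks W' * 0 (Del matrix)` where the rows `inl b`, columns `inl` form the matrix on the right hand side below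
(for `ρ b = inl j`: `e_j f_j (x)`, `D_i (f_j (x))`; for `ρ b = inr l`: `x_l`, `D_i x_l`) and `det (B * Q) = det W' * aeval x (Del φ)` (`Matrix.det_fromBlocks_zero₂₁`).
-/

namespace Pool.Agent.Helper16.UP

open MvPolynomial (aeval)

/-- Euler's identity, evaluated. -/
private theorem h21_euler {κ : Type*} [Fintype κ] {K M : Type*} [Field K] [Field M] [Algebra K M]
    (g : MvPolynomial κ K) (a : ℕ) (hg : g.IsHomogeneous a) (x : κ → M) :
    ∑ l, aeval x (MvPolynomial.pderiv l g) * x l = (a : M) * aeval x g := by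
  classical
  have h1 := congrArg (aeval x) hg.sum_X_mul_pderiv
  rw [map_sum, map_nsmul, nsmul_eq_mul] at h1
  rw [← h1]
  apply Finset.sum_congr rfl
  intro l _
  rw [map_mul, MvPolynomial.aeval_X, mul_comm]

/-- The chain rule. -/
private theorem h21_chain {κ : Type*} [Fintype κ] {K M : Type*} [Field K] [Field M] [Algebra K M]
    (δ : Derivation ℤ M M) (hδ : ∀ c : K, δ (algebraMap K M c) = 0) (g : MvPolynomial κ K)
    (x : κ → M) : ∑ l, aeval x (MvPolynomial.pderiv l g) * δ (x l) = δ (aeval x g) := by
  classical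
  induction g using MvPolynomial.induction_on with
  | C c =>
    rw [MvPolynomial.aeval_C, hδ]
    apply Finset.sum_eq_zero
    intro l _
    rw [MvPolynomial.pderiv_C, map_zero, zero_mul]
  | add p q hp hq =>
    rw [map_add, map_add, ← hp, ← hq, ← Finset.sum_add_distrib]
    apply Finset.sum_congr rfl
    intro l _
    rw [map_add, map_add, add_mul]
  | mul_X p i hp =>
    rw [map_mul, Derivation.leibniz, MvPolynomial.aeval_X, ← hp, smul_eq_mul, smul_eq_mul,
      Finset.mul_sum]
    have h1 : aeval x p * δ (x i) = ∑ l, (if l = i then aeval x p * δ (x l) else 0) := by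
      rw [Finset.sum_ite_eq' Finset.univ i fun l => aeval x p * δ (x l), if_pos (Finset.mem_univ _)]
    rw [h1, ← Finset.sum_add_distrib]
    apply Finset.sum_congr rfl
    intro l _
    rw [Derivation.leibniz, MvPolynomial.pderiv_X, smul_eq_mul, smul_eq_mul, map_add, map_mul,
      map_mul, MvPolynomial.aeval_X]
    by_cases h : l = i
    · subst h
      rw [Pi.single_eq_same, if_pos rfl, map_one]
      ring
    · rw [Pi.single_eq_of_ne (fun h' => h h'.symm), if_neg h, map_zero]
      ring

variable {d m : ℕ} {K M : Type*} [Field K] [Field M] [Algebra K M]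

theorem det_id {ι : Type*} (φ : Fin m → MvPolynomial (Fin (d + 1) ⊕ Fin m) K) (a : Fin m → ℕ)
    (hφ : ∀ i, (φ i).IsHomogeneous (a i)) (f : ι → MvPolynomial (Fin (d + 1) ⊕ Fin m) K)
    (e : ι → ℕ) (hf : ∀ j, (f j).IsHomogeneous (e j)) (D : Fin d → Derivation ℤ M M)
    (hD : ∀ i (c : K), D i (algebraMap K M c) = 0) (x : Fin (d + 1) ⊕ Fin m → M)
    (hx : ∀ i, aeval x (φ i) = 0) (ρ : Fin (d + 1) → ι ⊕ (Fin (d + 1) ⊕ Fin m)) :
    aeval x (mnr φ f ρ) * Jac (fun i => D i) x =
      Matrix.det (Matrix.of fun b i : Fin (d + 1) =>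
        (Fin.cons (Sum.elim (fun j => (e j : M) * aeval x (f j)) x (ρ b))
          (fun i => D i (Sum.elim (fun j => aeval x (f j)) x (ρ b))) : Fin (d + 1) → M) i) *
      aeval x (Del φ) := by
  classical
  let B : Matrix (Fin (d + 1) ⊕ Fin m) (Fin (d + 1) ⊕ Fin m) M :=
    (Bm φ f ρ).map (aeval x)
  let Q1 : Matrix (Fin (d + 1)) (Fin (d + 1)) M := Matrix.of fun a' i =>
    (Fin.cons (x (Sum.inl a')) (fun i => D i (x (Sum.inl a'))) : Fin (d + 1) → M) i
  let Q2 : Matrix (Fin m) (Fin (d + 1)) M := Matrix.of fun a' i =>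
    (Fin.cons (x (Sum.inr a')) (fun i => D i (x (Sum.inr a'))) : Fin (d + 1) → M) i
  let Q : Matrix (Fin (d + 1) ⊕ Fin m) (Fin (d + 1) ⊕ Fin m) M := Matrix.fromBlocks Q1 0 Q2 1
  let W1 : Matrix (Fin (d + 1)) (Fin (d + 1)) M := Matrix.of fun b i : Fin (d + 1) =>
        (Fin.cons (Sum.elim (fun j => (e j : M) * aeval x (f j)) x (ρ b))
          (fun i => D i (Sum.elim (fun j => aeval x (f j)) x (ρ b))) : Fin (d + 1) → M) i
  let Dl : Matrix (Fin m) (Fin m) M := (Matrix.of fun i k : Fin m =>
    MvPolynomial.pderiv (Sum.inr k) (φ i)).map (aeval x)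
  have hB : aeval x (mnr φ f ρ) = B.det := by
    unfold mnr
    rw [AlgHom.map_det]
    rfl
  have hDl : aeval x (Del φ) = Dl.det := by
    unfold Del
    rw [AlgHom.map_det]
    rfl
  have hQ : Q.det = Jac (fun i => D i) x := by
    change (Matrix.fromBlocks Q1 0 Q2 1).det = _
    rw [Matrix.det_fromBlocks_zero₁₂, Matrix.det_one, mul_one]
    rfl
  -- the entries of `Q`
  have hQ0 : ∀ l, Q l (Sum.inl 0) = x l := by
    rintro (l | l)
    · change Q1 l 0 = _
      simp [Q1]
    · change Q2 l 0 = _
      simp [Q2]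
  have hQs : ∀ l i, Q l (Sum.inl (Fin.succ i)) = D i (x l) := by
    rintro (l | l) i
    · change Q1 l (Fin.succ i) = _
      simp [Q1]
    · change Q2 l (Fin.succ i) = _
      simp [Q2]
  have hQr : ∀ l k, Q l (Sum.inr k) = if l = Sum.inr k then 1 else 0 := by
    rintro (l | l) k
    · change (0 : M) = _
      simp
    · change (1 : Matrix (Fin m) (Fin m) M) l k = _
      rw [Matrix.one_apply]
      simp
  have hmul : B * Q = Matrix.fromBlocks W1 (Matrix.of fun b k => (B * Q) (Sum.inl b) (Sum.inr k))
      0 Dl := by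
    ext i j
    rcases i with b | i
    · rcases j with j | k
      · rw [Matrix.fromBlocks_apply₁₁, Matrix.mul_apply]
        have hrow : ∀ l, B (Sum.inl b) l =
            Sum.elim (fun j => aeval x (MvPolynomial.pderiv l (f j)))
              (fun l' => if l' = l then 1 else 0) (ρ b) := by
          intro l
          change aeval x (Sum.elim (fun j => MvPolynomial.pderiv l (f j))
            (fun l' => if l' = l then 1 else 0) (ρ b)) = _
          rcases ρ b with j' | l'
          · rfl
          · change aeval x (if l' = l then 1 else 0) = if l' = l then 1 else 0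
            split_ifs
            · exact map_one _
            · exact map_zero _
        refine Fin.cases ?_ (fun j => ?_) j
        · have h1 : W1 b 0 = Sum.elim (fun j => (e j : M) * aeval x (f j)) x (ρ b) := by
            simp [W1]
          rw [h1]
          simp only [hrow, hQ0]
          rcases ρ b with j' | l'
          · exact h21_euler (f j') (e j') (hf j') x
          · change ∑ l, (if l' = l then (1 : M) else 0) * x l = x l'
            simp
        · have h1 : W1 b (Fin.succ j) = D j (Sum.elim (fun j => aeval x (f j)) x (ρ b)) := by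
            simp [W1]
          rw [h1]
          simp only [hrow, hQs]
          rcases ρ b with j' | l'
          · exact h21_chain (D j) (hD j) (f j') x
          · change ∑ l, (if l' = l then (1 : M) else 0) * D j (x l) = D j (x l')
            simp
      · rw [Matrix.fromBlocks_apply₁₂]
        rfl
    · have hrow : ∀ l, B (Sum.inr i) l = aeval x (MvPolynomial.pderiv l (φ i)) := fun l => rfl
      rcases j with j | k
      · rw [Matrix.fromBlocks_apply₂₁, Matrix.mul_apply]
        refine Fin.cases ?_ (fun j => ?_) j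
        · simp only [hrow, hQ0]
          rw [h21_euler (φ i) (a i) (hφ i) x, hx, mul_zero]
          rfl
        · simp only [hrow, hQs]
          rw [h21_chain (D j) (hD j) (φ i) x, hx, map_zero]
          rfl
      · rw [Matrix.fromBlocks_apply₂₂, Matrix.mul_apply]
        simp only [hrow, hQr]
        simp [Dl]
  have hdet := congrArg Matrix.det hmul
  rw [Matrix.det_mul, Matrix.det_fromBlocks_zero₂₁] at hdet
  rw [hB, hDl, ← hQ, hdet]

end Pool.Agent.Helper16.UP
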