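import Pool.Agent.Helper16.UP.Defs2

/-!
# Block UP-D4c: divisibility in a unique factorisation domain

PROOF. Unique factorisation: `UniqueFactorizationMonoid` / `emultiplicity` or induction on the factorisation of `g` (`UniqueFactorizationMonoid.induction_on_prime`), `f ≠ 0` without loss of generality.
-/

namespace Pool.Agent.Helper16.UP

open IsDedekindDomain

universe u

private theorem h61_dvd {A : Type*} [CommRing A] [IsDomain A] [UniqueFactorizationMonoid A] (g : A) :
    g ≠ 0 → ∀ f : A, (∀ p : A, Irreducible p → ∀ n : ℕ, p ^ n ∣ g → p ^ n ∣ f) → g ∣ f := by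
  induction g using UniqueFactorizationMonoid.induction_on_prime with
  | h₁ => exact fun h => absurd rfl h
  | h₂ x hx => exact fun _ f _ => hx.dvd
  | h₃ a q ha hq ih =>
    intro _ f h
    obtain ⟨f', rfl⟩ : q ∣ f := by
      have h1 := h q hq.irreducible 1 (by rw [pow_one]; exact dvd_mul_right q a)
      rwa [pow_one] at h1
    refine mul_dvd_mul_left q (ih ha f' ?_)
    intro p hp n hn
    by_cases hpq : p ∣ q
    · have h1 : q ∣ p := (hp.dvd_symm hq.irreducible hpq)
      have h2 := h p hp (n + 1) (by
        rw [pow_succ']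
        exact mul_dvd_mul hpq hn)
      rw [pow_succ'] at h2
      have h3 : q * p ^ n ∣ q * f' := (mul_dvd_mul_right h1 _).trans h2
      exact (mul_dvd_mul_iff_left hq.ne_zero).1 h3
    · have h2 := h p hp n (hn.trans (dvd_mul_left a q))
      exact (UniqueFactorizationMonoid.irreducible_iff_prime.1 hp).pow_dvd_of_dvd_mul_left n hpq h2

theorem dvd_of_val {K : Type u} [Field K] {s : ℕ} (f g : AA K s) (hg : g ≠ 0)
    (h : ∀ p : AA K s, Irreducible p → ∀ n : ℕ, p ^ n ∣ g → p ^ n ∣ f) : g ∣ f :=
  h61_dvd g hg f h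

end Pool.Agent.Helper16.UP
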