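import Pool.Agent.Helper16.UP.Funct
import Pool.Agent.Helper16.TP.FF

/-!
# Block UP-D3: the points are defined over a finite extension

PROOF. `fin_ext`: `M = IntermediateField.adjoin E (Set.range of all x σ j)`, finite-dimensional because the set is finite and all elements are algebraic
(`IntermediateField.finiteDimensional_adjoin`). `dec_descend`: `dec_of_comp` for the embedding `M → AlgebraicClosure E`.
`lift_closure`: a ring homomorphism `ψ : A → E'` which is injective extends to `FractionRing A → E'` (`IsFractionRing.lift`), so `AlgebraicClosure E'` is an algebra over `FractionRing A`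
and `IsAlgClosed.lift` gives `θ : AlgebraicClosure (FractionRing A) → AlgebraicClosure E'` with `θ (algebraMap A _ P) = algebraMap E' _ (ψ P)`.
-/

namespace Pool.Agent.Helper16.UP

theorem fin_ext {E : Type*} [Field E] {κ : Type*} [Finite κ] {r : ℕ}
    (x : Fin r → κ → AlgebraicClosure E) :
    ∃ M : IntermediateField E (AlgebraicClosure E), FiniteDimensional E M ∧
      ∃ y : Fin r → κ → M, ∀ σ j, (y σ j : AlgebraicClosure E) = x σ j := by
  refine ⟨IntermediateField.adjoin E (Set.range fun q : Fin r × κ => x q.1 q.2), ?_,
    fun σ j => ⟨x σ j, IntermediateField.subset_adjoin E _ ⟨(σ, j), rfl⟩⟩, fun σ j => rfl⟩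
  exact IntermediateField.finiteDimensional_adjoin fun z _ => Algebra.IsIntegral.isIntegral z

theorem dec_descend {A E : Type*} [CommRing A] [Field E] {κ : Type*} [Fintype κ] [DecidableEq κ]
    {r : ℕ} (ψ : A →+* E) (o : κ) (F : MvPolynomial κ A) (x : Fin r → κ → AlgebraicClosure E)
    (h : Dec ((algebraMap E (AlgebraicClosure E)).comp ψ) o F x)
    (M : IntermediateField E (AlgebraicClosure E)) (y : Fin r → κ → M)
    (hy : ∀ σ j, (y σ j : AlgebraicClosure E) = x σ j) :
    Dec ((algebraMap E M).comp ψ) o F y := by
  refine dec_of_comp ((algebraMap E M).comp ψ) (algebraMap M (AlgebraicClosure E))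
    (algebraMap M (AlgebraicClosure E)).injective o F y ?_
  have h1 : (algebraMap M (AlgebraicClosure E)).comp ((algebraMap E M).comp ψ) =
      (algebraMap E (AlgebraicClosure E)).comp ψ := by
    rw [← RingHom.comp_assoc, ← IsScalarTower.algebraMap_eq E M (AlgebraicClosure E)]
  have h2 : (fun σ j => algebraMap M (AlgebraicClosure E) (y σ j)) = x := by
    funext σ j
    exact hy σ j
  rw [h1, h2]
  exact h

theorem lift_closure {A E' : Type*} [CommRing A] [IsDomain A] [Field E'] (ψ : A →+* E')
    (hψ : Function.Injective ψ) :
    ∃ θ : AlgebraicClosure (FractionRing A) →+* AlgebraicClosure E', ∀ P : A,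
      θ (algebraMap A (AlgebraicClosure (FractionRing A)) P) =
        algebraMap E' (AlgebraicClosure E') (ψ P) := by
  let _ : Algebra (FractionRing A) (AlgebraicClosure E') :=
    ((algebraMap E' (AlgebraicClosure E')).comp (IsFractionRing.lift (K := FractionRing A) hψ)).toAlgebra
  let θ : AlgebraicClosure (FractionRing A) →ₐ[FractionRing A] AlgebraicClosure E' := IsAlgClosed.lift
  refine ⟨θ.toRingHom, fun P => ?_⟩
  rw [IsScalarTower.algebraMap_apply A (FractionRing A) (AlgebraicClosure (FractionRing A))]
  change θ (algebraMap (FractionRing A) (AlgebraicClosure (FractionRing A)) (algebraMap A (FractionRing A) P)) = _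
  rw [θ.commutes]
  change algebraMap E' (AlgebraicClosure E') (IsFractionRing.lift (K := FractionRing A) hψ (algebraMap A (FractionRing A) P)) = _
  rw [IsFractionRing.lift_algebraMap]

end Pool.Agent.Helper16.UP
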