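import Pool.Agent.Helper16.UP.Mx

/-!
# Block UP-V1: Gauss's lemma for products of linear forms

PROOF. `gauss_le`: induction on the number of factors: every coefficient of `lf (x σ) * G` is a sum of terms `x σ j * (coefficient of G)`. (Or: `MvPolynomial.coeff` of a finite
product.) It may be convenient to prove first for a `Finset` or a `Multiset` of vectors. `gauss_ge`: `exists_gen` gives `u : κ → ℕ` with `v (∑ u j * x σ j) = mx v (x σ)` for all `σ`;
then `v (eval u F) = v a * ∏ mx` and `eval u F = ∑ γ, coeff γ F * (integer)` so one `γ` in the support has `v (coeff γ F) ≥ v (eval u F)`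
(if `v a * ∏ mx = 0` any `γ` works).
-/

namespace Pool.Agent.Helper16.UP

variable {κ : Type*} [Fintype κ] {M : Type*} [Field M] {Γ₀ : Type*}
  [LinearOrderedCommGroupWithZero Γ₀] (v : Valuation M Γ₀)

private lemma coeff_lf_mul56 [DecidableEq κ] (x : κ → M) (G : MvPolynomial κ M) (γ : κ →₀ ℕ) :
    (lf x * G).coeff γ = ∑ j, x j * (MvPolynomial.X j * G).coeff γ := by
  unfold lf
  rw [Finset.sum_mul, MvPolynomial.coeff_sum]
  refine Finset.sum_congr rfl fun j _ => ?_
  rw [mul_assoc, MvPolynomial.coeff_C_mul]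

private lemma gauss_aux56 {r : ℕ} (x : Fin r → κ → M) (s : Finset (Fin r)) : ∀ γ : κ →₀ ℕ,
    v ((∏ σ ∈ s, lf (x σ)).coeff γ) ≤ ∏ σ ∈ s, mx v (x σ) := by
  classical
  induction s using Finset.induction_on with
  | empty =>
    intro γ
    rw [Finset.prod_empty, Finset.prod_empty, MvPolynomial.coeff_one]
    split_ifs
    · rw [map_one]
    · rw [map_zero]
      exact zero_le'
  | insert σ s hσ ih =>
    intro γ
    rw [Finset.prod_insert hσ, Finset.prod_insert hσ, coeff_lf_mul56]
    refine Valuation.map_sum_le v fun j _ => ?_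
    rw [map_mul]
    refine mul_le_mul' (le_mx v (x σ) j) ?_
    rw [MvPolynomial.coeff_X_mul']
    split_ifs
    · exact ih _
    · rw [map_zero]
      exact zero_le'

theorem gauss_le {r : ℕ} (a : M) (x : Fin r → κ → M) (γ : κ →₀ ℕ) :
    v ((MvPolynomial.C a * ∏ σ, lf (x σ)).coeff γ) ≤ v a * ∏ σ, mx v (x σ) := by
  rw [MvPolynomial.coeff_C_mul, map_mul]
  exact mul_le_mul_right (gauss_aux56 v x Finset.univ γ) _

theorem gauss_ge (hn : ∀ n : ℕ, n ≠ 0 → v (n : M) = 1) {r : ℕ} (a : M) (x : Fin r → κ → M) :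
    ∃ γ : κ →₀ ℕ, v a * ∏ σ, mx v (x σ) ≤ v ((MvPolynomial.C a * ∏ σ, lf (x σ)).coeff γ) := by
  classical
  by_contra hcon
  push Not at hcon
  obtain ⟨u, hu⟩ := exists_gen v hn x
  have hB : v a * ∏ σ, mx v (x σ) ≠ 0 := by
    intro h0
    have := hcon 0
    rw [h0] at this
    exact absurd this (not_lt.2 zero_le')
  have hval : v (MvPolynomial.eval (fun j => (u j : M)) (MvPolynomial.C a * ∏ σ, lf (x σ))) = v a * ∏ σ, mx v (x σ) := by
    rw [map_mul, MvPolynomial.eval_C, map_prod, map_mul, map_prod]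
    congr 1
    refine Finset.prod_congr rfl fun σ _ => ?_
    rw [← hu σ]
    congr 1
    unfold lf
    rw [map_sum]
    refine Finset.sum_congr rfl fun j _ => ?_
    rw [map_mul, MvPolynomial.eval_C, MvPolynomial.eval_X, mul_comm]
  have hlt : v (MvPolynomial.eval (fun j => (u j : M)) (MvPolynomial.C a * ∏ σ, lf (x σ))) < v a * ∏ σ, mx v (x σ) := by
    rw [MvPolynomial.eval_eq']
    refine Valuation.map_sum_lt v hB fun γ _ => ?_
    rw [map_mul]
    have h1 : v (∏ i, (u i : M) ^ γ i) ≤ 1 := by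
      have e : (∏ i, (u i : M) ^ γ i) = ((∏ i, u i ^ γ i : ℕ) : M) := by push_cast; rfl
      rw [e]
      by_cases h0 : (∏ i, u i ^ γ i : ℕ) = 0
      · rw [h0, Nat.cast_zero, map_zero]
        exact zero_le'
      · exact (hn _ h0).le
    exact lt_of_le_of_lt (mul_le_of_le_one_right' h1) (hcon γ)
  rw [hval] at hlt
  exact lt_irrefl _ hlt

end Pool.Agent.Helper16.UP
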