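import Pool.Agent.Helper16.UP.ValIneq
import Pool.Agent.Helper16.UP.Gauss

/-!
# Block UP-V6: logarithmic derivations and normal crossings (the form)

PROOF. Notation: `S = ∑ a`, `q = ∑ e`, `n = d + 1 + m`, `E = S + q - n`, `rd = rdp r o c F`, `F = C a0 * ∏ lf (x σ)`. `val_ineq` for `x σ`, divided by `mx v (x σ) ^ n` (`≠ 0`, `x σ o = 1`):
`v (Jac (x σ)) * mx ^ E ≤ v (Del (x σ)) * ∏ j v (f_j (x σ))`. Take the product over `σ`; `v (F_γ) ≤ v a0 * ∏ mx` (`gauss_le`), to the power `E`; so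
`v (∏ Jac) * v (F_γ) ^ E ≤ v a0 ^ E * v (∏ Del) * ∏ j, v (∏ σ f_j(x σ))`. Multiply by `v rd ^ (2 d + 1 + ∑ (a i - 1) + q)` and use `Theta_eq` (`Theta = rd ^ (2 d + 1) * ∏ Jac`),
`rs_eq` (`rs (Q) = rd ^ deg Q * ∏ Q(x σ)` for `Q = Del`, `f j`; the polynomials over `M` are `(f j).map (algebraMap K M)`, `MvPolynomial.eval_map`/`aeval_def`), `Del_map`.
-/

namespace Pool.Agent.Helper16.UP

open MvPolynomial (aeval)

variable {d m : ℕ} {K M : Type*} [Field K] [Field M] [Algebra K M] {Γ₀ : Type*}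
  [LinearOrderedCommGroupWithZero Γ₀] (v : Valuation M Γ₀)

theorem ffm {ι : Type*} [Fintype ι] (φ : Fin m → MvPolynomial (Fin (d + 1) ⊕ Fin m) K)
    (a : Fin m → ℕ) (ha : ∀ i, 1 ≤ a i)
    (hφ : ∀ i, (φ i).IsHomogeneous (a i)) (f : ι → MvPolynomial (Fin (d + 1) ⊕ Fin m) K)
    (e : ι → ℕ) (hf : ∀ j, (f j).IsHomogeneous (e j)) (hN : Null φ f)
    (hq : d + 1 + m ≤ ∑ i, a i + ∑ j, e j)
    (hK : ∀ c : K, c ≠ 0 → v (algebraMap K M c) = 1) (D : Fin d → Derivation ℤ M M)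
    (hD : ∀ i (c : K), D i (algebraMap K M c) = 0) (hlog : ∀ i z, v (D i z) ≤ v z)
    {r : ℕ} (hr : 1 ≤ r) (a0 : M) (ha0 : a0 ≠ 0) (x : Fin r → Fin (d + 1) ⊕ Fin m → M)
    (hx1 : ∀ σ, x σ (o0 d m) = 1) (hx : ∀ σ i, aeval (x σ) (φ i) = 0)
    (c : Fin (d + 1) ⊕ Fin m → M) (F : MvPolynomial (Fin (d + 1) ⊕ Fin m) M)
    (hF : F = MvPolynomial.C a0 * ∏ σ, lf (x σ)) (γ : (Fin (d + 1) ⊕ Fin m) →₀ ℕ) :
    v (Theta r c F (fun i => D i) * rdp r (o0 d m) c F ^ (∑ i, (a i - 1) + ∑ j, e j) *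
        F.coeff γ ^ (∑ i, a i + ∑ j, e j - (d + 1 + m))) ≤
      v (a0 ^ (∑ i, a i + ∑ j, e j - (d + 1 + m)) *
        rs r (∑ i, (a i - 1)) (o0 d m) c F ((Del φ).map (algebraMap K M)) *
        rdp r (o0 d m) c F ^ (2 * d + 1) *
        ∏ j, rs r (e j) (o0 d m) c F ((f j).map (algebraMap K M))) := by
  classical
  obtain ⟨S, hS⟩ : ∃ S : ℕ, S = ∑ i, a i := ⟨_, rfl⟩
  obtain ⟨q, hqd⟩ : ∃ q : ℕ, q = ∑ j, e j := ⟨_, rfl⟩
  obtain ⟨S', hS'⟩ : ∃ S' : ℕ, S' = ∑ i, (a i - 1) := ⟨_, rfl⟩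
  rw [← hS, ← hqd] at hq
  rw [← hS, ← hqd, ← hS']
  obtain ⟨E, hE⟩ : ∃ E : ℕ, E = S + q - (d + 1 + m) := ⟨_, rfl⟩
  rw [← hE]
  have hSE : S + q = E + (d + 1 + m) := by omega
  have hmx : ∀ σ, mx v (x σ) ≠ 0 := by
    intro σ h0
    have h1 : v (x σ (o0 d m)) ≤ mx v (x σ) :=
      Finset.le_sup (f := fun j => v (x σ j)) (Finset.mem_univ (o0 d m))
    rw [hx1 σ, map_one, h0] at h1
    exact absurd h1 (by simp)
  -- the inequality at one point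
  have hpt : ∀ σ, v (Jac (fun i => D i) (x σ)) * mx v (x σ) ^ E ≤
      v (aeval (x σ) (Del φ)) * ∏ j, v (aeval (x σ) (f j)) := by
    intro σ
    have h1 := val_ineq v φ a ha hφ f e hf hN hK D hD hlog (x σ) (o0 d m)
      (by rw [hx1 σ]; exact one_ne_zero) (hx σ)
    rw [← hS, ← hqd, hSE, pow_add, ← mul_assoc, mul_right_comm (v (aeval (x σ) (Del φ)))] at h1
    have h2 : 0 < mx v (x σ) ^ (d + 1 + m) := zero_lt_iff.2 (pow_ne_zero _ (hmx σ))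
    exact le_of_mul_le_mul_right h1 h2
  have hprod : (∏ σ, v (Jac (fun i => D i) (x σ))) * (∏ σ, mx v (x σ)) ^ E ≤
      (∏ σ, v (aeval (x σ) (Del φ))) * ∏ j, ∏ σ, v (aeval (x σ) (f j)) := by
    rw [← Finset.prod_pow, ← Finset.prod_mul_distrib, Finset.prod_comm, ← Finset.prod_mul_distrib]
    exact Finset.prod_le_prod' fun σ _ => hpt σ
  have hg : v (F.coeff γ) ≤ v a0 * ∏ σ, mx v (x σ) := by
    rw [hF]
    exact gauss_le v a0 x γ
  have hg2 : v (F.coeff γ) ^ E ≤ v a0 ^ E * (∏ σ, mx v (x σ)) ^ E := by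
    rw [← mul_pow]
    exact pow_le_pow_left' hg E
  have hkey : (∏ σ, v (Jac (fun i => D i) (x σ))) * v (F.coeff γ) ^ E ≤
      v a0 ^ E * ((∏ σ, v (aeval (x σ) (Del φ))) * ∏ j, ∏ σ, v (aeval (x σ) (f j))) := by
    calc (∏ σ, v (Jac (fun i => D i) (x σ))) * v (F.coeff γ) ^ E
        ≤ (∏ σ, v (Jac (fun i => D i) (x σ))) * (v a0 ^ E * (∏ σ, mx v (x σ)) ^ E) :=
          mul_le_mul_right hg2 _
      _ = v a0 ^ E * ((∏ σ, v (Jac (fun i => D i) (x σ))) * (∏ σ, mx v (x σ)) ^ E) := by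
          rw [mul_left_comm]
      _ ≤ _ := mul_le_mul_right hprod _
  -- the resultants
  have hDel : rs r S' (o0 d m) c F ((Del φ).map (algebraMap K M)) =
      rdp r (o0 d m) c F ^ S' * ∏ σ, aeval (x σ) (Del φ) := by
    rw [hF, rs_eq (o0 d m) c hr a0 ha0 x hx1 _
      ((by rw [hS']; exact (Del_hom φ a hφ).map _ : ((Del φ).map (algebraMap K M)).IsHomogeneous S'))]
    congr 1
    refine Finset.prod_congr rfl fun σ _ => ?_
    rw [MvPolynomial.eval_map, MvPolynomial.aeval_def]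
  have hfj : ∀ j, rs r (e j) (o0 d m) c F ((f j).map (algebraMap K M)) =
      rdp r (o0 d m) c F ^ (e j) * ∏ σ, aeval (x σ) (f j) := by
    intro j
    rw [hF, rs_eq (o0 d m) c hr a0 ha0 x hx1 _ ((hf j).map _)]
    congr 1
    refine Finset.prod_congr rfl fun σ _ => ?_
    rw [MvPolynomial.eval_map, MvPolynomial.aeval_def]
  have hTh : Theta r c F (fun i => D i) =
      rdp r (o0 d m) c F ^ (2 * d + 1) * ∏ σ, Jac (fun i => D i) (x σ) := by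
    rw [hF]
    exact Theta_eq c hr a0 ha0 x hx1 D
  obtain ⟨R, hR⟩ : ∃ R : M, R = rdp r (o0 d m) c F := ⟨_, rfl⟩
  rw [← hR] at hDel hTh
  have hfj' : ∀ j, rs r (e j) (o0 d m) c F ((f j).map (algebraMap K M)) =
      R ^ (e j) * ∏ σ, aeval (x σ) (f j) := by
    rw [hR]
    exact hfj
  rw [← hR, hDel, hTh, Finset.prod_congr rfl fun j _ => hfj' j, Finset.prod_mul_distrib,
    Finset.prod_pow_eq_pow_sum, ← hqd]
  simp only [map_mul, map_pow, map_prod]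
  have e1 : v R ^ (2 * d + 1) * (∏ σ, v (Jac (fun i => D i) (x σ))) * v R ^ (S' + q) *
      v (F.coeff γ) ^ E = v R ^ (2 * d + 1) * v R ^ (S' + q) *
      ((∏ σ, v (Jac (fun i => D i) (x σ))) * v (F.coeff γ) ^ E) := by
    rw [mul_right_comm (v R ^ (2 * d + 1)), mul_assoc]
  have e2 : v a0 ^ E * (v R ^ S' * ∏ σ, v (aeval (x σ) (Del φ))) * v R ^ (2 * d + 1) *
      (v R ^ q * ∏ j, ∏ σ, v (aeval (x σ) (f j))) = v R ^ (2 * d + 1) * v R ^ (S' + q) *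
      (v a0 ^ E * ((∏ σ, v (aeval (x σ) (Del φ))) * ∏ j, ∏ σ, v (aeval (x σ) (f j)))) := by
    rw [pow_add (v R) S' q]
    ac_rfl
  rw [e1, e2]
  exact mul_le_mul_right hkey _

end Pool.Agent.Helper16.UP
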