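import Pool.Agent.Helper16.TP.Model

/-!
# Block UP-D2: the model of TP/Model.lean with all derivations at once

PROOF. As `exists_model` in TP/Model.lean: `h40_model L E lam a` gives the derivation `d` for `lam`, and `R`, `E`, `v`, `φ` (`= h40phi L E a`) do not depend on `lam`.
-/

namespace Pool.Agent.Helper16.TP

open IsDedekindDomain

universe u

theorem exists_model2 {K : Type u} [Field K] [CharZero K] {n : ℕ} (a : Fin n → ℤ) :
    ∃ (R E : Type u) (_ : CommRing R) (_ : IsDedekindDomain R) (_ : Field E) (_ : Algebra R E)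
      (_ : IsFractionRing R E) (v : HeightOneSpectrum R) (φ : MvPolynomial (Fin n) K →+* E),
      CharZero E ∧ Function.Injective φ ∧
      (∀ c : K, c ≠ 0 → v.valuation E (φ (MvPolynomial.C c)) = 1) ∧
      (∀ lam : Fin n → K, ∃ d : Derivation ℤ E E, (∀ P, d (φ P) = φ (der lam P)) ∧
        (∀ x, v.valuation E (d x) ≤ v.valuation E x)) ∧
      ∀ P Q : MvPolynomial (Fin n) K, v.valuation E (φ P) ≤ v.valuation E (φ Q) →
        ∀ m ∈ P.support, ∃ m' ∈ Q.support,
          ∑ b, a b * (m' b : ℤ) ≤ ∑ b, a b * (m b : ℤ) := by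
  have hm := fun lam : Fin n → K => h40_model (FractionRing (MvPolynomial (Fin n) K))
    (FractionRing (Polynomial (FractionRing (MvPolynomial (Fin n) K)))) lam a
  obtain ⟨d0, h1, h2, h3, -, -⟩ := hm 0
  exact ⟨Polynomial (FractionRing (MvPolynomial (Fin n) K)),
    FractionRing (Polynomial (FractionRing (MvPolynomial (Fin n) K))), inferInstance,
    inferInstance, inferInstance, inferInstance, inferInstance,
    Polynomial.idealX _, h40phi _ _ a, h1, h2, h3,
    fun lam => by
      obtain ⟨d, -, -, -, h4, h5⟩ := hm lam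
      exact ⟨d, h4, h5⟩,
    fun P Q h m hm => h40_compare _ _ a P Q h m hm⟩

end Pool.Agent.Helper16.TP
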