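import Pool.Agent.Helper16.UP.Defs2
import Pool.Agent.Helper16.UP.Ext
import Pool.Agent.Helper16.UP.FFM
import Pool.Agent.Helper16.UP.DV2
import Pool.Agent.Helper16.UP.Model2

/-!
# Block UP-D5: the inequality of Newton polytopes (integral weights)

PROOF. `exists_model2 w`: `R, E', v, ψ : AA K s → E'`, derivations `δ i` of `E'` for `lam i`. `lift_closure ψ` gives `θ : EC K s → AlgebraicClosure E'`; `x' σ j = θ (x σ j)`, `dec_comp`;
`fin_ext`, `dec_descend`: a finite extension `M` of `E'` and `y` with `Dec (algebraMap.comp ψ) o F y`. `M` is an algebra over `K` through `ψ ∘ C` (`RingHom.toAlgebra`; `letI`), `φ i (y σ) = 0` (transport of `hφx` along `θ`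
and the embedding of `M`). `dv2`: `v'` on `M`; `D i` extends `δ i` (`h53_exists_ext` in TP/FF.lean). `v' (constants) = 1`, `D i (constants) = 0` (`der (lam i) (C c) = 0`), `v' (D i z) ≤ v' z`.
`ffm` with `a0 = ψ (lc)`, `c = constants c0`, for the coefficient `γ`; with `Theta_map`, `rdp_map`, `rs_map`, `Del_map` it reads `v' (ψ_M P0) ≤ v' (ψ_M Q0)`, `ψ_M = (algebraMap E' M).comp ψ`,
`P0 = Theta * rdp ^ (∑ (a i - 1) + ∑ e) * F_γ ^ E`, `Q0 = lc ^ E * rs (Del) * rdp ^ (2 d + 1) * ∏ rs (f j)`, `E = ∑ a + ∑ e - (d + 1 + m)`. Multiply by `v' (ψ_M (lc ^ (d + 1 + m) * G))`, insert `hΨ` and cancel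
`v' (ψ_M (lc ^ (∑ a) * rs (Del) * rdp ^ (2 d + 1))) ≠ 0` (`hne`; `ψ_M` is injective): `v' (ψ_M (Ψ * lc * rdp ^ (∑ e) * F_γ ^ E)) ≤ v' (ψ_M (lc ^ (∑ e) * G * ∏ rs (f j)))`. The last property of the model.
-/

namespace Pool.Agent.Helper16.UP

open MvPolynomial (aeval)
open Pool.Agent.Helper16.TP (der)

universe u

theorem ffi {K : Type u} [Field K] [CharZero K] {d m s r : ℕ} (hr : 1 ≤ r)
    {ι : Type*} [Fintype ι] (φ : Fin m → MvPolynomial (Fin (d + 1) ⊕ Fin m) K) (a : Fin m → ℕ)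
    (ha : ∀ i, 1 ≤ a i)
    (hφ : ∀ i, (φ i).IsHomogeneous (a i)) (f : ι → MvPolynomial (Fin (d + 1) ⊕ Fin m) K)
    (e : ι → ℕ) (hf : ∀ j, (f j).IsHomogeneous (e j)) (hN : Null φ f)
    (hq : d + 1 + m ≤ ∑ i, a i + ∑ j, e j)
    (F : MvPolynomial (Fin (d + 1) ⊕ Fin m) (AA K s))
    (x : Fin r → Fin (d + 1) ⊕ Fin m → EC K s)
    (hx : Dec (algebraMap (AA K s) (EC K s)) (o0 d m) F x)
    (hφx : ∀ σ i, aeval (x σ) (φ i) = 0) (c0 : Fin (d + 1) ⊕ Fin m → K)
    (lam : Fin d → Fin s → K) (Ψ G : AA K s)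
    (hne : lc r (o0 d m) F ^ (∑ i, a i + 1) *
        rs r (∑ i, (a i - 1)) (o0 d m) (cA s c0) F (fA s (Del φ)) *
        rdp r (o0 d m) (cA s c0) F ^ (2 * d + 1) ≠ 0)
    (hΨ : Ψ * (lc r (o0 d m) F ^ (∑ i, a i + 1) *
        rs r (∑ i, (a i - 1)) (o0 d m) (cA s c0) F (fA s (Del φ)) *
        rdp r (o0 d m) (cA s c0) F ^ (2 * d + 1)) =
      lc r (o0 d m) F ^ (d + 1 + m) * G *
        Theta r (cA s c0) F (fun i => der (lam i)) *
        rdp r (o0 d m) (cA s c0) F ^ (∑ i, (a i - 1)))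
    (γ : (Fin (d + 1) ⊕ Fin m) →₀ ℕ) (w : Fin s → ℤ) :
    ∀ μ ∈ (Ψ * lc r (o0 d m) F * rdp r (o0 d m) (cA s c0) F ^ (∑ j, e j) *
        F.coeff γ ^ (∑ i, a i + ∑ j, e j - (d + 1 + m))).support,
      ∃ μ' ∈ (lc r (o0 d m) F ^ (∑ j, e j) * G *
        ∏ j, rs r (e j) (o0 d m) (cA s c0) F (fA s (f j))).support,
        ∑ b, w b * (μ' b : ℤ) ≤ ∑ b, w b * (μ b : ℤ) := by
  classical
  obtain ⟨R, E', _, _, _, _, _, v, ψ, hE, hψ, hψ1, hψd, hcmp⟩ :=
    Pool.Agent.Helper16.TP.exists_model2 (K := K) w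
  haveI := hE
  obtain ⟨S, hS⟩ : ∃ S : ℕ, S = ∑ i, a i := ⟨_, rfl⟩
  obtain ⟨q, hqd⟩ : ∃ q : ℕ, q = ∑ j, e j := ⟨_, rfl⟩
  obtain ⟨S', hS'⟩ : ∃ S' : ℕ, S' = ∑ i, (a i - 1) := ⟨_, rfl⟩
  obtain ⟨E, hEE⟩ : ∃ E : ℕ, E = ∑ i, a i + ∑ j, e j - (d + 1 + m) := ⟨_, rfl⟩
  have hSE : d + 1 + m + E = S + q := by
    rw [hEE, hS, hqd]
    omega
  refine hcmp _ _ ?_
  -- the points over a finite extension
  obtain ⟨θ, hθ⟩ := lift_closure ψ hψ
  have hd1 : Dec ((algebraMap E' (AlgebraicClosure E')).comp ψ) (o0 d m) F fun σ j => θ (x σ j) := by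
    have h1 := dec_comp (algebraMap (AA K s) (EC K s)) θ (o0 d m) F x hx
    have h2 : θ.comp (algebraMap (AA K s) (EC K s)) =
        (algebraMap E' (AlgebraicClosure E')).comp ψ := RingHom.ext fun P => hθ P
    rw [h2] at h1
    exact h1
  obtain ⟨M, hM, y, hy⟩ := fin_ext fun σ j => θ (x σ j)
  haveI := hM
  have hd2 := dec_descend ψ (o0 d m) F _ hd1 M y hy
  obtain ⟨ψM, hψM⟩ : ∃ ψM : AA K s →+* M, ψM = (algebraMap E' M).comp ψ := ⟨_, rfl⟩
  rw [← hψM] at hd2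
  have hψMi : Function.Injective ψM := by
    rw [hψM]
    exact (algebraMap E' M).injective.comp hψ
  letI : Algebra K M := (ψM.comp MvPolynomial.C).toAlgebra
  have hKM : ∀ c : K, algebraMap K M c = algebraMap E' M (ψ (MvPolynomial.C c)) := by
    intro c
    show ψM (MvPolynomial.C c) = _
    rw [hψM]
    rfl
  have hKM' : algebraMap K M = ψM.comp MvPolynomial.C := rfl
  -- valuation and derivations
  have hv : ∀ n : ℕ, n ≠ 0 → v.valuation E' (n : E') = 1 := by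
    intro k hk
    have := hψ1 (k : K) (by exact_mod_cast hk)
    simpa using this
  obtain ⟨v', hv', hlog'⟩ := Pool.Agent.Helper16.TP.dv2 (M := M) v hv
  have hle1 : ∀ z : E', v.valuation E' z = 1 → v' (algebraMap E' M z) = 1 := by
    intro z hz
    apply le_antisymm
    · have := (hv' z 1).2 (by rw [hz, map_one])
      rwa [map_one, map_one] at this
    · have := (hv' 1 z).2 (by rw [hz, map_one])
      rwa [map_one, map_one] at this
  choose δ hδ1 hδ2 using fun i => hψd (lam i)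
  choose D hD1 using fun i => Pool.Agent.Helper16.TP.h53_exists_ext (M := M) (δ i)
  have hK : ∀ c : K, c ≠ 0 → v' (algebraMap K M c) = 1 := by
    intro c hc
    rw [hKM]
    exact hle1 _ (hψ1 c hc)
  have hDψ : ∀ i (P : AA K s), D i (ψM P) = ψM (der (lam i) P) := by
    intro i P
    rw [hψM]
    show D i (algebraMap E' M (ψ P)) = algebraMap E' M (ψ (der (lam i) P))
    rw [hD1, hδ1]
  have hDK : ∀ i (c : K), D i (algebraMap K M c) = 0 := by
    intro i c
    have h1 : algebraMap K M c = ψM (MvPolynomial.C c) := rfl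
    rw [h1, hDψ]
    have h2 : der (lam i) (MvPolynomial.C c) = 0 := by
      rw [← MvPolynomial.algebraMap_eq]
      exact Derivation.map_algebraMap _ c
    rw [h2, map_zero]
  have hlog : ∀ i z, v' (D i z) ≤ v' z := fun i z => hlog' (δ i) (hδ2 i) (D i) (hD1 i) z
  -- the equations
  have hyφ : ∀ σ i, aeval (y σ) (φ i) = 0 := by
    intro σ i
    have h1 : (algebraMap M (AlgebraicClosure E')) (aeval (y σ) (φ i)) = θ (aeval (x σ) (φ i)) := by
      rw [MvPolynomial.aeval_def, MvPolynomial.aeval_def, MvPolynomial.hom_eval₂,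
        MvPolynomial.hom_eval₂]
      have h2 : (algebraMap M (AlgebraicClosure E')).comp (algebraMap K M) =
          θ.comp (algebraMap K (EC K s)) := by
        ext c
        rw [RingHom.comp_apply, RingHom.comp_apply, hKM,
          IsScalarTower.algebraMap_apply K (AA K s) (EC K s), hθ]
        rfl
      have h3 : (fun i => (algebraMap M (AlgebraicClosure E')) (y σ i)) = fun i => θ (x σ i) := by
        funext j
        exact hy σ j
      rw [h2, h3]
    rw [hφx, map_zero] at h1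
    exact (map_eq_zero_iff _ (algebraMap M (AlgebraicClosure E')).injective).1 h1
  -- the inequality for the form
  have hlc0 : lc r (o0 d m) F ≠ 0 := by
    intro h0
    apply hne
    rw [h0, zero_pow (by omega), zero_mul, zero_mul]
  have ha0 : ψM (lc r (o0 d m) F) ≠ 0 := by
    intro h0
    exact hlc0 ((map_eq_zero_iff ψM hψMi).1 h0)
  have hff := ffm v' φ a ha hφ f e hf hN hq hK D hDK hlog hr (ψM (lc r (o0 d m) F)) ha0 y hd2.1
    hyφ (fun j => ψM (cA s c0 j)) (F.map ψM) hd2.2 γ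
  have hT : Theta r (fun j => ψM (cA s c0 j)) (F.map ψM) (fun i => D i) =
      ψM (Theta r (cA s c0) F (fun i => der (lam i))) :=
    (Theta_map ψM r (cA s c0) F (fun i => der (lam i)) (fun i => D i) (fun i => map_zero _)
      (fun i => map_zero _) hDψ).symm
  have hmapQ : ∀ Q : MvPolynomial (Fin (d + 1) ⊕ Fin m) K,
      Q.map (algebraMap K M) = (fA s Q).map ψM := by
    intro Q
    rw [MvPolynomial.map_map, hKM']
  rw [hT, ← rdp_map, MvPolynomial.coeff_map, hmapQ, ← rs_map,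
    Finset.prod_congr rfl fun j _ => by rw [hmapQ (f j), ← rs_map], ← hEE, ← hS', ← hqd] at hff
  rw [← hEE, ← hqd]
  rw [← hS, ← hS'] at hne hΨ
  have hcomp : ∀ P, algebraMap E' M (ψ P) = ψM P := fun P => by
    rw [hψM]
    rfl
  refine (hv' _ _).1 ?_
  rw [hcomp, hcomp]
  generalize lc r (o0 d m) F = l at hff hne hΨ ⊢
  generalize rs r S' (o0 d m) (cA s c0) F (fA s (Del φ)) = A at hff hne hΨ ⊢
  generalize rdp r (o0 d m) (cA s c0) F = Rr at hff hne hΨ ⊢
  generalize Theta r (cA s c0) F (fun i => der (lam i)) = Th at hff hΨ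
  generalize MvPolynomial.coeff γ F = Fg at hff ⊢
  rw [← map_prod] at hff
  generalize (∏ j, rs r (e j) (o0 d m) (cA s c0) F (fA s (f j))) = Pf at hff ⊢
  rw [← map_pow, ← map_pow, ← map_pow, ← map_pow, ← map_mul, ← map_mul, ← map_mul, ← map_mul,
    ← map_mul] at hff
  have hB : l ^ S * A * Rr ^ (2 * d + 1) ≠ 0 := by
    intro h0
    apply hne
    have h1 : l ^ (S + 1) * A * Rr ^ (2 * d + 1) = l * (l ^ S * A * Rr ^ (2 * d + 1)) := by
      rw [pow_succ']
      ring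
    rw [h1, h0, mul_zero]
  have hB' : v' (ψM (l ^ S * A * Rr ^ (2 * d + 1))) ≠ 0 := by
    rw [Valuation.ne_zero_iff]
    intro h0
    exact hB ((map_eq_zero_iff ψM hψMi).1 h0)
  have e1 : l ^ S * A * Rr ^ (2 * d + 1) * (Ψ * l * Rr ^ q * Fg ^ E) =
      l ^ (d + 1 + m) * G * (Th * Rr ^ (S' + q) * Fg ^ E) := by
    have h1 : l ^ (d + 1 + m) * G * (Th * Rr ^ (S' + q) * Fg ^ E) =
        (l ^ (d + 1 + m) * G * Th * Rr ^ S') * (Rr ^ q * Fg ^ E) := by
      rw [pow_add Rr S' q]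
      ring
    rw [h1, ← hΨ, pow_succ l S]
    ring
  have e2 : l ^ S * A * Rr ^ (2 * d + 1) * (l ^ q * G * Pf) =
      l ^ (d + 1 + m) * G * (l ^ E * A * Rr ^ (2 * d + 1) * Pf) := by
    have h1 : l ^ S * A * Rr ^ (2 * d + 1) * (l ^ q * G * Pf) =
        l ^ (S + q) * (A * Rr ^ (2 * d + 1) * G * Pf) := by
      rw [pow_add l S q]
      ring
    rw [h1, ← hSE, pow_add l (d + 1 + m) E]
    ring
  have hfin : v' (ψM (l ^ S * A * Rr ^ (2 * d + 1))) * v' (ψM (Ψ * l * Rr ^ q * Fg ^ E)) ≤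
      v' (ψM (l ^ S * A * Rr ^ (2 * d + 1))) * v' (ψM (l ^ q * G * Pf)) := by
    rw [← map_mul, ← map_mul, e1, ← map_mul, ← map_mul, e2, map_mul ψM, map_mul ψM (l ^ (d + 1 + m) * G),
      map_mul v', map_mul v' (ψM (l ^ (d + 1 + m) * G))]
    exact mul_le_mul_right hff _
  exact le_of_mul_le_mul_left hfin (zero_lt_iff.2 hB')

end Pool.Agent.Helper16.UP
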