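import Pool.Agent.Helper16.UP.Values

/-!
# Block UP-A5: the resultant `Theta` in terms of the points

PROOF. `F = a ∏_σ lf (x σ)`, `P = pen c F`, `R_j = pend c F j`, `z = z_σ = ∑ c_j x_j^σ`; write `P^δ = mapD δ P`. For every derivation `δ = D i`:
(1) `0 = δ (P(z)) = P^δ(z) + P'(z) δ z`; (2) `δ (R_j(z)) = R_j^δ(z) + R_j'(z) δ z` (see `hrel` in TP/RootIneq.lean, `root_ineq`); hence
`nn(z) = R_j^δ(z) P'(z) - R_j'(z) P^δ(z) = P'(z) δ (R_j(z))`. `R_j(z) = P'(z) x_j^σ` (`eval_pend`). So `theta(z)` is the determinant with columns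
`R_j(z)`, `P'(z) D_i(R_j(z))`, i.e. `P'(z) ^ d * Jac D (fun j => P'(z) * x_j^σ) = P'(z) ^ d * P'(z) ^ (d + 1) * Jac D (x^σ)` (`jac_smul`). Resultant: as in `rs_eq`
(`resultant_eq_prod_eval`, degree by `natDegree_theta`; `D i 0 = 0`). No assumption that the `z_σ` are distinct is needed.
`jac_smul`: `D_i (t x_j) = t D_i x_j + x_j D_i t`: add `- (D_i t / t)` times column 0 (if `t = 0` both sides are 0) (`Matrix.det_eq_of_forall_col_eq_smul_add_const` or so, on the transpose;
or: column `i` of the new matrix is `t * (column i) + (D_i t) * (column 0)`: the new matrix is `W * N` with `N` upper triangular with diagonal `t`,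
entries `D_i t` in row 0: `Matrix.det_mul`, `Matrix.det_of_upperTriangular`). The condition `hc` (the `c_j` are constants) is not needed for this, it is used nowhere else;
`pend`, `pen` depend on `c`, but (1), (2) hold for all polynomials.
-/

namespace Pool.Agent.Helper16.UP

open Polynomial
open Pool.Agent.Helper16.TP (mapD rd der coeff_mapD)

variable {d m : ℕ} {M : Type*} [Field M]

theorem jac_smul (D : Fin d → Derivation ℤ M M) (t : M) (x : Fin (d + 1) ⊕ Fin m → M) :
    Jac (fun i => D i) (fun j => t * x j) = t ^ (d + 1) * Jac (fun i => D i) x := by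
  classical
  let J : Matrix (Fin (d + 1)) (Fin (d + 1)) M := Matrix.of fun a i : Fin (d + 1) =>
    (Fin.cons (x (Sum.inl a)) (fun i => D i (x (Sum.inl a))) : Fin (d + 1) → M) i
  let N : Matrix (Fin (d + 1)) (Fin (d + 1)) M := Matrix.of fun i j => if i = j then t else
    (if i = 0 then (Fin.cons 0 (fun k => D k t) : Fin (d + 1) → M) j else 0)
  have hN : N.det = t ^ (d + 1) := by
    rw [Matrix.det_of_isUpperTriangular]
    · simp [N]
    · intro i j hij
      have h1 : j < i := hij
      have h2 : i ≠ j := h1.ne'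
      have h3 : i ≠ 0 := by
        rintro rfl
        exact absurd h1 (by simp)
      simp [N, h2, h3]
  have hJ0 : ∀ a, J a 0 = x (Sum.inl a) := fun a => by simp [J]
  have hJs : ∀ a i, J a (Fin.succ i) = D i (x (Sum.inl a)) := fun a i => by simp [J]
  have hmul : (Matrix.of fun a i : Fin (d + 1) =>
      (Fin.cons (t * x (Sum.inl a)) (fun i => D i (t * x (Sum.inl a))) : Fin (d + 1) → M) i) =
      J * N := by
    ext a j
    rw [Matrix.mul_apply, Fin.sum_univ_succ, hJ0]
    simp only [hJs]
    refine Fin.cases ?_ (fun j => ?_) j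
    · have h1 : N 0 0 = t := by simp [N]
      have h2 : ∀ i : Fin d, N (Fin.succ i) 0 = 0 := fun i => by simp [N]
      rw [h1]
      simp only [h2, mul_zero, Finset.sum_const_zero, add_zero]
      change t * x (Sum.inl a) = _
      ring
    · have h1 : N 0 (Fin.succ j) = D j t := by
        change (if (0 : Fin (d + 1)) = Fin.succ j then t else (if (0 : Fin (d + 1)) = 0 then
          (Fin.cons 0 (fun k => D k t) : Fin (d + 1) → M) (Fin.succ j) else 0)) = _
        rw [if_neg (Fin.succ_ne_zero j).symm, if_pos rfl, Fin.cons_succ]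
      have h2 : ∀ i : Fin d, N (Fin.succ i) (Fin.succ j) = if i = j then t else 0 := fun i => by
        simp [N, Fin.succ_inj]
      rw [h1]
      simp only [h2, mul_ite, mul_zero]
      rw [Finset.sum_ite_eq' Finset.univ j, if_pos (Finset.mem_univ _)]
      change D j (t * x (Sum.inl a)) = _
      rw [Derivation.leibniz, smul_eq_mul, smul_eq_mul]
      ring
  have h1 := congrArg Matrix.det hmul
  rw [Matrix.det_mul, hN, mul_comm] at h1
  exact h1

/-- The derivative of a value. -/
private theorem h21_eval (δ : Derivation ℤ M M) (F : M[X]) (z : M) :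
    δ (F.eval z) = (mapD δ F).eval z + (derivative F).eval z * δ z := by
  have h2 : (mapD δ F).eval z = ∑ i ∈ Finset.range (F.natDegree + 1), δ (F.coeff i) * z ^ i := by
    unfold mapD
    rw [eval_finsetSum]
    apply Finset.sum_congr rfl
    intro i _
    rw [eval_monomial]
  have h3 : (derivative F).eval z = ∑ i ∈ Finset.range (F.natDegree + 1),
      F.coeff i * (i * z ^ (i - 1)) := by
    rw [derivative_eval, sum_over_range' _ (fun n => by simp) _ (Nat.lt_succ_self _)]
    apply Finset.sum_congr rfl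
    intro i _
    ring
  rw [h2, h3, eval_eq_sum_range, map_sum, Finset.sum_mul, ← Finset.sum_add_distrib]
  apply Finset.sum_congr rfl
  intro i _
  rw [Derivation.leibniz, Derivation.leibniz_pow]
  simp only [smul_eq_mul, nsmul_eq_mul]
  ring

/-- The value of `theta` at a root. -/
private theorem h21_theta_eval (c : Fin (d + 1) ⊕ Fin m → M) {r : ℕ} (a : M)
    (x : Fin r → Fin (d + 1) ⊕ Fin m → M) (hx : ∀ σ, x σ (o0 d m) = 1)
    (D : Fin d → Derivation ℤ M M) (σ : Fin r) :
    (theta c (MvPolynomial.C a * ∏ σ, lf (x σ)) (fun i => D i)).eval (∑ j, c j * x σ j) =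
      ((derivative (pen (o0 d m) c (MvPolynomial.C a * ∏ σ, lf (x σ)))).eval
        (∑ j, c j * x σ j)) ^ (2 * d + 1) * Jac (fun i => D i) (x σ) := by
  classical
  set F : MvPolynomial (Fin (d + 1) ⊕ Fin m) M := MvPolynomial.C a * ∏ σ, lf (x σ) with hF
  set z : M := ∑ j, c j * x σ j with hz
  set P : M[X] := pen (o0 d m) c F with hP
  set t : M := (derivative P).eval z with ht
  have hroot : P.eval z = 0 := by
    rw [hP, hF, pen_lf (o0 d m) c a x hx, eval_mul, eval_prod]
    rw [Finset.prod_eq_zero (Finset.mem_univ σ), mul_zero]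
    rw [eval_sub, eval_X, eval_C, ← hz, sub_self]
  have hR : ∀ j, (pend (o0 d m) c F j).eval z = x σ j * t := fun j =>
    eval_pend (o0 d m) c a x hx σ j
  have hnn : ∀ i j, (nn (o0 d m) c F (D i) j).eval z = t * D i (t * x σ j) := by
    intro i j
    have h1 := h21_eval (D i) P z
    rw [hroot, map_zero, ← ht] at h1
    have h2 := h21_eval (D i) (pend (o0 d m) c F j) z
    rw [hR] at h2
    unfold nn
    rw [eval_sub, eval_mul, eval_mul, ← hP, ← ht, mul_comm t (x σ j)]
    linear_combination (-t) * h2 + ((derivative (pend (o0 d m) c F j)).eval z) * h1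
  have hdet : (theta c F (fun i => D i)).eval z = Matrix.det (Matrix.of fun a i : Fin (d + 1) =>
      (Fin.cons 1 (fun _ => t) : Fin (d + 1) → M) i *
        (Fin.cons (t * x σ (Sum.inl a)) (fun i => D i (t * x σ (Sum.inl a))) :
          Fin (d + 1) → M) i) := by
    unfold theta
    rw [← coe_evalRingHom, RingHom.map_det]
    congr 1
    ext a i
    change (evalRingHom z) ((Fin.cons (pend (o0 d m) c F (Sum.inl a))
      (fun i => nn (o0 d m) c F (D i) (Sum.inl a)) : Fin (d + 1) → M[X]) i) =
      (Fin.cons 1 (fun _ => t) : Fin (d + 1) → M) i *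
        (Fin.cons (t * x σ (Sum.inl a)) (fun i => D i (t * x σ (Sum.inl a))) :
          Fin (d + 1) → M) i
    refine Fin.cases ?_ (fun i => ?_) i
    · rw [Fin.cons_zero, Fin.cons_zero, Fin.cons_zero, coe_evalRingHom, hR]
      ring
    · rw [Fin.cons_succ, Fin.cons_succ, Fin.cons_succ, coe_evalRingHom, hnn]
  rw [hdet]
  have h1 := Matrix.det_mul_row (Fin.cons 1 (fun _ => t) : Fin (d + 1) → M)
    (Matrix.of fun a i : Fin (d + 1) =>
      (Fin.cons (t * x σ (Sum.inl a)) (fun i => D i (t * x σ (Sum.inl a))) :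
          Fin (d + 1) → M) i)
  have h2 : Matrix.det (Matrix.of fun a i : Fin (d + 1) =>
      (Fin.cons (t * x σ (Sum.inl a)) (fun i => D i (t * x σ (Sum.inl a))) :
          Fin (d + 1) → M) i) = t ^ (d + 1) * Jac (fun i => D i) (x σ) := jac_smul D t (x σ)
  rw [h2, Fin.prod_univ_succ, Fin.cons_zero, one_mul] at h1
  simp only [Fin.cons_succ, Finset.prod_const, Finset.card_univ, Fintype.card_fin] at h1
  refine Eq.trans h1 ?_
  ring

theorem Theta_eq (c : Fin (d + 1) ⊕ Fin m → M) {r : ℕ} (hr : 1 ≤ r) (a : M) (ha : a ≠ 0)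
    (x : Fin r → Fin (d + 1) ⊕ Fin m → M) (hx : ∀ σ, x σ (o0 d m) = 1)
    (D : Fin d → Derivation ℤ M M) :
    Theta r c (MvPolynomial.C a * ∏ σ, lf (x σ)) (fun i => D i) =
      rdp r (o0 d m) c (MvPolynomial.C a * ∏ σ, lf (x σ)) ^ (2 * d + 1) *
        ∏ σ, Jac (fun i => D i) (x σ) := by
  classical
  rw [rdp_eq (o0 d m) c hr a ha x hx]
  unfold Theta
  have hpen := pen_lf (o0 d m) c a x hx
  have hmon : (∏ σ, (X - C (∑ j, c j * x σ j))).Monic :=
    monic_prod_of_monic _ _ fun σ _ => monic_X_sub_C _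
  have hlc : (pen (o0 d m) c (MvPolynomial.C a * ∏ σ, lf (x σ))).leadingCoeff = a := by
    rw [hpen, leadingCoeff_mul, leadingCoeff_C, hmon.leadingCoeff, mul_one]
  have hdeg : (pen (o0 d m) c (MvPolynomial.C a * ∏ σ, lf (x σ))).natDegree = r := by
    rw [hpen, natDegree_C_mul ha, natDegree_prod_of_monic _ _ fun σ _ => monic_X_sub_C _]
    rw [Finset.sum_congr rfl fun σ _ => natDegree_X_sub_C _, Finset.sum_const, Finset.card_univ,
      Fintype.card_fin, smul_eq_mul, mul_one]
  have hroots : (pen (o0 d m) c (MvPolynomial.C a * ∏ σ, lf (x σ))).roots =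
      Finset.univ.val.map fun σ => ∑ j, c j * x σ j := by
    rw [hpen, roots_C_mul _ ha]
    exact roots_multiset_prod_X_sub_C (Finset.univ.val.map fun σ => ∑ j, c j * x σ j) ▸ by
      rw [Multiset.map_map]
      rfl
  have hsp : (pen (o0 d m) c (MvPolynomial.C a * ∏ σ, lf (x σ))).Splits := by
    rw [hpen]
    exact (Splits.C a).mul (Splits.prod fun σ _ => Splits.X_sub_C _)
  have h1 := resultant_eq_prod_eval (pen (o0 d m) c (MvPolynomial.C a * ∏ σ, lf (x σ)))
    (theta c (MvPolynomial.C a * ∏ σ, lf (x σ)) (fun i => D i)) ((2 * d + 1) * (r - 1))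
    (natDegree_theta c _ (hom_prod_lf a x) _ fun i => map_zero (D i)) hsp
  rw [hdeg, hlc, hroots, Multiset.map_map] at h1
  rw [h1]
  have h2 : (Multiset.map ((fun z => eval z (theta c (MvPolynomial.C a * ∏ σ, lf (x σ))
      (fun i => D i))) ∘ fun σ => ∑ j, c j * x σ j) Finset.univ.val).prod =
      ∏ σ, (((derivative (pen (o0 d m) c (MvPolynomial.C a * ∏ σ, lf (x σ)))).eval
        (∑ j, c j * x σ j)) ^ (2 * d + 1) * Jac (fun i => D i) (x σ)) := by
    apply Finset.prod_congr rfl
    intro σ _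
    exact h21_theta_eval c a x hx D σ
  rw [h2, Finset.prod_mul_distrib, Finset.prod_pow, mul_pow, ← pow_mul, mul_comm (r - 1) (2 * d + 1),
    mul_assoc]

end Pool.Agent.Helper16.UP
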