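import Pool.Agent.Helper16.UP.Jacobi
import Pool.Agent.Helper16.UP.Ext
import Pool.Agent.Helper16.UP.ThetaVal
import Pool.Agent.Helper16.TP.Lam

/-!
# Block UP-D6b: the resultant `Theta` does not vanish for some `lam`

PROOF. `M`, `y σ` as in `fin_ext`, `dec_descend` (`E = EE K s`, `ψ = algebraMap (AA K s) (EE K s)`); derivations `Db b` of `M` which extend `der (Pi.single b 1)` (`exists_frac_der` in TP/FracDer.lean,
`h53_exists_ext` in TP/FF.lean). For `lam : Fin d → Fin s → K` put `D i = ∑ b, (lam i b) • Db b` (constants of `K` acting on `M`); it extends `der (lam i)` (`der_add99`, `der_smul99` in TP/Lam.lean).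
`Jac D (y σ) = det (D i (y σ (inl j.succ)))` because `y σ (inl 0) = 1` and `D i 1 = 0` (expand along the first row: `Matrix.det_succ_row_zero`), which is
the value at `lam` of the polynomial `p_σ = det (∑ b, Λ_{i b} Db b (y ..))` in the variables `Λ_{i b}` over `M`; it is not `0`: at `Λ_{i b} = if b = β i then 1 else 0` it is the determinant of `jacobi`
(up to transposition). `∏ σ p_σ ≠ 0` in `MvPolynomial (Fin d × Fin s) M`, so there is a point with coordinates in the infinite subset `K` of `M` where it does not vanish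
(`MvPolynomial.funext_set` or similar, or induction). Then `Theta = rdp ^ (2 d + 1) * ∏ Jac ≠ 0` (`Theta_map`, `Theta_eq`; `lc ≠ 0` because `rdp ≠ 0`).
-/

namespace Pool.Agent.Helper16.UP

open MvPolynomial (aeval)
open Pool.Agent.Helper16.TP (der)

universe u

/-- Expansion of `Jac` along the first row. -/
theorem jac_expand19 {d m : ℕ} {M : Type*} [Field M] (D : Fin d → Derivation ℤ M M)
    (x : Fin (d + 1) ⊕ Fin m → M) (hx : x (Sum.inl 0) = 1) :
    Jac (fun i => D i) x = Matrix.det (Matrix.of fun a i : Fin d => D i (x (Sum.inl a.succ))) := by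
  unfold Jac
  rw [Matrix.det_succ_row_zero, Fin.sum_univ_succ]
  have h1 : ∀ i : Fin d, (Matrix.of fun a i : Fin (d + 1) =>
      (Fin.cons (x (Sum.inl a)) (fun i => D i (x (Sum.inl a))) : Fin (d + 1) → M) i) 0 i.succ =
      0 := by
    intro i
    rw [Matrix.of_apply, Fin.cons_succ, hx, Derivation.map_one_eq_zero]
  have h2 : (Matrix.of fun a i : Fin (d + 1) =>
      (Fin.cons (x (Sum.inl a)) (fun i => D i (x (Sum.inl a))) : Fin (d + 1) → M) i) 0 0 = 1 := by
    rw [Matrix.of_apply, Fin.cons_zero, hx]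
  rw [Finset.sum_eq_zero (s := Finset.univ) fun i _ => by rw [h1 i]; ring, h2]
  simp only [Fin.val_zero, pow_zero, one_mul, add_zero, mul_one]
  congr 1

theorem der_sum19 {K : Type*} [Field K] {s : ℕ} (lam : Fin s → K) (P : MvPolynomial (Fin s) K) :
    der lam P = ∑ b, MvPolynomial.C (lam b) * der (Pi.single b 1) P := by
  ext m
  rw [Pool.Agent.Helper16.TP.coeff_der99, MvPolynomial.coeff_sum, Finset.sum_mul]
  refine Finset.sum_congr rfl fun b _ => ?_
  rw [MvPolynomial.coeff_C_mul, Pool.Agent.Helper16.TP.coeff_der_single99, mul_assoc]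

theorem nv_core19 {k K M : Type u} [Field k] [Field K] [CharZero K] [Algebra k K]
    [Algebra.IsAlgebraic k K] {d m s r : ℕ} (hr : 1 ≤ r) [Field M] [Algebra (AA K s) M]
    [Algebra k M] [IsScalarTower k (AA K s) M]
    (hinj : Function.Injective (algebraMap (AA K s) M)) (halg : Algebra.IsAlgebraic (AA K s) M)
    (Db : Fin s → Derivation ℤ M M)
    (hDb : ∀ b P, Db b (algebraMap (AA K s) M P) =
      algebraMap (AA K s) M (der (Pi.single b 1) P))
    (F : MvPolynomial (Fin (d + 1) ⊕ Fin m) (AA K s))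
    (y : Fin r → Fin (d + 1) ⊕ Fin m → M)
    (hy : Dec (algebraMap (AA K s) M) (o0 d m) F y)
    (hal : ∀ σ, AlgebraicIndependent k fun b : Fin d => y σ (Sum.inl b.succ))
    (c0 : Fin (d + 1) ⊕ Fin m → K) (h0 : rdp r (o0 d m) (cA s c0) F ≠ 0) :
    ∃ lam : Fin d → Fin s → K, Theta r (cA s c0) F (fun i => der (lam i)) ≠ 0 := by
  classical
  have hKM : Function.Injective ((algebraMap (AA K s) M).comp MvPolynomial.C) :=
    hinj.comp (MvPolynomial.C_injective _ _)
  -- the polynomials
  let p : Fin r → MvPolynomial (Fin d × Fin s) M := fun σ =>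
    Matrix.det (Matrix.of fun a i : Fin d => ∑ b : Fin s,
      MvPolynomial.X (i, b) * MvPolynomial.C (Db b (y σ (Sum.inl a.succ))))
  have hev : ∀ (σ : Fin r) (Λ : Fin d × Fin s → M), MvPolynomial.eval Λ (p σ) =
      Matrix.det (Matrix.of fun a i : Fin d => ∑ b : Fin s,
        Λ (i, b) * Db b (y σ (Sum.inl a.succ))) := by
    intro σ Λ
    simp only [p]
    rw [RingHom.map_det]
    congr 1
    ext a i
    simp
  have hp : ∀ σ, p σ ≠ 0 := by
    intro σ h
    obtain ⟨β, hβ⟩ := jacobi hinj halg Db hDb _ (hal σ)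
    apply hβ
    have h1 := hev σ fun ib => if ib.2 = β ib.1 then 1 else 0
    rw [h, map_zero] at h1
    rw [← Matrix.det_transpose, h1]
    congr 1
    ext a i
    simp
  have hprod : ∏ σ, p σ ≠ 0 := Finset.prod_ne_zero_iff.2 fun σ _ => hp σ
  -- a point with coordinates in `K`
  obtain ⟨Λ, hΛ, hΛ0⟩ : ∃ Λ ∈ Set.pi Set.univ fun _ : Fin d × Fin s =>
      Set.range ((algebraMap (AA K s) M).comp MvPolynomial.C), MvPolynomial.eval Λ (∏ σ, p σ) ≠ 0 := by
    by_contra hcon
    push Not at hcon
    refine hprod (MvPolynomial.funext_set _ (fun _ => Set.infinite_range_of_injective hKM)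
      fun x hx => ?_)
    rw [hcon x hx, map_zero]
  have hΛ' : ∀ ib, ∃ c : K, (algebraMap (AA K s) M) (MvPolynomial.C c) = Λ ib := fun ib =>
    hΛ ib (Set.mem_univ _)
  choose lam hlam using hΛ'
  refine ⟨fun i b => lam (i, b), fun hT => hΛ0 ?_⟩
  -- the derivations
  let D : Fin d → Derivation ℤ M M := fun i => ∑ b, Λ (i, b) • Db b
  have hD : ∀ i z, D i z = ∑ b, Λ (i, b) * Db b z := by
    intro i z
    simp only [D]
    rw [← Derivation.coeFnAddMonoidHom_apply, map_sum, Finset.sum_apply]
    rfl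
  have hDφ : ∀ i P, D i (algebraMap (AA K s) M P) =
      algebraMap (AA K s) M (der (fun b => lam (i, b)) P) := by
    intro i P
    rw [hD, der_sum19, map_sum]
    refine Finset.sum_congr rfl fun b _ => ?_
    rw [map_mul, hlam, hDb]
  have hmap := Theta_map (algebraMap (AA K s) M) r (cA s c0) F
    (fun i => der fun b => lam (i, b)) (fun i => D i) (fun i => map_zero _) (fun i => map_zero _)
    hDφ
  rw [hT, map_zero, hy.2] at hmap
  have ha : algebraMap (AA K s) M (lc r (o0 d m) F) ≠ 0 := by
    intro ha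
    have h1 := hy.2
    rw [ha, map_zero, zero_mul] at h1
    have h2 : F = 0 := MvPolynomial.map_injective _ hinj (by rw [h1, map_zero])
    apply h0
    rw [h2]
    unfold rdp Pool.Agent.Helper16.TP.rd pen
    rw [map_zero, Polynomial.derivative_zero, Polynomial.resultant_zero_zero,
      zero_pow (by omega)]
  rw [Theta_eq _ hr _ ha y hy.1] at hmap
  have hrd : rdp r (o0 d m) (fun j => algebraMap (AA K s) M (cA s c0 j))
      (MvPolynomial.C (algebraMap (AA K s) M (lc r (o0 d m) F)) * ∏ σ, lf (y σ)) ≠ 0 := by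
    rw [← hy.2, ← rdp_map]
    exact fun h => h0 (hinj (h.trans (map_zero _).symm))
  have h1 := (mul_eq_zero.1 hmap.symm).resolve_left (pow_ne_zero _ hrd)
  rw [map_prod, ← h1]
  refine Finset.prod_congr rfl fun σ _ => ?_
  rw [hev, jac_expand19 D (y σ) (hy.1 σ)]
  congr 1
  ext a i
  rw [Matrix.of_apply, Matrix.of_apply, hD]

theorem nv_lam {k K : Type u} [Field k] [Field K] [CharZero K] [Algebra k K]
    [Algebra.IsAlgebraic k K] {d m s r : ℕ} (hr : 1 ≤ r)
    (F : MvPolynomial (Fin (d + 1) ⊕ Fin m) (AA K s))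
    (x : Fin r → Fin (d + 1) ⊕ Fin m → EC K s)
    (hx : Dec (algebraMap (AA K s) (EC K s)) (o0 d m) F x)
    (hal : ∀ σ, AlgebraicIndependent k fun b : Fin d => x σ (Sum.inl b.succ))
    (c0 : Fin (d + 1) ⊕ Fin m → K) (h0 : rdp r (o0 d m) (cA s c0) F ≠ 0) :
    ∃ lam : Fin d → Fin s → K, Theta r (cA s c0) F (fun i => der (lam i)) ≠ 0 := by
  classical
  obtain ⟨M, hfin, y, hyx⟩ := fin_ext x
  have hx' : Dec ((algebraMap (EE K s) (EC K s)).comp (algebraMap (AA K s) (EE K s)))
      (o0 d m) F x := by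
    rw [← IsScalarTower.algebraMap_eq]
    exact hx
  have hy := dec_descend (algebraMap (AA K s) (EE K s)) (o0 d m) F x hx' M y hyx
  have hmapeq : (algebraMap (EE K s) M).comp (algebraMap (AA K s) (EE K s)) =
      algebraMap (AA K s) M := (IsScalarTower.algebraMap_eq _ _ _).symm
  rw [hmapeq] at hy
  have hinj : Function.Injective (algebraMap (AA K s) M) := by
    rw [← hmapeq]
    exact (algebraMap (EE K s) M).injective.comp (IsFractionRing.injective (AA K s) (EE K s))
  have halg : Algebra.IsAlgebraic (AA K s) M := by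
    have h1 : Algebra.IsAlgebraic (EE K s) M := inferInstance
    exact (IsFractionRing.comap_isAlgebraic_iff (A := AA K s) (K := EE K s)).2 h1
  have hchE : CharZero (EE K s) := charZero_of_injective_ringHom
    (f := (algebraMap (AA K s) (EE K s)).comp MvPolynomial.C)
    ((IsFractionRing.injective (AA K s) (EE K s)).comp (MvPolynomial.C_injective _ _))
  have hD : ∀ b : Fin s, ∃ D : Derivation ℤ M M, ∀ P : AA K s, D (algebraMap (AA K s) M P) =
      algebraMap (AA K s) M (der (Pi.single b 1) P) := by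
    intro b
    obtain ⟨D, hD⟩ := Pool.Agent.Helper16.TP.exists_frac_der (A := AA K s) (L := EE K s)
      ((der (Pi.single b (1 : K))).restrictScalars ℤ)
    obtain ⟨D', hD'⟩ := Pool.Agent.Helper16.TP.h53_exists_ext (M := M) D
    refine ⟨D', fun P => ?_⟩
    rw [← hmapeq, RingHom.comp_apply, hD', hD]
    rfl
  choose Db hDb using hD
  have htow : IsScalarTower k (AA K s) M := by
    refine IsScalarTower.of_algebraMap_eq fun c => Subtype.ext ?_
    change algebraMap k (EC K s) c = algebraMap (AA K s) (EC K s) (algebraMap k (AA K s) c)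
    exact IsScalarTower.algebraMap_apply k (AA K s) (EC K s) c
  refine nv_core19 (k := k) hr hinj halg Db hDb F y hy (fun σ => ?_) c0 h0
  have h1 := hal σ
  have h2 : (fun b : Fin d => x σ (Sum.inl b.succ)) =
      (M.val.restrictScalars k) ∘ fun b : Fin d => y σ (Sum.inl b.succ) := by
    funext b
    exact (hyx σ _).symm
  rw [h2] at h1
  exact AlgebraicIndependent.of_comp (M.val.restrictScalars k) h1

end Pool.Agent.Helper16.UP
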