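import Pool.Agent.Helper16.UP.Psi
import Pool.Agent.Helper16.UP.FFI
import Pool.Agent.Helper16.UP.NV
import Pool.Agent.Helper16.TP.Weights

/-!
# Block UP-D7: the inequality for a family

PROOF. `nv_lam` gives `lam`. `psi` for every `c l`: `g ∣ lc ^ (d + 1 + m) * rdp (c l) * Theta * rdp (c l0) ^ _`, `g` = the left side (`≠ 0`). `G` = a greatest common divisor of the
`rdp (c l)`, `l : Fin ℓ` (`AA K s` is a UFD; take a `NormalizedGCDMonoid` structure as in TM/RepC.lean and `Finset.gcd`), `G ≠ 0` because `rdp (c l0) ≠ 0`; `g ∣ t * rdp (c l)` for all `l` implies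
`g ∣ t * G` (`Finset.gcd_mul_left` or so). `Ψ` = the quotient, `Ψ ≠ 0`. `ffi` and `real_of_int` (TP/Weights.lean).
-/

namespace Pool.Agent.Helper16.UP

open MvPolynomial (aeval)
open Pool.Agent.Helper16.TP (der)

universe u

/-- A greatest common divisor of a finite family. -/
private theorem fam_gcd {R : Type*} [CommRing R] [IsDomain R] [UniqueFactorizationMonoid R] {ℓ : ℕ}
    (r : Fin ℓ → R) : ∃ G : R, (∀ l, G ∣ r l) ∧ ∀ g t : R, (∀ l, g ∣ t * r l) → g ∣ t * G := by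
  classical
  let _ := UniqueFactorizationMonoid.strongNormalizationMonoid (α := R)
  let _ := UniqueFactorizationMonoid.toNormalizedGCDMonoid R
  refine ⟨Finset.univ.gcd r, fun l => Finset.gcd_dvd (Finset.mem_univ l), fun g t h => ?_⟩
  have h1 : g ∣ Finset.univ.gcd fun l => t * r l := Finset.dvd_gcd fun l _ => h l
  exact h1.trans (Finset.gcd_mul_left' Finset.univ r t).dvd

theorem fam {k K : Type u} [Field k] [Field K] [CharZero K] [Algebra k K]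
    [Algebra.IsAlgebraic k K] {d m s r ℓ : ℕ} (hd : 1 ≤ d) (hr : 1 ≤ r)
    {ι : Type*} [Fintype ι] (φ : Fin m → MvPolynomial (Fin (d + 1) ⊕ Fin m) K) (a : Fin m → ℕ)
    (ha : ∀ i, 1 ≤ a i)
    (hφ : ∀ i, (φ i).IsHomogeneous (a i)) (f : ι → MvPolynomial (Fin (d + 1) ⊕ Fin m) K)
    (e : ι → ℕ) (hf : ∀ j, (f j).IsHomogeneous (e j)) (hN : Null φ f)
    (hq : d + 1 + m ≤ ∑ i, a i + ∑ j, e j)
    (F : MvPolynomial (Fin (d + 1) ⊕ Fin m) (AA K s)) (hF : F.IsHomogeneous r)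
    (hprim : ∀ π : AA K s, Irreducible π → ∃ γ, ¬ π ∣ F.coeff γ)
    (x : Fin r → Fin (d + 1) ⊕ Fin m → EC K s)
    (hx : Dec (algebraMap (AA K s) (EC K s)) (o0 d m) F x)
    (hφx : ∀ σ i, aeval (x σ) (φ i) = 0)
    (hal : ∀ σ, AlgebraicIndependent k fun b : Fin d => x σ (Sum.inl b.succ))
    (c : Fin ℓ → Fin (d + 1) ⊕ Fin m → K) (l0 : Fin ℓ)
    (h0 : rdp r (o0 d m) (cA s (c l0)) F ≠ 0) :
    ∃ Ψ G : AA K s, Ψ ≠ 0 ∧ G ≠ 0 ∧ (∀ l, G ∣ rdp r (o0 d m) (cA s (c l)) F) ∧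
      ∀ (γ : (Fin (d + 1) ⊕ Fin m) →₀ ℕ) (w : Fin s → ℝ),
        ∀ μ ∈ (Ψ * lc r (o0 d m) F * rdp r (o0 d m) (cA s (c l0)) F ^ (∑ j, e j) *
            F.coeff γ ^ (∑ i, a i + ∑ j, e j - (d + 1 + m))).support,
          ∃ μ' ∈ (lc r (o0 d m) F ^ (∑ j, e j) * G *
            ∏ j, rs r (e j) (o0 d m) (cA s (c l0)) F (fA s (f j))).support,
            ∑ b, w b * (μ b : ℝ) ≤ ∑ b, w b * (μ' b : ℝ) := by
  classical
  obtain ⟨lam, hT⟩ := nv_lam hr F x hx hal (c l0) h0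
  have hpsi := fun l => psi hd hr φ a ha hφ f e hf hN F hF hprim x hx hφx (c l) (c l0) h0 lam hT
  have hne := (hpsi l0).1
  obtain ⟨G, hG1, hG2⟩ := fam_gcd fun l => rdp r (o0 d m) (cA s (c l)) F
  set g := lc r (o0 d m) F ^ (∑ i, a i + 1) *
        rs r (∑ i, (a i - 1)) (o0 d m) (cA s (c l0)) F (fA s (Del φ)) *
        rdp r (o0 d m) (cA s (c l0)) F ^ (2 * d + 1) with hg
  set t := lc r (o0 d m) F ^ (d + 1 + m) * Theta r (cA s (c l0)) F (fun i => der (lam i)) *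
        rdp r (o0 d m) (cA s (c l0)) F ^ (∑ i, (a i - 1)) with ht
  have hdiv : g ∣ t * G := by
    refine hG2 g t fun l => ?_
    refine (hpsi l).2.trans (dvd_of_eq ?_)
    rw [ht]
    ring
  obtain ⟨Ψ, hΨ⟩ := hdiv
  have hG0 : G ≠ 0 := by
    intro h
    have h1 := hG1 l0
    rw [h, zero_dvd_iff] at h1
    exact h0 h1
  have hlc : lc r (o0 d m) F ≠ 0 := by
    intro h
    apply hne
    rw [hg, h, zero_pow (Nat.succ_ne_zero _), zero_mul, zero_mul]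
  have ht0 : t ≠ 0 := mul_ne_zero (mul_ne_zero (pow_ne_zero _ hlc) hT) (pow_ne_zero _ h0)
  have hΨ0 : Ψ ≠ 0 := by
    intro h
    rw [h, mul_zero] at hΨ
    exact (mul_ne_zero ht0 hG0) hΨ
  refine ⟨Ψ, G, hΨ0, hG0, hG1, fun γ w => ?_⟩
  refine Pool.Agent.Helper16.TP.real_of_int _ _ (fun w' => ?_) w
  refine ffi hr φ a ha hφ f e hf hN hq F x hx hφx (c l0) lam Ψ G hne ?_ γ w'
  rw [← hg, mul_comm Ψ g, ← hΨ, ht]
  ring

end Pool.Agent.Helper16.UP
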