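import Pool.Agent.Helper16.UP.Defs3

/-!
# Block UP-F6a: Gelfond's inequality for products of linear forms at a place

PROOF. `n = card κ`, `u_t = (t ^ (index of j))_j`, `t = 0, ..., r n`. For a vector `x : κ → N` fewer than `n` of the `t` satisfy `nv w (∑ u_t j x j) < c * vn w x`: Cramer's rule for the Vandermonde matrix, `c` depends on
the size at `w` of the entries of the inverse Vandermonde matrices, rational numbers `b` from a finite set; `nv w (b)` is bounded below and above in terms of `b` and `D` (`[N : ℚ] ≤ D`): `nv w (b) ≤ max 1 |b| ^ 2` at an infinite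
place, and for a finite place with `b = p / q`: `nv w (b) ≤ nv w (q)⁻¹ ≤ |q| ^ D` because `q * ∏ ..`: `nv w (q)⁻¹ ≤ |norm q| ≤ |q| ^ D` (product formula, or `nv w (q) * ∏_{infinite} ≥ 1`: `gsum_nv`). So some `t` is good for all `x σ`,
and `c ^ r ∏ vn w (x σ) ≤ nv w (F(u_t)) ≤ const * pn w F` with `F = ∏ lf (x σ)` (integral combination of at most `card` coefficients; `F` is homogeneous of degree `r`).
-/

namespace Pool.Agent.Helper16.UP

open NumberField Finset
open Pool.Agent.Helper64.Vojta (Pl nv sn)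
open Pool.Agent.V2 (vn vH pn pH gsum FinS)

universe u

open Pool.Agent.Helper64.Vojta (nv_sum_le nv_mul nv_nonneg nv_pos nv_zero nv_one mult_le_two) in
private lemma nv_int_natAbs53 {K : Type*} [Field K] [NumberField K] (v : Pl K) (a : ℤ) :
    nv v (a : K) = nv v ((a.natAbs : ℕ) : K) := by
  rcases Int.natAbs_eq a with h | h
  · conv_lhs => rw [h]
    rw [Int.cast_natCast]
  · conv_lhs => rw [h]
    rw [Int.cast_neg, Int.cast_natCast, Pool.Agent.V2.P1.nv_neg]

private lemma nv_int_le53 {K : Type*} [Field K] [NumberField K] (v : Pl K) (a : ℤ) (m : ℕ)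
    (h : a.natAbs ≤ m) : nv v (a : K) ≤ ((m : ℝ) + 1) ^ 2 := by
  rw [nv_int_natAbs53]
  exact Pool.Agent.V2.P2.nv_nat_le v _ m h

private lemma nv_int_ge53 {K : Type*} [Field K] [NumberField K] (v : Pl K) (a : ℤ) (ha : a ≠ 0) (D : ℕ)
    (hD : Module.finrank ℚ K ≤ D) : 1 ≤ (a.natAbs : ℝ) ^ D * nv v (a : K) := by
  rw [nv_int_natAbs53]
  set u : ℕ := a.natAbs with hu
  have hu1 : 1 ≤ u := Nat.one_le_iff_ne_zero.mpr (Int.natAbs_ne_zero.mpr ha)
  have hu1' : (1 : ℝ) ≤ u := by exact_mod_cast hu1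
  have hlu : 0 ≤ Real.log u := Real.log_nonneg hu1'
  have hK : ((u : ℕ) : K) ≠ 0 := by
    have : u ≠ 0 := by omega
    exact_mod_cast this
  let g : Pl K → ℝ := fun w => Sum.elim (fun w : InfinitePlace K => (w.mult : ℝ) * Real.log u) (fun _ => 0) w
  have hg : Pool.Agent.V2.FinS g := by
    unfold Pool.Agent.V2.FinS
    have : (fun v : FinitePlace K => g (.inr v)) = fun _ => 0 := rfl
    rw [this]
    simp
  have hgs : gsum g = (Module.finrank ℚ K : ℝ) * Real.log u := by
    unfold Pool.Agent.V2.gsum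
    have h1 : (∑ v : InfinitePlace K, g (.inl v)) = ∑ v : InfinitePlace K, (v.mult : ℝ) * Real.log u := rfl
    have h2 : (∑ᶠ v : FinitePlace K, g (.inr v)) = 0 := by
      have : (fun v : FinitePlace K => g (.inr v)) = fun _ => 0 := rfl
      rw [this]
      exact finsum_zero
    rw [h1, h2, add_zero, ← Finset.sum_mul, ← NumberField.InfinitePlace.sum_mult_eq]
    push_cast
    rfl
  have hle : ∀ w, Real.log (nv w ((u : ℕ) : K)) ≤ g w := by
    intro w
    rcases w with w | w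
    · have h1 : w ((u : ℕ) : K) = u := by
        rw [← InfinitePlace.norm_embedding_eq, map_natCast]
        simp
      show Real.log (w ((u : ℕ) : K) ^ w.mult) ≤ (w.mult : ℝ) * Real.log u
      rw [h1, Real.log_pow]
    · exact Real.log_nonpos (Pool.Agent.Helper64.Vojta.nv_nonneg _ _) (Pool.Agent.V2.P2.nv_inr_nat w u)
  have h := Pool.Agent.V2.le_nv_of_ne_zero hK g hg hle v
  have hgv : 0 ≤ g v := by
    rcases v with v | v
    · exact mul_nonneg (Nat.cast_nonneg _) hlu
    · exact le_refl _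
  have hpos := Pool.Agent.Helper64.Vojta.nv_pos v hK
  have hupos : (0 : ℝ) < (u : ℝ) ^ D := by positivity
  have hDu : (Module.finrank ℚ K : ℝ) * Real.log u ≤ D * Real.log u :=
    mul_le_mul_of_nonneg_right (by exact_mod_cast hD) hlu
  have h5 : 0 ≤ Real.log ((u : ℝ) ^ D * nv v ((u : ℕ) : K)) := by
    rw [Real.log_mul hupos.ne' hpos.ne', Real.log_pow]
    rw [hgs] at h
    linarith
  exact (Real.log_nonneg_iff (by positivity)).mp h5

private lemma cramer53 {κ : Type} [Fintype κ] {n : ℕ} (e : κ ≃ Fin n) (D : ℕ) (t : Fin n → ℕ)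
    (ht : Function.Injective t) :
    ∃ C : ℝ, 0 < C ∧ ∀ (N : Type u) [Field N] [NumberField N], Module.finrank ℚ N ≤ D →
      ∀ (w : Pl N) (y : κ → N) (B : ℝ), 0 ≤ B →
        (∀ i, nv w (∑ j, ((t i : ℕ) : N) ^ (e j : ℕ) * y j) ≤ B) → vn w y ≤ C * B := by
  classical
  let V : Matrix (Fin n) (Fin n) ℤ := Matrix.vandermonde (fun i => (t i : ℤ))
  have hdet : V.det ≠ 0 := by
    rw [Matrix.det_vandermonde_ne_zero_iff]
    intro i j hij
    have hij2 : ((t i : ℕ) : ℤ) = ((t j : ℕ) : ℤ) := hij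
    exact ht (by exact_mod_cast hij2)
  let m : ℕ := ∑ k, ∑ i, (V.adjugate k i).natAbs
  have hm : ∀ k i, (V.adjugate k i).natAbs ≤ m := by
    intro k i
    have h1 : (V.adjugate k i).natAbs ≤ ∑ i, (V.adjugate k i).natAbs :=
      Finset.single_le_sum (f := fun i => (V.adjugate k i).natAbs) (fun _ _ => Nat.zero_le _) (Finset.mem_univ i)
    exact h1.trans (Finset.single_le_sum (f := fun k => ∑ i, (V.adjugate k i).natAbs) (fun _ _ => Nat.zero_le _)
      (Finset.mem_univ k))
  have hdpos : (0 : ℝ) < (V.det.natAbs : ℝ) := by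
    exact_mod_cast Int.natAbs_pos.mpr hdet
  refine ⟨(V.det.natAbs : ℝ) ^ D * (((n : ℝ) + 1) ^ 2 * ((m : ℝ) + 1) ^ 2), by positivity, ?_⟩
  intro N _ _ hD w y B hB h
  apply Pool.Agent.V2.vn_le w y (by positivity)
  intro j
  have key : ((V.det : ℤ) : N) * y j =
      ∑ i, ((V.adjugate (e j) i : ℤ) : N) * (∑ l, ((t i : ℕ) : N) ^ (e l : ℕ) * y l) := by
    have hA := Matrix.adjugate_mul V
    have h1 : ∀ l, (∑ i, V.adjugate (e j) i * V i (e l)) = if e j = e l then V.det else 0 := by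
      intro l
      have := congrFun (congrFun hA (e j)) (e l)
      rw [Matrix.mul_apply] at this
      rw [this, Matrix.smul_apply, Matrix.one_apply]
      split_ifs <;> simp
    calc ((V.det : ℤ) : N) * y j = ∑ l, (((if e j = e l then V.det else 0 : ℤ) : ℤ) : N) * y l := by
          rw [Finset.sum_eq_single j]
          · simp
          · intro l _ hl
            have : e j ≠ e l := fun hh => hl (e.injective hh).symm
            simp [this]
          · intro hh
            exact absurd (Finset.mem_univ j) hh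
      _ = ∑ l, (((∑ i, V.adjugate (e j) i * V i (e l) : ℤ)) : N) * y l := by
          refine Finset.sum_congr rfl fun l _ => ?_
          rw [h1 l]
      _ = ∑ l, ∑ i, ((V.adjugate (e j) i : ℤ) : N) * (((t i : ℕ) : N) ^ (e l : ℕ) * y l) := by
          refine Finset.sum_congr rfl fun l _ => ?_
          rw [Int.cast_sum, Finset.sum_mul]
          refine Finset.sum_congr rfl fun i _ => ?_
          have : V i (e l) = (t i : ℤ) ^ (e l : ℕ) := rfl
          rw [this]
          push_cast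
          ring
      _ = _ := by
          rw [Finset.sum_comm]
          refine Finset.sum_congr rfl fun i _ => ?_
          rw [Finset.mul_sum]
  have h2 : nv w (((V.det : ℤ) : N) * y j) ≤ ((n : ℝ) + 1) ^ 2 * (((m : ℝ) + 1) ^ 2 * B) := by
    rw [key]
    have := Pool.Agent.Helper64.Vojta.nv_sum_le w (Finset.univ : Finset (Fin n))
      (fun i => ((V.adjugate (e j) i : ℤ) : N) * (∑ l, ((t i : ℕ) : N) ^ (e l : ℕ) * y l))
      (((m : ℝ) + 1) ^ 2 * B) (by positivity) (fun i _ => by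
        rw [Pool.Agent.Helper64.Vojta.nv_mul]
        exact mul_le_mul (nv_int_le53 w _ m (hm _ _)) (h i) (Pool.Agent.Helper64.Vojta.nv_nonneg _ _) (by positivity))
    rwa [Finset.card_univ, Fintype.card_fin] at this
  have h3 := nv_int_ge53 w V.det hdet D hD
  have hy0 := Pool.Agent.Helper64.Vojta.nv_nonneg w (y j)
  rw [Pool.Agent.Helper64.Vojta.nv_mul] at h2
  calc nv w (y j) = 1 * nv w (y j) := (one_mul _).symm
    _ ≤ ((V.det.natAbs : ℝ) ^ D * nv w ((V.det : ℤ) : N)) * nv w (y j) := mul_le_mul_of_nonneg_right h3 hy0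
    _ = (V.det.natAbs : ℝ) ^ D * (nv w ((V.det : ℤ) : N) * nv w (y j)) := by ring
    _ ≤ (V.det.natAbs : ℝ) ^ D * (((n : ℝ) + 1) ^ 2 * (((m : ℝ) + 1) ^ 2 * B)) :=
        mul_le_mul_of_nonneg_left h2 (by positivity)
    _ = _ := by ring

private lemma good53 {κ : Type} [Fintype κ] {n : ℕ} (e : κ ≃ Fin n) (r D : ℕ) :
    ∃ C : ℝ, 0 < C ∧ ∀ (N : Type u) [Field N] [NumberField N], Module.finrank ℚ N ≤ D →
      ∀ (w : Pl N) (x : Fin r → κ → N), ∃ t : Fin (r * n + 1), ∀ σ,
        vn w (x σ) ≤ C * nv w (∑ j, ((t : ℕ) : N) ^ (e j : ℕ) * x σ j) := by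
  classical
  have hc : ∀ t : Fin n → Fin (r * n + 1), ∃ C : ℝ, 0 < C ∧ (Function.Injective t →
      ∀ (N : Type u) [Field N] [NumberField N], Module.finrank ℚ N ≤ D →
      ∀ (w : Pl N) (y : κ → N) (B : ℝ), 0 ≤ B →
        (∀ i, nv w (∑ j, ((t i : ℕ) : N) ^ (e j : ℕ) * y j) ≤ B) → vn w y ≤ C * B) := by
    intro t
    by_cases ht : Function.Injective t
    · obtain ⟨C, hC, h⟩ := cramer53.{u} e D (fun i => (t i : ℕ)) (fun i j hij => ht (Fin.ext hij))
      exact ⟨C, hC, fun _ => h⟩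
    · exact ⟨1, one_pos, fun h => absurd h ht⟩
  choose c hc0 hc1 using hc
  refine ⟨1 + ∑ t, c t, by
    have : 0 ≤ ∑ t, c t := Finset.sum_nonneg fun t _ => (hc0 t).le
    linarith, ?_⟩
  have hcle : ∀ t, c t ≤ 1 + ∑ t, c t := by
    intro t
    have := Finset.single_le_sum (f := c) (fun t _ => (hc0 t).le) (Finset.mem_univ t)
    linarith
  set C := 1 + ∑ t, c t with hCdef
  intro N _ _ hD w x
  by_contra hcon
  push Not at hcon
  choose s hs using hcon
  have hpig := Finset.exists_lt_card_fiber_of_mul_lt_card_of_maps_to (s := (Finset.univ : Finset (Fin (r * n + 1))))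
    (t := (Finset.univ : Finset (Fin r))) (f := s) (n := n) (fun _ _ => Finset.mem_univ _) (by simp)
  obtain ⟨σ, _, hσ⟩ := hpig
  set A := (Finset.univ : Finset (Fin (r * n + 1))).filter (fun t => s t = σ) with hA
  have hmem : ∀ t ∈ A, C * nv w (∑ j, ((t : ℕ) : N) ^ (e j : ℕ) * x σ j) < vn w (x σ) := by
    intro t ht
    have h1 : s t = σ := (Finset.mem_filter.mp ht).2
    have := hs t
    rwa [h1] at this
  have hC0 : 0 < C := by
    have : 0 ≤ ∑ t, c t := Finset.sum_nonneg fun t _ => (hc0 t).le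
    rw [hCdef]; linarith
  rcases Nat.eq_zero_or_pos n with hn | hn
  · obtain ⟨t, ht⟩ := Finset.card_pos.mp (lt_of_le_of_lt (Nat.zero_le _) hσ)
    have h1 := hmem t ht
    have hemp : IsEmpty κ := by
      subst hn
      exact e.isEmpty
    have h2 : vn w (x σ) = 0 := by
      unfold Pool.Agent.V2.vn
      exact Real.iSup_of_isEmpty _
    have h3 := mul_nonneg hC0.le (Pool.Agent.Helper64.Vojta.nv_nonneg w (∑ j, ((t : ℕ) : N) ^ (e j : ℕ) * x σ j))
    linarith
  · obtain ⟨A', hA', hcard⟩ := Finset.exists_subset_card_eq hσ.le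
    let τ : Fin n → Fin (r * n + 1) := fun i => A'.orderEmbOfFin hcard i
    have hτ : Function.Injective τ := (A'.orderEmbOfFin hcard).injective
    have hτA : ∀ i, τ i ∈ A := fun i => hA' (Finset.orderEmbOfFin_mem A' hcard i)
    have : Nonempty (Fin n) := ⟨⟨0, hn⟩⟩
    obtain ⟨i0, hi0⟩ := Finite.exists_max (fun i => nv w (∑ j, ((τ i : ℕ) : N) ^ (e j : ℕ) * x σ j))
    have hB0 := Pool.Agent.Helper64.Vojta.nv_nonneg w (∑ j, ((τ i0 : ℕ) : N) ^ (e j : ℕ) * x σ j)
    have h1 := hc1 τ hτ N hD w (x σ) _ hB0 hi0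
    have h2 := hmem (τ i0) (hτA i0)
    have h3 := mul_le_mul_of_nonneg_right (hcle τ) hB0
    linarith

private lemma lf_hom53 {κ : Type} [Fintype κ] {R : Type*} [CommRing R] (x : κ → R) :
    (lf x).IsHomogeneous 1 := by
  unfold lf
  refine MvPolynomial.IsHomogeneous.sum _ _ _ fun j _ => ?_
  have := (MvPolynomial.isHomogeneous_C κ (x j)).mul (MvPolynomial.isHomogeneous_X R j)
  simpa using this

private lemma prod_hom53 {κ : Type} [Fintype κ] {R : Type*} [CommRing R] {r : ℕ} (x : Fin r → κ → R) :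
    (∏ σ, lf (x σ)).IsHomogeneous r := by
  have := MvPolynomial.IsHomogeneous.prod (Finset.univ : Finset (Fin r)) (fun σ => lf (x σ)) (fun _ => 1)
    (fun σ _ => lf_hom53 (x σ))
  simpa using this

theorem gelfond_N (κ : Type) [Fintype κ] (r D : ℕ) :
    ∃ C : ℝ, 0 < C ∧ ∀ (N : Type u) [Field N] [NumberField N], Module.finrank ℚ N ≤ D →
      ∀ (w : Pl N) (x : Fin r → κ → N), ∏ σ, vn w (x σ) ≤ C * pn w (∏ σ, lf (x σ)) := by
  classical
  set n := Fintype.card κ with hn
  let e : κ ≃ Fin n := Fintype.equivFin κ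
  obtain ⟨C, hC, hgood⟩ := good53.{u} e r D
  let M : ℕ := ((r * n + 1) ^ n) ^ r
  let S : ℕ := (Finset.finsuppAntidiag (Finset.univ : Finset κ) r).card
  refine ⟨C ^ r * (((S : ℝ) + 1) ^ 2 * ((M : ℝ) + 1) ^ 2), by positivity, ?_⟩
  intro N _ _ hD w x
  obtain ⟨t, ht⟩ := hgood N hD w x
  set F := ∏ σ, lf (x σ) with hF
  have hFh : F.IsHomogeneous r := prod_hom53 x
  let u : κ → N := fun j => ((t : ℕ) : N) ^ (e j : ℕ)
  have hev : MvPolynomial.eval u F = ∏ σ, ∑ j, ((t : ℕ) : N) ^ (e j : ℕ) * x σ j := by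
    rw [hF, map_prod]
    refine Finset.prod_congr rfl fun σ _ => ?_
    unfold lf
    rw [map_sum]
    refine Finset.sum_congr rfl fun j _ => ?_
    rw [map_mul, MvPolynomial.eval_C, MvPolynomial.eval_X, mul_comm]
  have hpn0 : 0 ≤ pn w F := (Pool.Agent.Helper64.Vojta.nv_nonneg w _).trans (Pool.Agent.V2.le_pn w F 0)
  have hdeg : ∀ d ∈ F.support, ∑ i, d i = r := by
    intro d hd
    have h1 := hFh (MvPolynomial.mem_support_iff.mp hd)
    rw [← h1, Finsupp.weight_apply, Finsupp.sum_fintype _ _ (by simp)]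
    simp
  have hsup : F.support ⊆ Finset.finsuppAntidiag (Finset.univ : Finset κ) r := by
    intro d hd
    rw [Finset.mem_finsuppAntidiag]
    exact ⟨hdeg d hd, Finset.subset_univ _⟩
  have hcard : F.support.card ≤ S := Finset.card_le_card hsup
  have htle : (t : ℕ) ≤ r * n := Nat.lt_succ_iff.mp t.2
  have hmon : ∀ d ∈ F.support, nv w (∏ i, u i ^ d i) ≤ ((M : ℝ) + 1) ^ 2 := by
    intro d hd
    have h1 : (∏ i, u i ^ d i) = ((∏ i, ((t : ℕ) ^ (e i : ℕ)) ^ d i : ℕ) : N) := by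
      push_cast
      rfl
    rw [h1]
    apply Pool.Agent.V2.P2.nv_nat_le
    calc ∏ i, ((t : ℕ) ^ (e i : ℕ)) ^ d i ≤ ∏ i : κ, ((r * n + 1) ^ n) ^ d i := by
          refine Finset.prod_le_prod' fun i _ => ?_
          apply Nat.pow_le_pow_left
          calc (t : ℕ) ^ (e i : ℕ) ≤ (r * n + 1) ^ (e i : ℕ) := Nat.pow_le_pow_left (by omega) _
            _ ≤ (r * n + 1) ^ n := Nat.pow_le_pow_right (by omega) (e i).2.le
      _ = ((r * n + 1) ^ n) ^ r := by
          rw [Finset.prod_pow_eq_pow_sum, hdeg d hd]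
  have hup : nv w (MvPolynomial.eval u F) ≤ (((S : ℝ) + 1) ^ 2 * ((M : ℝ) + 1) ^ 2) * pn w F := by
    rw [MvPolynomial.eval_eq']
    have h1 := Pool.Agent.Helper64.Vojta.nv_sum_le w F.support (fun d => F.coeff d * ∏ i, u i ^ d i)
      (pn w F * ((M : ℝ) + 1) ^ 2) (by positivity) (fun d hd => by
        rw [Pool.Agent.Helper64.Vojta.nv_mul]
        exact mul_le_mul (Pool.Agent.V2.le_pn w F d) (hmon d hd) (Pool.Agent.Helper64.Vojta.nv_nonneg _ _) hpn0)
    refine h1.trans ?_
    have h2 : ((F.support.card : ℝ) + 1) ^ 2 ≤ ((S : ℝ) + 1) ^ 2 := by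
      have : (F.support.card : ℝ) ≤ S := by exact_mod_cast hcard
      gcongr
    calc ((F.support.card : ℝ) + 1) ^ 2 * (pn w F * ((M : ℝ) + 1) ^ 2) ≤
        ((S : ℝ) + 1) ^ 2 * (pn w F * ((M : ℝ) + 1) ^ 2) := mul_le_mul_of_nonneg_right h2 (by positivity)
      _ = _ := by ring
  calc ∏ σ, vn w (x σ) ≤ ∏ σ, (C * nv w (∑ j, ((t : ℕ) : N) ^ (e j : ℕ) * x σ j)) := by
        refine Finset.prod_le_prod (fun σ _ => Real.iSup_nonneg fun i => Pool.Agent.Helper64.Vojta.nv_nonneg _ _) fun σ _ => ht σ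
    _ = C ^ r * nv w (MvPolynomial.eval u F) := by
        rw [Finset.prod_mul_distrib, hev, Pool.Agent.V2.nv_prod]
        simp
    _ ≤ C ^ r * ((((S : ℝ) + 1) ^ 2 * ((M : ℝ) + 1) ^ 2) * pn w F) :=
        mul_le_mul_of_nonneg_left hup (by positivity)
    _ = _ := by ring

end Pool.Agent.Helper16.UP
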