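import Pool.Agent.Helper16.UP.NullUse
import Pool.Agent.Helper16.UP.DetId

/-!
# Block UP-V7: all derivations but one logarithmic (one point)

PROOF. `null_use` with `J = ∅`: `ρ` with all values `inr l` and `v (mnr(y)) = 1`; `det_id`: `v (Jac D y) = v (det W') * v (Del(y))`, the entries of `W'` are `y l` (value `≤ 1`), `D i (y l)`,
`i ≠ i0` (value `≤ v (y l) ≤ 1`), and in the column of `i0` `D i0 (y l)` (value `≤ mx v (fun l => D i0 (y l))`); every term of the determinant has exactly one factor of this column.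
-/

namespace Pool.Agent.Helper16.UP

open MvPolynomial (aeval)

variable {d m : ℕ} {K M : Type*} [Field K] [Field M] [Algebra K M] {Γ₀ : Type*}
  [LinearOrderedCommGroupWithZero Γ₀] (v : Valuation M Γ₀)

theorem jac_loc {ι : Type*} (φ : Fin m → MvPolynomial (Fin (d + 1) ⊕ Fin m) K) (a : Fin m → ℕ)
    (hφ : ∀ i, (φ i).IsHomogeneous (a i)) (f : ι → MvPolynomial (Fin (d + 1) ⊕ Fin m) K)
    (e : ι → ℕ) (hf : ∀ j, (f j).IsHomogeneous (e j)) (hN : Null φ f)
    (hK : ∀ c : K, c ≠ 0 → v (algebraMap K M c) = 1) (D : Fin d → Derivation ℤ M M)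
    (hD : ∀ i (c : K), D i (algebraMap K M c) = 0) (i0 : Fin d)
    (hlog : ∀ i, i ≠ i0 → ∀ z, v (D i z) ≤ v z)
    (y : Fin (d + 1) ⊕ Fin m → M) (hy : mx v y = 1) (hx : ∀ i, aeval y (φ i) = 0) :
    v (Jac (fun i => D i) y) ≤ v (aeval y (Del φ)) * mx v fun l => D i0 (y l) := by
  obtain ⟨ρ, -, hρ, h1⟩ := null_use v φ f hN hK y hy hx ∅ (by simp)
  have hdet := congrArg v (det_id φ a hφ f e hf D hD y hx ρ)
  rw [map_mul, map_mul, h1, one_mul] at hdet
  rw [hdet, mul_comm (v (aeval y (Del φ)))]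
  refine mul_le_mul_left ?_ _
  rw [Matrix.det_apply']
  refine Valuation.map_sum_le v fun π _ => ?_
  have hρ' : ∀ b, ∃ l, ρ b = Sum.inr l := by
    intro b
    rcases hb : ρ b with j | l
    · exact absurd (hρ b j hb) (Finset.notMem_empty j)
    · exact ⟨l, rfl⟩
  choose lb hlb using hρ'
  have hy1 : ∀ l, v (y l) ≤ 1 := fun l => hy ▸ le_mx v y l
  have hsgn : v (((Equiv.Perm.sign π : ℤˣ) : ℤ) : M) = 1 := by
    rcases Int.units_eq_one_or (Equiv.Perm.sign π) with h | h <;> rw [h] <;> simp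
  rw [map_mul, hsgn, one_mul, map_prod, ← Finset.mul_prod_erase _ _ (Finset.mem_univ i0.succ)]
  refine (mul_le_mul' ?_ (Finset.prod_le_one' (N := Γ₀) fun i hi => ?_)).trans_eq (mul_one _)
  · simp only [Matrix.of_apply, hlb, Sum.elim_inr, Fin.cons_succ]
    exact le_mx v (fun l => D i0 (y l)) _
  · have hi' : i ≠ i0.succ := (Finset.mem_erase.1 hi).1
    simp only [Matrix.of_apply, hlb, Sum.elim_inr]
    refine Fin.cases (motive := fun i => i ≠ i0.succ → v ((Fin.cons (y (lb (π i)))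
      (fun i' => D i' (y (lb (π i)))) : Fin (d + 1) → M) i) ≤ 1) ?_ ?_ i hi'
    · intro _
      rw [Fin.cons_zero]
      exact hy1 _
    · intro i' hne
      rw [Fin.cons_succ]
      exact (hlog i' (fun h => hne (by rw [h])) _).trans (hy1 _)

end Pool.Agent.Helper16.UP
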