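import Pool.Agent.Helper16.UP.Defs2

/-!
# Block UP-D6a: the Jacobian criterion

`M` is a field, algebraic over `K(X_1, ..., X_s)`, `K / k` algebraic, characteristic 0; `Db b` are derivations of `M` which extend `X_b ∂ / ∂ X_b` of `K[X_1, ..., X_s]`.

PROOF. Let `y_1, ..., y_d ∈ M` be algebraically independent over `k`. (1) There are derivations `Δ_j` of `M` (over `k`) with `Δ_j (y_i) = δ_ij`: extend `y` to a transcendence basis of `M / k`, take
`∂ / ∂ y_j` on the rational function field and extend it to the algebraic (separable) extension `M`; in Mathlib: `Algebra.FormallySmooth` of `M` over `k(y) = IntermediateField.adjoin k (Set.range y)`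
(characteristic 0; `Mathlib/RingTheory/Smooth/Field.lean`) makes `M ⊗ Ω[k(y)/k] → Ω[M/k]` injective and split (`Mathlib/RingTheory/Smooth/Kaehler.lean`), `Ω[k(y)/k]` is free with basis `d y_j`
(`MvPolynomial` Kaehler basis + localization); or `Algebra.FormallyEtale` (`Etale/Field.lean`) for algebraic extensions and lifting of derivations. (2) Every derivation `Δ` of `M` over `k` is
`∑ b, (Δ X_b / X_b) • Db b`: both vanish on `K` (algebraic over `k`: `P (c) = 0`, `P' (c) Δ c = 0`), they agree on the `X_b`, so on `K[X_1, ..., X_s]`, so on `M` (algebraic, separable: the same argument).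
(3) So `δ_ij = ∑ b, (Δ_j X_b / X_b) * Db b (y_i)`: the `s × d` matrix `(Db b (y_i))` has a left inverse, so rank `d`, so there is an invertible `d × d` submatrix
(`Matrix.exists_submatrix...` or: `d` rows which form a basis of the row space `M ^ d`, `exists_linearIndependent` / `Submodule` span; linear algebra).
An ELEMENTARY alternative for (1), (2): a transcendence basis `y_1, ..., y_d, y_{d+1}, ..., y_s` of `M / k` consisting of the `y_i` and of some of the `X_b` (exchange;
`AlgebraicIndependent` matroid API); every `X_b` is algebraic over `k(y_1, ..., y_s)`, so applying `Db b'` to its minimal equation `∑_i c_{b i} Db b' (y_i) = Db b' (X_b) = δ_{b b'} X_b`: so the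
`s × s` matrix `(Db b' (y_i))` is invertible.
-/

namespace Pool.Agent.Helper16.UP

open Pool.Agent.Helper16.TP (der)

universe u

section JacobiAux19

open Polynomial

/-- A derivation which vanishes on `R` vanishes on the elements which are algebraic over `R`. -/
theorem der_alg19 {R M : Type*} [CommRing R] [Field M] [CharZero M] [Algebra R M]
    (E : Derivation ℤ M M) (hE : ∀ r : R, E (algebraMap R M r) = 0) (x : M) (n : ℕ) :
    ∀ p : R[X], (p.map (algebraMap R M)).natDegree = n → p.map (algebraMap R M) ≠ 0 →
      aeval x p = 0 → E x = 0 := by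
  have hsm : ∀ (r : R) (z : M), E (r • z) = r • E z := by
    intro r z
    rw [Algebra.smul_def, Derivation.leibniz, hE, smul_zero, add_zero, smul_eq_mul,
      Algebra.smul_def]
  let E' : Derivation R M M :=
    Derivation.mk' { toFun := E, map_add' := map_add E, map_smul' := hsm } fun a b => by
      change E (a * b) = a • E b + b • E a
      exact Derivation.leibniz E a b
  have hE' : ∀ z, E' z = E z := fun z => rfl
  induction n using Nat.strong_induction_on with
  | _ n ih =>
    intro p hn h0 hp
    by_cases hn0 : n = 0
    · exfalso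
      subst hn0
      have h1 := eq_C_of_natDegree_eq_zero hn
      have h2 : aeval x p = (p.map (algebraMap R M)).coeff 0 := by
        rw [aeval_def, ← eval_map, h1, eval_C, coeff_C_zero]
      rw [h2] at hp
      rw [hp, map_zero] at h1
      exact h0 h1
    · have h1 : E' (aeval x p) = aeval x (derivative p) • E' x := Derivation.map_aeval E' p x
      rw [hp, map_zero, smul_eq_mul] at h1
      rcases mul_eq_zero.1 h1.symm with h2 | h2
      · have h3 : (derivative (p.map (algebraMap R M))).natDegree = n - 1 := by
          refine natDegree_eq_of_degree_eq_some ?_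
          rw [degree_derivative (by omega), hn]
        refine ih (n - 1) (by omega) (derivative p) ?_ ?_ h2
        · rw [← derivative_map, h3]
        · rw [← derivative_map]
          intro h4
          have h5 := derivative_eq_zero.1 h4
          omega
      · exact h2

/-- Lifting along a square zero extension. -/
theorem lift_aux19 {P M B : Type*} [CommRing P] [CommRing M] [CommRing B] [Algebra P M]
    [Algebra.FormallySmooth P M] (φ : P →+* B) (g : B →+* M) (hg : Function.Surjective g)
    (hk : (RingHom.ker g) ^ 2 = ⊥) (h : ∀ p, g (φ p) = algebraMap P M p) :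
    ∃ f : M →+* B, (∀ x, g (f x) = x) ∧ ∀ p, f (algebraMap P M p) = φ p := by
  let _ := φ.toAlgebra
  let g' : B →ₐ[P] M := { g with commutes' := h }
  let f := Algebra.FormallySmooth.liftOfSurjective (AlgHom.id P M) g' hg ⟨2, hk⟩
  refine ⟨f, fun x => ?_, fun p => ?_⟩
  · exact Algebra.FormallySmooth.liftOfSurjective_apply (AlgHom.id P M) g' hg ⟨2, hk⟩ x
  · exact f.commutes p

/-- Derivations extend to formally smooth algebras. -/
theorem ext_der19 {P M : Type*} [CommRing P] [Field M] [Algebra P M]
    [Algebra.FormallySmooth P M] (D : Derivation ℤ P M) :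
    ∃ D' : Derivation ℤ M M, ∀ p, D' (algebraMap P M p) = D p := by
  let F : P → TrivSqZeroExt M M := fun p =>
    TrivSqZeroExt.inl (algebraMap P M p) + TrivSqZeroExt.inr (D p)
  have F1 : ∀ p, (F p).fst = algebraMap P M p := fun p => by simp [F]
  have F2 : ∀ p, (F p).snd = D p := fun p => by simp [F]
  let φ : P →+* TrivSqZeroExt M M :=
    { toFun := F
      map_one' := by
        ext
        · simp [F1]
        · simp [F2]
      map_zero' := by
        ext
        · simp [F1]
        · simp [F2]
      map_mul' := by
        intro a b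
        ext
        · simp [F1]
        · simp [F1, F2, Algebra.smul_def, mul_comm]
      map_add' := by
        intro a b
        ext
        · simp [F1]
        · simp [F2] }
  obtain ⟨f, hf1, hf2⟩ := lift_aux19 φ (TrivSqZeroExt.fstHom M M M).toRingHom
    (fun x => ⟨TrivSqZeroExt.inl x, rfl⟩) (by
      rw [pow_two, eq_bot_iff, Ideal.mul_le]
      intro a ha b hb
      rw [RingHom.mem_ker] at ha hb
      change a.fst = 0 at ha
      change b.fst = 0 at hb
      rw [Ideal.mem_bot]
      ext
      · simp [ha]
      · simp [ha, hb]) (fun p => F1 p)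
  have hf1' : ∀ x, (f x).fst = x := hf1
  have hadd : ∀ a b, (f (a + b)).snd = (f a).snd + (f b).snd := fun a b => by
    rw [map_add, TrivSqZeroExt.snd_add]
  let g : M →+ M := AddMonoidHom.mk' (fun x => (f x).snd) hadd
  refine ⟨Derivation.mk' g.toIntLinearMap fun a b => ?_, fun p => ?_⟩
  · change (f (a * b)).snd = a • (f b).snd + b • (f a).snd
    rw [map_mul, TrivSqZeroExt.snd_mul, hf1', hf1']
    simp [mul_comm]
  · change (f (algebraMap P M p)).snd = D p
    rw [hf2]
    exact F2 p

theorem smooth_field19 {L M : Type*} [Field L] [Field M] [CharZero L] [Algebra L M] :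
    Algebra.FormallySmooth L M := by
  obtain ⟨s, hs⟩ := exists_isTranscendenceBasis L M
  have h1 : Algebra.IsAlgebraic (IntermediateField.adjoin L (Set.range ((↑) : s → M))) M :=
    hs.isAlgebraic_field
  have h2 : Algebra.IsSeparable (IntermediateField.adjoin L (Set.range ((↑) : s → M))) M :=
    inferInstance
  exact Algebra.FormallySmooth.of_algebraicIndependent_of_isSeparable hs.1

end JacobiAux19

theorem jacobi {k K M : Type u} [Field k] [Field K] [CharZero K] [Algebra k K]
    [Algebra.IsAlgebraic k K] {s d : ℕ} [Field M] [Algebra (AA K s) M] [Algebra k M]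
    [IsScalarTower k (AA K s) M] (hinj : Function.Injective (algebraMap (AA K s) M))
    (halg : Algebra.IsAlgebraic (AA K s) M) (Db : Fin s → Derivation ℤ M M)
    (hDb : ∀ b P, Db b (algebraMap (AA K s) M P) =
      algebraMap (AA K s) M (der (Pi.single b 1) P)) (y : Fin d → M)
    (hy : AlgebraicIndependent k y) :
    ∃ β : Fin d → Fin s, Matrix.det (Matrix.of fun i j : Fin d => Db (β i) (y j)) ≠ 0 := by
  classical
  have hKM : Function.Injective ((algebraMap (AA K s) M).comp MvPolynomial.C) :=
    hinj.comp (MvPolynomial.C_injective _ _)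
  have hchM : CharZero M := charZero_of_injective_ringHom hKM
  -- the derivations `Δ j`
  have hder : ∀ j : Fin d, ∃ Δ : Derivation ℤ M M, (∀ c : k, Δ (algebraMap k M c) = 0) ∧
      ∀ i, Δ (y i) = if i = j then 1 else 0 := by
    intro j
    let _ : Algebra (MvPolynomial (Fin d) k) M := (MvPolynomial.aeval y).toAlgebra
    have hal : ∀ p, algebraMap (MvPolynomial (Fin d) k) M p = MvPolynomial.aeval y p :=
      fun p => rfl
    have hinj' : Function.Injective (algebraMap (MvPolynomial (Fin d) k) M) := hy
    have hfs : FaithfulSMul (MvPolynomial (Fin d) k) M :=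
      (faithfulSMul_iff_algebraMap_injective _ _).2 hinj'
    let _ : Algebra (FractionRing (MvPolynomial (Fin d) k)) M :=
      FractionRing.liftAlgebra (MvPolynomial (Fin d) k) M
    have hchL : CharZero (FractionRing (MvPolynomial (Fin d) k)) :=
      RingHom.charZero (algebraMap (FractionRing (MvPolynomial (Fin d) k)) M)
    have hs1 : Algebra.FormallySmooth (MvPolynomial (Fin d) k)
        (FractionRing (MvPolynomial (Fin d) k)) :=
      Algebra.FormallySmooth.of_isLocalization (nonZeroDivisors (MvPolynomial (Fin d) k))
    have hs2 : Algebra.FormallySmooth (FractionRing (MvPolynomial (Fin d) k)) M :=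
      smooth_field19
    have hs3 : Algebra.FormallySmooth (MvPolynomial (Fin d) k) M :=
      Algebra.FormallySmooth.comp _ (FractionRing (MvPolynomial (Fin d) k)) _
    let D0 : Derivation k (MvPolynomial (Fin d) k) (MvPolynomial (Fin d) k) :=
      MvPolynomial.pderiv j
    let D1 : MvPolynomial (Fin d) k →+ M :=
      (MvPolynomial.aeval y).toRingHom.toAddMonoidHom.comp D0.toLinearMap.toAddMonoidHom
    have hD1 : ∀ p, D1 p = MvPolynomial.aeval y (MvPolynomial.pderiv j p) := fun p => rfl
    let D2 : Derivation ℤ (MvPolynomial (Fin d) k) M :=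
      Derivation.mk' D1.toIntLinearMap fun a b => by
        change D1 (a * b) = a • D1 b + b • D1 a
        rw [hD1, hD1, hD1, Derivation.leibniz, map_add, smul_eq_mul, smul_eq_mul, map_mul,
          map_mul, Algebra.smul_def, Algebra.smul_def, hal, hal]
    obtain ⟨Δ, hΔ⟩ := ext_der19 D2
    have hΔ' : ∀ p, Δ (MvPolynomial.aeval y p) = MvPolynomial.aeval y (MvPolynomial.pderiv j p) :=
      fun p => hΔ p
    refine ⟨Δ, fun c => ?_, fun i => ?_⟩
    · have h1 := hΔ' (MvPolynomial.C c)
      rw [MvPolynomial.aeval_C, MvPolynomial.pderiv_C, map_zero] at h1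
      exact h1
    · have h1 := hΔ' (MvPolynomial.X i)
      rw [MvPolynomial.aeval_X, MvPolynomial.pderiv_X] at h1
      rw [h1]
      by_cases hij : i = j
      · subst hij
        simp
      · simp [hij]
  choose Δ hΔk hΔy using hder
  -- every derivation over `k` is a combination of the `Db b`
  have hXne : ∀ b : Fin s, algebraMap (AA K s) M (MvPolynomial.X b) ≠ 0 := fun b h =>
    MvPolynomial.X_ne_zero b (hinj (h.trans (map_zero _).symm))
  have hcomb : ∀ (E : Derivation ℤ M M), (∀ c : k, E (algebraMap k M c) = 0) → ∀ z,
      E z = ∑ b, (E (algebraMap (AA K s) M (MvPolynomial.X b)) /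
        algebraMap (AA K s) M (MvPolynomial.X b)) * Db b z := by
    intro E hE z
    let G : Derivation ℤ M M := E - ∑ b, (E (algebraMap (AA K s) M (MvPolynomial.X b)) /
        algebraMap (AA K s) M (MvPolynomial.X b)) • Db b
    have hG : ∀ z, G z = E z - ∑ b, (E (algebraMap (AA K s) M (MvPolynomial.X b)) /
        algebraMap (AA K s) M (MvPolynomial.X b)) * Db b z := by
      intro z
      simp only [G, Derivation.sub_apply]
      congr 1
      rw [← Derivation.coeFnAddMonoidHom_apply, map_sum, Finset.sum_apply]
      rfl
    suffices h : G z = 0 by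
      rw [hG] at h
      exact sub_eq_zero.1 h
    have hdC : ∀ b (c : K), der (Pi.single b (1 : K)) (MvPolynomial.C c : AA K s) = 0 :=
      fun b c => by
        unfold der
        exact MvPolynomial.derivation_C _ _
    have hk0 : ∀ c : k, G (algebraMap k M c) = 0 := by
      intro c
      rw [hG, hE, zero_sub, neg_eq_zero]
      refine Finset.sum_eq_zero fun b _ => ?_
      rw [IsScalarTower.algebraMap_apply k (AA K s) M, hDb]
      have : algebraMap k (AA K s) c = MvPolynomial.C (algebraMap k K c) := rfl
      rw [this, hdC, map_zero, mul_zero]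
    have hK0 : ∀ c : K, G (algebraMap (AA K s) M (MvPolynomial.C c)) = 0 := by
      intro c
      have h1 : algebraMap k M = ((algebraMap (AA K s) M).comp MvPolynomial.C).comp
          (algebraMap k K) := by
        rw [RingHom.comp_assoc]
        exact IsScalarTower.algebraMap_eq k (AA K s) M
      refine der_alg19 G hk0 (algebraMap (AA K s) M (MvPolynomial.C c)) _
        (minpoly k c) rfl ?_ ?_
      · rw [Polynomial.map_ne_zero_iff (algebraMap k M).injective]
        exact minpoly.ne_zero (Algebra.IsIntegral.isIntegral c)
      · rw [Polynomial.aeval_def, h1]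
        change Polynomial.eval₂ _ (((algebraMap (AA K s) M).comp MvPolynomial.C) c) _ = 0
        rw [← Polynomial.hom_eval₂, ← Polynomial.aeval_def, minpoly.aeval, map_zero]
    have hX0 : ∀ b, G (algebraMap (AA K s) M (MvPolynomial.X b)) = 0 := by
      intro b
      rw [hG, Finset.sum_eq_single b]
      · rw [hDb]
        unfold der
        rw [MvPolynomial.mkDerivation_X, Pi.single_eq_same, map_one, one_mul, div_mul_cancel₀ _ (hXne b),
          sub_self]
      · intro c _ hc
        rw [hDb]
        unfold der
        rw [MvPolynomial.mkDerivation_X, Pi.single_eq_of_ne hc.symm, map_zero, zero_mul, map_zero, mul_zero]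
      · exact fun h => absurd (Finset.mem_univ _) h
    have hA0 : ∀ p : AA K s, G (algebraMap (AA K s) M p) = 0 := by
      intro p
      induction p using MvPolynomial.induction_on with
      | C c => exact hK0 c
      | add p q hp hq => rw [map_add, map_add, hp, hq, add_zero]
      | mul_X p b hp => rw [map_mul, Derivation.leibniz, hp, hX0, smul_zero, smul_zero, add_zero]
    obtain ⟨p, hp0, hp⟩ := halg.isAlgebraic z
    refine der_alg19 G hA0 z _ p rfl ?_ hp
    rwa [Polynomial.map_ne_zero_iff hinj]
  -- linear algebra
  by_contra hcon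
  push Not at hcon
  have hdet : Matrix.det (Matrix.of fun i j : Fin d => Δ i (y j)) = 1 := by
    have : (Matrix.of fun i j : Fin d => Δ i (y j)) = 1 := by
      ext i j
      rw [Matrix.of_apply, hΔy, Matrix.one_apply]
      simp only [eq_comm]
    rw [this, Matrix.det_one]
  have hrow : (Matrix.of fun i j : Fin d => Δ i (y j)) = fun i => ∑ b : Fin s,
      (Δ i (algebraMap (AA K s) M (MvPolynomial.X b)) /
        algebraMap (AA K s) M (MvPolynomial.X b)) • fun j => Db b (y j) := by
    ext i j
    rw [Matrix.of_apply, hcomb (Δ i) (hΔk i) (y j), Finset.sum_apply]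
    rfl
  have hml := (Matrix.detRowAlternating (n := Fin d) (R := M)).toMultilinearMap.map_sum
    (fun i (b : Fin s) => (Δ i (algebraMap (AA K s) M (MvPolynomial.X b)) /
        algebraMap (AA K s) M (MvPolynomial.X b)) • fun j => Db b (y j))
  have h0 : Matrix.det (Matrix.of fun i j : Fin d => Δ i (y j)) = 0 := by
    rw [hrow]
    refine hml.trans (Finset.sum_eq_zero fun β _ => ?_)
    rw [MultilinearMap.map_smul_univ]
    refine smul_eq_zero_of_right _ (hcon β)
  rw [h0] at hdet
  exact zero_ne_one hdet

end Pool.Agent.Helper16.UP
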