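import Pool.Agent.Helper16.UP.RootDer
import Pool.Agent.Helper16.UP.JacLoc
import Pool.Agent.Helper16.UP.ThetaVal

/-!
# Block UP-V9: all derivations but one logarithmic (one point, final form)

PROOF. `exists_gen` for the `x σ` gives `u0` with `ℓ0(x) = ∑ u0 j * x j`, `v (ℓ0 (x σ)) = mx v (x σ) ≠ 0` (`x σ o = 1`). `y σ = x σ / ℓ0 (x σ)`, `D_στ = mx v (y σ - y τ)`, `∂ = D i0`.
(1) `jac_loc` at `y σ`: `v (Jac (y σ)) ≤ v (Del (y σ)) * mx v (∂ y σ)`. (2) `root_der`: `mx v (∂ y σ) * (v a0 * ∏ τ mx v (x τ)) * ∏_{τ ≠ σ} D_στ ≤ 1`.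
(3) `z σ - z τ = ℓ0 (x σ) ℓ0 (x τ) * (c·(y σ - y τ) * y τ o - c·(y τ) * (y σ o - y τ o))` because `x σ o = 1 = ℓ0 (x σ) * y σ o`, so `v (z σ - z τ) ≤ mx (x σ) * mx (x τ) * D_στ`;
`P'(z σ) = a0 ∏_{τ ≠ σ} (z σ - z τ)` (`eval_der`). Hence `v (P'(z σ)) * mx (x σ) ≤ v a0 * (∏_τ mx (x τ)) * (∏_{τ ≠ σ} D_στ) * mx (x σ) ^ (r - 1)`.
(4) Scaling (`jac_smul`, `Del_hom`): `v (Jac (x σ)) * mx (x σ) ^ S ≤ mx (x σ) ^ (d + 1 + m) * v (Del (x σ)) * mx v (∂ y σ)`, `S = ∑ a i` (`∑ (a i - 1) + m = S`).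
Multiply (3) and (4) and use (2): exponent of `mx (x σ)` on the right: `d + 1 + m + (r - 1) = d + m + r`.
-/

namespace Pool.Agent.Helper16.UP

open MvPolynomial (aeval)

variable {d m : ℕ} {K M : Type*} [Field K] [Field M] [Algebra K M] {Γ₀ : Type*}
  [LinearOrderedCommGroupWithZero Γ₀] (v : Valuation M Γ₀)

omit [LinearOrderedCommGroupWithZero Γ₀] in
private theorem h93_hom {κ : Type*} [Fintype κ] {F : MvPolynomial κ K} {n : ℕ} (hF : F.IsHomogeneous n) (t : M) (y : κ → M) :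
    aeval (fun j => t * y j) F = t ^ n * aeval y F := by
  rw [MvPolynomial.aeval_def, MvPolynomial.aeval_def, MvPolynomial.eval₂_eq', MvPolynomial.eval₂_eq', Finset.mul_sum]
  refine Finset.sum_congr rfl fun s hs => ?_
  have h1 : Finsupp.weight 1 s = n := hF (MvPolynomial.mem_support_iff.1 hs)
  have h2 : ∑ i, s i = n := by
    rw [← Finsupp.degree_eq_sum, Finsupp.degree_eq_weight_one]
    exact h1
  have h3 : ∏ i, (t * y i) ^ s i = t ^ n * ∏ i, y i ^ s i := by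
    rw [← h2, ← Finset.prod_pow_eq_pow_sum, ← Finset.prod_mul_distrib]
    exact Finset.prod_congr rfl fun i _ => mul_pow _ _ _
  rw [h3]
  ring

theorem loc {ι : Type*} (φ : Fin m → MvPolynomial (Fin (d + 1) ⊕ Fin m) K) (a : Fin m → ℕ)
    (ha : ∀ i, 1 ≤ a i)
    (hφ : ∀ i, (φ i).IsHomogeneous (a i)) (f : ι → MvPolynomial (Fin (d + 1) ⊕ Fin m) K)
    (e : ι → ℕ) (hf : ∀ j, (f j).IsHomogeneous (e j)) (hN : Null φ f)
    (hn : ∀ n : ℕ, n ≠ 0 → v (n : M) = 1)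
    (hK : ∀ c : K, c ≠ 0 → v (algebraMap K M c) = 1) (D : Fin d → Derivation ℤ M M)
    (hD : ∀ i (c : K), D i (algebraMap K M c) = 0) (i0 : Fin d)
    (hlog : ∀ i, i ≠ i0 → ∀ z, v (D i z) ≤ v z)
    {r : ℕ} (a0 : M) (x : Fin r → Fin (d + 1) ⊕ Fin m → M)
    (hx1 : ∀ σ, x σ (o0 d m) = 1) (hx : ∀ σ i, aeval (x σ) (φ i) = 0)
    (hF : ∀ γ, v (D i0 ((MvPolynomial.C a0 * ∏ σ, lf (x σ)).coeff γ)) ≤ 1)
    (c : Fin (d + 1) ⊕ Fin m → M) (hc : ∀ j, v (c j) ≤ 1) (σ : Fin r) :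
    v (Jac (fun i => D i) (x σ)) *
        v ((Polynomial.derivative (pen (o0 d m) c (MvPolynomial.C a0 * ∏ σ, lf (x σ)))).eval
          (∑ j, c j * x σ j)) * mx v (x σ) ^ (∑ i, a i + 1) ≤
      v (aeval (x σ) (Del φ)) * mx v (x σ) ^ (d + m + r) := by
  classical
  set μ : Fin r → Γ₀ := fun τ => mx v (x τ) with hμ
  have hμ0 : ∀ τ, μ τ ≠ 0 := fun τ => mx_ne_zero v (x τ) (o0 d m) (by rw [hx1]; exact one_ne_zero)
  obtain ⟨u0, hu0⟩ := exists_gen v hn (β := Fin r) x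
  set L0 : Fin r → M := fun τ => ∑ j, (u0 j : M) * x τ j with hL0
  have hL0v : ∀ τ, v (L0 τ) = μ τ := hu0
  have hL0ne : ∀ τ, L0 τ ≠ 0 := fun τ h => hμ0 τ (by rw [← hL0v, h, map_zero])
  set y : Fin r → Fin (d + 1) ⊕ Fin m → M := fun τ j => x τ j / L0 τ with hy
  have hxy : ∀ τ j, x τ j = L0 τ * y τ j := by
    intro τ j
    rw [hy]
    simp only
    rw [mul_div_cancel₀ _ (hL0ne τ)]
  have hy1 : ∀ τ, mx v (y τ) = 1 := by
    intro τ
    have h1 : y τ = fun j => (L0 τ)⁻¹ * x τ j := by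
      funext j
      rw [hy]
      simp only
      rw [div_eq_inv_mul]
    rw [h1, mx_smul, map_inv₀, hL0v]
    exact inv_mul_cancel₀ (hμ0 τ)
  have hyle : ∀ τ j, v (y τ j) ≤ 1 := fun τ j => (le_mx v (y τ) j).trans (hy1 τ).le
  -- zeros of `φ`
  have hyφ : ∀ τ i, aeval (y τ) (φ i) = 0 := by
    intro τ i
    have h1 := hx τ i
    have h2 : x τ = fun j => L0 τ * y τ j := funext (hxy τ)
    rw [h2, h93_hom (hφ i)] at h1
    rcases mul_eq_zero.1 h1 with h | h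
    · exact absurd h (pow_ne_zero _ (hL0ne τ))
    · exact h
  -- (1)
  set E : Γ₀ := mx v fun l => D i0 (y σ l) with hE
  have H1 : v (Jac (fun i => D i) (y σ)) ≤ v (aeval (y σ) (Del φ)) * E :=
    jac_loc v φ a hφ f e hf hN hK D hD i0 hlog (y σ) (hy1 σ) (hyφ σ)
  -- (2)
  set δ : Fin r → Γ₀ := fun τ => mx v (fun j => y σ j - y τ j) with hδ
  have H2 : E * (v a0 * ∏ τ, μ τ) * ∏ τ ∈ Finset.univ.erase σ, δ τ ≤ 1 :=
    root_der v hn a0 x (fun τ => ⟨o0 d m, by rw [hx1]; exact one_ne_zero⟩) (D i0) hF u0 hu0 σ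
  -- (3)
  have H3 : v ((Polynomial.derivative (pen (o0 d m) c (MvPolynomial.C a0 * ∏ σ, lf (x σ)))).eval
      (∑ j, c j * x σ j)) ≤ v a0 * ∏ τ ∈ Finset.univ.erase σ, (μ σ * μ τ * δ τ) := by
    rw [eval_der (o0 d m) c a0 x hx1 σ, map_mul, map_prod]
    refine mul_le_mul' le_rfl (Finset.prod_le_prod' fun τ _ => ?_)
    rw [← Finset.sum_sub_distrib]
    apply Valuation.map_sum_le
    intro j _
    have h1 : c j * x σ j - c j * x τ j = c j * (L0 σ * L0 τ * ((y σ j - y τ j) * y τ (o0 d m) - y τ j * (y σ (o0 d m) - y τ (o0 d m)))) := by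
      have e1 : L0 σ * y σ (o0 d m) = 1 := by rw [← hxy, hx1]
      have e2 : L0 τ * y τ (o0 d m) = 1 := by rw [← hxy, hx1]
      rw [hxy σ j, hxy τ j]
      have e3 : L0 σ * L0 τ * ((y σ j - y τ j) * y τ (o0 d m) - y τ j * (y σ (o0 d m) - y τ (o0 d m))) =
          L0 σ * y σ j * (L0 τ * y τ (o0 d m)) - L0 τ * y τ j * (L0 σ * y σ (o0 d m)) := by ring
      rw [e3, e1, e2]
      ring
    rw [h1, map_mul, map_mul, map_mul, hL0v, hL0v]
    have h2 : v ((y σ j - y τ j) * y τ (o0 d m) - y τ j * (y σ (o0 d m) - y τ (o0 d m))) ≤ δ τ := by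
      refine (Valuation.map_sub _ _ _).trans (max_le ?_ ?_)
      · rw [map_mul]
        exact (mul_le_mul' (le_mx v (fun j => y σ j - y τ j) j) (hyle τ _)).trans (by rw [mul_one])
      · rw [map_mul]
        exact (mul_le_mul' (hyle τ j) (le_mx v (fun j => y σ j - y τ j) (o0 d m))).trans (by rw [one_mul])
    calc v (c j) * (μ σ * μ τ * v ((y σ j - y τ j) * y τ (o0 d m) - y τ j * (y σ (o0 d m) - y τ (o0 d m)))) ≤
          1 * (μ σ * μ τ * δ τ) := mul_le_mul' (hc j) (mul_le_mul' le_rfl h2)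
      _ = μ σ * μ τ * δ τ := one_mul _
  have hr : 1 ≤ r := by
    have := σ.2
    omega
  have hprod : ∏ τ ∈ Finset.univ.erase σ, (μ σ * μ τ * δ τ) =
      μ σ ^ (r - 1) * (∏ τ ∈ Finset.univ.erase σ, μ τ) * ∏ τ ∈ Finset.univ.erase σ, δ τ := by
    rw [Finset.prod_mul_distrib, Finset.prod_mul_distrib, Finset.prod_const, Finset.card_erase_of_mem (Finset.mem_univ σ),
      Finset.card_univ, Fintype.card_fin]
  rw [hprod] at H3
  -- (4)
  have hxσ : x σ = fun j => L0 σ * y σ j := funext (hxy σ)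
  have H4 : v (Jac (fun i => D i) (x σ)) = μ σ ^ (d + 1) * v (Jac (fun i => D i) (y σ)) := by
    rw [hxσ, jac_smul, map_mul, map_pow, hL0v]
  have H5 : v (aeval (x σ) (Del φ)) = μ σ ^ (∑ i, (a i - 1)) * v (aeval (y σ) (Del φ)) := by
    rw [hxσ, h93_hom (Del_hom φ a hφ), map_mul, map_pow, hL0v]
  have hS : ∑ i, a i = ∑ i, (a i - 1) + m := by
    have h1 : ∑ i, a i = ∑ i : Fin m, ((a i - 1) + 1) := by
      refine Finset.sum_congr rfl fun i _ => ?_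
      have := ha i
      omega
    rw [h1, Finset.sum_add_distrib]
    simp
  have hμ' : ∏ τ, μ τ = μ σ * ∏ τ ∈ Finset.univ.erase σ, μ τ := (Finset.mul_prod_erase Finset.univ _ (Finset.mem_univ σ)).symm
  rw [hμ'] at H2
  rw [H4, H5, hS]
  set P1 := ∏ τ ∈ Finset.univ.erase σ, μ τ with hP1
  set P2 := ∏ τ ∈ Finset.univ.erase σ, δ τ with hP2
  set S := ∑ i, (a i - 1) with hSdef
  change μ σ ^ (d + 1) * v (Jac (fun i => D i) (y σ)) * _ * μ σ ^ (S + m + 1) ≤ _ * μ σ ^ (d + m + r)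
  calc μ σ ^ (d + 1) * v (Jac (fun i => D i) (y σ)) *
        v ((Polynomial.derivative (pen (o0 d m) c (MvPolynomial.C a0 * ∏ σ, lf (x σ)))).eval (∑ j, c j * x σ j)) * μ σ ^ (S + m + 1) ≤
        μ σ ^ (d + 1) * (v (aeval (y σ) (Del φ)) * E) * (v a0 * (μ σ ^ (r - 1) * P1 * P2)) * μ σ ^ (S + m + 1) :=
        mul_le_mul' (mul_le_mul' (mul_le_mul' le_rfl H1) H3) le_rfl
    _ = (μ σ ^ S * v (aeval (y σ) (Del φ))) * (μ σ ^ (d + 1) * μ σ ^ (r - 1) * μ σ ^ m) * (E * (v a0 * (μ σ * P1)) * P2) := by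
        rw [pow_add (μ σ) (S + m) 1, pow_add (μ σ) S m, pow_one]
        ac_rfl
    _ ≤ (μ σ ^ S * v (aeval (y σ) (Del φ))) * (μ σ ^ (d + 1) * μ σ ^ (r - 1) * μ σ ^ m) * 1 := mul_le_mul' le_rfl H2
    _ = μ σ ^ S * v (aeval (y σ) (Del φ)) * μ σ ^ (d + m + r) := by
        rw [mul_one, ← pow_add, ← pow_add]
        congr 2
        omega

end Pool.Agent.Helper16.UP
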