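import Pool.Agent.Helper16.UP.Loc

/-!
# Block UP-V10: all derivations but one logarithmic (the form)

PROOF. Product of `loc` over `σ`, `μ = ∏ mx v (x σ)`, `v a0 * μ = 1`, `S = ∑ a`: `v (∏ Jac) * v (∏ P'(z σ)) * μ ^ (S + 1) ≤ v (∏ Del) * μ ^ (d + m + r)`. Multiply by
`v a0 ^ (S + 1 + d + m + r)`: `v (∏ Jac) * v (∏ P'(z σ)) * v a0 ^ (d + m + r) ≤ v (∏ Del) * v a0 ^ (S + 1)`; `rdp = a0 ^ (r - 1) ∏ P'(z σ)` (`rdp_eq`),
`d + m + r = (d + 1 + m) + (r - 1)`.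
-/

namespace Pool.Agent.Helper16.UP

open MvPolynomial (aeval)

variable {d m : ℕ} {K M : Type*} [Field K] [Field M] [Algebra K M] {Γ₀ : Type*}
  [LinearOrderedCommGroupWithZero Γ₀] (v : Valuation M Γ₀)

theorem locM {ι : Type*} (φ : Fin m → MvPolynomial (Fin (d + 1) ⊕ Fin m) K) (a : Fin m → ℕ)
    (ha : ∀ i, 1 ≤ a i)
    (hφ : ∀ i, (φ i).IsHomogeneous (a i)) (f : ι → MvPolynomial (Fin (d + 1) ⊕ Fin m) K)
    (e : ι → ℕ) (hf : ∀ j, (f j).IsHomogeneous (e j)) (hN : Null φ f)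
    (hn : ∀ n : ℕ, n ≠ 0 → v (n : M) = 1)
    (hK : ∀ c : K, c ≠ 0 → v (algebraMap K M c) = 1) (D : Fin d → Derivation ℤ M M)
    (hD : ∀ i (c : K), D i (algebraMap K M c) = 0) (i0 : Fin d)
    (hlog : ∀ i, i ≠ i0 → ∀ z, v (D i z) ≤ v z)
    {r : ℕ} (hr : 1 ≤ r) (a0 : M) (x : Fin r → Fin (d + 1) ⊕ Fin m → M)
    (hx1 : ∀ σ, x σ (o0 d m) = 1) (hx : ∀ σ i, aeval (x σ) (φ i) = 0)
    (hF : ∀ γ, v (D i0 ((MvPolynomial.C a0 * ∏ σ, lf (x σ)).coeff γ)) ≤ 1)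
    (h1 : v a0 * ∏ σ, mx v (x σ) = 1)
    (c : Fin (d + 1) ⊕ Fin m → M) (hc : ∀ j, v (c j) ≤ 1) :
    v (a0 ^ (d + 1 + m) * rdp r (o0 d m) c (MvPolynomial.C a0 * ∏ σ, lf (x σ)) *
        ∏ σ, Jac (fun i => D i) (x σ)) ≤
      v (a0 ^ (∑ i, a i + 1) * ∏ σ, aeval (x σ) (Del φ)) := by
  have ha0 : a0 ≠ 0 := by
    rintro rfl
    rw [map_zero, zero_mul] at h1
    exact zero_ne_one h1
  set S : ℕ := ∑ i, a i + 1 with hS
  set μ : Γ₀ := ∏ σ, mx v (x σ) with hμ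
  set F : MvPolynomial (Fin (d + 1) ⊕ Fin m) M := MvPolynomial.C a0 * ∏ σ, lf (x σ) with hFdef
  set J : Γ₀ := ∏ σ, v (Jac (fun i => D i) (x σ)) with hJ
  set P : Γ₀ := ∏ σ, v ((Polynomial.derivative (pen (o0 d m) c F)).eval (∑ j, c j * x σ j)) with hP
  set E : Γ₀ := ∏ σ, v (aeval (x σ) (Del φ)) with hE
  have key : J * P * μ ^ S ≤ E * μ ^ (d + m + r) := by
    have h2 : ∏ σ, (v (Jac (fun i => D i) (x σ)) *
        v ((Polynomial.derivative (pen (o0 d m) c F)).eval (∑ j, c j * x σ j)) * mx v (x σ) ^ S) ≤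
        ∏ σ, (v (aeval (x σ) (Del φ)) * mx v (x σ) ^ (d + m + r)) :=
      Finset.prod_le_prod' fun σ _ => loc v φ a ha hφ f e hf hN hn hK D hD i0 hlog a0 x hx1 hx hF c hc σ
    rw [Finset.prod_mul_distrib, Finset.prod_mul_distrib, Finset.prod_mul_distrib, Finset.prod_pow,
      Finset.prod_pow] at h2
    exact h2
  rw [map_mul, map_mul, map_mul, map_pow, map_pow, map_prod, map_prod,
    rdp_eq (o0 d m) c hr a0 ha0 x hx1, map_mul, map_pow, map_prod]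
  have e1 : v a0 ^ (d + 1 + m) * (v a0 ^ (r - 1) * P) * J = (J * P * μ ^ S) * v a0 ^ (d + m + r + S) := by
    have h2 : v a0 ^ (d + 1 + m) * v a0 ^ (r - 1) = v a0 ^ (d + m + r) := by
      rw [← pow_add]
      congr 1
      omega
    calc v a0 ^ (d + 1 + m) * (v a0 ^ (r - 1) * P) * J = (v a0 ^ (d + 1 + m) * v a0 ^ (r - 1)) * (J * P) := by
          rw [← mul_assoc, mul_assoc (v a0 ^ (d + 1 + m) * v a0 ^ (r - 1)), mul_comm P J]
      _ = v a0 ^ (d + m + r) * (J * P) := by rw [h2]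
      _ = (J * P) * v a0 ^ (d + m + r) * (v a0 * μ) ^ S := by rw [h1, one_pow, mul_one, mul_comm]
      _ = (J * P * μ ^ S) * v a0 ^ (d + m + r + S) := by
          generalize d + m + r = q
          rw [mul_pow, pow_add (v a0) q S]
          ac_rfl
  have e2 : (E * μ ^ (d + m + r)) * v a0 ^ (d + m + r + S) = v a0 ^ S * E := by
    calc (E * μ ^ (d + m + r)) * v a0 ^ (d + m + r + S) = (v a0 ^ S * E) * (v a0 * μ) ^ (d + m + r) := by
          generalize d + m + r = q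
          rw [mul_pow, pow_add (v a0) q S, mul_comm (v a0 ^ S) E, mul_mul_mul_comm E (v a0 ^ S) (v a0 ^ q) (μ ^ q),
            mul_comm (v a0 ^ S) (μ ^ q), mul_mul_mul_comm E (v a0 ^ q) (μ ^ q) (v a0 ^ S)]
      _ = v a0 ^ S * E := by rw [h1, one_pow, mul_one]
  rw [e1, ← e2]
  exact mul_le_mul' key le_rfl

end Pool.Agent.Helper16.UP
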