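import Pool.Agent.Helper16.UP.Chow
import Pool.Agent.Helper52.Vojta.NormLocal
import Pool.Agent.Helper52.Vojta.BaseChange

/-!
# Block UP-F2: upper bound for the Chow form at a place

PROOF. `F = chow k y` has degree `≤ r` in each variable, so (Lagrange interpolation in each variable at `0, ..., r`; e.g. by induction on the number of variables, or: the linear map which sends the polynomials
with exponents `≤ r` to their values on the grid `{0..r}^κ` is injective over `ℚ`, so it has a left inverse with rational coefficients) there are rational numbers `β γ u` (depending on `κ`, `r` only) with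
`F.coeff γ = ∑ u, β γ u * F(u)`, `u` in the grid. `F(u) = norm (∑ u_j y_j)` (`eval_chow`), `nv ν (norm z) = ∏ w ∈ above L ν, nv w z` (`nv_norm`, Helper52/Vojta/NormLocal.lean), and
`nv w (∑ u_j y_j) ≤ c_ν * vn w y` (`nv_sum_le` in Helper64/Vojta/Places.lean; ultrametric at finite places; integers have `nv w ≤ 1` at finite places; at infinite places `nv w (n) = n ^ mult`).
`C ν = log` of the constants: for a finite `ν` only `max |β γ u|_ν` enters, which is `≤ 1` for almost all `ν`. `card (above L ν) ≤ finrank` (`card_above_le`).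
-/

namespace Pool.Agent.Helper16.UP

open NumberField Finset
open Pool.Agent.Helper64.Vojta (Pl nv sn above)
open Pool.Agent.V2 (vn vH pn pH gsum FinS)

universe u

open Pool.Agent.Helper64.Vojta (nv_nonneg nv_mul nv_one nv_zero nv_pos nv_sum_le nv_sum_le_inr
  nv_sum_le_inl card_above_le mem_above Above)

private theorem interp_h12 {k : Type*} [Field k] [CharZero k] {κ : Type*} [Fintype κ] (r : ℕ)
    (γ : κ →₀ ℕ) : ∃ c : (κ → ℕ) →₀ k, ∀ F : MvPolynomial κ k, F.IsHomogeneous r →
      F.coeff γ = c.sum fun u a => a * MvPolynomial.eval (fun j => (u j : k)) F := by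
  classical
  let V : Submodule k (MvPolynomial κ k) := MvPolynomial.homogeneousSubmodule κ k r
  have hfd : FiniteDimensional k V :=
    Module.Finite.iff_fg.mpr (MvPolynomial.homogeneousSubmodule_fg κ k r)
  let ev : (κ → ℕ) → Module.Dual k V := fun u =>
    (MvPolynomial.aeval (fun j => (u j : k)) : MvPolynomial κ k →ₐ[k] k).toLinearMap ∘ₗ V.subtype
  have hev : ∀ (u : κ → ℕ) (x : V), ev u x = MvPolynomial.eval (fun j => (u j : k)) x.1 := by
    intro u x
    rfl
  let W : Submodule k (Module.Dual k V) := Submodule.span k (Set.range ev)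
  have hW : W.dualCoannihilator = ⊥ := by
    rw [Submodule.eq_bot_iff]
    intro x hx
    rw [Submodule.mem_dualCoannihilator] at hx
    apply Subtype.ext
    refine MvPolynomial.funext_set (fun _ => Set.range ((↑) : ℕ → k))
      (fun _ => Set.infinite_range_of_injective Nat.cast_injective) ?_
    intro z hz
    have hz' : ∀ j, ∃ n : ℕ, (n : k) = z j := fun j => hz j (Set.mem_univ j)
    choose u hu using hz'
    have h1 := hx (ev u) (Submodule.subset_span ⟨u, rfl⟩)
    rw [hev] at h1
    have h2 : (fun j => (u j : k)) = z := funext hu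
    rw [h2] at h1
    rw [h1]
    simp
  have hW2 : W = ⊤ := by
    rw [← Subspace.dualCoannihilator_dualAnnihilator_eq (W := W), hW,
      Submodule.dualAnnihilator_bot]
  let co : MvPolynomial κ k →ₗ[k] k :=
    { toFun := fun F => F.coeff γ
      map_add' := fun a b => MvPolynomial.coeff_add γ a b
      map_smul' := fun a b => MvPolynomial.coeff_smul γ a b }
  have hco : (co ∘ₗ V.subtype : Module.Dual k V) ∈ W := by rw [hW2]; trivial
  rw [Finsupp.mem_span_range_iff_exists_finsupp] at hco
  obtain ⟨c, hc⟩ := hco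
  refine ⟨c, fun F hF => ?_⟩
  have h2 := congrArg (fun φ : Module.Dual k V => φ ⟨F, hF⟩) hc
  have h3 : (co ∘ₗ V.subtype : Module.Dual k V) ⟨F, hF⟩ = F.coeff γ := rfl
  simp only [h3, Finsupp.sum, LinearMap.sum_apply, LinearMap.smul_apply, hev, smul_eq_mul] at h2
  rw [← h2, Finsupp.sum]

private noncomputable def tt_h12 {K : Type*} [Field K] [NumberField K] (N : ℝ) : Pl K → ℝ
  | .inl _ => N
  | .inr _ => 1

section

variable {K : Type*} [Field K] [NumberField K]

private theorem tt_one_le_h12 {N : ℝ} (hN : 1 ≤ N) (w : Pl K) : 1 ≤ tt_h12 N w := by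
  rcases w with w | w
  · exact hN
  · exact le_refl _

private theorem tt_mono_h12 {N M : ℝ} (h : N ≤ M) (w : Pl K) : tt_h12 N w ≤ tt_h12 M w := by
  rcases w with w | w
  · exact h
  · exact le_refl _

private theorem tt_mul_h12 (N M : ℝ) (w : Pl K) : tt_h12 N w * tt_h12 M w = tt_h12 (N * M) w := by
  rcases w with w | w
  · rfl
  · exact one_mul _

private theorem finS_log_tt_h12 (N : ℝ) : FinS (fun w : Pl K => Real.log (tt_h12 N w)) := by
  have h : (Function.support fun v : FinitePlace K => Real.log (tt_h12 N (.inr v : Pl K))) = ∅ := by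
    ext v
    simp [tt_h12]
  unfold FinS
  rw [h]
  exact Set.finite_empty

private theorem nv_comb_h12 (w : Pl K) {α : Type*} (s : Finset α) (f : α → K) (B : ℝ) (hB : 0 ≤ B)
    (h : ∀ i ∈ s, nv w (f i) ≤ B) : nv w (∑ i ∈ s, f i) ≤ tt_h12 ((s.card + 1 : ℝ) ^ 2) w * B := by
  rcases w with w | w
  · exact nv_sum_le_inl w s f B hB h
  · exact (nv_sum_le_inr w s f B hB h).trans_eq (one_mul B).symm

private theorem nv_nat_h12 (w : Pl K) (n : ℕ) : nv w (n : K) ≤ tt_h12 ((n + 1 : ℝ) ^ 2) w := by
  have h := nv_comb_h12 w (Finset.range n) (fun _ => (1 : K)) 1 zero_le_one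
    (fun i _ => (nv_one w).le)
  simpa using h

private theorem finS_abs_h12 (a : K) : FinS (fun w : Pl K => |Real.log (nv w a)|) := by
  by_cases ha : a = 0
  · have h : (fun w : Pl K => |Real.log (nv w a)|) = fun _ => 0 := by
      funext w
      rw [ha, nv_zero, Real.log_zero, abs_zero]
    rw [h]
    exact Pool.Agent.V2.FinS.zero
  · have h := Pool.Agent.V2.finS_nv ha
    unfold FinS at h ⊢
    refine h.subset fun v hv => ?_
    simpa using hv

private theorem nv_le_exp_h12 (w : Pl K) (a : K) : nv w a ≤ Real.exp |Real.log (nv w a)| := by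
  by_cases ha : a = 0
  · rw [ha, nv_zero]
    exact (Real.exp_pos _).le
  · have h := nv_pos w ha
    calc nv w a = Real.exp (Real.log (nv w a)) := (Real.exp_log h).symm
      _ ≤ _ := Real.exp_le_exp.mpr (le_abs_self _)

end

private theorem tt_above_h12 {k : Type*} [Field k] [NumberField k] {L : Type*} [Field L]
    [NumberField L] [Algebra k L] (N : ℝ) (ν : Pl k) (w : Pl L) (h : w ∈ above L ν) :
    tt_h12 N w = tt_h12 N ν := by
  rw [mem_above] at h
  rcases ν with ν | ν <;> rcases w with w | w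
  · rfl
  · exact absurd h id
  · exact absurd h id
  · rfl

private theorem loc_coeff_h12 (k : Type u) [Field k] [NumberField k] (κ : Type) [Fintype κ]
    (r : ℕ) (γ : κ →₀ ℕ) :
    ∃ C : Pl k → ℝ, FinS C ∧ (∀ ν, 0 ≤ C ν) ∧ ∀ (L : Type u) [Field L] [NumberField L]
      [Algebra k L] [FiniteDimensional k L], Module.finrank k L = r → ∀ y : κ → L, ∀ ν : Pl k,
      nv ν ((chow k y).coeff γ) ≤ Real.exp (C ν) * ∏ w ∈ above L ν, vn w y := by
  classical
  obtain ⟨c, hc⟩ := interp_h12 (k := k) (κ := κ) r γ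
  -- a bound for the coordinates of the points
  obtain ⟨U, hU⟩ : ∃ U : ℕ, ∀ u ∈ c.support, ∀ j, u j ≤ U :=
    ⟨∑ u ∈ c.support, ∑ j, u j, fun u hu j =>
      (Finset.single_le_sum (f := fun j => u j) (fun _ _ => Nat.zero_le _) (Finset.mem_univ j)).trans
        (Finset.single_le_sum (f := fun u : κ → ℕ => ∑ j, u j) (fun _ _ => Nat.zero_le _) hu)⟩
  set N : ℝ := ((c.support.card : ℝ) + 1) ^ 2 with hN
  set A : ℝ := ((Finset.univ : Finset κ).card + 1 : ℝ) ^ 2 * ((U : ℝ) + 1) ^ 2 with hA
  have hN1 : 1 ≤ N := by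
    rw [hN]
    exact one_le_pow₀ (by linarith [Nat.cast_nonneg (α := ℝ) c.support.card])
  have hA1 : 1 ≤ A := by
    rw [hA]
    exact one_le_mul_of_one_le_of_one_le
      (one_le_pow₀ (by linarith [Nat.cast_nonneg (α := ℝ) (Finset.univ : Finset κ).card]))
      (one_le_pow₀ (by linarith [Nat.cast_nonneg (α := ℝ) U]))
  refine ⟨fun ν => Real.log (tt_h12 N ν) + (∑ u ∈ c.support, |Real.log (nv ν (c u))|) +
    (r : ℝ) * Real.log (tt_h12 A ν), ?_, ?_, ?_⟩
  · exact ((finS_log_tt_h12 N).add (Pool.Agent.V2.FinS.sum _ fun u _ => finS_abs_h12 (c u))).add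
      ((finS_log_tt_h12 A).const_mul _)
  · intro ν
    have h1 := Real.log_nonneg (tt_one_le_h12 hN1 ν)
    have h2 := Real.log_nonneg (tt_one_le_h12 hA1 ν)
    positivity
  · intro L _ _ _ _ hr y ν
    have hvn0 : ∀ w : Pl L, 0 ≤ vn w y := fun w => Real.iSup_nonneg fun i => nv_nonneg w _
    have hvn : ∀ (w : Pl L) (j : κ), nv w (y j) ≤ vn w y := fun w j =>
      Pool.Agent.V2.le_vn w y j
    -- the linear forms
    have hlin : ∀ u ∈ c.support, ∀ w : Pl L,
        nv w (∑ j, algebraMap k L (u j : k) * y j) ≤ tt_h12 A w * vn w y := by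
      intro u hu w
      have h1 := nv_comb_h12 w (Finset.univ : Finset κ) (fun j => algebraMap k L (u j : k) * y j)
        (tt_h12 (((U : ℝ) + 1) ^ 2) w * vn w y)
        (mul_nonneg (zero_le_one.trans (tt_one_le_h12 (one_le_pow₀
          (by linarith [Nat.cast_nonneg (α := ℝ) U])) w)) (hvn0 w)) (by
          intro j _
          rw [nv_mul, map_natCast]
          refine mul_le_mul ?_ (hvn w j) (nv_nonneg w _) ?_
          · refine (nv_nat_h12 w (u j)).trans (tt_mono_h12 ?_ w)
            have : ((u j : ℕ) : ℝ) ≤ U := by exact_mod_cast hU u hu j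
            gcongr
          · exact zero_le_one.trans (tt_one_le_h12 (one_le_pow₀
              (by linarith [Nat.cast_nonneg (α := ℝ) U])) w))
      rw [← mul_assoc, tt_mul_h12] at h1
      exact h1
    -- the norm
    have hnorm : ∀ u ∈ c.support,
        nv ν (MvPolynomial.eval (fun j => (u j : k)) (chow k y)) ≤
          tt_h12 A ν ^ r * ∏ w ∈ above L ν, vn w y := by
      intro u hu
      rw [eval_chow, Pool.Agent.Helper52.Vojta.nv_norm]
      calc ∏ w ∈ above L ν, nv w (∑ j, algebraMap k L (u j : k) * y j)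
          ≤ ∏ w ∈ above L ν, (tt_h12 A ν * vn w y) := by
            refine Finset.prod_le_prod (fun w _ => nv_nonneg w _) fun w hw => ?_
            rw [← tt_above_h12 A ν w hw]
            exact hlin u hu w
        _ = tt_h12 A ν ^ (above L ν).card * ∏ w ∈ above L ν, vn w y := by
            rw [Finset.prod_mul_distrib, Finset.prod_const]
        _ ≤ tt_h12 A ν ^ r * ∏ w ∈ above L ν, vn w y := by
            refine mul_le_mul_of_nonneg_right ?_ (Finset.prod_nonneg fun w _ => hvn0 w)
            exact pow_le_pow_right₀ (tt_one_le_h12 hA1 ν) (hr ▸ card_above_le ν)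
    -- the coefficient
    have hhom : (chow k y).IsHomogeneous r := hr ▸ chow_hom (k := k) y
    rw [hc _ hhom, Finsupp.sum]
    have hP0 : 0 ≤ ∏ w ∈ above L ν, vn w y := Finset.prod_nonneg fun w _ => hvn0 w
    have hA0 : 0 < tt_h12 A ν := zero_lt_one.trans_le (tt_one_le_h12 hA1 ν)
    have hN0 : 0 < tt_h12 N ν := zero_lt_one.trans_le (tt_one_le_h12 hN1 ν)
    have h1 := nv_comb_h12 ν c.support
      (fun u => c u * MvPolynomial.eval (fun j => (u j : k)) (chow k y))
      (Real.exp (∑ u ∈ c.support, |Real.log (nv ν (c u))|) *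
        (tt_h12 A ν ^ r * ∏ w ∈ above L ν, vn w y))
      (mul_nonneg (Real.exp_pos _).le (mul_nonneg (pow_nonneg hA0.le _) hP0)) (by
        intro u hu
        rw [nv_mul]
        refine mul_le_mul ?_ (hnorm u hu) (nv_nonneg ν _) (Real.exp_pos _).le
        refine (nv_le_exp_h12 ν (c u)).trans (Real.exp_le_exp.mpr ?_)
        exact Finset.single_le_sum (f := fun u => |Real.log (nv ν (c u))|)
          (fun _ _ => abs_nonneg _) hu)
    refine h1.trans_eq ?_
    rw [Real.exp_add, Real.exp_add, Real.exp_log hN0, mul_comm (r : ℝ), Real.exp_mul,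
      Real.exp_log hA0, Real.rpow_natCast]
    ring

theorem loc_up (k : Type u) [Field k] [NumberField k] (κ : Type) [Fintype κ] (r : ℕ) (hr : 1 ≤ r) :
    ∃ C : Pl k → ℝ, FinS C ∧ ∀ (L : Type u) [Field L] [NumberField L] [Algebra k L]
      [FiniteDimensional k L], Module.finrank k L = r → ∀ y : κ → L, (∃ j, y j ≠ 0) → ∀ ν : Pl k,
      Real.log (pn ν (chow k y)) ≤ ∑ w ∈ above L ν, Real.log (vn w y) + C ν := by
  classical
  choose C hC hC0 hmain using fun γ => loc_coeff_h12 k κ r γ
  refine ⟨fun ν => ∑ γ ∈ Finset.finsuppAntidiag (Finset.univ : Finset κ) r, C γ ν,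
    Pool.Agent.V2.FinS.sum _ fun γ _ => hC γ, ?_⟩
  intro L _ _ _ _ hfr y hy ν
  obtain ⟨j, hj⟩ := hy
  have hy0 : y ≠ 0 := fun h => hj (by rw [h]; rfl)
  have hvn : ∀ w : Pl L, 0 < vn w y := fun w => Pool.Agent.V2.vn_pos w hy0
  have hP : 0 < ∏ w ∈ above L ν, vn w y := Finset.prod_pos fun w _ => hvn w
  have hhom : (chow k y).IsHomogeneous r := hfr ▸ chow_hom (k := k) y
  have hne : chow k y ≠ 0 := chow_ne y j hj
  have hle : pn ν (chow k y) ≤
      Real.exp (∑ γ ∈ Finset.finsuppAntidiag (Finset.univ : Finset κ) r, C γ ν) *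
        ∏ w ∈ above L ν, vn w y := by
    refine Pool.Agent.V2.pn_le ν _ (mul_nonneg (Real.exp_pos _).le hP.le) fun γ => ?_
    by_cases hγ : γ ∈ Finset.finsuppAntidiag (Finset.univ : Finset κ) r
    · refine (hmain γ L hfr y ν).trans (mul_le_mul_of_nonneg_right (Real.exp_le_exp.mpr ?_) hP.le)
      exact Finset.single_le_sum (f := fun γ => C γ ν) (fun γ _ => hC0 γ ν) hγ
    · have h0 : (chow k y).coeff γ = 0 := by
        apply hhom.coeff_eq_zero
        intro hd
        apply hγ
        rw [Finset.mem_finsuppAntidiag]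
        refine ⟨?_, Finset.subset_univ _⟩
        rw [← hd, Finsupp.degree]
        exact (Finset.sum_subset (Finset.subset_univ _) fun i _ hi =>
          Finsupp.notMem_support_iff.mp hi).symm
      rw [h0, nv_zero]
      exact mul_nonneg (Real.exp_pos _).le hP.le
  have hlog := Real.log_le_log (Pool.Agent.V2.pn_pos ν hne) hle
  rw [Real.log_mul (Real.exp_pos _).ne' hP.ne', Real.log_exp,
    Real.log_prod (fun w _ => (hvn w).ne')] at hlog
  linarith

end Pool.Agent.Helper16.UP
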