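import Pool.Agent.Helper16.UP.Defs2

/-!
# Block UP-D4b: a derivation which is integral and logarithmic at `p` is logarithmic

PROOF. `x = p ^ n * u / u'` with `n : ℤ`, `u u' : A` not divisible by `p` (value 1 by `h1`, `h2`; `v p = exp (-1)`); `D (p ^ n u / u') = n p ^ (n - 1) D p u / u' + p ^ n D u / u' - p ^ n u D u' / u' ^ 2`,
each term has value `≤ v (p ^ n)` (`v (n : E) ≤ 1`). (`x = f / g` with `f g : A`, `f = p ^ a * u`, `g = p ^ b * u'`: `FiniteMultiplicity` / `WfDvdMonoid.max_power_factor`.)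
-/

namespace Pool.Agent.Helper16.UP

open IsDedekindDomain

universe u

set_option linter.overlappingInstances false in
private theorem h61_mul {E : Type*} [Field E] [Algebra ℤ E] [Module ℤ E] (v : Valuation E (WithZero (Multiplicative ℤ)))
    (D : Derivation ℤ E E) {x y : E} (hx : v (D x) ≤ v x) (hy : v (D y) ≤ v y) :
    v (D (x * y)) ≤ v (x * y) := by
  rw [Derivation.leibniz, smul_eq_mul, smul_eq_mul]
  refine v.map_add_le ?_ ?_
  · rw [map_mul, map_mul]
    exact mul_le_mul_right hy (v x)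
  · rw [map_mul, map_mul, mul_comm (v x)]
    exact mul_le_mul_right hx (v y)

set_option linter.overlappingInstances false in
private theorem h61_pow {E : Type*} [Field E] [Algebra ℤ E] [Module ℤ E] (v : Valuation E (WithZero (Multiplicative ℤ)))
    (D : Derivation ℤ E E) {x : E} (hx : v (D x) ≤ v x) (n : ℕ) :
    v (D (x ^ n)) ≤ v (x ^ n) := by
  induction n with
  | zero =>
    rw [pow_zero, Derivation.map_one_eq_zero, map_zero, map_one]
    exact zero_le
  | succ n ih => rw [pow_succ]; exact h61_mul v D ih hx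

set_option linter.overlappingInstances false in
private theorem h61_inv {E : Type*} [Field E] [Algebra ℤ E] [Module ℤ E] (v : Valuation E (WithZero (Multiplicative ℤ)))
    (D : Derivation ℤ E E) {x : E} (hx : v (D x) ≤ v x) : v (D x⁻¹) ≤ v x⁻¹ := by
  by_cases h0 : x = 0
  · rw [h0, inv_zero, map_zero, map_zero]
  rw [Derivation.leibniz_inv, smul_eq_mul, neg_mul, Valuation.map_neg, map_mul, map_pow]
  have hv : v x ≠ 0 := (Valuation.ne_zero_iff v).2 h0
  calc v x⁻¹ ^ 2 * v (D x) ≤ v x⁻¹ ^ 2 * v x := mul_le_mul_right hx _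
    _ = v x⁻¹ := by
      rw [map_inv₀, sq, mul_assoc, inv_mul_cancel₀ hv, mul_one]

theorem log_of_dvd {K : Type u} [Field K] {s : ℕ} (p : AA K s) (hp : Irreducible p)
    (v : Valuation (EE K s) (WithZero (Multiplicative ℤ)))
    (h1 : ∀ f : AA K s, v (algebraMap (AA K s) (EE K s) f) ≤ 1)
    (h2 : ∀ (n : ℕ) (f : AA K s), v (algebraMap (AA K s) (EE K s) f) ≤ WithZero.exp (-(n : ℤ)) ↔
          p ^ n ∣ f)
    (D : Derivation ℤ (EE K s) (EE K s))
    (hD : ∀ f : AA K s, v (D (algebraMap (AA K s) (EE K s) f)) ≤ 1)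
    (hp0 : v (D (algebraMap (AA K s) (EE K s) p)) ≤ v (algebraMap (AA K s) (EE K s) p))
    (x : EE K s) : v (D x) ≤ v x := by
  have hA : ∀ f : AA K s, v (D (algebraMap (AA K s) (EE K s) f)) ≤ v (algebraMap (AA K s) (EE K s) f) := by
    intro f
    by_cases hf : f = 0
    · rw [hf, map_zero, map_zero, map_zero]
    obtain ⟨n, u, hu, rfl⟩ := WfDvdMonoid.max_power_factor hf hp
    rw [map_mul, map_pow]
    refine h61_mul v D (h61_pow v D hp0 n) ?_
    have h3 : ¬ v (algebraMap (AA K s) (EE K s) u) ≤ WithZero.exp (-((1 : ℕ) : ℤ)) := by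
      rw [h2, pow_one]; exact hu
    have h4 : v (algebraMap (AA K s) (EE K s) u) = 1 := by
      refine le_antisymm (h1 u) ?_
      rw [not_le] at h3
      have h5 : v (algebraMap (AA K s) (EE K s) u) ≠ 0 := fun h => by
        rw [h] at h3
        exact absurd h3 (not_lt.2 zero_le)
      obtain ⟨k, hk⟩ : ∃ k : ℤ, v (algebraMap (AA K s) (EE K s) u) = WithZero.exp k :=
        ⟨WithZero.log (v (algebraMap (AA K s) (EE K s) u)), (WithZero.exp_log h5).symm⟩
      rw [hk] at h3 ⊢
      rw [WithZero.exp_lt_exp] at h3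
      rw [← WithZero.exp_zero, WithZero.exp_le_exp]
      push_cast at h3
      omega
    rw [h4]
    exact hD u
  obtain ⟨f, g, hg, rfl⟩ := IsFractionRing.div_surjective (A := AA K s) x
  rw [div_eq_mul_inv]
  exact h61_mul v D (hA f) (h61_inv v D (hA g))

end Pool.Agent.Helper16.UP
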