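import Pool.Agent.Helper16.UP.Defs

/-!
# Block UP-V0: the maximum norm and generic integral vectors

PROOF. Elementary: `Finset.le_sup`, `Finset.exists_mem_eq_sup`, `Finset.sup_lt_iff`; `v 0 = 0` is the bottom of `Γ₀`.
`exists_gen`: enumerate `κ` (`Fintype.equivFin`), `u_t j = t ^ (index of j)`. For fixed `b` fewer than `N = card κ` values `t : ℕ` are bad
(`v (∑ u_t j * y b j) < mx v (y b)`; `≤` holds always): if `t_1, ..., t_N` were distinct and bad, then with the Vandermonde matrix `V = (t_i ^ (index j))`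
(`Matrix.det_vandermonde`, its determinant is a nonzero integer, so it has value 1) Cramer's rule
`det V * y b j = ∑ i, (adjugate V) j i * (∑ u_{t_i} j * y b j)` (`Matrix.adjugate_mul`) gives `mx v (y b) < mx v (y b)` (the entries of the adjugate are integers, value `≤ 1`).
So the set of the `t` which are bad for some `b` is finite (`Set.Finite` from `Set.infinite` + embedding of `Fin N`; `Set.Infinite.exists_subset_card_eq`), take another one.
-/

namespace Pool.Agent.Helper16.UP

variable {κ : Type*} [Fintype κ] {M : Type*} [Field M] {Γ₀ : Type*}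
  [LinearOrderedCommGroupWithZero Γ₀] (v : Valuation M Γ₀)

theorem le_mx (x : κ → M) (j : κ) : v (x j) ≤ mx v x :=
  Finset.le_sup (f := fun j => v (x j)) (Finset.mem_univ j)

theorem mx_le (x : κ → M) (B : Γ₀) (h : ∀ j, v (x j) ≤ B) : mx v x ≤ B :=
  Finset.sup_le fun j _ => h j

theorem exists_mx [Nonempty κ] (x : κ → M) : ∃ j, v (x j) = mx v x := by
  obtain ⟨j, _, hj⟩ := Finset.exists_mem_eq_sup (Finset.univ : Finset κ) Finset.univ_nonempty
    (fun j => v (x j))
  exact ⟨j, hj.symm⟩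

private theorem mx_empty_h36 [IsEmpty κ] (x : κ → M) : mx v x = 0 := by
  unfold mx
  rw [Finset.univ_eq_empty, Finset.sup_empty]
  exact bot_eq_zero

theorem mx_smul (t : M) (x : κ → M) : mx v (fun j => t * x j) = v t * mx v x := by
  apply le_antisymm
  · refine mx_le v _ _ fun j => ?_
    rw [map_mul]
    exact mul_le_mul_right (le_mx v x j) _
  · rcases isEmpty_or_nonempty κ with h | h
    · rw [mx_empty_h36 v x, mul_zero]
      exact zero_le
    · obtain ⟨j, hj⟩ := exists_mx v x
      rw [← hj, ← map_mul]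
      exact le_mx v (fun j => t * x j) j

theorem mx_ne_zero (x : κ → M) (j : κ) (h : x j ≠ 0) : mx v x ≠ 0 := by
  have h1 : 0 < v (x j) := zero_lt_iff.2 ((Valuation.ne_zero_iff v).2 h)
  exact (lt_of_lt_of_le h1 (le_mx v x j)).ne'

theorem mx_sum_le (c x : κ → M) (hc : ∀ j, v (c j) ≤ 1) : v (∑ j, c j * x j) ≤ mx v x := by
  refine v.map_sum_le fun j _ => ?_
  rw [map_mul]
  exact (mul_le_of_le_one_left' (hc j)).trans (le_mx v x j)

private theorem val_int_h36 (hn : ∀ n : ℕ, n ≠ 0 → v (n : M) = 1) {z : ℤ} (hz : z ≠ 0) :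
    v (z : M) = 1 := by
  rcases Int.natAbs_eq z with h | h
  · rw [h, Int.cast_natCast]
    exact hn _ (Int.natAbs_ne_zero.2 hz)
  · rw [h, Int.cast_neg, Int.cast_natCast, Valuation.map_neg]
    exact hn _ (Int.natAbs_ne_zero.2 hz)

private theorem val_int_le_h36 (hn : ∀ n : ℕ, n ≠ 0 → v (n : M) = 1) (z : ℤ) :
    v (z : M) ≤ 1 := by
  by_cases hz : z = 0
  · rw [hz, Int.cast_zero, map_zero]
    exact zero_le
  · exact (val_int_h36 v hn hz).le

/-- fewer than `N` values are bad -/
private theorem bad_h36 (hn : ∀ n : ℕ, n ≠ 0 → v (n : M) = 1) {N : ℕ} (hN : 0 < N) (y : Fin N → M)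
    (τ : Fin N → ℕ) (hτ : Function.Injective τ)
    (hb : ∀ i, v (∑ k : Fin N, (τ i : M) ^ (k : ℕ) * y k) < mx v y) : False := by
  have : Nonempty (Fin N) := ⟨⟨0, hN⟩⟩
  set VZ : Matrix (Fin N) (Fin N) ℤ := Matrix.vandermonde (fun i => (τ i : ℤ)) with hVZ
  have hdet : VZ.det ≠ 0 := by
    rw [hVZ, Matrix.det_vandermonde_ne_zero_iff]
    intro a b hab
    have hab' : (τ a : ℤ) = (τ b : ℤ) := hab
    exact hτ (by exact_mod_cast hab')
  set V : Matrix (Fin N) (Fin N) M := VZ.map (Int.castRingHom M) with hV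
  have hVe : ∀ i k, V i k = (τ i : M) ^ (k : ℕ) := by
    intro i k
    simp [hV, hVZ, Matrix.vandermonde_apply]
  have hVd : V.det = (VZ.det : M) := by
    rw [hV]
    exact (RingHom.map_det (Int.castRingHom M) VZ).symm
  have hadj : ∀ a b, V.adjugate a b = ((VZ.adjugate a b : ℤ) : M) := by
    intro a b
    have h1 := RingHom.map_adjugate (Int.castRingHom M) VZ
    have h2 := congrFun (congrFun h1 a) b
    exact h2.symm
  have hmul : V.adjugate.mulVec (V.mulVec y) = V.det • y := by
    rw [Matrix.mulVec_mulVec, Matrix.adjugate_mul, Matrix.smul_mulVec, Matrix.one_mulVec]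
  have hW : ∀ i, V.mulVec y i = ∑ k : Fin N, (τ i : M) ^ (k : ℕ) * y k := by
    intro i
    show ∑ k : Fin N, V i k * y k = _
    refine Finset.sum_congr rfl fun k _ => ?_
    rw [hVe]
  obtain ⟨j, hj⟩ := exists_mx v y
  have hne : mx v y ≠ 0 := (lt_of_le_of_lt zero_le (hb ⟨0, hN⟩)).ne'
  have h1 : v (V.det • y j) < mx v y := by
    have h2 := congrFun hmul j
    rw [Pi.smul_apply] at h2
    rw [← h2]
    show v (∑ i : Fin N, V.adjugate j i * V.mulVec y i) < mx v y
    refine v.map_sum_lt hne fun i _ => ?_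
    rw [map_mul, hadj, hW]
    exact lt_of_le_of_lt (mul_le_of_le_one_left' (val_int_le_h36 v hn _)) (hb i)
  rw [smul_eq_mul, map_mul, hVd, val_int_h36 v hn hdet, one_mul, hj] at h1
  exact lt_irrefl _ h1

theorem exists_gen (hn : ∀ n : ℕ, n ≠ 0 → v (n : M) = 1) {β : Type*} [Finite β] (y : β → κ → M) :
    ∃ u : κ → ℕ, ∀ b, v (∑ j, (u j : M) * y b j) = mx v (y b) := by
  classical
  rcases isEmpty_or_nonempty κ with h | h
  · refine ⟨fun _ => 0, fun b => ?_⟩
    rw [mx_empty_h36 v (y b), Finset.univ_eq_empty, Finset.sum_empty, map_zero]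
  set e : κ ≃ Fin (Fintype.card κ) := Fintype.equivFin κ with he
  have hN : 0 < Fintype.card κ := Fintype.card_pos
  have hle : ∀ (t : ℕ) b, v (∑ j, (((t ^ (e j : ℕ) : ℕ)) : M) * y b j) ≤ mx v (y b) := fun t b =>
    mx_sum_le v _ _ fun j => by
      have := val_int_le_h36 v hn ((t ^ (e j : ℕ) : ℕ) : ℤ)
      rwa [Int.cast_natCast] at this
  have hfin : ∀ b, {t : ℕ | v (∑ j, (((t ^ (e j : ℕ) : ℕ)) : M) * y b j) ≠ mx v (y b)}.Finite := by
    intro b
    by_contra hinf
    have hinf' : {t : ℕ | v (∑ j, (((t ^ (e j : ℕ) : ℕ)) : M) * y b j) ≠ mx v (y b)}.Infinite := hinf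
    obtain ⟨s, hs, hcard⟩ := hinf'.exists_subset_card_eq (Fintype.card κ)
    let f : Fin (Fintype.card κ) ≃ s := (finCongr hcard.symm).trans s.equivFin.symm
    have hmx : mx v (fun k => y b (e.symm k)) = mx v (y b) := by
      apply le_antisymm
      · exact mx_le v _ _ fun k => le_mx v (y b) _
      · refine mx_le v _ _ fun j => ?_
        have := le_mx v (fun k => y b (e.symm k)) (e j)
        simp only [Equiv.symm_apply_apply] at this
        exact this
    refine bad_h36 v hn hN (fun k => y b (e.symm k)) (fun i => (f i : ℕ)) ?_ ?_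
    · intro a b hab
      exact f.injective (Subtype.ext hab)
    · intro i
      rw [hmx]
      have h1 := hs (f i).2
      have h2 : ∑ k : Fin (Fintype.card κ), (((f i : ℕ)) : M) ^ (k : ℕ) * y b (e.symm k) =
          ∑ j, ((((f i : ℕ) ^ (e j : ℕ) : ℕ)) : M) * y b j := by
        refine (Fintype.sum_equiv e _ _ fun j => ?_).symm
        rw [Equiv.symm_apply_apply, Nat.cast_pow]
      rw [h2]
      exact lt_of_le_of_ne (hle _ b) h1
  have hall := Set.finite_iUnion hfin
  obtain ⟨t, ht⟩ := hall.infinite_compl.nonempty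
  refine ⟨fun j => t ^ (e j : ℕ), fun b => ?_⟩
  by_contra hcon
  exact ht (Set.mem_iUnion.2 ⟨b, hcon⟩)

end Pool.Agent.Helper16.UP
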