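import Pool.Agent.Helper16.UP.Mx

/-!
# Block UP-V4: use of the Nullstellensatz

PROOF. `v (aeval y g) ≤ 1` for every `g` over `K` (all `v (y j) ≤ mx v y = 1` and the constants have value `≤ 1`). Choose `l` with `v (y l) = 1` (`exists_mx`), and `n` from
`Null φ f` for `J`. `X l ^ n` is a finite combination `∑ g_s * s` of the generators (`Submodule.span_induction`: prove that for every element `g` of the span `v (aeval y g) < 1`
if all generators have `v (aeval y s) < 1`): `1 = v (y l) ^ n`, so some generator `s` has `v (aeval y s) ≥ 1`; it is not `φ i` (value 0)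
and not `f j`, `j ∈ J` (value `< 1`), so it is `mnr φ f ρ`. `delta0`: `Null` for `J = ∅` (the `ρ` have no value in `ι`): some generator does not vanish at `x` (`x l ≠ 0`),
it is `mnr φ f ρ`; `det_id`: `aeval x (mnr ..) * Jac = det * aeval x (Del φ)`.
-/

namespace Pool.Agent.Helper16.UP

open MvPolynomial (aeval)

variable {d m : ℕ} {K M : Type*} [Field K] [Field M] [Algebra K M] {Γ₀ : Type*}
  [LinearOrderedCommGroupWithZero Γ₀] (v : Valuation M Γ₀)

theorem aeval_le_one {κ : Type*} [Fintype κ] (hK : ∀ c : K, c ≠ 0 → v (algebraMap K M c) = 1)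
    (y : κ → M) (hy : mx v y ≤ 1) (g : MvPolynomial κ K) : v (aeval y g) ≤ 1 := by
  induction g using MvPolynomial.induction_on with
  | C c =>
    rw [MvPolynomial.aeval_C]
    by_cases hc : c = 0
    · rw [hc, map_zero, map_zero]
      exact zero_le_one
    · exact (hK c hc).le
  | add p q hp hq =>
    rw [map_add]
    exact (v.map_add _ _).trans (max_le hp hq)
  | mul_X p j hp =>
    rw [map_mul, MvPolynomial.aeval_X, map_mul]
    exact mul_le_one' hp ((le_mx v y j).trans hy)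

theorem null_use {ι : Type*} (φ : Fin m → MvPolynomial (Fin (d + 1) ⊕ Fin m) K)
    (f : ι → MvPolynomial (Fin (d + 1) ⊕ Fin m) K) (hN : Null φ f)
    (hK : ∀ c : K, c ≠ 0 → v (algebraMap K M c) = 1)
    (y : Fin (d + 1) ⊕ Fin m → M) (hy : mx v y = 1) (hφ : ∀ i, aeval y (φ i) = 0) (J : Finset ι)
    (hJ : ∀ j ∈ J, v (aeval y (f j)) < 1) :
    ∃ ρ : Fin (d + 1) → ι ⊕ (Fin (d + 1) ⊕ Fin m), (∀ j ∈ J, ∃ b, ρ b = Sum.inl j) ∧
      (∀ b j, ρ b = Sum.inl j → j ∈ J) ∧ v (aeval y (mnr φ f ρ)) = 1 := by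
  by_contra hcon
  push Not at hcon
  obtain ⟨n, hn⟩ := hN J
  have : Nonempty (Fin (d + 1) ⊕ Fin m) := ⟨o0 d m⟩
  obtain ⟨l, hl⟩ := exists_mx v y
  rw [hy] at hl
  have key : ∀ g ∈ Ideal.span (Set.range φ ∪ f '' (J : Set ι) ∪
        {g | ∃ ρ : Fin (d + 1) → ι ⊕ (Fin (d + 1) ⊕ Fin m),
          (∀ j ∈ J, ∃ b, ρ b = Sum.inl j) ∧ (∀ b j, ρ b = Sum.inl j → j ∈ J) ∧ g = mnr φ f ρ}),
      v (aeval y g) < 1 := by
    intro g hg
    refine Submodule.span_induction (p := fun g _ => v (aeval y g) < 1) ?_ ?_ ?_ ?_ hg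
    · rintro s ((⟨i, rfl⟩ | ⟨j, hj, rfl⟩) | ⟨ρ, h1, h2, rfl⟩)
      · rw [hφ i, map_zero]
        exact zero_lt_one
      · exact hJ j hj
      · exact lt_of_le_of_ne (aeval_le_one v hK y hy.le _) (hcon ρ h1 h2)
    · rw [map_zero, map_zero]
      exact zero_lt_one
    · intro a b _ _ ha hb
      rw [map_add]
      exact v.map_add_lt ha hb
    · intro a b _ hb
      rw [smul_eq_mul, map_mul, map_mul]
      exact lt_of_le_of_lt (mul_le_of_le_one_left' (aeval_le_one v hK y hy.le a)) hb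
  have h1 := key _ (hn l)
  rw [map_pow, MvPolynomial.aeval_X, map_pow, hl, one_pow] at h1
  exact lt_irrefl _ h1

end Pool.Agent.Helper16.UP
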