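import Pool.Agent.Helper16.UP.Defs

/-!
# Block UP-A1: the polynomials `pen` and `pend` of a product of linear forms

PROOF. `pen o c` is (the coercion of) an `R`-algebra homomorphism `MvPolynomial κ R →ₐ[R] R[X]`, `X j ↦ (if j = o then X else 0) - C (c j)`.
`pen_lf`: `lf x ↦ ∑ j, C (x j) * ((if j = o then X else 0) - C (c j)) = C (x o) * X - C (∑ j, c j * x j)`.
`pend_lf`: `pderiv j` of a product (`Derivation.leibniz_prod` or induction), `pderiv j (lf x) = C (x j)`, `pderiv j (C a) = 0`; then `pen_lf`-like computation.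
`pend_o` (chain rule): both sides are, as functions of `F`, derivations along the algebra homomorphism `pen o c` which agree on the variables
(`MvPolynomial.induction_on` works: `C`, `+`, `* X j`).
`pen_coeff`: sum over the monomials of `F`: the coefficient of `X ^ r` in `∏ j, ((if j = o then X else 0) - C (c j)) ^ γ j` with `∑ γ = r` is `0` unless
`γ = single o r` (the degree is `≤ γ o`), and then it is 1 (`(X - C (c o)) ^ r` is monic of degree `r`).
-/

namespace Pool.Agent.Helper16.UP

open Polynomial
open Pool.Agent.Helper16.TP (mapD rd der)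

variable {κ : Type*} [Fintype κ] [DecidableEq κ] {R : Type*} [CommRing R]

private lemma pen_eq11 (o : κ) (c : κ → R) (F : MvPolynomial κ R) :
    pen o c F = MvPolynomial.aeval (fun j => (if j = o then X else 0) - C (c j)) F := rfl

private lemma pen_C11 (o : κ) (c : κ → R) (a : R) : pen o c (MvPolynomial.C a) = C a := by
  rw [pen_eq11, MvPolynomial.aeval_C]; rfl

private lemma pen_mul11 (o : κ) (c : κ → R) (F G : MvPolynomial κ R) :
    pen o c (F * G) = pen o c F * pen o c G := by
  rw [pen_eq11, map_mul]; rfl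

private lemma pen_add11 (o : κ) (c : κ → R) (F G : MvPolynomial κ R) :
    pen o c (F + G) = pen o c F + pen o c G := by
  rw [pen_eq11, map_add]; rfl

private lemma pen_X11 (o : κ) (c : κ → R) (j : κ) :
    pen o c (MvPolynomial.X j) = (if j = o then X else 0) - C (c j) := by
  rw [pen_eq11, MvPolynomial.aeval_X]

private lemma pen_one_lf11 (o : κ) (c : κ → R) (x : κ → R) (hx : x o = 1) :
    pen o c (lf x) = X - C (∑ j, c j * x j) := by
  unfold lf
  rw [pen_eq11, map_sum]
  have h1 : ∀ j, MvPolynomial.aeval (fun j => (if j = o then X else 0) - C (c j))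
      (MvPolynomial.C (x j) * MvPolynomial.X j : MvPolynomial κ R) =
      (if j = o then C (x j) * X else 0) - C (c j * x j) := by
    intro j
    rw [map_mul, MvPolynomial.aeval_C, MvPolynomial.aeval_X]
    change C (x j) * _ = _
    by_cases h : j = o
    · rw [if_pos h, if_pos h, C_mul]; ring
    · rw [if_neg h, if_neg h, C_mul]; ring
  rw [Finset.sum_congr rfl fun j _ => h1 j, Finset.sum_sub_distrib, Finset.sum_ite_eq',
    if_pos (Finset.mem_univ _), hx, C_1, one_mul, map_sum]

theorem pen_lf (o : κ) (c : κ → R) {r : ℕ} (a : R) (x : Fin r → κ → R) (hx : ∀ σ, x σ o = 1) :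
    pen o c (MvPolynomial.C a * ∏ σ, lf (x σ)) = C a * ∏ σ, (X - C (∑ j, c j * x σ j)) := by
  rw [pen_mul11, pen_C11]
  congr 1
  rw [pen_eq11, map_prod]
  refine Finset.prod_congr rfl fun σ _ => ?_
  exact pen_one_lf11 o c (x σ) (hx σ)

private lemma pderiv_lf11 (x : κ → R) (j : κ) : MvPolynomial.pderiv j (lf x) = MvPolynomial.C (x j) := by
  unfold lf
  rw [map_sum]
  have h1 : ∀ i, MvPolynomial.pderiv j (MvPolynomial.C (x i) * MvPolynomial.X i : MvPolynomial κ R) =
      if i = j then MvPolynomial.C (x i) else 0 := by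
    intro i
    rw [MvPolynomial.pderiv_C_mul, MvPolynomial.pderiv_X]
    by_cases h : i = j
    · subst h; simp
    · rw [if_neg h, Pi.single_eq_of_ne (fun h' => h h'), mul_zero]
  rw [Finset.sum_congr rfl fun i _ => h1 i, Finset.sum_ite_eq', if_pos (Finset.mem_univ _)]

private lemma pderiv_prod11 {ι : Type*} [DecidableEq ι] (s : Finset ι) (g : ι → MvPolynomial κ R) (j : κ) :
    MvPolynomial.pderiv j (∏ σ ∈ s, g σ) =
      ∑ σ ∈ s, MvPolynomial.pderiv j (g σ) * ∏ τ ∈ s.erase σ, g τ := by
  induction s using Finset.induction_on with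
  | empty => simp
  | insert a s ha ih =>
    rw [Finset.prod_insert ha, Derivation.leibniz, ih, Finset.sum_insert ha, Finset.erase_insert ha,
      smul_eq_mul, smul_eq_mul, Finset.mul_sum, add_comm]
    congr 1
    · ring
    · refine Finset.sum_congr rfl fun σ hσ => ?_
      have h1 : (insert a s).erase σ = insert a (s.erase σ) :=
        Finset.erase_insert_of_ne (fun h => ha (h ▸ hσ))
      rw [h1, Finset.prod_insert (fun h => ha (Finset.mem_of_mem_erase h))]
      ring

theorem pend_lf (o : κ) (c : κ → R) {r : ℕ} (a : R) (x : Fin r → κ → R) (hx : ∀ σ, x σ o = 1)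
    (j : κ) :
    pend o c (MvPolynomial.C a * ∏ σ, lf (x σ)) j =
      C a * ∑ σ, C (x σ j) * ∏ τ ∈ Finset.univ.erase σ, (X - C (∑ j, c j * x τ j)) := by
  unfold pend
  rw [MvPolynomial.pderiv_C_mul, pderiv_prod11]
  rw [pen_mul11, pen_C11]
  congr 1
  rw [pen_eq11, map_sum]
  refine Finset.sum_congr rfl fun σ _ => ?_
  rw [map_mul, map_prod, pderiv_lf11]
  rw [← pen_eq11, pen_C11]
  congr 1
  refine Finset.prod_congr rfl fun τ _ => ?_
  exact pen_one_lf11 o c (x τ) (hx τ)

theorem pend_o (o : κ) (c : κ → R) (F : MvPolynomial κ R) :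
    pend o c F o = derivative (pen o c F) := by
  unfold pend
  induction F using MvPolynomial.induction_on with
  | C a => rw [MvPolynomial.pderiv_C, pen_C11, derivative_C, pen_eq11, map_zero]
  | add p q hp hq => rw [map_add, pen_add11, pen_add11, hp, hq, derivative_add]
  | mul_X p j hp =>
    rw [Derivation.leibniz, smul_eq_mul, smul_eq_mul, pen_add11, pen_mul11, pen_mul11, pen_mul11,
      hp, derivative_mul, pen_X11, MvPolynomial.pderiv_X, derivative_sub, derivative_C, sub_zero]
    by_cases h : j = o
    · subst h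
      rw [Pi.single_eq_same, if_pos rfl, derivative_X]
      have h1 : pen j c 1 = 1 := by rw [pen_eq11, map_one]
      rw [h1]
      ring
    · rw [Pi.single_eq_of_ne (fun h' => h h'), if_neg h, derivative_zero]
      have h1 : pen o c 0 = 0 := by rw [pen_eq11, map_zero]
      rw [h1]
      ring

private lemma coeff_pow11 (a : R) {n r : ℕ} (h : n ≤ r) :
    ((X - C a : R[X]) ^ n).coeff r = if n = r then 1 else 0 := by
  have h1 : (X - C a : R[X]) = X + C (-a) := by rw [C_neg]; ring
  rw [h1, coeff_X_add_C_pow]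
  by_cases h2 : n = r
  · subst h2
    simp
  · rw [if_neg h2, Nat.choose_eq_zero_of_lt (by omega)]
    simp

theorem pen_coeff (o : κ) (c : κ → R) {r : ℕ} (F : MvPolynomial κ R) (hF : F.IsHomogeneous r) :
    (pen o c F).coeff r = lc r o F := by
  unfold lc
  rw [pen_eq11, MvPolynomial.aeval_def, MvPolynomial.eval₂_eq', finset_sum_coeff]
  have h1 : ∀ γ ∈ F.support, (algebraMap R R[X] (F.coeff γ) *
      ∏ j, ((if j = o then X else 0) - C (c j)) ^ γ j).coeff r =
      if γ = Finsupp.single o r then F.coeff γ else 0 := by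
    intro γ hγ
    have hs : ∑ j, γ j = r := by
      have h2 := hF (MvPolynomial.mem_support_iff.1 hγ)
      rw [Finsupp.weight_eq_sum] at h2
      simpa using h2
    have hsplit : γ o + ∑ j ∈ Finset.univ.erase o, γ j = r := by
      rw [← hs]; exact Finset.add_sum_erase _ _ (Finset.mem_univ o)
    have hle : γ o ≤ r := by omega
    have hprod : ∏ j, ((if j = o then X else 0) - C (c j) : R[X]) ^ γ j =
        (X - C (c o)) ^ γ o * C (∏ j ∈ Finset.univ.erase o, (-c j) ^ γ j) := by
      rw [← Finset.mul_prod_erase _ _ (Finset.mem_univ o), if_pos rfl, map_prod]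
      congr 1
      refine Finset.prod_congr rfl fun j hj => ?_
      rw [if_neg (Finset.ne_of_mem_erase hj), C_pow, C_neg, zero_sub]
    rw [hprod]
    change (C (F.coeff γ) * _).coeff r = _
    rw [coeff_C_mul, coeff_mul_C, coeff_pow11 _ hle]
    by_cases hγo : γ o = r
    · have hz : ∀ j ∈ Finset.univ.erase o, γ j = 0 := by
        have h3 : ∑ j ∈ Finset.univ.erase o, γ j = 0 := by omega
        exact fun j hj => Finset.sum_eq_zero_iff.1 h3 j hj
      have hγ2 : γ = Finsupp.single o r := by
        ext j
        by_cases hj : j = o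
        · subst hj; rw [Finsupp.single_eq_same]; exact hγo
        · rw [hz j (Finset.mem_erase.2 ⟨hj, Finset.mem_univ _⟩), Finsupp.single_eq_of_ne hj]
      rw [if_pos hγo, if_pos hγ2, one_mul]
      have h4 : ∏ j ∈ Finset.univ.erase o, (-c j) ^ γ j = 1 :=
        Finset.prod_eq_one fun j hj => by rw [hz j hj, pow_zero]
      rw [h4, mul_one]
    · have hγ2 : γ ≠ Finsupp.single o r := by
        rintro rfl
        exact hγo (Finsupp.single_eq_same)
      rw [if_neg hγo, if_neg hγ2, zero_mul, mul_zero]
  rw [Finset.sum_congr rfl h1, Finset.sum_ite_eq']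
  by_cases h : Finsupp.single o r ∈ F.support
  · rw [if_pos h]
  · rw [if_neg h, MvPolynomial.notMem_support_iff.1 h]

end Pool.Agent.Helper16.UP
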