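import Pool.Agent.Helper16.UP.Defs2

/-!
# Block UP-D4a: the valuation of a prime polynomial

PROOF. `R = Localization.AtPrime (Ideal.span {p})` is a discrete valuation ring (noetherian local domain, not a field, with principal maximal ideal generated by `p`;
`IsDiscreteValuationRing` via `IsDiscreteValuationRing.TFAE` or `((maximalIdeal R).IsPrincipal)`), so a Dedekind domain, with fraction field `FractionRing A` (algebra structure:
`IsLocalization.lift`/`Localization.AtPrime` inside the fraction field; or take for `R` the subring `{a / b : p ∤ b}` of the fraction field, or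
`Localization.subalgebra`). `v` = the maximal ideal. `v (f) ≤ exp (-n) ↔ f ∈ (maximal ideal) ^ n` in `R` `↔ p ^ n ∣ f` in `A`
(`HeightOneSpectrum.intValuation_le_pow_iff_mem`; if `f * b = p ^ n * c` with `p ∤ b` then `p ^ n ∣ f`, `Prime.pow_dvd_of_dvd_mul_right`). ALTERNATIVE if convenient: any construction of
such `R, v`, only the two displayed properties are used.
-/

namespace Pool.Agent.Helper16.UP

open IsDedekindDomain

universe u

theorem prime_val {K : Type u} [Field K] {s : ℕ} (p : AA K s) (hp : Irreducible p) :
    ∃ (R : Type u) (_ : CommRing R) (_ : IsDedekindDomain R) (_ : Algebra R (EE K s))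
      (_ : IsFractionRing R (EE K s)) (v : HeightOneSpectrum R),
      (∀ f : AA K s, v.valuation (EE K s) (algebraMap (AA K s) (EE K s) f) ≤ 1) ∧
      ∀ (n : ℕ) (f : AA K s),
        v.valuation (EE K s) (algebraMap (AA K s) (EE K s) f) ≤ WithZero.exp (-(n : ℤ)) ↔
          p ^ n ∣ f := by
  classical
  have hpp : Prime p := hp.prime
  have hPprime : (Ideal.span {p}).IsPrime := (Ideal.span_singleton_prime hpp.ne_zero).2 hpp
  set P : Ideal (AA K s) := Ideal.span {p} with hP
  have hS : P.primeCompl ≤ nonZeroDivisors (AA K s) := P.primeCompl_le_nonZeroDivisors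
  let R := Localization.subalgebra.ofField (EE K s) P.primeCompl hS
  have hloc : IsLocalization P.primeCompl R := Localization.subalgebra.isLocalization_ofField _ _ hS
  have hat : IsLocalization.AtPrime R P := hloc
  have hlocal : IsLocalRing R := IsLocalization.AtPrime.isLocalRing R P
  have hnoeth : IsNoetherianRing R := IsLocalization.isNoetherianRing P.primeCompl R inferInstance
  have hinj : Function.Injective (algebraMap (AA K s) R) := IsLocalization.injective R hS
  have hmax : IsLocalRing.maximalIdeal R = Ideal.span {algebraMap (AA K s) R p} := by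
    rw [← IsLocalization.AtPrime.map_eq_maximalIdeal P R, hP, Ideal.map_span, Set.image_singleton]
  have hp0 : algebraMap (AA K s) R p ≠ 0 := by
    intro h
    exact hpp.ne_zero (hinj (by rw [h, map_zero]))
  have hne : IsLocalRing.maximalIdeal R ≠ ⊥ := by
    rw [hmax]
    intro h
    rw [Ideal.span_singleton_eq_bot] at h
    exact hp0 h
  have hnf : ¬ IsField R := fun h => hne (IsLocalRing.isField_iff_maximalIdeal_eq.1 h)
  have hprin : (IsLocalRing.maximalIdeal R).IsPrincipal := ⟨⟨algebraMap (AA K s) R p, hmax⟩⟩
  have hded : IsDedekindDomain R := ((IsDiscreteValuationRing.TFAE R hnf).out 4 2).1 hprin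
  let v : HeightOneSpectrum R := ⟨IsLocalRing.maximalIdeal R, (IsLocalRing.maximalIdeal.isMaximal R).isPrime, hne⟩
  have hval : ∀ f : AA K s, v.valuation (EE K s) (algebraMap (AA K s) (EE K s) f) =
      v.intValuation (algebraMap (AA K s) R f) := by
    intro f
    rw [IsScalarTower.algebraMap_apply (AA K s) R (EE K s), HeightOneSpectrum.valuation_of_algebraMap]
  refine ⟨R, inferInstance, hded, inferInstance, inferInstance, v, fun f => ?_, fun n f => ?_⟩
  · rw [hval]
    exact v.intValuation_le_one _
  · rw [hval, HeightOneSpectrum.intValuation_le_pow_iff_mem]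
    have e : v.asIdeal ^ n = Ideal.span {algebraMap (AA K s) R (p ^ n)} := by
      show (IsLocalRing.maximalIdeal R) ^ n = _
      rw [hmax, Ideal.span_singleton_pow, map_pow]
    rw [e, Ideal.mem_span_singleton]
    constructor
    · rintro ⟨r, hr⟩
      obtain ⟨⟨a, b⟩, hab⟩ := IsLocalization.surj P.primeCompl r
      have h1 : f * (b : AA K s) = p ^ n * a := by
        apply hinj
        rw [map_mul, map_mul, hr, mul_assoc, hab]
      have hb : ¬ p ∣ (b : AA K s) := by
        intro h
        exact b.2 (Ideal.mem_span_singleton.2 h)
      exact hpp.pow_dvd_of_dvd_mul_right n hb ⟨a, h1⟩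
    · intro h
      exact map_dvd _ h

end Pool.Agent.Helper16.UP
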