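import Pool.Agent.Helper16.UP.Prime
import Pool.Agent.Helper16.UP.Ext
import Pool.Agent.Helper16.UP.LocM
import Pool.Agent.Helper16.UP.Delta0
import Pool.Agent.Helper16.UP.DV2

/-!
# Block UP-D4: the polynomial `Ψ`

PROOF. `A = AA K s`, `E = EE K s`. Let `g` be the left side and `f` the right side. `g ≠ 0`: in a finite extension `M` of `E` with the points `y σ` (`fin_ext`, `dec_descend`), derivations `D i` of `M` which
extend `der (lam i)` (`exists_frac_der` in TP/FracDer.lean and `h53_exists_ext` in TP/FF.lean), `Theta = rd ^ (2 d + 1) ∏ Jac (y σ)` (`Theta_map`, `Theta_eq`), so all `Jac (y σ) ≠ 0`, so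
`Del (y σ) ≠ 0` (`delta0`) and `rs (Del) = rd ^ _ * ∏ Del (y σ) ≠ 0` (`rs_map`, `rs_eq`). `lc ≠ 0` because `rdp ≠ 0` (`F` is the product with leading coefficient `lc`; `lc = 0` gives `F = 0`).
By `dvd_of_val` it suffices, for every irreducible `p` and `v` from `prime_val`, that `v f ≤ v g` (then `p ^ n ∣ g → p ^ n ∣ f`). `dv2` for `M`: `v'`.
`D i` of `E` maps `A` into `A`. If `p ∣ D i p` for all `i` put `D' = D`, `i0` any index (`1 ≤ d`). Otherwise choose `i0` with `¬ p ∣ D i0 p` (value 1) and put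
`D' i = D i - (D i p / D i0 p) • D i0` for `i ≠ i0`, `D' i0 = D i0` (on `E` and on `M`). For `i ≠ i0` `D' i` is logarithmic on `E` (`log_of_dvd`: `v (D' i f) ≤ 1` for `f : A`, `D' i p = 0` or `p ∣ D i p`),
hence on `M` (`dv2`). `Jac D (y σ) = Jac D' (y σ)` (column operations). `locM` with `D'`, `a0 = lc`: its hypotheses: `F.map ψ = C a0 * ∏ lf (y σ)` has coefficients in `A`, so
`v' (D' i0 (coefficient)) ≤ 1`; `v' a0 * ∏ mx v' (y σ) = 1` by `gauss_le`, `gauss_ge` (all coefficients of `F` have value `≤ 1`, one of them is not divisible by `p`, value 1).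
Result: `v' (lc ^ (d + 1 + m) * rdp_c * ∏ Jac D') ≤ v' (lc ^ (∑ a + 1) * ∏ Del)`. Multiply by `v' (rdp_{c0}) ^ (2 d + 1 + ∑ (a i - 1))`, `Theta_eq`, `rs_eq`.
To pass between `v'` on `M` and `v` on `E`: the property of `dv2`; the value of a constant is 1.
-/

namespace Pool.Agent.Helper16.UP

open MvPolynomial (aeval)
open Pool.Agent.Helper16.TP (der)

universe u

open Pool.Agent.Helper16.TP (exists_frac_der h53_exists_ext dv2)

/-- derivations of a field (with the instances of a field) -/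
private abbrev DerF60 (E : Type u) [Field E] := Derivation ℤ E E

private lemma sub_smul_app60 {E : Type u} [Field E] (D D0 : DerF60 E) (t x : E) :
    (D - t • D0) x = D x - t * D0 x := by
  rw [Derivation.sub_apply, Derivation.smul_apply, smul_eq_mul]

private lemma exists_conv_gen60 {E : Type u} [Field E] (D : DerF60 E) (inst : Algebra ℤ E) :
    ∃ D' : @Derivation ℤ E E _ _ _ inst _ _, ∀ x, D' x = D x := by
  obtain rfl : inst = Ring.toIntAlgebra E := Subsingleton.elim _ _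
  exact ⟨D, fun _ => rfl⟩

private lemma exists_conv60 {K : Type u} [Field K] {s : ℕ} (D : DerF60 (EE K s)) :
    ∃ D' : Derivation ℤ (EE K s) (EE K s), ∀ x, D' x = D x :=
  exists_conv_gen60 D _

/-- column operations do not change `Jac` -/
private lemma jac_col60 {d m : ℕ} {M : Type*} [Field M] (D D' : Fin d → M → M) (i0 : Fin d)
    (t : Fin d → M) (ht : t i0 = 0) (hD : ∀ i x, D' i x = D i x - t i * D i0 x)
    (x : Fin (d + 1) ⊕ Fin m → M) : Jac D' x = Jac D x := by
  unfold Jac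
  rw [← Matrix.det_transpose, ← Matrix.det_transpose (Matrix.of fun a i : Fin (d + 1) =>
    (Fin.cons (x (Sum.inl a)) (fun i => D i (x (Sum.inl a))) : Fin (d + 1) → M) i)]
  refine Matrix.det_eq_of_forall_row_eq_smul_add_const
    (Fin.cons 0 (fun i => -t i) : Fin (d + 1) → M) (Fin.succ i0) ?_ ?_
  · rw [Fin.cons_succ, ht, neg_zero]
  · intro i j
    rw [Matrix.transpose_apply, Matrix.transpose_apply, Matrix.transpose_apply, Matrix.of_apply,
      Matrix.of_apply, Matrix.of_apply]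
    refine Fin.cases ?_ (fun i => ?_) i
    · simp only [Fin.cons_zero]
      ring
    · simp only [Fin.cons_succ]
      rw [hD]
      ring

private lemma exp_lt60 {x : WithZero (Multiplicative ℤ)} (h : ¬ x ≤ WithZero.exp (-1)) : 1 ≤ x := by
  have hx : x ≠ 0 := by
    rintro rfl
    exact h zero_le
  obtain ⟨n, rfl⟩ : ∃ n : ℤ, x = WithZero.exp n := ⟨WithZero.log x, (WithZero.exp_log hx).symm⟩
  rw [WithZero.exp_le_exp] at h
  rw [← WithZero.exp_zero, WithZero.exp_le_exp]
  omega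

private lemma rdp_zero60 {κ : Type*} [Fintype κ] [DecidableEq κ] {R : Type*} [CommRing R]
    {r : ℕ} (hr : 1 ≤ r) (o : κ) (c : κ → R) : rdp r o c 0 = 0 := by
  have h : pen o c (0 : MvPolynomial κ R) = 0 := by
    unfold pen
    rw [map_zero]
  unfold rdp Pool.Agent.Helper16.TP.rd
  rw [h, Polynomial.derivative_zero, Polynomial.resultant_zero_zero, zero_pow (by omega)]

/-- the choice of the derivations: after subtracting multiples of `D i0` all other derivations are
logarithmic -/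
private lemma choose_der60 {K : Type u} [Field K] [CharZero K] {s d : ℕ} (hd : 1 ≤ d)
    (lam : Fin d → Fin s → K) (p : AA K s) (hp : Irreducible p)
    (v : Valuation (EE K s) (WithZero (Multiplicative ℤ)))
    (h1 : ∀ f : AA K s, v (algebraMap (AA K s) (EE K s) f) ≤ 1)
    (h2 : ∀ (n : ℕ) (f : AA K s), v (algebraMap (AA K s) (EE K s) f) ≤ WithZero.exp (-(n : ℤ)) ↔
          p ^ n ∣ f)
    (D : Fin d → DerF60 (EE K s))
    (hD : ∀ i (f : AA K s), D i (algebraMap (AA K s) (EE K s) f) =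
      algebraMap (AA K s) (EE K s) (der (lam i) f)) :
    ∃ (i0 : Fin d) (t : Fin d → EE K s), t i0 = 0 ∧
      ∀ i, i ≠ i0 → ∀ x, v ((D i - t i • D i0) x) ≤ v x := by
  by_cases hall : ∀ i, p ∣ der (lam i) p
  · refine ⟨⟨0, hd⟩, fun _ => 0, rfl, fun i _ x => ?_⟩
    rw [zero_smul, sub_zero]
    obtain ⟨D', hD'⟩ := exists_conv60 (D i)
    rw [← hD']
    refine log_of_dvd p hp v h1 h2 D' (fun f => ?_) ?_ x
    · rw [hD', hD]
      exact h1 _
    · rw [hD', hD]
      obtain ⟨q, hq⟩ := hall i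
      rw [hq, map_mul, map_mul]
      calc v (algebraMap (AA K s) (EE K s) p) * v (algebraMap (AA K s) (EE K s) q)
          ≤ v (algebraMap (AA K s) (EE K s) p) * 1 := mul_le_mul_right (h1 q) _
        _ = _ := mul_one _
  · push Not at hall
    obtain ⟨i0, hi0⟩ := hall
    have hv0 : v (D i0 (algebraMap (AA K s) (EE K s) p)) = 1 := by
      rw [hD]
      refine le_antisymm (h1 _) (exp_lt60 ?_)
      intro h
      apply hi0
      have := (h2 1 (der (lam i0) p)).1 (by simpa using h)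
      rwa [pow_one] at this
    have hne : D i0 (algebraMap (AA K s) (EE K s) p) ≠ 0 := by
      intro h
      rw [h, map_zero] at hv0
      exact zero_ne_one hv0
    classical
    refine ⟨i0, fun i => if i = i0 then 0 else D i (algebraMap (AA K s) (EE K s) p) /
      D i0 (algebraMap (AA K s) (EE K s) p), if_pos rfl, fun i hi x => ?_⟩
    simp only [if_neg hi]
    have ht : v (D i (algebraMap (AA K s) (EE K s) p) /
        D i0 (algebraMap (AA K s) (EE K s) p)) ≤ 1 := by
      rw [map_div₀, hv0, div_one, hD]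
      exact h1 _
    obtain ⟨D', hD'⟩ := exists_conv60 (D i - (D i (algebraMap (AA K s) (EE K s) p) /
      D i0 (algebraMap (AA K s) (EE K s) p)) • D i0)
    rw [← hD']
    refine log_of_dvd p hp v h1 h2 D' (fun f => ?_) ?_ x
    · rw [hD', sub_smul_app60]
      refine (v.map_sub _ _).trans (max_le ?_ ?_)
      · rw [hD]
        exact h1 _
      · rw [map_mul]
        refine mul_le_one' ht ?_
        rw [hD]
        exact h1 _
    · rw [hD', sub_smul_app60, div_mul_cancel₀ _ hne, sub_self, map_zero]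
      exact zero_le

private lemma val_one60 {K : Type u} [Field K] {s : ℕ}
    (v : Valuation (EE K s) (WithZero (Multiplicative ℤ)))
    (h1 : ∀ f : AA K s, v (algebraMap (AA K s) (EE K s) f) ≤ 1) (c : K) (hc : c ≠ 0) :
    v (algebraMap (AA K s) (EE K s) (MvPolynomial.C c)) = 1 := by
  refine le_antisymm (h1 _) ?_
  have h2 : v (algebraMap (AA K s) (EE K s) (MvPolynomial.C c)) *
      v (algebraMap (AA K s) (EE K s) (MvPolynomial.C c⁻¹)) = 1 := by
    rw [← map_mul, ← map_mul, ← map_mul, mul_inv_cancel₀ hc, map_one, map_one, map_one]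
  calc (1 : WithZero (Multiplicative ℤ)) = _ := h2.symm
    _ ≤ v (algebraMap (AA K s) (EE K s) (MvPolynomial.C c)) * 1 := mul_le_mul_right (h1 _) _
    _ = _ := mul_one _

private lemma psi_M60 {K : Type u} [Field K] [CharZero K] {d m s r : ℕ} (hd : 1 ≤ d) (hr : 1 ≤ r)
    {ι : Type*} (φ : Fin m → MvPolynomial (Fin (d + 1) ⊕ Fin m) K) (a : Fin m → ℕ)
    (ha : ∀ i, 1 ≤ a i)
    (hφ : ∀ i, (φ i).IsHomogeneous (a i)) (f : ι → MvPolynomial (Fin (d + 1) ⊕ Fin m) K)
    (e : ι → ℕ) (hf : ∀ j, (f j).IsHomogeneous (e j)) (hN : Null φ f)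
    (F : MvPolynomial (Fin (d + 1) ⊕ Fin m) (AA K s))
    (hprim : ∀ π : AA K s, Irreducible π → ∃ γ, ¬ π ∣ F.coeff γ)
    {M : Type u} [Field M] [Algebra K M] [Algebra (EE K s) M] [FiniteDimensional (EE K s) M]
    (hKM : ∀ c : K, algebraMap K M c =
      algebraMap (EE K s) M (algebraMap (AA K s) (EE K s) (MvPolynomial.C c)))
    (y : Fin r → Fin (d + 1) ⊕ Fin m → M)
    (hy : Dec ((algebraMap (EE K s) M).comp (algebraMap (AA K s) (EE K s))) (o0 d m) F y)
    (hφy : ∀ σ i, aeval (y σ) (φ i) = 0) (c c0 : Fin (d + 1) ⊕ Fin m → K)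
    (h0 : rdp r (o0 d m) (cA s c0) F ≠ 0) (lam : Fin d → Fin s → K)
    (hT : Theta r (cA s c0) F (fun i => der (lam i)) ≠ 0) :
    lc r (o0 d m) F ^ (∑ i, a i + 1) *
        rs r (∑ i, (a i - 1)) (o0 d m) (cA s c0) F (fA s (Del φ)) *
        rdp r (o0 d m) (cA s c0) F ^ (2 * d + 1) ≠ 0 ∧
      lc r (o0 d m) F ^ (∑ i, a i + 1) *
        rs r (∑ i, (a i - 1)) (o0 d m) (cA s c0) F (fA s (Del φ)) *
        rdp r (o0 d m) (cA s c0) F ^ (2 * d + 1) ∣
      lc r (o0 d m) F ^ (d + 1 + m) * rdp r (o0 d m) (cA s c) F *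
        Theta r (cA s c0) F (fun i => der (lam i)) *
        rdp r (o0 d m) (cA s c0) F ^ (∑ i, (a i - 1)) := by
  classical
  obtain ⟨ψ, hψdef⟩ : ∃ ψ : AA K s →+* M,
      ψ = (algebraMap (EE K s) M).comp (algebraMap (AA K s) (EE K s)) := ⟨_, rfl⟩
  rw [← hψdef] at hy
  have hψa : ∀ x, ψ x = algebraMap (EE K s) M (algebraMap (AA K s) (EE K s) x) := by
    intro x
    rw [hψdef, RingHom.comp_apply]
  have hψ : Function.Injective ψ := by
    rw [hψdef]
    exact (algebraMap (EE K s) M).injective.comp (IsFractionRing.injective (AA K s) (EE K s))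
  have hKψ : ∀ c : K, algebraMap K M c = ψ (MvPolynomial.C c) := fun c => by rw [hKM, hψa]
  have hne : ∀ x, x ≠ 0 → ψ x ≠ 0 := fun x hx h => hx (hψ (by rw [h, map_zero]))
  obtain ⟨hy1, hyF⟩ := hy
  obtain ⟨a0, ha0⟩ : ∃ a0, a0 = ψ (lc r (o0 d m) F) := ⟨_, rfl⟩
  rw [← ha0] at hyF
  have hF0 : F ≠ 0 := by
    rintro rfl
    exact h0 (rdp_zero60 hr _ _)
  have hlc : a0 ≠ 0 := by
    intro h
    rw [h, map_zero, zero_mul] at hyF
    apply hF0
    apply MvPolynomial.map_injective ψ hψ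
    rw [hyF, map_zero]
  -- the derivations
  have hDE : ∀ i, ∃ D : DerF60 (EE K s), ∀ x, D (algebraMap (AA K s) (EE K s) x) =
      algebraMap (AA K s) (EE K s) (der (lam i) x) := fun i =>
    exists_frac_der (L := EE K s) ((der (lam i)).restrictScalars ℤ)
  choose DE hDE using hDE
  have hDM : ∀ i, ∃ D : Derivation ℤ M M, ∀ x, D (algebraMap (EE K s) M x) =
      algebraMap (EE K s) M (DE i x) := fun i => h53_exists_ext (DE i)
  choose DM hDM using hDM
  have hDψ : ∀ i x, DM i (ψ x) = ψ (der (lam i) x) := by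
    intro i x
    rw [hψa, hψa, hDM, hDE]
  -- the values in `M`
  have hrdp : ∀ b : Fin (d + 1) ⊕ Fin m → K, ψ (rdp r (o0 d m) (cA s b) F) =
      rdp r (o0 d m) (fun j => ψ (MvPolynomial.C (b j)))
        (MvPolynomial.C a0 * ∏ σ, lf (y σ)) := by
    intro b
    rw [rdp_map, hyF]
  have hTh : ψ (Theta r (cA s c0) F (fun i => der (lam i))) =
      ψ (rdp r (o0 d m) (cA s c0) F) ^ (2 * d + 1) * ∏ σ, Jac (fun i => DM i) (y σ) := by
    rw [Theta_map ψ r (cA s c0) F (fun i => der (lam i)) (fun i => DM i)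
      (fun i => map_zero _) (fun i => map_zero _) hDψ, hyF,
      Theta_eq _ hr a0 hlc y hy1 DM, hrdp]
  have hrs : ψ (rs r (∑ i, (a i - 1)) (o0 d m) (cA s c0) F (fA s (Del φ))) =
      ψ (rdp r (o0 d m) (cA s c0) F) ^ (∑ i, (a i - 1)) * ∏ σ, aeval (y σ) (Del φ) := by
    have e1 : (fA s (Del φ)).map ψ = (Del φ).map (algebraMap K M) := by
      unfold fA
      rw [MvPolynomial.map_map]
      have e2 : ψ.comp MvPolynomial.C = algebraMap K M := RingHom.ext fun c => (hKψ c).symm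
      rw [e2]
    rw [rs_map, hyF, rs_eq _ _ hr a0 hlc y hy1 _ ?_, hrdp, e1]
    · congr 1
      refine Finset.prod_congr rfl fun σ _ => ?_
      rw [MvPolynomial.eval_map, MvPolynomial.aeval_def]
    · rw [e1]
      exact (Del_hom φ a hφ).map _
  have hg : ψ (lc r (o0 d m) F ^ (∑ i, a i + 1) *
        rs r (∑ i, (a i - 1)) (o0 d m) (cA s c0) F (fA s (Del φ)) *
        rdp r (o0 d m) (cA s c0) F ^ (2 * d + 1)) =
      (a0 ^ (∑ i, a i + 1) * ∏ σ, aeval (y σ) (Del φ)) *
        ψ (rdp r (o0 d m) (cA s c0) F) ^ (∑ i, (a i - 1) + (2 * d + 1)) := by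
    rw [map_mul, map_mul, map_pow, map_pow, hrs, ← ha0, pow_add]
    ring
  have hff : ψ (lc r (o0 d m) F ^ (d + 1 + m) * rdp r (o0 d m) (cA s c) F *
        Theta r (cA s c0) F (fun i => der (lam i)) *
        rdp r (o0 d m) (cA s c0) F ^ (∑ i, (a i - 1))) =
      (a0 ^ (d + 1 + m) * rdp r (o0 d m) (fun j => ψ (MvPolynomial.C (c j)))
        (MvPolynomial.C a0 * ∏ σ, lf (y σ)) * ∏ σ, Jac (fun i => DM i) (y σ)) *
        ψ (rdp r (o0 d m) (cA s c0) F) ^ (∑ i, (a i - 1) + (2 * d + 1)) := by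
    rw [map_mul, map_mul, map_mul, map_pow, map_pow, hTh, ← ha0, hrdp c, pow_add]
    ring
  have hDK : ∀ i (c : K), DM i (algebraMap K M c) = 0 := by
    intro i c
    have e1 : der (lam i) (MvPolynomial.C c) = 0 := (der (lam i)).map_algebraMap c
    rw [hKψ, hDψ, e1, map_zero]
  have hJ : ∀ σ, Jac (fun i => DM i) (y σ) ≠ 0 := by
    intro σ hσ
    apply hne _ hT
    rw [hTh, Finset.prod_eq_zero (Finset.mem_univ σ) hσ, mul_zero]
  have hg0 : lc r (o0 d m) F ^ (∑ i, a i + 1) *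
        rs r (∑ i, (a i - 1)) (o0 d m) (cA s c0) F (fA s (Del φ)) *
        rdp r (o0 d m) (cA s c0) F ^ (2 * d + 1) ≠ 0 := by
    intro h
    have h' := congrArg ψ h
    rw [hg, map_zero] at h'
    refine mul_ne_zero (mul_ne_zero (pow_ne_zero _ hlc) (Finset.prod_ne_zero_iff.2 fun σ _ => ?_))
      (pow_ne_zero _ (hne _ h0)) h'
    refine delta0 φ a hφ f e hf hN DM hDK (y σ) (o0 d m) ?_ (hφy σ) (hJ σ)
    rw [hy1]
    exact one_ne_zero
  refine ⟨hg0, dvd_of_val _ _ hg0 fun p hp n hn => ?_⟩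
  obtain ⟨R, _, _, _, _, v, h1, h2⟩ := prime_val p hp
  rw [← h2] at hn ⊢
  refine le_trans ?_ hn
  have hv1 : ∀ c : K, c ≠ 0 →
      v.valuation (EE K s) (algebraMap (AA K s) (EE K s) (MvPolynomial.C c)) = 1 :=
    val_one60 _ h1
  obtain ⟨v', hv', hlogM⟩ := dv2 (M := M) v (fun n hn => by
    have := hv1 (n : K) (by exact_mod_cast hn)
    simpa using this)
  rw [← hv', ← hψa, ← hψa, hg, hff, Valuation.map_mul, Valuation.map_mul v' (_ * _) (_ ^ _)]
  refine mul_le_mul_left ?_ _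
  have hle : ∀ x : AA K s, v' (ψ x) ≤ 1 := by
    intro x
    have := (hv' (algebraMap (AA K s) (EE K s) x) 1).2 (by rw [map_one]; exact h1 x)
    rwa [map_one, map_one, ← hψa] at this
  have hge : ∀ x : AA K s, ¬ p ∣ x → 1 ≤ v' (ψ x) := by
    intro x hx
    have h3 : 1 ≤ v.valuation (EE K s) (algebraMap (AA K s) (EE K s) x) := by
      refine exp_lt60 fun h => hx ?_
      have := (h2 1 x).1 (by simpa using h)
      rwa [pow_one] at this
    have := (hv' 1 (algebraMap (AA K s) (EE K s) x)).2 (by rw [map_one]; exact h3)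
    rwa [map_one, map_one, ← hψa] at this
  have hvK : ∀ c : K, c ≠ 0 → v' (algebraMap K M c) = 1 := by
    intro c hc
    rw [hKψ]
    refine le_antisymm (hle _) ?_
    have := (hv' 1 (algebraMap (AA K s) (EE K s) (MvPolynomial.C c))).2
      (by rw [map_one, hv1 c hc])
    rwa [map_one, map_one, ← hψa] at this
  have hvn : ∀ n : ℕ, n ≠ 0 → v' (n : M) = 1 := by
    intro n hn
    have := hvK (n : K) (by exact_mod_cast hn)
    rwa [map_natCast] at this
  obtain ⟨i0, t, ht0, hlogE⟩ := choose_der60 hd lam p hp (v.valuation (EE K s)) h1 h2 DE hDE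
  have hlog : ∀ i, i ≠ i0 → ∀ z,
      v' ((DM i - algebraMap (EE K s) M (t i) • DM i0) z) ≤ v' z := by
    intro i hi z
    refine hlogM (DE i - t i • DE i0) (hlogE i hi) _ (fun x => ?_) z
    rw [sub_smul_app60, sub_smul_app60, hDM, hDM, map_sub, map_mul]
  have hJac : ∀ σ, Jac (fun i => (DM i - algebraMap (EE K s) M (t i) • DM i0 :
      Derivation ℤ M M)) (y σ) = Jac (fun i => DM i) (y σ) := by
    intro σ
    refine jac_col60 (fun i => DM i) _ i0 (fun i => algebraMap (EE K s) M (t i)) ?_ ?_ (y σ)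
    · rw [ht0, map_zero]
    · intro i x
      rw [Derivation.sub_apply, Derivation.smul_apply, smul_eq_mul]
  have hD0 : ∀ z, (DM i0 - algebraMap (EE K s) M (t i0) • DM i0) z = DM i0 z := by
    intro z
    rw [ht0, map_zero, zero_smul, sub_zero]
  have hcoeff : ∀ γ, (MvPolynomial.C a0 * ∏ σ, lf (y σ)).coeff γ = ψ (F.coeff γ) := by
    intro γ
    rw [← hyF, MvPolynomial.coeff_map]
  have hmain := locM v' φ a ha hφ f e hf hN hvn hvK
    (fun i => DM i - algebraMap (EE K s) M (t i) • DM i0) ?_ i0 hlog hr a0 y hy1 hφy ?_ ?_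
    (fun j => ψ (MvPolynomial.C (c j))) (fun j => hle _)
  · simp only [hJac] at hmain
    exact hmain
  · intro i c
    rw [Derivation.sub_apply, Derivation.smul_apply, hDK, hDK, smul_zero, sub_zero]
  · intro γ
    rw [hcoeff, hD0, hDψ]
    exact hle _
  · refine le_antisymm ?_ ?_
    · obtain ⟨γ, hγ⟩ := gauss_ge v' hvn a0 y
      refine hγ.trans ?_
      rw [hcoeff]
      exact hle _
    · obtain ⟨γ, hγ⟩ := hprim p hp
      refine (hge _ hγ).trans ?_
      rw [← hcoeff]
      exact gauss_le v' a0 y γ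

theorem psi {K : Type u} [Field K] [CharZero K] {d m s r : ℕ} (hd : 1 ≤ d) (hr : 1 ≤ r)
    {ι : Type*} (φ : Fin m → MvPolynomial (Fin (d + 1) ⊕ Fin m) K) (a : Fin m → ℕ)
    (ha : ∀ i, 1 ≤ a i)
    (hφ : ∀ i, (φ i).IsHomogeneous (a i)) (f : ι → MvPolynomial (Fin (d + 1) ⊕ Fin m) K)
    (e : ι → ℕ) (hf : ∀ j, (f j).IsHomogeneous (e j)) (hN : Null φ f)
    (F : MvPolynomial (Fin (d + 1) ⊕ Fin m) (AA K s)) (hF : F.IsHomogeneous r)
    (hprim : ∀ π : AA K s, Irreducible π → ∃ γ, ¬ π ∣ F.coeff γ)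
    (x : Fin r → Fin (d + 1) ⊕ Fin m → EC K s)
    (hx : Dec (algebraMap (AA K s) (EC K s)) (o0 d m) F x)
    (hφx : ∀ σ i, aeval (x σ) (φ i) = 0) (c c0 : Fin (d + 1) ⊕ Fin m → K)
    (h0 : rdp r (o0 d m) (cA s c0) F ≠ 0) (lam : Fin d → Fin s → K)
    (hT : Theta r (cA s c0) F (fun i => der (lam i)) ≠ 0) :
    lc r (o0 d m) F ^ (∑ i, a i + 1) *
        rs r (∑ i, (a i - 1)) (o0 d m) (cA s c0) F (fA s (Del φ)) *
        rdp r (o0 d m) (cA s c0) F ^ (2 * d + 1) ≠ 0 ∧
      lc r (o0 d m) F ^ (∑ i, a i + 1) *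
        rs r (∑ i, (a i - 1)) (o0 d m) (cA s c0) F (fA s (Del φ)) *
        rdp r (o0 d m) (cA s c0) F ^ (2 * d + 1) ∣
      lc r (o0 d m) F ^ (d + 1 + m) * rdp r (o0 d m) (cA s c) F *
        Theta r (cA s c0) F (fun i => der (lam i)) *
        rdp r (o0 d m) (cA s c0) F ^ (∑ i, (a i - 1)) := by
  obtain ⟨M, hM, y, hy⟩ := fin_ext x
  have hx' : Dec ((algebraMap (EE K s) (EC K s)).comp (algebraMap (AA K s) (EE K s)))
      (o0 d m) F x := by
    rw [← IsScalarTower.algebraMap_eq]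
    exact hx
  have hdec := dec_descend (algebraMap (AA K s) (EE K s)) (o0 d m) F x hx' M y hy
  have hKM : ∀ c : K, algebraMap K M c =
      algebraMap (EE K s) M (algebraMap (AA K s) (EE K s) (MvPolynomial.C c)) := by
    intro c
    rfl
  refine psi_M60 hd hr φ a ha hφ f e hf hN F hprim hKM y hdec (fun σ i => ?_) c c0 h0 lam hT
  have h1 := hφx σ i
  have h2 : algebraMap M (EC K s) (aeval (y σ) (φ i)) = aeval (x σ) (φ i) := by
    rw [MvPolynomial.aeval_def, MvPolynomial.aeval_def, MvPolynomial.eval₂_comp_left]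
    congr 1
    funext j
    exact hy σ j
  rw [h1] at h2
  exact (algebraMap M (EC K s)).injective (by rw [h2, map_zero])

end Pool.Agent.Helper16.UP
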