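import Pool.Agent.Helper16.UP.Gauss

/-!
# Block UP-V8: a derivation which is integral on the coefficients of the form

PROOF. `ℓ0(x) = ∑ u0 j * x j`, with `v (ℓ0 (x σ)) = mx v (x σ)`; `y σ j = x σ j / ℓ0 (x σ)`, so `mx v (y σ) = 1`. By `exists_gen` (for the finite family of all vectors
`y σ - y τ` and `∂ (y σ)`) there is `u : κ → ℕ` with, `ℓ1(x) = ∑ u j * x j`, `v (ℓ1 (y σ - y τ)) = mx v (y σ - y τ)`, `v (ℓ1 (∂ y σ)) = mx v (∂ y σ)` for all `σ, τ`. Let `η σ = ℓ1 (y σ)`,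
`Q = aeval (fun j => C (u0 j) * X - C (u j)) F ∈ M[X]`; then `Q = a ∏ σ (ℓ0 (x σ) X - ℓ1 (x σ)) = A0 ∏ σ (X - η σ)`, `A0 = a ∏ σ ℓ0 (x σ)`, and its coefficients are integral
combinations of those of `F`, so `v (∂ (coefficient)) ≤ 1` (`Q = ∑ γ, C (coeff γ F) * (polynomial with integral coefficients)`; `∂` kills integers). Differentiating `Q (η σ) = 0`:
`Q'(η σ) ∂ (η σ) = - (mapD ∂ Q)(η σ)`, of value `≤ 1` because `v (η σ) ≤ 1` (see `hrel` in TP/RootIneq.lean). `Q'(η σ) = A0 ∏_{τ ≠ σ} (η σ - η τ)`, `v A0 = v a * ∏ mx v (x τ)`,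
`v (η σ - η τ) = mx v (y σ - y τ)`, `v (∂ (η σ)) = v (ℓ1 (∂ y σ)) = mx v (∂ y σ)`.
-/

namespace Pool.Agent.Helper16.UP

variable {κ : Type*} [Fintype κ] {M : Type*} [Field M] {Γ₀ : Type*}
  [LinearOrderedCommGroupWithZero Γ₀] (v : Valuation M Γ₀)

open Polynomial in
private theorem h93_int (hn : ∀ n : ℕ, n ≠ 0 → v (n : M) = 1) (z : ℤ) : v (z : M) ≤ 1 := by
  obtain ⟨n, rfl | rfl⟩ := z.eq_nat_or_neg
  · rcases Nat.eq_zero_or_pos n with h | h
    · rw [h]; simp
    · rw [Int.cast_natCast, hn n (by omega)]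
  · rcases Nat.eq_zero_or_pos n with h | h
    · rw [h]; simp
    · rw [Int.cast_neg, Int.cast_natCast, Valuation.map_neg, hn n (by omega)]

open Polynomial in
theorem root_der (hn : ∀ n : ℕ, n ≠ 0 → v (n : M) = 1) {r : ℕ} (a : M) (x : Fin r → κ → M)
    (hx : ∀ σ, ∃ j, x σ j ≠ 0) (D : Derivation ℤ M M)
    (hF : ∀ γ, v (D ((MvPolynomial.C a * ∏ σ, lf (x σ)).coeff γ)) ≤ 1)
    (u0 : κ → ℕ) (hu0 : ∀ σ, v (∑ j, (u0 j : M) * x σ j) = mx v (x σ)) (σ : Fin r) :
    mx v (fun j => D (x σ j / ∑ j, (u0 j : M) * x σ j)) * (v a * ∏ τ, mx v (x τ)) *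
      ∏ τ ∈ Finset.univ.erase σ, mx v (fun j => x σ j / (∑ j, (u0 j : M) * x σ j) -
        x τ j / ∑ j, (u0 j : M) * x τ j) ≤ 1 := by
  classical
  have hnn : ∀ n : ℕ, v (n : M) ≤ 1 := fun n => by
    have := h93_int v hn (n : ℤ)
    rwa [Int.cast_natCast] at this
  set L0 : Fin r → M := fun τ => ∑ j, (u0 j : M) * x τ j with hL0
  have hmx : ∀ τ, mx v (x τ) ≠ 0 := fun τ => by
    obtain ⟨j, hj⟩ := hx τ
    exact mx_ne_zero v (x τ) j hj
  have hL0v : ∀ τ, v (L0 τ) = mx v (x τ) := hu0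
  have hL0ne : ∀ τ, L0 τ ≠ 0 := fun τ h => hmx τ (by rw [← hL0v, h, map_zero])
  set y : Fin r → κ → M := fun τ j => x τ j / L0 τ with hy
  have hy1 : ∀ τ, mx v (y τ) = 1 := by
    intro τ
    have h1 : y τ = fun j => (L0 τ)⁻¹ * x τ j := by
      funext j
      rw [hy]
      simp only
      rw [div_eq_inv_mul]
    rw [h1, mx_smul, map_inv₀, hL0v, inv_mul_cancel₀ (hmx τ)]
  obtain ⟨u, hu⟩ := exists_gen v hn (β := (Fin r × Fin r) ⊕ Fin r)
    (Sum.elim (fun p j => y p.1 j - y p.2 j) (fun τ j => D (y τ j)))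
  have hu1 : ∀ τ τ', v (∑ j, (u j : M) * (y τ j - y τ' j)) = mx v (fun j => y τ j - y τ' j) :=
    fun τ τ' => hu (Sum.inl (τ, τ'))
  have hu2 : ∀ τ, v (∑ j, (u j : M) * D (y τ j)) = mx v (fun j => D (y τ j)) := fun τ => hu (Sum.inr τ)
  set η : Fin r → M := fun τ => ∑ j, (u j : M) * y τ j with hη
  have hη1 : ∀ τ τ', v (η τ - η τ') = mx v (fun j => y τ j - y τ' j) := by
    intro τ τ'
    rw [← hu1, hη]
    simp only
    rw [← Finset.sum_sub_distrib]
    congr 1
    refine Finset.sum_congr rfl fun j _ => ?_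
    ring
  have hη2 : ∀ τ, v (D (η τ)) = mx v (fun j => D (y τ j)) := by
    intro τ
    rw [← hu2, hη]
    simp only
    rw [map_sum]
    congr 1
    refine Finset.sum_congr rfl fun j _ => ?_
    rw [Derivation.leibniz, Derivation.map_natCast, smul_zero, add_zero, smul_eq_mul]
  have hη3 : ∀ τ, v (η τ) ≤ 1 := by
    intro τ
    refine (mx_sum_le v (fun j => (u j : M)) (y τ) (fun j => hnn (u j))).trans ?_
    rw [hy1]
  set F : MvPolynomial κ M := MvPolynomial.C a * ∏ σ, lf (x σ) with hF'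
  set Q : M[X] := MvPolynomial.aeval (fun j => C (u0 j : M) * X - C (u j : M)) F with hQ
  have hQ1 : Q = C (a * ∏ τ, L0 τ) * ∏ τ, (X - C (η τ)) := by
    rw [hQ, hF', map_mul, map_prod, MvPolynomial.aeval_C]
    have h1 : ∀ τ, (MvPolynomial.aeval (fun j => C (u0 j : M) * X - C (u j : M))) (lf (x τ)) = C (L0 τ) * (X - C (η τ)) := by
      intro τ
      unfold lf
      rw [map_sum]
      have h2 : ∀ j, (MvPolynomial.aeval (fun j => C (u0 j : M) * X - C (u j : M))) (MvPolynomial.C (x τ j) * MvPolynomial.X j) =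
          C ((u0 j : M) * x τ j) * X - C ((u j : M) * x τ j) := by
        intro j
        rw [map_mul, MvPolynomial.aeval_C, MvPolynomial.aeval_X]
        change C (x τ j) * _ = _
        rw [C_mul, C_mul]
        ring
      simp only [h2]
      rw [Finset.sum_sub_distrib, ← Finset.sum_mul, ← map_sum, ← map_sum, mul_sub, ← C_mul]
      congr 2
      rw [hη]
      simp only
      rw [Finset.mul_sum]
      refine Finset.sum_congr rfl fun j _ => ?_
      rw [hy]
      simp only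
      have := hL0ne τ
      field_simp
    simp only [h1]
    rw [Finset.prod_mul_distrib, C_mul, map_prod]
    change C a * _ = _
    ring
  have hQ2 : ∀ n, v (D (Q.coeff n)) ≤ 1 := by
    intro n
    have h1 : Q = ∑ γ ∈ F.support, C (F.coeff γ) * ∏ j, (C (u0 j : M) * X - C (u j : M)) ^ γ j := by
      rw [hQ, MvPolynomial.aeval_def, MvPolynomial.eval₂_eq']
      rfl
    rw [h1, finset_sum_coeff, map_sum]
    apply Valuation.map_sum_le
    intro γ _
    have h2 : ∏ j, (C (u0 j : M) * X - C (u j : M)) ^ γ j =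
        (∏ j, (C (u0 j : ℤ) * X - C (u j : ℤ)) ^ γ j).map (Int.castRingHom M) := by
      rw [Polynomial.map_prod]
      refine Finset.prod_congr rfl fun j _ => ?_
      rw [Polynomial.map_pow, Polynomial.map_sub, Polynomial.map_mul, map_C, map_C, map_X]
      simp
    rw [coeff_C_mul, h2, coeff_map, Derivation.leibniz, eq_intCast, Derivation.map_intCast, smul_zero, zero_add,
      smul_eq_mul, map_mul]
    exact mul_le_one' (h93_int v hn _) (hF γ)
  -- the derivative of `Q` at `η σ`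
  have hder : (derivative Q).eval (η σ) = (a * ∏ τ, L0 τ) * ∏ τ ∈ Finset.univ.erase σ, (η σ - η τ) := by
    rw [hQ1, ← Finset.mul_prod_erase Finset.univ (fun τ => X - C (η τ)) (Finset.mem_univ σ)]
    simp only [derivative_mul, derivative_C, derivative_sub, derivative_X, zero_mul, zero_add, sub_zero, one_mul, eval_mul,
      eval_C, eval_add, eval_sub, eval_X, sub_self, eval_prod, add_zero]
  have hroot : Q.eval (η σ) = 0 := by
    have h0 : ∏ τ, eval (η σ) (X - C (η τ)) = 0 := Finset.prod_eq_zero (Finset.mem_univ σ) (by simp)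
    rw [hQ1, eval_mul, eval_prod, h0, mul_zero]
  have hrel : (∑ i ∈ Finset.range (Q.natDegree + 1), D (Q.coeff i) * (η σ) ^ i) + (derivative Q).eval (η σ) * D (η σ) = 0 := by
    have h3 : (derivative Q).eval (η σ) = ∑ i ∈ Finset.range (Q.natDegree + 1), Q.coeff i * (i * (η σ) ^ (i - 1)) := by
      rw [derivative_eval, sum_over_range' _ (fun n => by simp) _ (Nat.lt_succ_self _)]
      apply Finset.sum_congr rfl
      intro i _
      ring
    have h4 : D (Q.eval (η σ)) = 0 := by rw [hroot, map_zero]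
    have h6 : D (Q.eval (η σ)) = ∑ i ∈ Finset.range (Q.natDegree + 1), D (Q.coeff i * (η σ) ^ i) := by
      rw [eval_eq_sum_range, map_sum]
    rw [← h4, h6, h3, Finset.sum_mul, ← Finset.sum_add_distrib]
    apply Finset.sum_congr rfl
    intro i _
    rw [Derivation.leibniz, Derivation.leibniz_pow]
    simp only [smul_eq_mul, nsmul_eq_mul]
    ring
  have hfin : v ((derivative Q).eval (η σ) * D (η σ)) ≤ 1 := by
    have h5 : (derivative Q).eval (η σ) * D (η σ) = -(∑ i ∈ Finset.range (Q.natDegree + 1), D (Q.coeff i) * (η σ) ^ i) :=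
      eq_neg_of_add_eq_zero_right hrel
    rw [h5, Valuation.map_neg]
    apply Valuation.map_sum_le
    intro i _
    rw [map_mul, map_pow]
    exact mul_le_one' (hQ2 i) (pow_le_one' (hη3 σ) i)
  rw [map_mul, hder, map_mul, map_mul, map_prod, map_prod, hη2] at hfin
  have e1 : ∏ τ, v (L0 τ) = ∏ τ, mx v (x τ) := Finset.prod_congr rfl fun τ _ => hL0v τ
  have e2 : ∏ τ ∈ Finset.univ.erase σ, v (η σ - η τ) = ∏ τ ∈ Finset.univ.erase σ, mx v (fun j => y σ j - y τ j) :=
    Finset.prod_congr rfl fun τ _ => hη1 σ τ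
  rw [e1, e2] at hfin
  calc _ = v a * (∏ τ, mx v (x τ)) * (∏ τ ∈ Finset.univ.erase σ, mx v (fun j => y σ j - y τ j)) * mx v (fun j => D (y σ j)) := by
        rw [mul_assoc (mx v _), mul_comm]
    _ ≤ 1 := hfin

end Pool.Agent.Helper16.UP
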