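import Pool.Agent.Helper16.UP.NullUse
import Pool.Agent.Helper16.UP.ThetaVal
import Pool.Agent.Helper16.UP.DetId

/-!
# Block UP-V5: logarithmic derivations and normal crossings (one point)

PROOF. Choose `l` with `v (x l) = mx v x ≠ 0`, `y j = (x l)⁻¹ * x j`; `mx v y = 1`, `φ i (y) = 0` (homogeneity). `J` = the `j` with `v (f_j(y)) < 1`; `null_use` gives `ρ` with
`v (mnr(y)) = 1`; `det_id`: `v (Jac D y) = v (det W') * v (Del(y))`. Every entry of row `b` of `W'` has value `≤ v (f_j(y))` if `ρ b = inl j` (`v (D z) ≤ v z`, `v (e_j) ≤ 1`),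
`≤ 1` if `ρ b = inr l`; so `v (det W') ≤ ∏ b, (row bound) ≤ ∏_{j ∈ J} v (f_j(y))` (every `j ∈ J` occurs at least once, the other factors are `≤ 1`: choose `b_j` with `ρ b_j = inl j`,
injective in `j`) `= ∏_j v (f_j(y))` (for `j ∉ J` the value is 1). Scaling back: `Jac D x = (x l) ^ (d + 1) * Jac D y` (`jac_smul`), `Del(x) = (x l) ^ (∑ (a i - 1)) * Del(y)`
(`Del_hom`), `f_j(x) = (x l) ^ (e j) * f_j(y)`; compare exponents of `mx v x = v (x l)`: left `d + 1 + ∑ a + ∑ e`, right `∑ (a i - 1) + (d + 1 + m) + ∑ e`, equal because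
`∑ (a i - 1) + m = ∑ a i` (`1 ≤ a i`).
-/

namespace Pool.Agent.Helper16.UP

open MvPolynomial (aeval)

variable {d m : ℕ} {K M : Type*} [Field K] [Field M] [Algebra K M] {Γ₀ : Type*}
  [LinearOrderedCommGroupWithZero Γ₀] (v : Valuation M Γ₀)

omit [LinearOrderedCommGroupWithZero Γ₀] in
private theorem hs53 {κ : Type*} [Fintype κ] {F : MvPolynomial κ K} {n : ℕ} (hF : F.IsHomogeneous n) (t : M) (y : κ → M) :
    aeval (fun j => t * y j) F = t ^ n * aeval y F := by
  rw [MvPolynomial.aeval_def, MvPolynomial.aeval_def, MvPolynomial.eval₂_eq', MvPolynomial.eval₂_eq', Finset.mul_sum]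
  refine Finset.sum_congr rfl fun s hs => ?_
  have h1 : Finsupp.weight 1 s = n := hF (MvPolynomial.mem_support_iff.1 hs)
  have h2 : ∑ i, s i = n := by
    rw [← Finsupp.degree_eq_sum, Finsupp.degree_eq_weight_one]
    exact h1
  have h3 : ∏ i, (t * y i) ^ s i = t ^ n * ∏ i, y i ^ s i := by
    rw [← h2, ← Finset.prod_pow_eq_pow_sum, ← Finset.prod_mul_distrib]
    exact Finset.prod_congr rfl fun i _ => mul_pow _ _ _
  rw [h3]
  ring

private theorem det53 {n : Type*} [Fintype n] [DecidableEq n] (W : Matrix n n M) (B : n → Γ₀)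
    (h : ∀ b i, v (W b i) ≤ B b) : v W.det ≤ ∏ b, B b := by
  rw [Matrix.det_apply]
  refine v.map_sum_le fun σ _ => ?_
  have h1 : v (Equiv.Perm.sign σ • ∏ i, W (σ i) i) = v (∏ i, W (σ i) i) := by
    rcases Int.units_eq_one_or (Equiv.Perm.sign σ) with h2 | h2
    · rw [h2, one_smul]
    · rw [h2, Units.neg_smul, one_smul, Valuation.map_neg]
  rw [h1, map_prod, ← Equiv.prod_comp σ B]
  exact Finset.prod_le_prod' fun i _ => h _ _

theorem val_ineq {ι : Type*} [Fintype ι] (φ : Fin m → MvPolynomial (Fin (d + 1) ⊕ Fin m) K)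
    (a : Fin m → ℕ) (ha : ∀ i, 1 ≤ a i)
    (hφ : ∀ i, (φ i).IsHomogeneous (a i)) (f : ι → MvPolynomial (Fin (d + 1) ⊕ Fin m) K)
    (e : ι → ℕ) (hf : ∀ j, (f j).IsHomogeneous (e j)) (hN : Null φ f)
    (hK : ∀ c : K, c ≠ 0 → v (algebraMap K M c) = 1) (D : Fin d → Derivation ℤ M M)
    (hD : ∀ i (c : K), D i (algebraMap K M c) = 0) (hlog : ∀ i z, v (D i z) ≤ v z)
    (x : Fin (d + 1) ⊕ Fin m → M) (l0 : Fin (d + 1) ⊕ Fin m) (hl0 : x l0 ≠ 0)
    (hx : ∀ i, aeval x (φ i) = 0) :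
    v (Jac (fun i => D i) x) * mx v x ^ (∑ i, a i + ∑ j, e j) ≤
      v (aeval x (Del φ)) * mx v x ^ (d + 1 + m) * ∏ j, v (aeval x (f j)) := by
  classical
  obtain ⟨l, hl⟩ := exists_mx v x
  have hmx : mx v x ≠ 0 := mx_ne_zero v x l0 hl0
  have hxl : x l ≠ 0 := by
    intro h0
    rw [h0, map_zero] at hl
    exact hmx hl.symm
  obtain ⟨t, ht⟩ : ∃ t, t = x l := ⟨_, rfl⟩
  have ht0 : t ≠ 0 := by rw [ht]; exact hxl
  have hvt : v t = mx v x := by rw [ht]; exact hl
  obtain ⟨y, hy⟩ : ∃ y : Fin (d + 1) ⊕ Fin m → M, y = fun j => t⁻¹ * x j := ⟨_, rfl⟩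
  have hxy : x = fun j => t * y j := by
    funext j
    rw [hy]
    show x j = t * (t⁻¹ * x j)
    rw [mul_inv_cancel_left₀ ht0]
  have hmy : mx v y = 1 := by
    rw [hy, mx_smul, map_inv₀, hvt, inv_mul_cancel₀ hmx]
  have hφy : ∀ i, aeval y (φ i) = 0 := by
    intro i
    rw [hy, hs53 (hφ i), hx, mul_zero]
  have hle1 : ∀ g : MvPolynomial (Fin (d + 1) ⊕ Fin m) K, v (aeval y g) ≤ 1 := fun g => aeval_le_one v hK y hmy.le g
  obtain ⟨J, hJ⟩ : ∃ J : Finset ι, J = Finset.univ.filter (fun j => v (aeval y (f j)) < 1) := ⟨_, rfl⟩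
  obtain ⟨ρ, hρ1, hρ2, hρ3⟩ := null_use v φ f hN hK y hmy hφy J (fun j hj => by
    rw [hJ, Finset.mem_filter] at hj
    exact hj.2)
  have hdet := det_id φ a hφ f e hf D hD y hφy ρ
  obtain ⟨W, hW⟩ : ∃ W : Matrix (Fin (d + 1)) (Fin (d + 1)) M, W = Matrix.of fun b i : Fin (d + 1) =>
        (Fin.cons (Sum.elim (fun j => (e j : M) * aeval y (f j)) y (ρ b))
          (fun i => D i (Sum.elim (fun j => aeval y (f j)) y (ρ b))) : Fin (d + 1) → M) i := ⟨_, rfl⟩
  rw [← hW] at hdet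
  have hv1 : v (Jac (fun i => D i) y) = v W.det * v (aeval y (Del φ)) := by
    have h1 := congrArg v hdet
    rw [map_mul, map_mul, hρ3, one_mul] at h1
    exact h1
  -- row bounds
  obtain ⟨B, hB⟩ : ∃ B : Fin (d + 1) → Γ₀, B = fun b => Sum.elim (fun j => v (aeval y (f j))) (fun _ => 1) (ρ b) := ⟨_, rfl⟩
  have hnat : ∀ k : ℕ, v ((k : ℕ) : M) ≤ 1 := by
    intro k
    by_cases hk : ((k : ℕ) : K) = 0
    · have : ((k : ℕ) : M) = 0 := by rw [← map_natCast (algebraMap K M), hk, map_zero]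
      rw [this, map_zero]
      exact zero_le_one
    · rw [← map_natCast (algebraMap K M), hK _ hk]
  have hWB : ∀ b i, v (W b i) ≤ B b := by
    intro b i
    rw [hW, hB]
    show v ((Fin.cons (Sum.elim (fun j => (e j : M) * aeval y (f j)) y (ρ b))
          (fun i => D i (Sum.elim (fun j => aeval y (f j)) y (ρ b))) : Fin (d + 1) → M) i) ≤
      Sum.elim (fun j => v (aeval y (f j))) (fun _ => 1) (ρ b)
    refine Fin.cases ?_ (fun i => ?_) i
    · rw [Fin.cons_zero]
      rcases ρ b with j | l'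
      · show v ((e j : M) * aeval y (f j)) ≤ v (aeval y (f j))
        rw [map_mul]
        exact mul_le_of_le_one_left' (hnat _)
      · show v (y l') ≤ 1
        rw [← hmy]
        exact le_mx v y l'
    · rw [Fin.cons_succ]
      refine (hlog i _).trans ?_
      rcases ρ b with j | l'
      · exact le_rfl
      · show v (y l') ≤ 1
        rw [← hmy]
        exact le_mx v y l'
  have hB1 : ∀ b, B b ≤ 1 := by
    intro b
    rw [hB]
    show Sum.elim (fun j => v (aeval y (f j))) (fun _ => 1) (ρ b) ≤ 1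
    rcases ρ b with j | l'
    · exact hle1 _
    · exact le_rfl
  have hprod : ∏ b, B b ≤ ∏ j, v (aeval y (f j)) := by
    have h1 : ∀ j : {j // j ∈ J}, ∃ b, ρ b = Sum.inl j.1 := fun j => hρ1 j.1 j.2
    choose b hb using h1
    have hinj : Function.Injective b := by
      intro j j' hjj
      have h2 := hb j
      rw [hjj, hb j'] at h2
      exact Subtype.ext (Sum.inl_injective h2.symm)
    have h3 : ∏ b, B b ≤ ∏ b ∈ Finset.univ.image b, B b :=
      Finset.prod_le_prod_of_subset_of_le_one' (Finset.subset_univ _) fun i _ _ => hB1 i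
    refine h3.trans (le_of_eq ?_)
    rw [Finset.prod_image (fun j _ j' _ h => hinj h)]
    have h4 : ∀ j : {j // j ∈ J}, B (b j) = v (aeval y (f j.1)) := by
      intro j
      rw [hB]
      show Sum.elim (fun j => v (aeval y (f j))) (fun _ => 1) (ρ (b j)) = _
      rw [hb j]
      rfl
    rw [Finset.prod_congr rfl fun j _ => h4 j]
    have h5 : ∏ j : {j // j ∈ J}, v (aeval y (f j.1)) = ∏ j ∈ J, v (aeval y (f j)) :=
      Finset.prod_coe_sort J fun j => v (aeval y (f j))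
    rw [h5]
    refine Finset.prod_subset (Finset.subset_univ _) fun j _ hj => ?_
    rw [hJ, Finset.mem_filter, not_and, not_lt] at hj
    exact le_antisymm (hle1 _) (hj (Finset.mem_univ _))
  have hmain : v (Jac (fun i => D i) y) ≤ v (aeval y (Del φ)) * ∏ j, v (aeval y (f j)) := by
    rw [hv1, mul_comm]
    exact mul_le_mul_right ((det53 v W B hWB).trans hprod) _
  -- scaling
  have s1 : v (Jac (fun i => D i) x) = mx v x ^ (d + 1) * v (Jac (fun i => D i) y) := by
    conv_lhs => rw [hxy]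
    rw [jac_smul, map_mul, map_pow, hvt]
  have s2 : v (aeval x (Del φ)) = mx v x ^ (∑ i, (a i - 1)) * v (aeval y (Del φ)) := by
    conv_lhs => rw [hxy]
    rw [hs53 (Del_hom φ a hφ), map_mul, map_pow, hvt]
  have s3 : ∏ j, v (aeval x (f j)) = mx v x ^ (∑ j, e j) * ∏ j, v (aeval y (f j)) := by
    rw [← Finset.prod_pow_eq_pow_sum, ← Finset.prod_mul_distrib]
    refine Finset.prod_congr rfl fun j _ => ?_
    conv_lhs => rw [hxy]
    rw [hs53 (hf j), map_mul, map_pow, hvt]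
  have hsum : ∑ i, (a i - 1) + m = ∑ i, a i := by
    have h1 : ∑ i : Fin m, (a i - 1 + 1) = ∑ i, a i := Finset.sum_congr rfl fun i _ => Nat.sub_add_cancel (ha i)
    rw [Finset.sum_add_distrib] at h1
    simpa using h1
  rw [s1, s2, s3]
  have e1 : mx v x ^ (d + 1) * v (Jac (fun i => D i) y) * mx v x ^ (∑ i, a i + ∑ j, e j) =
      mx v x ^ (d + 1 + (∑ i, a i + ∑ j, e j)) * v (Jac (fun i => D i) y) := by
    rw [pow_add _ (d + 1)]
    ac_rfl
  have e2 : mx v x ^ (∑ i, (a i - 1)) * v (aeval y (Del φ)) * mx v x ^ (d + 1 + m) *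
      (mx v x ^ (∑ j, e j) * ∏ j, v (aeval y (f j))) =
      mx v x ^ (d + 1 + (∑ i, a i + ∑ j, e j)) * (v (aeval y (Del φ)) * ∏ j, v (aeval y (f j))) := by
    have h1 : d + 1 + (∑ i, a i + ∑ j, e j) = ∑ i, (a i - 1) + (d + 1 + m) + ∑ j, e j := by omega
    have h2 : mx v x ^ (∑ i, (a i - 1) + (d + 1 + m) + ∑ j, e j) =
        mx v x ^ (∑ i, (a i - 1)) * mx v x ^ (d + 1 + m) * mx v x ^ (∑ j, e j) := by
      rw [pow_add, pow_add]
    rw [h1, h2]
    ac_rfl
  rw [e1, e2]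
  exact mul_le_mul_right hmain _

end Pool.Agent.Helper16.UP
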