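import Pool.Agent.Helper16.UP.Krull
import Pool.Agent.Helper16.UP.Defs

/-!
# Block UP-F11: the exceptional set is a proper closed subset

PROOF. Homogenise: `Q' = ∑ γ ∈ Q.support, C (coeff γ Q) * X (inl 0) ^ (D + 1 - |γ|) * ∏ b, X (inl b.succ) ^ γ b`, `D` = the total degree of `Q`, a form of degree `D + 1`. For `x (inl 0) = 1` `aeval x Q' = aeval (x ∘ inl ∘ succ) Q`.
There is `b : Fin (d + 1) → AlgebraicClosure k` with `Q'(b) ≠ 0` (only the variables `inl` occur; `b 0 = 1`, and `Q ≠ 0` has a point over an infinite field, `MvPolynomial.funext`). Consider `φ~ i (t, s) = φ i (t • b, s)`,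
a form of degree `a i` in the `m + 1` variables `t, s_1, ..., s_m`. By `exists_zero` there is a zero `(t, s) ≠ 0`. If `t = 0` then `p = (0, s)` is a point `≠ 0` with `φ(p) = 0` and all `inl` coordinates `0`, against `hno`.
So `t ≠ 0`; `p = (b, t⁻¹ s)` (`φ i` homogeneous) has `p (inl 0) = 1`, `φ i (p) = 0`, `Q'(p) = Q'(b) ≠ 0`.
-/

namespace Pool.Agent.Helper16.UP

open MvPolynomial (aeval)

universe u

private theorem zar_scale {κ : Type*} [Fintype κ] {K M : Type*} [Field K] [Field M] [Algebra K M]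
    {F : MvPolynomial κ K} {n : ℕ} (hF : F.IsHomogeneous n) (t : M) (y : κ → M) :
    aeval (fun j => t * y j) F = t ^ n * aeval y F := by
  rw [MvPolynomial.aeval_def, MvPolynomial.aeval_def, MvPolynomial.eval₂_eq',
    MvPolynomial.eval₂_eq', Finset.mul_sum]
  refine Finset.sum_congr rfl fun s hs => ?_
  have h1 : Finsupp.weight 1 s = n := hF (MvPolynomial.mem_support_iff.1 hs)
  have h2 : ∑ i, s i = n := by
    rw [← Finsupp.degree_eq_sum, Finsupp.degree_eq_weight_one]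
    exact h1
  have h3 : ∏ i, (t * y i) ^ s i = t ^ n * ∏ i, y i ^ s i := by
    rw [← h2, ← Finset.prod_pow_eq_pow_sum, ← Finset.prod_mul_distrib]
    exact Finset.prod_congr rfl fun i _ => mul_pow _ _ _
  rw [h3]
  ring

private noncomputable def zarQ {k : Type*} [Field k] {d : ℕ} (m : ℕ) (Q : MvPolynomial (Fin d) k) :
    MvPolynomial (Fin (d + 1) ⊕ Fin m) k :=
  ∑ γ ∈ Q.support, MvPolynomial.C (Q.coeff γ) *
    (MvPolynomial.X (Sum.inl 0) ^ (Q.totalDegree - ∑ b, γ b) *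
      ∏ b : Fin d, MvPolynomial.X (Sum.inl b.succ) ^ γ b)

private theorem zarQ_hom {k : Type*} [Field k] {d : ℕ} (m : ℕ) (Q : MvPolynomial (Fin d) k) :
    (zarQ m Q).IsHomogeneous Q.totalDegree := by
  unfold zarQ
  refine MvPolynomial.IsHomogeneous.sum _ _ _ fun γ hγ => ?_
  refine MvPolynomial.IsHomogeneous.C_mul ?_ _
  have h1 : ∑ b, γ b ≤ Q.totalDegree := by
    have h := MvPolynomial.le_totalDegree hγ
    rwa [Finsupp.sum_fintype _ _ (by simp)] at h
  have h2 := (MvPolynomial.isHomogeneous_X_pow (R := k) (Sum.inl 0 : Fin (d + 1) ⊕ Fin m)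
    (Q.totalDegree - ∑ b, γ b)).mul
    (MvPolynomial.IsHomogeneous.prod Finset.univ
      (fun b : Fin d => MvPolynomial.X (Sum.inl b.succ) ^ γ b) (fun b => γ b)
      fun b _ => MvPolynomial.isHomogeneous_X_pow _ _)
  rwa [Nat.sub_add_cancel h1] at h2

private theorem zarQ_aeval {k : Type*} [Field k] {d : ℕ} (m : ℕ) (Q : MvPolynomial (Fin d) k)
    {M : Type*} [Field M] [Algebra k M] (x : Fin (d + 1) ⊕ Fin m → M) (hx : x (Sum.inl 0) = 1) :
    aeval x (zarQ m Q) = aeval (fun b : Fin d => x (Sum.inl b.succ)) Q := by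
  unfold zarQ
  rw [map_sum, MvPolynomial.aeval_def (p := Q), MvPolynomial.eval₂_eq']
  refine Finset.sum_congr rfl fun γ _ => ?_
  rw [map_mul, map_mul, map_pow, map_prod, MvPolynomial.aeval_C, MvPolynomial.aeval_X, hx, one_pow,
    one_mul]
  congr 1
  exact Finset.prod_congr rfl fun b _ => by rw [map_pow, MvPolynomial.aeval_X]


private theorem zar_pt {k F : Type*} [Field k] [Field F] [Algebra k F] [IsAlgClosed F] {d m : ℕ}
    (φ : Fin m → MvPolynomial (Fin (d + 1) ⊕ Fin m) k) (a : Fin m → ℕ) (ha : ∀ i, 1 ≤ a i)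
    (hφ : ∀ i, (φ i).IsHomogeneous (a i))
    (hno : ∀ p : Fin (d + 1) ⊕ Fin m → F, (∀ i, aeval p (φ i) = 0) →
      (∀ b, p (Sum.inl b) = 0) → p = 0) (b : Fin (d + 1) → F) :
    ∃ p : Fin (d + 1) ⊕ Fin m → F, (∀ l, p (Sum.inl l) = b l) ∧ ∀ i, aeval p (φ i) = 0 := by
  obtain ⟨gl, hgl⟩ : ∃ gl : Fin (d + 1) → MvPolynomial (Fin (m + 1)) F,
      ∀ l, gl l = MvPolynomial.C (b l) * MvPolynomial.X 0 := ⟨_, fun _ => rfl⟩
  obtain ⟨gr, hgr⟩ : ∃ gr : Fin m → MvPolynomial (Fin (m + 1)) F,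
      ∀ j, gr j = MvPolynomial.X j.succ := ⟨_, fun _ => rfl⟩
  obtain ⟨g, hg0⟩ : ∃ g : Fin (d + 1) ⊕ Fin m → MvPolynomial (Fin (m + 1)) F,
      g = Sum.elim gl gr := ⟨_, rfl⟩
  have hg1 : ∀ l, g (Sum.inl l) = MvPolynomial.C (b l) * MvPolynomial.X 0 := by
    intro l
    rw [hg0, Sum.elim_inl, hgl]
  have hg2 : ∀ j : Fin m, g (Sum.inr j) = MvPolynomial.X j.succ := by
    intro j
    rw [hg0, Sum.elim_inr, hgr]
  have hg : ∀ v, (g v).IsHomogeneous 1 := by
    rintro (l | j)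
    · rw [hg1]
      exact MvPolynomial.isHomogeneous_C_mul_X _ _
    · rw [hg2]
      exact MvPolynomial.isHomogeneous_X _ _
  obtain ⟨s, hs0, hs⟩ := exists_zero (fun i => aeval g (φ i)) (fun i => 1 * a i)
    (fun i => by simpa using ha i) (fun i => (hφ i).aeval g hg)
  have hcomp : ∀ P : MvPolynomial (Fin (d + 1) ⊕ Fin m) k,
      MvPolynomial.eval s (aeval g P) = aeval (fun v => MvPolynomial.eval s (g v)) P := by
    intro P
    rw [MvPolynomial.map_aeval, MvPolynomial.aeval_def, MvPolynomial.coe_eval₂Hom]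
    congr 1
    ext r
    rw [RingHom.comp_apply, MvPolynomial.algebraMap_apply, MvPolynomial.eval_C]
  have hgs : (fun v => MvPolynomial.eval s (g v)) =
      Sum.elim (fun l => s 0 * b l) fun j : Fin m => s j.succ := by
    funext v
    rcases v with l | j
    · rw [hg1, map_mul, MvPolynomial.eval_C, MvPolynomial.eval_X, mul_comm]
      rfl
    · rw [hg2, MvPolynomial.eval_X]
      rfl
  have hval : ∀ i, aeval (Sum.elim (fun l => s 0 * b l) fun j : Fin m => s j.succ) (φ i) = 0 := by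
    intro i
    rw [← hgs, ← hcomp]
    exact hs i
  have ht : s 0 ≠ 0 := by
    intro h0
    apply hs0
    have h1 := hno _ hval (fun l => by rw [Sum.elim_inl, h0, zero_mul])
    funext i
    refine Fin.cases ?_ (fun j => ?_) i
    · exact h0
    · exact congrFun h1 (Sum.inr j)
  refine ⟨fun v => (s 0)⁻¹ * Sum.elim (fun l => s 0 * b l) (fun j : Fin m => s j.succ) v,
    fun l => ?_, fun i => ?_⟩
  · show (s 0)⁻¹ * (s 0 * b l) = b l
    rw [inv_mul_cancel_left₀ ht]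
  · rw [zar_scale (hφ i), hval, mul_zero]

private theorem zar_ex {k F : Type*} [Field k] [CharZero k] [Field F] [Algebra k F]
    [IsAlgClosed F] {d m : ℕ}
    (φ : Fin m → MvPolynomial (Fin (d + 1) ⊕ Fin m) k) (a : Fin m → ℕ) (ha : ∀ i, 1 ≤ a i)
    (hφ : ∀ i, (φ i).IsHomogeneous (a i))
    (hno : ∀ p : Fin (d + 1) ⊕ Fin m → F, (∀ i, aeval p (φ i) = 0) →
      (∀ b, p (Sum.inl b) = 0) → p = 0)
    (Q : MvPolynomial (Fin d) k) (hQ : Q ≠ 0) :
    ∃ p : Fin (d + 1) ⊕ Fin m → F, p (Sum.inl 0) = 1 ∧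
        (∀ i, aeval p (φ i) = 0) ∧ aeval p (zarQ m Q) ≠ 0 := by
  obtain ⟨b₀, hb₀⟩ : ∃ b₀ : Fin d → k, MvPolynomial.eval b₀ Q ≠ 0 := by
    by_contra h
    push Not at h
    exact hQ (MvPolynomial.funext fun x => by rw [h x, map_zero])
  obtain ⟨p, h1, h2⟩ := zar_pt φ a ha hφ hno (Fin.cons 1 fun l => algebraMap k F (b₀ l))
  have hp0 : p (Sum.inl 0) = 1 := by rw [h1, Fin.cons_zero]
  refine ⟨p, hp0, h2, ?_⟩
  rw [zarQ_aeval m Q p hp0]
  have h3 : (fun l : Fin d => p (Sum.inl l.succ)) = algebraMap k F ∘ b₀ := by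
    funext l
    rw [h1, Fin.cons_succ]
    rfl
  rw [h3, MvPolynomial.aeval_algebraMap_apply]
  exact fun h => hb₀ ((map_eq_zero _).1 h)

theorem zar {k : Type u} [Field k] [CharZero k] {d m : ℕ}
    (φ : Fin m → MvPolynomial (Fin (d + 1) ⊕ Fin m) k) (a : Fin m → ℕ) (ha : ∀ i, 1 ≤ a i)
    (hφ : ∀ i, (φ i).IsHomogeneous (a i))
    (hno : ∀ p : Fin (d + 1) ⊕ Fin m → AlgebraicClosure k, (∀ i, aeval p (φ i) = 0) →
      (∀ b, p (Sum.inl b) = 0) → p = 0)
    (Q : MvPolynomial (Fin d) k) (hQ : Q ≠ 0) :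
    ∃ (Q' : MvPolynomial (Fin (d + 1) ⊕ Fin m) k) (D : ℕ), Q'.IsHomogeneous D ∧
      (∃ p : Fin (d + 1) ⊕ Fin m → AlgebraicClosure k, p (o0 d m) = 1 ∧
        (∀ i, aeval p (φ i) = 0) ∧ aeval p Q' ≠ 0) ∧
      ∀ (M : Type u) [Field M] [Algebra k M] (x : Fin (d + 1) ⊕ Fin m → M), x (o0 d m) = 1 →
        aeval x Q' = aeval (fun b : Fin d => x (Sum.inl b.succ)) Q := by
  refine ⟨zarQ m Q, Q.totalDegree, zarQ_hom m Q, ?_, fun M _ _ x hx => zarQ_aeval m Q x hx⟩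
  exact zar_ex φ a ha hφ hno Q hQ

end Pool.Agent.Helper16.UP
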